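import Pool.Agent.Work.MP_59e60d_pr.Hitting

/-!
# Asymptotics: success with probability bounded below with budget `β n` for every `β > k / 2`
-/

namespace Pool.Agent.Work.MP_59e60d_pr

open Finset Filter Topology

theorem one_sub_ge_exp {x : ℝ} (h0 : 0 ≤ x) (h1 : x ≤ 1 / 2) : Real.exp (-(2 * x)) ≤ 1 - x := by
  have h2 : 1 ≤ Real.exp (2 * x) * (1 - x) := by
    have h3 : 2 * x + 1 ≤ Real.exp (2 * x) := Real.add_one_le_exp _
    have h4 : (2 * x + 1) * (1 - x) ≤ Real.exp (2 * x) * (1 - x) :=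
      mul_le_mul_of_nonneg_right h3 (by linarith)
    nlinarith
  have h5 : Real.exp (-(2 * x)) * Real.exp (2 * x) = 1 := by
    rw [← Real.exp_add]
    simp
  have h6 : 0 < Real.exp (-(2 * x)) := Real.exp_pos _
  calc Real.exp (-(2 * x)) = Real.exp (-(2 * x)) * 1 := by ring
    _ ≤ Real.exp (-(2 * x)) * (Real.exp (2 * x) * (1 - x)) :=
      mul_le_mul_of_nonneg_left h2 h6.le
    _ = 1 - x := by rw [← mul_assoc, h5, one_mul]

theorem choose_two_real (n : ℕ) : ((n.choose 2 : ℕ) : ℝ) = n * (n - 1) / 2 :=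
  Nat.cast_choose_two ℝ n

theorem tendsto_union_term (k : ℕ) :
    Tendsto (fun n : ℕ => (n : ℝ) * (2 ^ k * Real.exp (-((n : ℝ) - k) / 8))) atTop (𝓝 0) := by
  have h1 : Tendsto (fun x : ℝ => x ^ 1 * Real.exp (-x)) atTop (𝓝 0) :=
    Real.tendsto_pow_mul_exp_neg_atTop_nhds_zero 1
  have h2 : Tendsto (fun n : ℕ => (n : ℝ) / 8) atTop atTop :=
    tendsto_natCast_atTop_atTop.atTop_div_const (by norm_num)
  have h3 := (h1.comp h2).const_mul (8 * (2 ^ k * Real.exp ((k : ℝ) / 8)))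
  rw [mul_zero] at h3
  refine h3.congr (fun n => ?_)
  simp only [Function.comp, pow_one]
  have : Real.exp (-((n : ℝ) - k) / 8) = Real.exp ((k : ℝ) / 8) * Real.exp (-((n : ℝ) / 8)) := by
    rw [← Real.exp_add]
    congr 1
    ring
  rw [this]
  ring

/-- For every `β > k / 2` Builder has a strategy with budget at most `β n` that succeeds at the
hitting time with probability bounded away from zero. -/
theorem positive_prob (k : ℕ) (hk : 1 ≤ k) (β : ℝ) (hβ : (k : ℝ) / 2 < β) :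
    ∃ M b : ℕ → ℕ, (∀ n, (b n : ℝ) ≤ β * n) ∧ ∃ c : ℝ, 0 < c ∧ ∀ᶠ n : ℕ in atTop,
      c ≤ prob (fun σ : Order n => MinDeg k (bt k (M n) (b n) σ (tau k σ))) := by
  have hk' : (1 : ℝ) ≤ k := by exact_mod_cast hk
  set γ : ℝ := β - k / 2 with hγ
  have hγ0 : 0 < γ := by rw [hγ]; linarith
  have hβ0 : 0 < β := by
    linarith [div_nonneg (by linarith : (0 : ℝ) ≤ k) (by norm_num : (0 : ℝ) ≤ 2)]
  set δ : ℝ := min (γ / 2) (1 / 4) with hδ
  have hδ0 : 0 < δ := by
    rw [hδ]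
    apply lt_min
    · positivity
    · norm_num
  have hδ1 : δ ≤ 1 / 4 := min_le_right _ _
  have hδγ : δ ≤ γ / 2 := min_le_left _ _
  set ε : ℝ := 2 * δ / k with hε
  have hε0 : 0 < ε := by positivity
  have hkε : k * ε = 2 * δ := by
    rw [hε]
    field_simp
  have hε1 : ε ≤ 1 := by
    rw [hε, div_le_one (by linarith)]
    linarith
  set q1 : ℝ := ε ^ 2 / 2 with hq1
  have hq1pos : 0 < q1 := by rw [hq1]; positivity
  have hq1le : q1 ≤ 1 := by
    rw [hq1]
    nlinarith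
  obtain ⟨C, hC⟩ : ∃ C : ℕ, (1 - q1 / 2) ^ C < 1 / (2 * 2 ^ k) := by
    apply exists_pow_lt_of_lt_one
    · positivity
    · linarith
  refine ⟨fun n => ⌊((k : ℝ) / 2 - δ) * n⌋₊, fun n => ⌊β * n⌋₊, ?_,
    Real.exp (-(16 * C)) / 4, by positivity, ?_⟩
  · intro n
    apply Nat.floor_le
    positivity
  -- eventual conditions
  have e1 := (tendsto_union_term k).eventually (gt_mem_nhds (by norm_num : (0 : ℝ) < 1 / 2))
  have e2 : ∀ᶠ n : ℕ in atTop, (1 / 2 : ℝ) ^ n < Real.exp (-(16 * C)) / 4 :=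
    (tendsto_pow_atTop_nhds_zero_of_lt_one (by norm_num) (by norm_num)).eventually
      (gt_mem_nhds (by positivity))
  have e3 : ∀ᶠ n : ℕ in atTop, 4 / γ ≤ (n : ℝ) :=
    tendsto_natCast_atTop_atTop.eventually (eventually_ge_atTop _)
  have e4 : ∀ᶠ n : ℕ in atTop, 4 * (ε / 2 + C) / ε ^ 2 ≤ (n : ℝ) :=
    tendsto_natCast_atTop_atTop.eventually (eventually_ge_atTop _)
  have e5 : ∀ᶠ n : ℕ in atTop, 8 * (C : ℝ) + 1 ≤ (n : ℝ) :=
    tendsto_natCast_atTop_atTop.eventually (eventually_ge_atTop _)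
  filter_upwards [e1, e2, e3, e4, e5, eventually_ge_atTop (k + 16)] with n h1 h2 h3 h4 h5 h6
  have hn16 : (16 : ℝ) ≤ n := by
    have : 16 ≤ n := by omega
    exact_mod_cast this
  have hnk : (k : ℝ) + 16 ≤ n := by exact_mod_cast h6
  have hn0 : (0 : ℝ) < n := by linarith
  set N : ℕ := n.choose 2 with hN
  have hNr : (N : ℝ) = n * (n - 1) / 2 := choose_two_real n
  have hNpos : (0 : ℝ) < N := by
    rw [hNr]
    have : (0 : ℝ) < n - 1 := by linarith
    positivity
  set M : ℕ := ⌊((k : ℝ) / 2 - δ) * n⌋₊ with hM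
  have hMle : (M : ℝ) ≤ ((k : ℝ) / 2 - δ) * n := by
    apply Nat.floor_le
    have : (0 : ℝ) ≤ (k : ℝ) / 2 - δ := by linarith
    positivity
  have hMge : ((k : ℝ) / 2 - δ) * n < M + 1 := Nat.lt_floor_add_one _
  set u : ℕ := ⌊ε * n⌋₊ with hu
  set w : ℕ := N / 2 with hw
  have hwle : (w : ℝ) ≤ N / 2 := Nat.cast_div_le.trans (by norm_num)
  have hwge : (N : ℝ) / 4 ≤ w := by
    have h7 : N ≤ 2 * w + 1 := by omega
    have h8 : (N : ℝ) ≤ 2 * w + 1 := by exact_mod_cast h7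
    have h9 : (2 : ℝ) ≤ N := by rw [hNr]; nlinarith
    linarith
  have hule : (u : ℝ) ≤ ε * n := Nat.floor_le (by positivity)
  have huge : ε * n < u + 1 := Nat.lt_floor_add_one _
  have hm : ((C * n : ℕ) : ℝ) = C * n := by push_cast; ring
  have hmN : ((C * n : ℕ) : ℝ) ≤ N / 4 := by
    rw [hm, hNr]
    nlinarith
  have hble : ((⌊β * n⌋₊ : ℕ) : ℝ) ≤ β * n := by
    apply Nat.floor_le
    positivity
  have hbge : β * n < ((⌊β * n⌋₊ : ℕ) : ℝ) + 1 := Nat.lt_floor_add_one _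
  have hγn : 4 ≤ γ * n := by
    rw [div_le_iff₀ hγ0] at h3
    linarith
  have hβn : β * n = k * n / 2 + γ * n := by rw [hγ]; ring
  have hδn : δ * n ≤ γ / 2 * n := mul_le_mul_of_nonneg_right hδγ hn0.le
  have key := success_prob (n := n) k M (⌊β * n⌋₊) (C * n) u w hk (by omega)
    (by
      have h7 : ((C * n + w : ℕ) : ℝ) ≤ (N : ℝ) := by
        rw [Nat.cast_add]
        linarith
      exact_mod_cast h7)
    q1 ((n - k) / N) (N / 4) hq1le
    (by
      rw [div_le_one hNpos, hNr]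
      nlinarith)
    (by
      rw [hm]
      have h7 : (((u + 1).choose 2 : ℕ) : ℝ) = (u + 1) * u / 2 := by
        rw [choose_two_real]
        push_cast
        ring
      rw [h7]
      have h8 : ε * n * (ε * n - 1) / 2 ≤ ((u : ℝ) + 1) * u / 2 := by
        have h9 : ε * n - 1 ≤ u := by linarith
        have h10 : (0 : ℝ) ≤ u := Nat.cast_nonneg _
        by_cases h11 : 0 ≤ ε * n - 1
        · have := mul_le_mul huge.le h9 h11 (by linarith)
          linarith
        · have h12 : ε * n * (ε * n - 1) ≤ 0 :=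
            mul_nonpos_of_nonneg_of_nonpos (by positivity) (by linarith)
          have h13 : 0 ≤ ((u : ℝ) + 1) * u := by positivity
          linarith
      refine le_trans ?_ h8
      rw [hq1]
      have h9 : (N : ℝ) ≤ n ^ 2 / 2 := by
        rw [hNr]
        nlinarith
      have h10 : ε ^ 2 / 2 * N ≤ ε ^ 2 / 2 * (n ^ 2 / 2) :=
        mul_le_mul_of_nonneg_left h9 (by positivity)
      have h11 : 4 * (ε / 2 + C) ≤ n * ε ^ 2 := by
        rwa [div_le_iff₀ (by positivity)] at h4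
      have h12 : 4 * (ε / 2 + C) * n ≤ n * ε ^ 2 * n := mul_le_mul_of_nonneg_right h11 hn0.le
      nlinarith)
    (by
      rw [div_mul_cancel₀ _ hNpos.ne']
      linarith)
    (by positivity)
    (by
      rw [← hN]
      linarith)
    (by
      rw [Nat.cast_sub (by omega), Nat.cast_one, hNr]
      nlinarith)
    (by
      have h7 : ((2 * M + k * u : ℕ) : ℝ) ≤ ((k * n : ℕ) : ℝ) := by
        push_cast
        have h9 : (k : ℝ) * u ≤ 2 * δ * n := by
          calc (k : ℝ) * u ≤ k * (ε * n) := mul_le_mul_of_nonneg_left hule (by linarith)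
            _ = k * ε * n := by ring
            _ = 2 * δ * n := by rw [hkε]
        linarith
      exact_mod_cast h7)
    (by
      have h7 : ((k * n : ℕ) : ℝ) < ((M + ⌊β * n⌋₊ : ℕ) : ℝ) + 1 := by
        push_cast
        linarith
      have h8 : k * n < M + ⌊β * n⌋₊ + 1 := by exact_mod_cast h7
      omega)
  refine le_trans ?_ key
  -- the first factor
  have hx : (((n - 1 : ℕ) : ℝ)) / ((N : ℝ) / 4) = 8 / n := by
    rw [Nat.cast_sub (by omega), Nat.cast_one, hNr]
    have : (n : ℝ) - 1 ≠ 0 := by linarith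
    field_simp
    norm_num
  rw [hx]
  have hf1 : Real.exp (-(16 * C)) ≤ (1 - 8 / (n : ℝ)) ^ (C * n) := by
    have h7 : Real.exp (-(2 * (8 / n))) ≤ 1 - 8 / (n : ℝ) :=
      one_sub_ge_exp (by positivity) (by rw [div_le_iff₀ hn0]; linarith)
    have h8 : Real.exp (-(16 * C)) = Real.exp (-(2 * (8 / (n : ℝ)))) ^ (C * n) := by
      rw [← Real.exp_nat_mul]
      congr 1
      push_cast
      field_simp
      ring
    rw [h8]
    exact pow_le_pow_left₀ (Real.exp_pos _).le h7 _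
  have hf2 : (1 / 2 : ℝ) ≤ 1 - n * (2 ^ k * (1 - (n - k) / N / 2) ^ w) := by
    have h7 : (1 - ((n : ℝ) - k) / N / 2) ^ w ≤ Real.exp (-((n : ℝ) - k) / 8) := by
      have h8 : 1 - ((n : ℝ) - k) / N / 2 ≤ Real.exp (-(((n : ℝ) - k) / N / 2)) :=
        Real.one_sub_le_exp_neg _
      have h9 : 0 ≤ 1 - ((n : ℝ) - k) / N / 2 := by
        have : ((n : ℝ) - k) / N ≤ 1 := by
          rw [div_le_one hNpos, hNr]
          nlinarith
        linarith
      calc (1 - ((n : ℝ) - k) / N / 2) ^ w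
          ≤ Real.exp (-(((n : ℝ) - k) / N / 2)) ^ w := pow_le_pow_left₀ h9 h8 _
        _ = Real.exp (-((w : ℝ) * (((n : ℝ) - k) / N / 2))) := by
          rw [← Real.exp_nat_mul]
          congr 1
          ring
        _ ≤ Real.exp (-((n : ℝ) - k) / 8) := by
          apply Real.exp_le_exp.2
          have h10 : (N : ℝ) / 4 * (((n : ℝ) - k) / N / 2) ≤ (w : ℝ) * (((n : ℝ) - k) / N / 2) := by
            apply mul_le_mul_of_nonneg_right hwge
            have : (0 : ℝ) ≤ (n : ℝ) - k := by linarith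
            positivity
          have h11 : (N : ℝ) / 4 * (((n : ℝ) - k) / N / 2) = ((n : ℝ) - k) / 8 := by
            field_simp
            ring
          rw [h11] at h10
          linarith
    have h12 : (n : ℝ) * (2 ^ k * (1 - ((n : ℝ) - k) / N / 2) ^ w)
        ≤ n * (2 ^ k * Real.exp (-((n : ℝ) - k) / 8)) := by
      apply mul_le_mul_of_nonneg_left _ hn0.le
      exact mul_le_mul_of_nonneg_left h7 (by positivity)
    linarith
  have hf3 : (2 : ℝ) ^ M * (1 - q1 / 2) ^ (C * n) ≤ (1 / 2) ^ n := by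
    have hMk : M ≤ k * n := by
      have : (M : ℝ) ≤ ((k * n : ℕ) : ℝ) := by
        push_cast
        nlinarith
      exact_mod_cast this
    have h7 : (2 : ℝ) ^ M ≤ 2 ^ (k * n) := pow_le_pow_right₀ (by norm_num) hMk
    have h8 : 0 ≤ 1 - q1 / 2 := by linarith
    have h9 : (2 : ℝ) ^ k * (1 - q1 / 2) ^ C ≤ 1 / 2 := by
      have h10 : (2 : ℝ) ^ k * (1 - q1 / 2) ^ C ≤ 2 ^ k * (1 / (2 * 2 ^ k)) :=
        mul_le_mul_of_nonneg_left hC.le (by positivity)
      have h11 : (2 : ℝ) ^ k * (1 / (2 * 2 ^ k)) = 1 / 2 := by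
        field_simp
      linarith
    calc (2 : ℝ) ^ M * (1 - q1 / 2) ^ (C * n)
        ≤ 2 ^ (k * n) * (1 - q1 / 2) ^ (C * n) :=
          mul_le_mul_of_nonneg_right h7 (pow_nonneg h8 _)
      _ = (2 ^ k * (1 - q1 / 2) ^ C) ^ n := by rw [mul_pow, pow_mul, pow_mul]
      _ ≤ (1 / 2) ^ n := pow_le_pow_left₀ (by positivity) h9 _
  have hf4 : Real.exp (-(16 * C)) * (1 / 2) ≤
      (1 - 8 / (n : ℝ)) ^ (C * n) * (1 - n * (2 ^ k * (1 - (n - k) / N / 2) ^ w)) :=
    mul_le_mul hf1 hf2 (by norm_num) (le_trans (Real.exp_pos _).le hf1)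
  linarith

end Pool.Agent.Work.MP_59e60d_pr
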