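import Pool.Agent.Work.MP_59e60d_pr.MinRank

/-!
# The limit law of the degree in the nearest neighbour graph
-/

namespace Pool.Agent.Work.MP_59e60d_pr

open Finset Filter Topology

/-! ### Truncated inversion of binomial moments -/

theorem choose_pred_le (y r : ℕ) (hy : 1 ≤ y) : (y - 1).choose r ≤ y.choose (r + 1) := by
  obtain ⟨z, rfl⟩ : ∃ z, y = z + 1 := ⟨y - 1, by omega⟩
  rw [Nat.add_sub_cancel, Nat.choose_succ_succ]
  exact Nat.le_add_right _ _

/-- Truncated inclusion-exclusion for the event `x = m`. -/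
theorem inversion (x m I : ℕ) :
    |(if x = m then (1 : ℝ) else 0) - ∑ i ∈ range (I + 1),
      (-1 : ℝ) ^ i * ((m + i).choose m : ℝ) * (x.choose (m + i) : ℝ)|
      ≤ ((m + I + 1).choose m : ℝ) * (x.choose (m + I + 1) : ℝ) := by
  by_cases hlt : x < m
  · have h1 : ∑ i ∈ range (I + 1),
        (-1 : ℝ) ^ i * ((m + i).choose m : ℝ) * (x.choose (m + i) : ℝ) = 0 := by
      refine Finset.sum_eq_zero (fun i _ => ?_)
      rw [Nat.choose_eq_zero_of_lt (by omega : x < m + i)]
      simp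
    rw [h1, if_neg (by omega)]
    simp only [sub_zero, abs_zero]
    positivity
  · push Not at hlt
    obtain ⟨y, rfl⟩ : ∃ y, x = m + y := ⟨x - m, by omega⟩
    have hterm : ∀ i, (-1 : ℝ) ^ i * ((m + i).choose m : ℝ) * ((m + y).choose (m + i) : ℝ)
        = ((m + y).choose m : ℝ) * ((-1 : ℝ) ^ i * (y.choose i : ℝ)) := by
      intro i
      by_cases hi : i ≤ y
      · have h1 := Nat.choose_mul (n := m + y) (k := m + i) (s := m) (Nat.le_add_right m i)
        rw [Nat.add_sub_cancel_left, Nat.add_sub_cancel_left] at h1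
        have h2 : ((m + y).choose (m + i) : ℝ) * ((m + i).choose m : ℝ)
            = ((m + y).choose m : ℝ) * (y.choose i : ℝ) := by exact_mod_cast h1
        linear_combination (-1 : ℝ) ^ i * h2
      · rw [Nat.choose_eq_zero_of_lt (by omega : m + y < m + i),
          Nat.choose_eq_zero_of_lt (by omega : y < i)]
        simp
    simp_rw [hterm]
    rw [← Finset.mul_sum]
    rcases Nat.eq_zero_or_pos y with hy | hy
    · subst hy
      have h1 : ∑ i ∈ range (I + 1), (-1 : ℝ) ^ i * ((0 : ℕ).choose i : ℝ) = 1 := by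
        rw [Finset.sum_range_succ']
        simp
      rw [h1]
      simp only [add_zero, Nat.choose_self, Nat.cast_one, mul_one, if_true, sub_self, abs_zero]
      positivity
    · have h1 : ∑ i ∈ range (I + 1), (-1 : ℝ) ^ i * (y.choose i : ℝ)
          = (-1) ^ I * ((y - 1).choose I : ℝ) := by
        have h2 := Int.alternating_sum_range_choose_eq_choose (n := y - 1) (m := I)
        rw [Nat.sub_add_cancel hy] at h2
        exact_mod_cast h2
      rw [h1, if_neg (by omega), zero_sub, abs_neg, abs_mul, abs_mul, abs_pow, abs_neg, abs_one,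
        one_pow, one_mul, Nat.abs_cast, Nat.abs_cast]
      have h3 := choose_pred_le y I hy
      have h4 : ((m + I + 1).choose m : ℝ) * ((m + y).choose (m + I + 1) : ℝ)
          = ((m + y).choose m : ℝ) * (y.choose (I + 1) : ℝ) := by
        have h5 := hterm (I + 1)
        have h6 : (-1 : ℝ) ^ (I + 1) ≠ 0 := pow_ne_zero _ (by norm_num)
        have h7 : (-1 : ℝ) ^ (I + 1) * (((m + (I + 1)).choose m : ℝ) *
            ((m + y).choose (m + (I + 1)) : ℝ) - ((m + y).choose m : ℝ) *
            (y.choose (I + 1) : ℝ)) = 0 := by linear_combination h5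
        have h8 := (mul_eq_zero.1 h7).resolve_left h6
        have h9 : m + (I + 1) = m + I + 1 := by ring
        rw [h9] at h8
        linarith
      rw [h4]
      apply mul_le_mul_of_nonneg_left _ (by positivity)
      exact_mod_cast h3

/-- `qd d = P(N ≥ d)` for a Poisson variable `N` of mean `1`. -/
noncomputable def qd (d : ℕ) : ℝ := 1 - Real.exp (-1) * ∑ i ∈ range d, 1 / (i.factorial : ℝ)

theorem hasSum_exp_neg_one : HasSum (fun i : ℕ => (-1 : ℝ) ^ i / (i.factorial : ℝ))
    (Real.exp (-1)) := by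
  have h := NormedSpace.expSeries_div_hasSum_exp (𝔸 := ℝ) (-1)
  rw [← Real.exp_eq_exp_ℝ] at h
  exact h

theorem hasSum_qd (m : ℕ) : HasSum (fun i : ℕ => (-1 : ℝ) ^ i * ((m + i).choose m : ℝ) *
    (1 / ((m + i + 1).factorial : ℝ))) (qd (m + 1)) := by
  induction m with
  | zero =>
    have h1 := hasSum_exp_neg_one
    have h2 := (hasSum_nat_add_iff (f := fun i : ℕ => (-1 : ℝ) ^ i / (i.factorial : ℝ)) 1
      (g := Real.exp (-1) - 1)).2 (by simpa using h1)
    have h3 := h2.neg
    have h4 : -(Real.exp (-1) - 1) = qd (0 + 1) := by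
      simp [qd]
    rw [h4] at h3
    refine h3.congr_fun ?_ |> fun h => h
    intro i
    simp only [zero_add, Nat.choose_zero_right, Nat.cast_one, mul_one, pow_succ]
    ring
  | succ m ih =>
    have h1 := hasSum_exp_neg_one.mul_left (1 / ((m + 1).factorial : ℝ))
    have h2 := ih.sub h1
    have h3 := (hasSum_nat_add_iff (f := fun i : ℕ => (-1 : ℝ) ^ i * ((m + i).choose m : ℝ) *
      (1 / ((m + i + 1).factorial : ℝ)) - 1 / ((m + 1).factorial : ℝ) *
        ((-1 : ℝ) ^ i / (i.factorial : ℝ))) 1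
      (g := qd (m + 1) - 1 / ((m + 1).factorial : ℝ) * Real.exp (-1))).2 (by simpa using h2)
    have h4 : qd (m + 1) - 1 / ((m + 1).factorial : ℝ) * Real.exp (-1) = qd (m + 1 + 1) := by
      unfold qd
      rw [Finset.sum_range_succ _ (m + 1)]
      ring
    rw [h4] at h3
    refine h3.congr_fun ?_ |> fun h => h
    intro i
    have e1 : m + (i + 1) + 1 = m + 1 + i + 1 := by ring
    have e2 : m + 1 + i = m + (i + 1) := by ring
    rw [e1, e2]
    have h5 : ((m + (i + 1) + 1).factorial : ℝ)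
        = ((m + (i + 1) + 1).choose (m + 1) : ℝ) * ((m + 1).factorial : ℝ)
          * ((i + 1).factorial : ℝ) := by
      have h6 := Nat.choose_mul_factorial_mul_factorial (n := m + (i + 1) + 1) (k := m + 1)
        (by omega)
      have h7 : m + (i + 1) + 1 - (m + 1) = i + 1 := by omega
      rw [h7] at h6
      exact_mod_cast h6.symm
    have h8 : ((m + (i + 1) + 1).choose (m + 1) : ℝ)
        = ((m + (i + 1)).choose m : ℝ) + ((m + (i + 1)).choose (m + 1) : ℝ) := by
      rw [Nat.choose_succ_succ]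
      push_cast
      ring
    have h9 : ((m + (i + 1) + 1).factorial : ℝ) ≠ 0 := by exact_mod_cast Nat.factorial_ne_zero _
    have h10 : ((m + 1).factorial : ℝ) ≠ 0 := by exact_mod_cast Nat.factorial_ne_zero _
    have h11 : ((i + 1).factorial : ℝ) ≠ 0 := by exact_mod_cast Nat.factorial_ne_zero _
    have h12 : ((m + (i + 1) + 1).choose (m + 1) : ℝ) ≠ 0 := by
      exact_mod_cast (Nat.choose_pos (by omega)).ne'
    have h13 : 1 / ((m + 1).factorial : ℝ) * ((-1 : ℝ) ^ (i + 1) / ((i + 1).factorial : ℝ))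
        = (-1 : ℝ) ^ (i + 1) * ((m + (i + 1) + 1).choose (m + 1) : ℝ)
          * (1 / ((m + (i + 1) + 1).factorial : ℝ)) := by
      rw [h5]
      field_simp
    rw [h13, h8]
    ring

/-- Convergence of all binomial moments to `1 / (j + 1)!` gives convergence of the probabilities. -/
theorem tendsto_of_moments (m : ℕ) (p : ℕ → ℝ) (M : ℕ → ℕ → ℝ)
    (hp : ∀ᶠ n in atTop, ∀ I : ℕ, |p n - ∑ i ∈ range (I + 1),
      (-1 : ℝ) ^ i * ((m + i).choose m : ℝ) * M n (m + i)|
      ≤ ((m + I + 1).choose m : ℝ) * M n (m + I + 1))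
    (hM : ∀ j, Tendsto (fun n => M n j) atTop (𝓝 (1 / ((j + 1).factorial : ℝ)))) :
    Tendsto p atTop (𝓝 (qd (m + 1))) := by
  rw [Metric.tendsto_atTop']
  intro η hη
  have hs := hasSum_qd m
  have hterm0 := hs.summable.tendsto_atTop_zero
  have hpart := hs.tendsto_sum_nat
  rw [Metric.tendsto_atTop] at hterm0 hpart
  obtain ⟨I1, hI1⟩ := hterm0 (η / 4) (by positivity)
  obtain ⟨I2, hI2⟩ := hpart (η / 4) (by positivity)
  set I := max I1 I2 with hI
  have hI1' := hI1 (I + 1) (by rw [hI]; exact (le_max_left _ _).trans (Nat.le_succ _))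
  have hI2' := hI2 (I + 1) (by rw [hI]; exact (le_max_right _ _).trans (Nat.le_succ _))
  rw [Real.dist_eq] at hI1' hI2'
  rw [sub_zero, abs_mul, abs_mul, abs_pow, abs_neg, abs_one, one_pow, one_mul, Nat.abs_cast,
    abs_of_nonneg (by positivity : (0 : ℝ) ≤ 1 / ((m + (I + 1) + 1).factorial : ℝ))] at hI1'
  have e1 : m + (I + 1) = m + I + 1 := by ring
  rw [e1] at hI1'
  -- convergence of the truncated sums and of the remainder
  have hc1 : Tendsto (fun n => ∑ i ∈ range (I + 1),
      (-1 : ℝ) ^ i * ((m + i).choose m : ℝ) * M n (m + i)) atTop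
      (𝓝 (∑ i ∈ range (I + 1), (-1 : ℝ) ^ i * ((m + i).choose m : ℝ) *
        (1 / ((m + i + 1).factorial : ℝ)))) :=
    tendsto_finsetSum _ (fun i _ => (hM (m + i)).const_mul _)
  have hc2 : Tendsto (fun n => ((m + I + 1).choose m : ℝ) * M n (m + I + 1)) atTop
      (𝓝 (((m + I + 1).choose m : ℝ) * (1 / ((m + I + 1 + 1).factorial : ℝ)))) :=
    (hM (m + I + 1)).const_mul _
  have hev1 := hc1.eventually (Metric.ball_mem_nhds _ (by positivity : (0 : ℝ) < η / 4))
  have hev2 := hc2.eventually (gt_mem_nhds hI1')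
  obtain ⟨n0, hn0⟩ := eventually_atTop.1 (hp.and (hev1.and hev2))
  refine ⟨n0, fun n hn => ?_⟩
  obtain ⟨h1, h2, h3⟩ := hn0 n hn.le
  have h1' := h1 I
  rw [Real.dist_eq] at h2
  rw [Real.dist_eq]
  have h4 := abs_sub_lt_iff.1 h2
  have h5 := abs_sub_lt_iff.1 hI2'
  have h6 := abs_sub_le_iff.1 h1'
  rw [abs_sub_lt_iff]
  constructor <;> linarith

/-! ### Binomial moments of the number of in-neighbours -/

variable {n : ℕ}

open Classical in
theorem sum_choose_nbr (hn : 2 ≤ n) (v : Fin n) (j : ℕ) :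
    ∑ σ : Order n, (((nbr σ v).card.choose j : ℕ) : ℝ)
      = (((n - 1).choose j : ℕ) : ℝ) * (((n : ℝ) - 1 - j) * pj n j / tt n (j + 1))
        * (Fintype.card (Order n) : ℝ) := by
  have h1 : ∀ σ : Order n, (((nbr σ v).card.choose j : ℕ) : ℝ)
      = ∑ U ∈ ((univ : Finset (Fin n)).erase v).powersetCard j,
        if U ⊆ nbr σ v then (1 : ℝ) else 0 := by
    intro σ
    rw [← Finset.sum_filter, Finset.sum_const, nsmul_eq_mul, mul_one, ← Finset.card_powersetCard]
    congr 2
    ext U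
    rw [Finset.mem_powersetCard, Finset.mem_filter, Finset.mem_powersetCard]
    constructor
    · rintro ⟨h1, h2⟩
      refine ⟨⟨fun u hu => ?_, h2⟩, h1⟩
      have := (mem_nbr.1 (h1 hu)).1
      rw [Finset.mem_erase]
      exact ⟨this.symm, Finset.mem_univ _⟩
    · rintro ⟨⟨_, h2⟩, h3⟩
      exact ⟨h3, h2⟩
  simp_rw [h1]
  rw [Finset.sum_comm]
  have h2 : ∀ U ∈ ((univ : Finset (Fin n)).erase v).powersetCard j,
      (∑ σ : Order n, if U ⊆ nbr σ v then (1 : ℝ) else 0)
        = ((n : ℝ) - 1 - j) * pj n j / tt n (j + 1) * (Fintype.card (Order n) : ℝ) := by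
    intro U hU
    rw [Finset.mem_powersetCard] at hU
    have hv : v ∉ U := fun h => (Finset.mem_erase.1 (hU.1 h)).1 rfl
    have h3 := count_nbr v U hv hn
    rw [hU.2] at h3
    rw [← h3, Finset.sum_boole]
  rw [Finset.sum_congr rfl h2, Finset.sum_const, Finset.card_powersetCard,
    Finset.card_erase_of_mem (Finset.mem_univ v), Finset.card_univ, Fintype.card_fin,
    nsmul_eq_mul]
  ring

theorem tt_eq {n r : ℕ} (h : r ≤ n) : tt n r = (r : ℝ) * (2 * n - r - 1) / 2 := by
  unfold tt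
  rw [Nat.cast_choose_two ℝ n, Nat.cast_choose_two ℝ (n - r), Nat.cast_sub h]
  ring

theorem tendsto_tt (r : ℕ) : Tendsto (fun n : ℕ => tt n r / n) atTop (𝓝 r) := by
  have h1 : Tendsto (fun n : ℕ => (r : ℝ) - (r * (r + 1) / 2) * (1 / (n : ℝ))) atTop
      (𝓝 ((r : ℝ) - (r * (r + 1) / 2) * 0)) :=
    tendsto_const_nhds.sub (tendsto_one_div_atTop_nhds_zero_nat.const_mul _)
  rw [mul_zero, sub_zero] at h1
  refine h1.congr' ?_
  filter_upwards [eventually_gt_atTop r] with n hn
  have hn0 : (n : ℝ) ≠ 0 := by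
    have : n ≠ 0 := by omega
    exact_mod_cast this
  rw [tt_eq hn.le]
  field_simp
  ring

theorem tendsto_pj (j : ℕ) : Tendsto (fun n : ℕ => (n : ℝ) ^ j * pj n j) atTop (𝓝 1) := by
  have h1 : Tendsto (fun n : ℕ => ∏ r ∈ range j, (((r : ℝ) + 1) / (tt n (r + 1) / n))) atTop
      (𝓝 (∏ r ∈ range j, (((r : ℝ) + 1) / ((r + 1 : ℕ) : ℝ)))) := by
    refine tendsto_finsetProd _ (fun r _ => ?_)
    exact tendsto_const_nhds.div (tendsto_tt (r + 1)) (by positivity)
  have h2 : ∏ r ∈ range j, (((r : ℝ) + 1) / ((r + 1 : ℕ) : ℝ)) = 1 := by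
    refine Finset.prod_eq_one (fun r _ => ?_)
    push_cast
    field_simp
  rw [h2] at h1
  refine h1.congr' ?_
  filter_upwards [eventually_gt_atTop 0] with n hn
  have hn0 : (n : ℝ) ≠ 0 := by exact_mod_cast hn.ne'
  unfold pj
  have h3 : (n : ℝ) ^ j = ∏ _r ∈ range j, (n : ℝ) := by simp
  rw [h3, ← Finset.prod_mul_distrib]
  refine Finset.prod_congr rfl (fun r _ => ?_)
  rw [div_div_eq_mul_div]
  ring

/-- The limit of the binomial moments. -/
theorem tendsto_moment (j : ℕ) : Tendsto (fun n : ℕ => (((n - 1).choose j : ℕ) : ℝ)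
    * (((n : ℝ) - 1 - j) * pj n j / tt n (j + 1))) atTop (𝓝 (1 / ((j + 1).factorial : ℝ))) := by
  have hinv : Tendsto (fun a : ℕ => (a : ℝ) * (1 / (a : ℝ))) atTop (𝓝 1) := by
    refine tendsto_const_nhds.congr' ?_
    filter_upwards [eventually_gt_atTop 0] with a ha
    have : (a : ℝ) ≠ 0 := by exact_mod_cast ha.ne'
    field_simp
  have h1 : Tendsto (fun n : ℕ => ((n - 1 : ℕ).choose j : ℝ) * (1 / (n : ℝ)) ^ j) atTop
      (𝓝 (1 / (j.factorial : ℝ))) := by
    have h2 : Tendsto (fun a : ℕ => (a : ℝ) * (1 / ((a + 1 : ℕ) : ℝ))) atTop (𝓝 1) := by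
      have h3 : Tendsto (fun a : ℕ => 1 - 1 / ((a : ℝ) + 1)) atTop (𝓝 (1 - 0)) :=
        tendsto_const_nhds.sub tendsto_one_div_add_atTop_nhds_zero_nat
      rw [sub_zero] at h3
      refine h3.congr (fun a => ?_)
      push_cast
      have : (a : ℝ) + 1 ≠ 0 := by positivity
      field_simp
      ring
    have h4 := ProbabilityTheory.tendsto_choose_mul_pow_atTop j h2
    have h5 := h4.comp (tendsto_sub_atTop_nat 1)
    rw [one_pow] at h5
    refine h5.congr' ?_
    filter_upwards [eventually_gt_atTop 0] with n hn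
    simp only [Function.comp]
    rw [Nat.sub_add_cancel hn]
  have h6 : Tendsto (fun n : ℕ => ((n : ℝ) - 1 - j) / n) atTop (𝓝 1) := by
    have h7 : Tendsto (fun n : ℕ => 1 - (1 + (j : ℝ)) * (1 / (n : ℝ))) atTop
        (𝓝 (1 - (1 + (j : ℝ)) * 0)) :=
      tendsto_const_nhds.sub (tendsto_one_div_atTop_nhds_zero_nat.const_mul _)
    rw [mul_zero, sub_zero] at h7
    refine h7.congr' ?_
    filter_upwards [eventually_gt_atTop 0] with n hn
    have hn0 : (n : ℝ) ≠ 0 := by exact_mod_cast hn.ne'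
    field_simp
    ring
  have h8 := (h1.mul (tendsto_pj j)).mul (h6.div (tendsto_tt (j + 1)) (by positivity))
  have e : 1 / (j.factorial : ℝ) * 1 * (1 / ((j + 1 : ℕ) : ℝ)) = 1 / ((j + 1).factorial : ℝ) := by
    rw [Nat.factorial_succ]
    push_cast
    have h9 : (j.factorial : ℝ) ≠ 0 := by exact_mod_cast j.factorial_ne_zero
    field_simp
  rw [e] at h8
  refine h8.congr' ?_
  filter_upwards [eventually_gt_atTop (j + 1)] with n hn
  have hn0 : (n : ℝ) ≠ 0 := by
    have : n ≠ 0 := by omega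
    exact_mod_cast this
  have hnj : (0 : ℝ) < n := by positivity
  have htt : tt n (j + 1) ≠ 0 := by
    rw [tt_eq hn.le]
    have : ((j + 1 : ℕ) : ℝ) < n := by exact_mod_cast hn
    push_cast at this ⊢
    have h10 : (0 : ℝ) < 2 * n - (j + 1) - 1 := by
      have : (0 : ℝ) ≤ j := Nat.cast_nonneg _
      nlinarith
    have h11 : (0 : ℝ) < (j : ℝ) + 1 := by positivity
    positivity
  have hp : (n : ℝ) ^ j ≠ 0 := pow_ne_zero _ hn0
  simp only [Pi.div_apply]
  rw [one_div_pow]
  field_simp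

end Pool.Agent.Work.MP_59e60d_pr
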