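import Mathlib

/-!
# Counting orders: uniformity of the next revealed value

`Fin N ≃ α` are the orders of `α`. A function of the order is `Meas P` if it only depends on the
values at the positions of `P` (the revealed positions). The value at a position outside `P` is
uniform among the values not yet revealed.
-/

namespace Pool.Agent.Work.MP_59e60d_pr

open Finset

set_option linter.unusedSectionVars false

section Count

variable {N : ℕ} {α : Type*} [Fintype α] [DecidableEq α]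

/-- `g σ` depends only on the values of `σ` at the positions in `P`. -/
def Meas {β : Type*} (P : Finset (Fin N)) (g : (Fin N ≃ α) → β) : Prop :=
  ∀ σ σ' : Fin N ≃ α, (∀ p ∈ P, σ p = σ' p) → g σ = g σ'

theorem Meas.mono {β : Type*} {P Q : Finset (Fin N)} {g : (Fin N ≃ α) → β} (hg : Meas P g)
    (h : P ⊆ Q) : Meas Q g := fun σ σ' hσ => hg σ σ' (fun p hp => hσ p (h hp))

theorem Meas.const {β : Type*} (P : Finset (Fin N)) (c : β) :
    Meas P (fun _ : Fin N ≃ α => c) := fun _ _ _ => rfl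

theorem Meas.comp {β γ : Type*} {P : Finset (Fin N)} {g : (Fin N ≃ α) → β} (hg : Meas P g)
    (f : β → γ) : Meas P (fun σ => f (g σ)) := fun σ σ' hσ => congrArg f (hg σ σ' hσ)

theorem Meas.comp₂ {β γ δ : Type*} {P : Finset (Fin N)} {g : (Fin N ≃ α) → β}
    {h : (Fin N ≃ α) → γ} (hg : Meas P g) (hh : Meas P h) (f : β → γ → δ) :
    Meas P (fun σ => f (g σ) (h σ)) := fun σ σ' hσ => by
  show f (g σ) (h σ) = f (g σ') (h σ')
  rw [hg σ σ' hσ, hh σ σ' hσ]

theorem swap_agree {P : Finset (Fin N)} {i j : Fin N} (hi : i ∉ P) (hj : j ∉ P)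
    (σ : Fin N ≃ α) : ∀ p ∈ P, ((Equiv.swap i j).trans σ) p = σ p := by
  intro p hp
  have h1 : p ≠ i := fun h => hi (h ▸ hp)
  have h2 : p ≠ j := fun h => hj (h ▸ hp)
  simp [Equiv.swap_apply_of_ne_of_ne h1 h2]

/-- The next value is uniform among the values not yet revealed. -/
theorem step_eq (P : Finset (Fin N)) (g : (Fin N ≃ α) → ℝ) (hg : Meas P g)
    (F : (Fin N ≃ α) → Finset α) (hF : Meas P F) (i : Fin N) (hi : i ∉ P) :
    ((N : ℝ) - P.card) * ∑ σ : Fin N ≃ α, (if σ i ∈ F σ then g σ else 0)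
      = ∑ σ : Fin N ≃ α, g σ * ((Pᶜ.filter (fun j => σ j ∈ F σ)).card : ℝ) := by
  have h1 : ∀ σ : Fin N ≃ α, g σ * ((Pᶜ.filter (fun j => σ j ∈ F σ)).card : ℝ)
      = ∑ j ∈ Pᶜ, (if σ j ∈ F σ then g σ else 0) := by
    intro σ
    rw [← Finset.sum_filter, Finset.sum_const, nsmul_eq_mul, mul_comm]
  simp_rw [h1]
  rw [Finset.sum_comm]
  have h2 : ∀ j ∈ Pᶜ, (∑ σ : Fin N ≃ α, (if σ j ∈ F σ then g σ else 0))
      = ∑ σ : Fin N ≃ α, (if σ i ∈ F σ then g σ else 0) := by
    intro j hj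
    have hj' : j ∉ P := by simpa using hj
    refine Finset.sum_bij' (fun σ _ => (Equiv.swap i j).trans σ)
      (fun σ _ => (Equiv.swap i j).trans σ) (by simp) (by simp) ?_ ?_ ?_
    · intro σ _
      ext x
      simp
    · intro σ _
      ext x
      simp
    · intro σ _
      have e1 := hF _ _ (swap_agree hi hj' σ)
      have e2 := hg _ _ (swap_agree hi hj' σ)
      rw [e1, e2]
      simp
  rw [Finset.sum_congr rfl h2, Finset.sum_const, nsmul_eq_mul, Finset.card_compl,
    Fintype.card_fin]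
  congr 1
  rw [Nat.cast_sub]
  simpa using Finset.card_le_univ P

/-- Lower bound on the probability that the next value falls in `F`. -/
theorem step_ge (P : Finset (Fin N)) (g : (Fin N ≃ α) → ℝ) (hg : Meas P g)
    (hg0 : ∀ σ, 0 ≤ g σ)
    (F : (Fin N ≃ α) → Finset α) (hF : Meas P F) (i : Fin N) (hi : i ∉ P) (q : ℝ)
    (hq : ∀ σ, g σ ≠ 0 → q * N ≤ ((Pᶜ.filter (fun j => σ j ∈ F σ)).card : ℝ)) :
    q * ∑ σ : Fin N ≃ α, g σ ≤ ∑ σ : Fin N ≃ α, (if σ i ∈ F σ then g σ else 0) := by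
  have hN : (0 : ℝ) < N := by
    have := i.pos
    exact_mod_cast this
  have h1 := step_eq P g hg F hF i hi
  have h2 : (N * q) * ∑ σ : Fin N ≃ α, g σ
      ≤ ∑ σ : Fin N ≃ α, g σ * ((Pᶜ.filter (fun j => σ j ∈ F σ)).card : ℝ) := by
    rw [Finset.mul_sum]
    refine Finset.sum_le_sum (fun σ _ => ?_)
    by_cases h : g σ = 0
    · simp [h]
    · have := mul_le_mul_of_nonneg_left (hq σ h) (hg0 σ)
      linarith
  have h3 : 0 ≤ ∑ σ : Fin N ≃ α, (if σ i ∈ F σ then g σ else 0) := by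
    refine Finset.sum_nonneg (fun σ _ => ?_)
    split_ifs
    · exact hg0 σ
    · exact le_refl _
  rw [← h1] at h2
  have h4 : ((N : ℝ) - P.card) * ∑ σ : Fin N ≃ α, (if σ i ∈ F σ then g σ else 0)
      ≤ N * ∑ σ : Fin N ≃ α, (if σ i ∈ F σ then g σ else 0) := by
    apply mul_le_mul_of_nonneg_right _ h3
    have : (0 : ℝ) ≤ P.card := by positivity
    linarith
  have h5 := h2.trans h4
  rw [mul_assoc] at h5
  exact le_of_mul_le_mul_left h5 hN

/-- Lower bound on the probability that the next value avoids `F`. -/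
theorem step_avoid (P : Finset (Fin N)) (g : (Fin N ≃ α) → ℝ) (hg : Meas P g)
    (hg0 : ∀ σ, 0 ≤ g σ)
    (F : (Fin N ≃ α) → Finset α) (hF : Meas P F) (i : Fin N) (hi : i ∉ P) (f d : ℝ)
    (hd : 0 < d) (hd' : d ≤ (N : ℝ) - P.card)
    (hf : ∀ σ, g σ ≠ 0 → ((Pᶜ.filter (fun j => σ j ∈ F σ)).card : ℝ) ≤ f) :
    (1 - f / d) * ∑ σ : Fin N ≃ α, g σ ≤ ∑ σ : Fin N ≃ α, (if σ i ∉ F σ then g σ else 0) := by
  have h1 := step_eq P g hg F hF i hi
  have h2 : ∑ σ : Fin N ≃ α, g σ * ((Pᶜ.filter (fun j => σ j ∈ F σ)).card : ℝ)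
      ≤ f * ∑ σ : Fin N ≃ α, g σ := by
    rw [Finset.mul_sum]
    refine Finset.sum_le_sum (fun σ _ => ?_)
    by_cases h : g σ = 0
    · simp [h]
    · have := mul_le_mul_of_nonneg_left (hf σ h) (hg0 σ)
      linarith
  have h3 : 0 ≤ ∑ σ : Fin N ≃ α, (if σ i ∈ F σ then g σ else 0) := by
    refine Finset.sum_nonneg (fun σ _ => ?_)
    split_ifs
    · exact hg0 σ
    · exact le_refl _
  have h4 : d * ∑ σ : Fin N ≃ α, (if σ i ∈ F σ then g σ else 0) ≤ f * ∑ σ : Fin N ≃ α, g σ :=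
    (mul_le_mul_of_nonneg_right hd' h3).trans (h1 ▸ h2)
  have h5 : ∑ σ : Fin N ≃ α, (if σ i ∈ F σ then g σ else 0) ≤ f / d * ∑ σ : Fin N ≃ α, g σ := by
    rw [div_mul_eq_mul_div, le_div_iff₀ hd, mul_comm]
    exact h4
  have h6 : ∑ σ : Fin N ≃ α, (if σ i ∉ F σ then g σ else 0)
      = ∑ σ : Fin N ≃ α, g σ - ∑ σ : Fin N ≃ α, (if σ i ∈ F σ then g σ else 0) := by
    rw [← Finset.sum_sub_distrib]
    refine Finset.sum_congr rfl (fun σ _ => ?_)
    by_cases h : σ i ∈ F σ <;> simp [h]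
  rw [h6]
  linarith

/-- The positions `a, a + 1, ..., a + i - 1`. -/
def win (N a i : ℕ) : Finset (Fin N) := univ.filter (fun p => a ≤ (p : ℕ) ∧ (p : ℕ) < a + i)

theorem mem_win {N a i : ℕ} {p : Fin N} : p ∈ win N a i ↔ a ≤ (p : ℕ) ∧ (p : ℕ) < a + i := by
  simp [win]

theorem win_mono {N a i j : ℕ} (h : i ≤ j) : win N a i ⊆ win N a j := by
  intro p hp
  rw [mem_win] at hp ⊢
  omega

theorem card_win_le (N a i : ℕ) : (win N a i).card ≤ i := by
  classical
  have h : (win N a i).image (fun p : Fin N => (p : ℕ)) ⊆ Finset.Ico a (a + i) := by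
    intro x hx
    rw [Finset.mem_image] at hx
    obtain ⟨p, hp, rfl⟩ := hx
    rw [mem_win] at hp
    simpa using hp
  have h2 := Finset.card_le_card h
  rw [Finset.card_image_of_injective _ Fin.val_injective] at h2
  simpa using h2

/-- Exponential bound: while `D` holds, the next value increases `X` with probability at least
`q`. -/
theorem exp_bound (a w : ℕ) (haw : a + w ≤ N) (X : ℕ → (Fin N ≃ α) → ℕ)
    (D : ℕ → (Fin N ≃ α) → Prop) (F : ℕ → (Fin N ≃ α) → Finset α)
    (hX : ∀ i, Meas (win N a i) (X i)) (hD : ∀ i, Meas (win N a i) (D i))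
    (hF : ∀ i, Meas (win N a i) (F i))
    (hDD : ∀ i < w, ∀ σ, D (i + 1) σ → D i σ)
    (hX1 : ∀ i < w, ∀ σ, D (i + 1) σ → X i σ ≤ X (i + 1) σ)
    (hX2 : ∀ i, ∀ hi : i < w, ∀ σ, D (i + 1) σ →
      σ ⟨a + i, by omega⟩ ∈ F i σ → X i σ + 1 ≤ X (i + 1) σ)
    (q : ℝ) (hq1 : q ≤ 1)
    (hc : ∀ i < w, ∀ σ, D i σ →
      q * N ≤ (((win N a i)ᶜ.filter (fun j => σ j ∈ F i σ)).card : ℝ)) :
    letI := Classical.decPred (D w)
    ∑ σ : Fin N ≃ α, (if D w σ then (1 / 2 : ℝ) ^ (X w σ) else 0)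
      ≤ (1 - q / 2) ^ w * (Fintype.card (Fin N ≃ α) : ℝ) := by
  classical
  have key : ∀ i ≤ w, ∑ σ : Fin N ≃ α, (if D i σ then (1 / 2 : ℝ) ^ (X i σ) else 0)
      ≤ (1 - q / 2) ^ i * (Fintype.card (Fin N ≃ α) : ℝ) := by
    intro i
    induction i with
    | zero =>
      intro _
      have : ∀ σ : Fin N ≃ α, (if D 0 σ then (1 / 2 : ℝ) ^ (X 0 σ) else 0) ≤ 1 := by
        intro σ
        split_ifs
        · exact pow_le_one₀ (by norm_num) (by norm_num)
        · norm_num
      calc ∑ σ : Fin N ≃ α, (if D 0 σ then (1 / 2 : ℝ) ^ (X 0 σ) else 0)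
          ≤ ∑ σ : Fin N ≃ α, (1 : ℝ) := Finset.sum_le_sum (fun σ _ => this σ)
        _ = (1 - q / 2) ^ 0 * (Fintype.card (Fin N ≃ α) : ℝ) := by simp
    | succ i ih =>
      intro hi
      have hi' : i < w := hi
      have ih' := ih hi'.le
      set g : (Fin N ≃ α) → ℝ := fun σ => if D i σ then (1 / 2 : ℝ) ^ (X i σ) else 0 with hg
      have hg0 : ∀ σ, 0 ≤ g σ := by
        intro σ
        simp only [hg]
        split_ifs <;> positivity
      have hgM : Meas (win N a i) g := by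
        intro σ σ' h
        simp only [hg]
        rw [hX i σ σ' h, hD i σ σ' h]
      have hpos : (⟨a + i, by omega⟩ : Fin N) ∉ win N a i := by
        rw [mem_win]
        simp
      have h1 := step_ge (win N a i) g hgM hg0 (F i) (hF i) ⟨a + i, by omega⟩ hpos q (by
        intro σ h
        apply hc i hi' σ
        by_contra h'
        apply h
        simp [hg, h'])
      have h2 : ∀ σ : Fin N ≃ α, (if D (i + 1) σ then (1 / 2 : ℝ) ^ (X (i + 1) σ) else 0)
          ≤ g σ - 1 / 2 * (if σ ⟨a + i, by omega⟩ ∈ F i σ then g σ else 0) := by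
        intro σ
        have hgσ := hg0 σ
        by_cases hd : D (i + 1) σ
        · have hd' := hDD i hi' σ hd
          have hgv : g σ = (1 / 2 : ℝ) ^ (X i σ) := by simp [hg, hd']
          by_cases hf : σ ⟨a + i, by omega⟩ ∈ F i σ
          · rw [if_pos hd, if_pos hf, hgv]
            have h3 := hX2 i hi' σ hd hf
            have h4 : (1 / 2 : ℝ) ^ (X (i + 1) σ) ≤ (1 / 2 : ℝ) ^ (X i σ + 1) :=
              pow_le_pow_of_le_one (by norm_num) (by norm_num) h3
            rw [pow_succ] at h4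
            linarith
          · rw [if_pos hd, if_neg hf, hgv]
            have h3 := hX1 i hi' σ hd
            have h4 : (1 / 2 : ℝ) ^ (X (i + 1) σ) ≤ (1 / 2 : ℝ) ^ (X i σ) :=
              pow_le_pow_of_le_one (by norm_num) (by norm_num) h3
            linarith
        · rw [if_neg hd]
          split_ifs <;> linarith
      have h3 : ∑ σ : Fin N ≃ α, (if D (i + 1) σ then (1 / 2 : ℝ) ^ (X (i + 1) σ) else 0)
          ≤ ∑ σ : Fin N ≃ α, g σ - 1 / 2 * ∑ σ : Fin N ≃ α,
            (if σ ⟨a + i, by omega⟩ ∈ F i σ then g σ else 0) := by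
        rw [Finset.mul_sum, ← Finset.sum_sub_distrib]
        exact Finset.sum_le_sum (fun σ _ => h2 σ)
      have h4 : ∑ σ : Fin N ≃ α, (if D (i + 1) σ then (1 / 2 : ℝ) ^ (X (i + 1) σ) else 0)
          ≤ (1 - q / 2) * ∑ σ : Fin N ≃ α, g σ := by
        linarith
      calc ∑ σ : Fin N ≃ α, (if D (i + 1) σ then (1 / 2 : ℝ) ^ (X (i + 1) σ) else 0)
          ≤ (1 - q / 2) * ∑ σ : Fin N ≃ α, g σ := h4
        _ ≤ (1 - q / 2) * ((1 - q / 2) ^ i * (Fintype.card (Fin N ≃ α) : ℝ)) :=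
          mul_le_mul_of_nonneg_left ih' (by linarith)
        _ = (1 - q / 2) ^ (i + 1) * (Fintype.card (Fin N ≃ α) : ℝ) := by ring
  convert key w le_rfl

/-- Consequence of `exp_bound`: few orders satisfy `D w` if `X w ≤ K` there. -/
theorem exp_card (a w : ℕ) (haw : a + w ≤ N) (X : ℕ → (Fin N ≃ α) → ℕ)
    (D : ℕ → (Fin N ≃ α) → Prop) (F : ℕ → (Fin N ≃ α) → Finset α)
    (hX : ∀ i, Meas (win N a i) (X i)) (hD : ∀ i, Meas (win N a i) (D i))
    (hF : ∀ i, Meas (win N a i) (F i))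
    (hDD : ∀ i < w, ∀ σ, D (i + 1) σ → D i σ)
    (hX1 : ∀ i < w, ∀ σ, D (i + 1) σ → X i σ ≤ X (i + 1) σ)
    (hX2 : ∀ i, ∀ hi : i < w, ∀ σ, D (i + 1) σ →
      σ ⟨a + i, by omega⟩ ∈ F i σ → X i σ + 1 ≤ X (i + 1) σ)
    (q : ℝ) (hq1 : q ≤ 1)
    (hc : ∀ i < w, ∀ σ, D i σ →
      q * N ≤ (((win N a i)ᶜ.filter (fun j => σ j ∈ F i σ)).card : ℝ))
    (K : ℕ) (hK : ∀ σ, D w σ → X w σ ≤ K) :
    letI := Classical.decPred (D w)
    ((univ.filter (D w)).card : ℝ)
      ≤ 2 ^ K * (1 - q / 2) ^ w * (Fintype.card (Fin N ≃ α) : ℝ) := by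
  classical
  have h := exp_bound a w haw X D F hX hD hF hDD hX1 hX2 q hq1 hc
  have h1 : (1 / 2 : ℝ) ^ K * ((univ.filter (D w)).card : ℝ)
      ≤ ∑ σ : Fin N ≃ α, (if D w σ then (1 / 2 : ℝ) ^ (X w σ) else 0) := by
    rw [← Finset.sum_filter, mul_comm, ← nsmul_eq_mul, ← Finset.sum_const]
    refine Finset.sum_le_sum (fun σ hσ => ?_)
    exact pow_le_pow_of_le_one (by norm_num) (by norm_num) (hK σ (Finset.mem_filter.1 hσ).2)
  have h2 := h1.trans h
  have h3 : (2 : ℝ) ^ K * (1 / 2 : ℝ) ^ K = 1 := by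
    rw [← mul_pow]
    norm_num
  calc ((univ.filter (D w)).card : ℝ)
      = 2 ^ K * ((1 / 2 : ℝ) ^ K * ((univ.filter (D w)).card : ℝ)) := by
        rw [← mul_assoc, h3, one_mul]
    _ ≤ 2 ^ K * ((1 - q / 2) ^ w * (Fintype.card (Fin N ≃ α) : ℝ)) :=
        mul_le_mul_of_nonneg_left h2 (by positivity)
    _ = _ := by ring

/-- The probability of avoiding the set `F` (known from `P0`) at the positions of a window outside
`P0`. -/
theorem avoid_bound (P0 : Finset (Fin N)) (g : (Fin N ≃ α) → ℝ) (hg : Meas P0 g)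
    (hg0 : ∀ σ, 0 ≤ g σ) (F : (Fin N ≃ α) → Finset α) (hF : Meas P0 F) (a w : ℕ)
    (haw : a + w ≤ N) (hdisj : ∀ p ∈ P0, ¬ (a ≤ (p : ℕ) ∧ (p : ℕ) < a + w)) (f d : ℝ)
    (hd : 0 < d) (hd' : d ≤ (N : ℝ) - P0.card - w) (hf : ∀ σ, g σ ≠ 0 → ((F σ).card : ℝ) ≤ f)
    (hfd : f ≤ d) :
    (1 - f / d) ^ w * ∑ σ : Fin N ≃ α, g σ
      ≤ ∑ σ : Fin N ≃ α, (if ∀ p ∈ win N a w, σ p ∉ F σ then g σ else 0) := by
  have key : ∀ i ≤ w, (1 - f / d) ^ i * ∑ σ : Fin N ≃ α, g σ
      ≤ ∑ σ : Fin N ≃ α, (if ∀ p ∈ win N a i, σ p ∉ F σ then g σ else 0) := by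
    intro i
    induction i with
    | zero =>
      intro _
      have : win N a 0 = ∅ := by
        ext p
        rw [mem_win]
        simp
      simp [this]
    | succ i ih =>
      intro hi
      have hi' : i < w := hi
      have ih' := ih hi'.le
      set h : (Fin N ≃ α) → ℝ := fun σ => if ∀ p ∈ win N a i, σ p ∉ F σ then g σ else 0 with hh
      have hh0 : ∀ σ, 0 ≤ h σ := by
        intro σ
        simp only [hh]
        split_ifs
        · exact hg0 σ
        · exact le_rfl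
      have hhM : Meas (P0 ∪ win N a i) h := by
        intro σ σ' hσ
        have e1 := hg σ σ' (fun p hp => hσ p (Finset.mem_union_left _ hp))
        have e2 := hF σ σ' (fun p hp => hσ p (Finset.mem_union_left _ hp))
        have e3 : (∀ p ∈ win N a i, σ p ∉ F σ) ↔ (∀ p ∈ win N a i, σ' p ∉ F σ') := by
          refine forall₂_congr (fun p hp => ?_)
          rw [e2, hσ p (Finset.mem_union_right _ hp)]
        simp only [hh]
        rw [e1]
        simp only [e3]
      have hpos : (⟨a + i, by omega⟩ : Fin N) ∉ P0 ∪ win N a i := by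
        rw [Finset.mem_union, mem_win]
        rintro (h1 | h1)
        · apply hdisj _ h1
          constructor
          · simp
          · simp only []
            omega
        · simp at h1
      have hcardle : (((P0 ∪ win N a i).card : ℕ) : ℝ) ≤ P0.card + w := by
        have h1 := Finset.card_union_le P0 (win N a i)
        have h2 := card_win_le N a i
        have h3 : (P0 ∪ win N a i).card ≤ P0.card + w := by omega
        exact_mod_cast h3
      have h1 := step_avoid (P0 ∪ win N a i) h hhM hh0 F (hF.mono Finset.subset_union_left)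
        ⟨a + i, by omega⟩ hpos f d hd (by linarith) (by
          intro σ hσ
          have hgσ : g σ ≠ 0 := by
            intro h0
            apply hσ
            simp [hh, h0]
          refine le_trans ?_ (hf σ hgσ)
          have : ((P0 ∪ win N a i)ᶜ.filter (fun j => σ j ∈ F σ)).card ≤ (F σ).card := by
            refine Finset.card_le_card_of_injOn (fun j => σ j) ?_ ?_
            · intro j hj
              simpa using (Finset.mem_filter.1 hj).2
            · intro x _ y _ hxy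
              exact σ.injective hxy
          exact_mod_cast this)
      have h2 : ∑ σ : Fin N ≃ α, (if σ ⟨a + i, by omega⟩ ∉ F σ then h σ else 0)
          = ∑ σ : Fin N ≃ α, (if ∀ p ∈ win N a (i + 1), σ p ∉ F σ then g σ else 0) := by
        refine Finset.sum_congr rfl (fun σ _ => ?_)
        have e : (∀ p ∈ win N a (i + 1), σ p ∉ F σ) ↔
            (σ ⟨a + i, by omega⟩ ∉ F σ ∧ ∀ p ∈ win N a i, σ p ∉ F σ) := by
          constructor
          · intro H
            refine ⟨H _ ?_, fun p hp => H p (win_mono (Nat.le_succ i) hp)⟩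
            rw [mem_win]
            simp
          · rintro ⟨H1, H2⟩ p hp
            rw [mem_win] at hp
            by_cases hp' : (p : ℕ) = a + i
            · have : p = ⟨a + i, by omega⟩ := Fin.ext hp'
              rw [this]
              exact H1
            · apply H2
              rw [mem_win]
              omega
        simp only [hh]
        rw [← ite_and]
        simp only [e]
      rw [← h2]
      have hnn : 0 ≤ 1 - f / d := by
        have : f / d ≤ 1 := (div_le_one hd).2 hfd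
        linarith
      calc (1 - f / d) ^ (i + 1) * ∑ σ : Fin N ≃ α, g σ
          = (1 - f / d) * ((1 - f / d) ^ i * ∑ σ : Fin N ≃ α, g σ) := by ring
        _ ≤ (1 - f / d) * ∑ σ : Fin N ≃ α, h σ := mul_le_mul_of_nonneg_left ih' hnn
        _ ≤ _ := h1
  exact key w le_rfl

end Count

end Pool.Agent.Work.MP_59e60d_pr
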