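import Pool.Agent.Work.MP_59e60d_pr.Defs
import Pool.Agent.Work.MP_59e60d_pr.Count

/-!
# Deterministic analysis of Builder's strategy
-/

namespace Pool.Agent.Work.MP_59e60d_pr

open Finset

variable {n : ℕ}

theorem deg_mono {B C : Finset (Edge n)} (h : B ⊆ C) (v : Fin n) : deg B v ≤ deg C v :=
  Finset.card_le_card (Finset.filter_subset_filter _ h)

theorem deg_insert {B : Finset (Edge n)} {e : Edge n} (he : e ∉ B) (v : Fin n) :
    deg (insert e B) v = deg B v + if v ∈ e.1 then 1 else 0 := by
  unfold deg
  rw [Finset.filter_insert]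
  split_ifs with h
  · rw [Finset.card_insert_of_notMem]
    intro h'
    exact he (Finset.mem_filter.1 h').1
  · rfl

theorem card_endpoints (e : Edge n) : (univ.filter (fun v : Fin n => v ∈ e.1)).card = 2 := by
  have h := Sym2.card_toFinset_of_not_isDiag e.1 e.2
  rw [← h]
  congr 1
  ext v
  simp

theorem sum_deg (B : Finset (Edge n)) : ∑ v : Fin n, deg B v = 2 * B.card := by
  unfold deg
  simp_rw [Finset.card_filter]
  rw [Finset.sum_comm]
  have : ∀ e ∈ B, (∑ v : Fin n, if v ∈ e.1 then 1 else 0) = 2 := by
    intro e _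
    rw [← Finset.card_filter]
    exact card_endpoints e
  rw [Finset.sum_congr rfl this, Finset.sum_const, smul_eq_mul, mul_comm]

/-- Vertices of degree less than `k`. -/
def low (k : ℕ) (B : Finset (Edge n)) : Finset (Fin n) := univ.filter (fun v => deg B v < k)

/-- Total missing degree. -/
def gap (k : ℕ) (B : Finset (Edge n)) : ℕ := ∑ v : Fin n, (k - deg B v)

theorem gap_le (k : ℕ) (B : Finset (Edge n)) : gap k B ≤ k * (low k B).card := by
  unfold gap low
  rw [mul_comm, ← smul_eq_mul, ← Finset.sum_const, Finset.sum_filter]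
  refine Finset.sum_le_sum (fun v _ => ?_)
  split_ifs with h
  · exact Nat.sub_le _ _
  · omega

theorem gap_insert (k : ℕ) {B : Finset (Edge n)} {e : Edge n} (he : e ∉ B)
    (h : ∃ v ∈ e.1, deg B v < k) : gap k (insert e B) + 1 ≤ gap k B := by
  obtain ⟨v, hv, hk⟩ := h
  unfold gap
  have h1 : ∑ w : Fin n, (k - deg (insert e B) w) < ∑ w : Fin n, (k - deg B w) := by
    apply Finset.sum_lt_sum
    · intro w _
      rw [deg_insert he]
      omega
    · refine ⟨v, Finset.mem_univ v, ?_⟩
      rw [deg_insert he, if_pos hv]
      omega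
  omega

theorem gap_pos {k : ℕ} {B : Finset (Edge n)} {v : Fin n} (h : deg B v < k) : 1 ≤ gap k B := by
  unfold gap
  have := Finset.single_le_sum (f := fun w : Fin n => k - deg B w) (fun w _ => Nat.zero_le _)
    (Finset.mem_univ v)
  have h2 : k - deg B v ≤ ∑ w : Fin n, (k - deg B w) := this
  omega

section Bought

variable (S : Strategy n) (σ : Order n)

theorem bought_succ (s : ℕ) (h : s < n.choose 2) :
    letI := Classical.dec (S (s + 1) (σ ⟨s, h⟩) (bought S σ s))
    bought S σ (s + 1) = if S (s + 1) (σ ⟨s, h⟩) (bought S σ s) then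
      insert (σ ⟨s, h⟩) (bought S σ s) else bought S σ s := by
  simp only [bought, dif_pos h]

theorem bought_succ_of_ge (s : ℕ) (h : ¬ s < n.choose 2) :
    bought S σ (s + 1) = bought S σ s := by
  simp only [bought, dif_neg h]

theorem bought_succ_pos (s : ℕ) (h : s < n.choose 2)
    (hS : S (s + 1) (σ ⟨s, h⟩) (bought S σ s)) :
    bought S σ (s + 1) = insert (σ ⟨s, h⟩) (bought S σ s) := by
  rw [bought_succ S σ s h, if_pos hS]

theorem bought_succ_neg (s : ℕ) (h : s < n.choose 2)
    (hS : ¬ S (s + 1) (σ ⟨s, h⟩) (bought S σ s)) :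
    bought S σ (s + 1) = bought S σ s := by
  rw [bought_succ S σ s h, if_neg hS]

theorem bought_pos (s : ℕ) : ∀ e ∈ bought S σ s, ((σ.symm e : Fin (n.choose 2)) : ℕ) < s := by
  induction s with
  | zero => simp [bought]
  | succ s ih =>
    intro e he
    by_cases h : s < n.choose 2
    · by_cases hS : S (s + 1) (σ ⟨s, h⟩) (bought S σ s)
      · rw [bought_succ_pos S σ s h hS, Finset.mem_insert] at he
        rcases he with rfl | he
        · simp
        · have := ih e he
          omega
      · rw [bought_succ_neg S σ s h hS] at he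
        have := ih e he
        omega
    · rw [bought_succ_of_ge S σ s h] at he
      have := ih e he
      omega

theorem notMem_bought (s : ℕ) (h : s < n.choose 2) : σ ⟨s, h⟩ ∉ bought S σ s := by
  intro h'
  have := bought_pos S σ s _ h'
  simp at this

theorem bought_mono_succ (s : ℕ) : bought S σ s ⊆ bought S σ (s + 1) := by
  by_cases h : s < n.choose 2
  · by_cases hS : S (s + 1) (σ ⟨s, h⟩) (bought S σ s)
    · rw [bought_succ_pos S σ s h hS]
      exact Finset.subset_insert _ _
    · rw [bought_succ_neg S σ s h hS]
  · rw [bought_succ_of_ge S σ s h]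

theorem bought_meas (S : Strategy n) (s : ℕ) :
    Meas (win (n.choose 2) 0 s) (fun σ : Order n => bought S σ s) := by
  induction s with
  | zero =>
    intro σ σ' _
    rfl
  | succ s ih =>
    intro σ σ' hσ
    have e1 : bought S σ s = bought S σ' s := ih σ σ' (fun p hp => hσ p (win_mono (Nat.le_succ s) hp))
    show bought S σ (s + 1) = bought S σ' (s + 1)
    by_cases h : s < n.choose 2
    · have e2 : σ ⟨s, h⟩ = σ' ⟨s, h⟩ := hσ _ (by rw [mem_win]; simp)
      by_cases hS : S (s + 1) (σ ⟨s, h⟩) (bought S σ s)
      · have hS' : S (s + 1) (σ' ⟨s, h⟩) (bought S σ' s) := by rwa [← e2, ← e1]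
        rw [bought_succ_pos S σ s h hS, bought_succ_pos S σ' s h hS', e1, e2]
      · have hS' : ¬ S (s + 1) (σ' ⟨s, h⟩) (bought S σ' s) := by rwa [← e2, ← e1]
        rw [bought_succ_neg S σ s h hS, bought_succ_neg S σ' s h hS', e1]
    · rw [bought_succ_of_ge S σ s h, bought_succ_of_ge S σ' s h, e1]

end Bought

/-- The edges shown at the positions `a, ..., a + i - 1`. -/
def slice (σ : Order n) (a i : ℕ) : Finset (Edge n) :=
  univ.filter (fun e => a ≤ ((σ.symm e : Fin (n.choose 2)) : ℕ) ∧
    ((σ.symm e : Fin (n.choose 2)) : ℕ) < a + i)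

theorem slice_meas (a i : ℕ) :
    Meas (win (n.choose 2) a i) (fun σ : Order n => slice σ a i) := by
  intro σ σ' hσ
  ext e
  simp only [slice, Finset.mem_filter, Finset.mem_univ, true_and]
  constructor
  · intro he
    have h1 : σ.symm e ∈ win (n.choose 2) a i := by
      rw [mem_win]
      exact he
    have h2 := hσ _ h1
    rw [Equiv.apply_symm_apply] at h2
    have h3 : σ'.symm e = σ.symm e := by
      rw [Equiv.symm_apply_eq]
      exact h2
    rw [h3]
    exact he
  · intro he
    have h1 : σ'.symm e ∈ win (n.choose 2) a i := by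
      rw [mem_win]
      exact he
    have h2 := hσ _ h1
    rw [Equiv.apply_symm_apply] at h2
    have h3 : σ.symm e = σ'.symm e := by
      rw [Equiv.symm_apply_eq]
      exact h2.symm
    rw [h3]
    exact he

theorem slice_succ (σ : Order n) (a i : ℕ) (h : a + i < n.choose 2) :
    slice σ a (i + 1) = insert (σ ⟨a + i, h⟩) (slice σ a i) := by
  ext e
  simp only [slice, Finset.mem_filter, Finset.mem_univ, true_and, Finset.mem_insert]
  constructor
  · intro he
    by_cases h1 : ((σ.symm e : Fin (n.choose 2)) : ℕ) = a + i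
    · left
      have : σ.symm e = ⟨a + i, h⟩ := Fin.ext h1
      rw [← this, Equiv.apply_symm_apply]
    · right
      omega
  · rintro (he | he)
    · subst he
      simp
    · omega

theorem notMem_slice (σ : Order n) (a i : ℕ) (h : a + i < n.choose 2) :
    σ ⟨a + i, h⟩ ∉ slice σ a i := by
  intro h'
  have := (Finset.mem_filter.1 h').2.2
  simp at this

theorem slice_mono (σ : Order n) (a : ℕ) {i j : ℕ} (h : i ≤ j) : slice σ a i ⊆ slice σ a j := by
  intro e he
  simp only [slice, Finset.mem_filter, Finset.mem_univ, true_and] at he ⊢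
  omega

theorem shown_eq_slice (σ : Order n) (t : ℕ) : shown σ t = slice σ 0 t := by
  ext e
  simp [shown, slice]

/-- Builder's rule (it does not depend on the step number): while fewer than `M` edges have been
bought, buy the edges both of whose endpoints have degree less than `k`; afterwards buy the edges
with an endpoint of degree less than `k`; never exceed the budget `b`. -/
def rule (n k M b : ℕ) : Edge n → Finset (Edge n) → Prop := fun e B =>
  B.card < b ∧ ((B.card < M ∧ ∀ v ∈ e.1, deg B v < k) ∨ (M ≤ B.card ∧ ∃ v ∈ e.1, deg B v < k))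

/-- The edges bought by the rule. -/
noncomputable def bt (k M b : ℕ) (σ : Order n) (s : ℕ) : Finset (Edge n) :=
  bought (fun _ => rule n k M b) σ s

theorem bt_zero (k M b : ℕ) (σ : Order n) : bt k M b σ 0 = ∅ := rfl

theorem bt_succ_pos (k M b : ℕ) (σ : Order n) (s : ℕ) (h : s < n.choose 2)
    (hS : rule n k M b (σ ⟨s, h⟩) (bt k M b σ s)) :
    bt k M b σ (s + 1) = insert (σ ⟨s, h⟩) (bt k M b σ s) :=
  bought_succ_pos (fun _ => rule n k M b) σ s h hS

theorem bt_succ_neg (k M b : ℕ) (σ : Order n) (s : ℕ) (h : s < n.choose 2)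
    (hS : ¬ rule n k M b (σ ⟨s, h⟩) (bt k M b σ s)) :
    bt k M b σ (s + 1) = bt k M b σ s :=
  bought_succ_neg (fun _ => rule n k M b) σ s h hS

theorem bt_succ_ge (k M b : ℕ) (σ : Order n) (s : ℕ) (h : ¬ s < n.choose 2) :
    bt k M b σ (s + 1) = bt k M b σ s :=
  bought_succ_of_ge (fun _ => rule n k M b) σ s h

theorem notMem_bt (k M b : ℕ) (σ : Order n) (s : ℕ) (h : s < n.choose 2) :
    σ ⟨s, h⟩ ∉ bt k M b σ s := notMem_bought (fun _ => rule n k M b) σ s h

theorem bt_meas (k M b s : ℕ) :
    Meas (win (n.choose 2) 0 s) (fun σ : Order n => bt k M b σ s) :=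
  bought_meas (fun _ => rule n k M b) s

theorem rule_budget (k M b : ℕ) (σ : Order n) (s : ℕ) : (bt k M b σ s).card ≤ b := by
  induction s with
  | zero => simp [bt_zero]
  | succ s ih =>
    by_cases h : s < n.choose 2
    · by_cases hS : rule n k M b (σ ⟨s, h⟩) (bt k M b σ s)
      · rw [bt_succ_pos k M b σ s h hS]
        have h1 := Finset.card_insert_le (σ ⟨s, h⟩) (bt k M b σ s)
        have h2 := hS.1
        omega
      · rwa [bt_succ_neg k M b σ s h hS]
    · rwa [bt_succ_ge k M b σ s h]

theorem bt_mono (k M b : ℕ) (σ : Order n) {s t : ℕ} (h : s ≤ t) :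
    bt k M b σ s ⊆ bt k M b σ t := by
  induction t with
  | zero =>
    have : s = 0 := by omega
    rw [this]
  | succ t ih =>
    by_cases hst : s = t + 1
    · rw [hst]
    · exact (ih (by omega)).trans (bought_mono_succ (fun _ => rule n k M b) σ t)

/-- As long as at most `M` edges have been bought all degrees are at most `k`. -/
theorem phase1_deg (k M b : ℕ) (σ : Order n) (s : ℕ) (hs : (bt k M b σ s).card ≤ M)
    (v : Fin n) : deg (bt k M b σ s) v ≤ k := by
  induction s with
  | zero => simp [bt_zero, deg]
  | succ s ih =>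
    have hle := Finset.card_le_card (bt_mono k M b σ (Nat.le_succ s))
    have ih' := ih (hle.trans hs)
    by_cases h : s < n.choose 2
    · by_cases hS : rule n k M b (σ ⟨s, h⟩) (bt k M b σ s)
      · rw [bt_succ_pos k M b σ s h hS] at hs ⊢
        rw [Finset.card_insert_of_notMem (notMem_bt k M b σ s h)] at hs
        rw [deg_insert (notMem_bt k M b σ s h)]
        split_ifs with hv
        · rcases hS.2 with h1 | h1
          · have := h1.2 v hv
            omega
          · have := h1.1
            omega
        · omega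
      · rwa [bt_succ_neg k M b σ s h hS]
    · rwa [bt_succ_ge k M b σ s h]

theorem phase1_gap (k M b : ℕ) (σ : Order n) (s : ℕ) (hs : (bt k M b σ s).card ≤ M) :
    gap k (bt k M b σ s) + 2 * (bt k M b σ s).card = k * n := by
  rw [← sum_deg, gap, ← Finset.sum_add_distrib]
  have : ∀ v ∈ (univ : Finset (Fin n)), k - deg (bt k M b σ s) v + deg (bt k M b σ s) v = k := by
    intro v _
    have := phase1_deg k M b σ s hs v
    omega
  rw [Finset.sum_congr rfl this]
  simp [mul_comm]

/-- Once `M` edges have been bought, cardinality plus missing degree is at most `k n - M`. -/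
theorem total (k M b : ℕ) (σ : Order n) (s : ℕ) (hs : M ≤ (bt k M b σ s).card) :
    (bt k M b σ s).card + gap k (bt k M b σ s) + M ≤ k * n := by
  induction s with
  | zero =>
    have h0 : (bt k M b σ 0).card = 0 := by simp [bt_zero]
    have h1 := phase1_gap k M b σ 0 (by omega)
    omega
  | succ s ih =>
    by_cases h : s < n.choose 2
    · by_cases hS : rule n k M b (σ ⟨s, h⟩) (bt k M b σ s)
      · by_cases hM : M ≤ (bt k M b σ s).card
        · have ih' := ih hM
          rw [bt_succ_pos k M b σ s h hS,
            Finset.card_insert_of_notMem (notMem_bt k M b σ s h)]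
          have h1 : ∃ v ∈ (σ ⟨s, h⟩).1, deg (bt k M b σ s) v < k := by
            rcases hS.2 with h1 | h1
            · omega
            · exact h1.2
          have h2 := gap_insert k (notMem_bt k M b σ s h) h1
          omega
        · have h3 : (bt k M b σ (s + 1)).card = M := by
            have h4 : (bt k M b σ (s + 1)).card = (bt k M b σ s).card + 1 := by
              rw [bt_succ_pos k M b σ s h hS,
                Finset.card_insert_of_notMem (notMem_bt k M b σ s h)]
            omega
          have h4 := phase1_gap k M b σ (s + 1) h3.le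
          omega
      · rw [bt_succ_neg k M b σ s h hS] at hs ⊢
        exact ih hs
    · rw [bt_succ_ge k M b σ s h] at hs ⊢
      exact ih hs

theorem phase2_deg (k M b : ℕ) (hb : k * n ≤ M + b) (σ : Order n) (m : ℕ)
    (hm : M ≤ (bt k M b σ m).card) (i : ℕ) (v : Fin n) :
    min k (deg (slice σ m i) v) ≤ deg (bt k M b σ (m + i)) v := by
  induction i with
  | zero =>
    have : slice σ m 0 = ∅ := by
      ext e
      simp only [slice, Finset.mem_filter, Finset.mem_univ, true_and, Finset.notMem_empty,
        iff_false]
      omega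
    simp [this, deg]
  | succ i ih =>
    have hM : M ≤ (bt k M b σ (m + i)).card :=
      hm.trans (Finset.card_le_card (bt_mono k M b σ (Nat.le_add_right m i)))
    have hph := total k M b σ (m + i) hM
    by_cases h : m + i < n.choose 2
    · rw [slice_succ σ m i h, deg_insert (notMem_slice σ m i h), ← Nat.add_assoc]
      by_cases hS : rule n k M b (σ ⟨m + i, h⟩) (bt k M b σ (m + i))
      · rw [bt_succ_pos k M b σ (m + i) h hS, deg_insert (notMem_bt k M b σ (m + i) h)]
        split_ifs <;> omega
      · rw [bt_succ_neg k M b σ (m + i) h hS]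
        by_cases hv : v ∈ (σ ⟨m + i, h⟩).1
        · -- if the degree were `< k`, the edge would have been bought
          by_cases hk : deg (bt k M b σ (m + i)) v < k
          · exfalso
            apply hS
            refine ⟨?_, Or.inr ⟨hM, v, hv, hk⟩⟩
            have := gap_pos hk
            omega
          · rw [if_pos hv]
            omega
        · rw [if_neg hv]
          simpa using ih
    · have h1 : slice σ m (i + 1) = slice σ m i := by
        ext e
        simp only [slice, Finset.mem_filter, Finset.mem_univ, true_and]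
        have := (σ.symm e).isLt
        omega
      rw [h1, ← Nat.add_assoc, bt_succ_ge k M b σ (m + i) h]
      exact ih

/-- The deterministic criterion for success at the hitting time. -/
theorem success (k M b : ℕ) (hb : k * n ≤ M + b) (σ : Order n) (m : ℕ)
    (hm : M ≤ (bt k M b σ m).card) (i : ℕ)
    (hi : MinDeg k (slice σ m (i + 1))) (hi' : ¬ MinDeg k (shown σ (m + i))) :
    MinDeg k (bt k M b σ (tau k σ)) := by
  have hsub : slice σ m (i + 1) ⊆ shown σ (m + (i + 1)) := by
    intro e he
    simp only [slice, shown, Finset.mem_filter, Finset.mem_univ, true_and] at he ⊢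
    omega
  have h1 : MinDeg k (shown σ (m + (i + 1))) := fun v => (hi v).trans (deg_mono hsub v)
  have h2 : tau k σ = m + (i + 1) := by
    apply le_antisymm
    · exact Nat.sInf_le h1
    · by_contra hlt
      have hlt' : tau k σ ≤ m + i := by omega
      have h3 : MinDeg k (shown σ (tau k σ)) :=
        Nat.sInf_mem (s := {t : ℕ | MinDeg k (shown σ t)}) ⟨_, h1⟩
      apply hi'
      intro v
      refine (h3 v).trans (deg_mono ?_ v)
      intro e he
      simp only [shown, Finset.mem_filter, Finset.mem_univ, true_and] at he ⊢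
      omega
  rw [h2]
  intro v
  have h3 := phase2_deg k M b hb σ m hm (i + 1) v
  have h4 := hi v
  omega

end Pool.Agent.Work.MP_59e60d_pr
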