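import Mathlib

/-!
# Ranks in a uniformly random order
-/

set_option linter.unusedSectionVars false

namespace Pool.Agent.Work.MP_59e60d_pr

open Finset

variable {N : ℕ} {α : Type*} [Fintype α] [DecidableEq α]

/-- The elements of `A` which come before `x`. -/
def before (σ : Fin N ≃ α) (A : Finset α) (x : α) : Finset α :=
  A.filter (fun y => σ.symm y < σ.symm x)

/-- `W` is invariant under relabellings of the elements of `A`. -/
def Inv (A : Finset α) (W : (Fin N ≃ α) → Prop) : Prop :=
  ∀ a ∈ A, ∀ b ∈ A, ∀ σ : Fin N ≃ α, W (σ.trans (Equiv.swap a b)) ↔ W σ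

open Classical in
/-- Number of orders with `W` and `before σ A x = T`. -/
noncomputable def cn (W : (Fin N ≃ α) → Prop) (A : Finset α) (x : α) (T : Finset α) : ℕ :=
  (univ.filter (fun σ : Fin N ≃ α => W σ ∧ before σ A x = T)).card

theorem before_swap (σ : Fin N ≃ α) (A : Finset α) (x a b : α) (ha : a ∈ A) (hb : b ∈ A) :
    before (σ.trans (Equiv.swap a b)) A (Equiv.swap a b x)
      = (before σ A x).map (Equiv.swap a b).toEmbedding := by
  ext y
  simp only [before, Finset.mem_filter, Finset.mem_map_equiv, Equiv.symm_trans_apply,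
    Equiv.symm_swap, Equiv.swap_apply_self]
  constructor
  · rintro ⟨h1, h2⟩
    refine ⟨?_, h2⟩
    by_cases hya : y = a
    · subst hya; rw [Equiv.swap_apply_left]; exact hb
    · by_cases hyb : y = b
      · subst hyb; rw [Equiv.swap_apply_right]; exact ha
      · rw [Equiv.swap_apply_of_ne_of_ne hya hyb]; exact h1
  · rintro ⟨h1, h2⟩
    refine ⟨?_, h2⟩
    by_cases hya : y = a
    · subst hya; exact ha
    · by_cases hyb : y = b
      · subst hyb; exact hb
      · rwa [Equiv.swap_apply_of_ne_of_ne hya hyb] at h1

theorem cn_swap {W : (Fin N ≃ α) → Prop} {A : Finset α} (hW : Inv A W) (x : α) (T : Finset α)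
    {a b : α} (ha : a ∈ A) (hb : b ∈ A) :
    cn W A x T = cn W A (Equiv.swap a b x) (T.map (Equiv.swap a b).toEmbedding) := by
  classical
  unfold cn
  refine Finset.card_bij (fun σ _ => σ.trans (Equiv.swap a b)) ?_ ?_ ?_
  · intro σ hσ
    rw [Finset.mem_filter] at hσ ⊢
    refine ⟨Finset.mem_univ _, (hW a ha b hb σ).2 hσ.2.1, ?_⟩
    rw [before_swap σ A x a b ha hb, hσ.2.2]
  · intro σ _ σ' _ h
    have h1 := congrArg (fun e : Fin N ≃ α => e.trans (Equiv.swap a b)) h
    simp only [Equiv.trans_assoc] at h1
    have h2 : (Equiv.swap a b).trans (Equiv.swap a b) = Equiv.refl α := by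
      ext y
      simp
    rw [h2] at h1
    simpa using h1
  · intro σ hσ
    rw [Finset.mem_filter] at hσ
    refine ⟨σ.trans (Equiv.swap a b), ?_, ?_⟩
    · rw [Finset.mem_filter]
      refine ⟨Finset.mem_univ _, (hW a ha b hb σ).2 hσ.2.1, ?_⟩
      have h1 := before_swap σ A (Equiv.swap a b x) a b ha hb
      rw [Equiv.swap_apply_self, hσ.2.2] at h1
      rw [h1]
      ext y
      simp
    · ext i
      simp

theorem cn_eq_of_card {W : (Fin N ≃ α) → Prop} {A : Finset α} (hW : Inv A W) (x : α)
    (m : ℕ) : ∀ T T' : Finset α, T ⊆ A.erase x → T' ⊆ A.erase x → T.card = T'.card →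
      (T \ T').card = m → cn W A x T = cn W A x T' := by
  induction m with
  | zero =>
    intro T T' hT hT' hc hm
    have h1 : T ⊆ T' := by
      rw [Finset.card_eq_zero, Finset.sdiff_eq_empty_iff_subset] at hm
      exact hm
    rw [Finset.eq_of_subset_of_card_le h1 hc.ge]
  | succ m ih =>
    intro T T' hT hT' hc hm
    have h1 : (T \ T').Nonempty := by rw [← Finset.card_pos]; omega
    have h2 : (T' \ T).Nonempty := by
      rw [← Finset.card_pos]
      have h3 := Finset.card_sdiff_add_card_inter T T'
      have h4 := Finset.card_sdiff_add_card_inter T' T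
      rw [Finset.inter_comm T' T] at h4
      omega
    obtain ⟨a, ha⟩ := h1
    obtain ⟨b, hb⟩ := h2
    rw [Finset.mem_sdiff] at ha hb
    have haA := Finset.mem_erase.1 (hT ha.1)
    have hbA := Finset.mem_erase.1 (hT' hb.1)
    have hstep := cn_swap hW x T haA.2 hbA.2
    rw [Equiv.swap_apply_of_ne_of_ne haA.1.symm hbA.1.symm] at hstep
    have hmap : T.map (Equiv.swap a b).toEmbedding = insert b (T.erase a) := by
      ext y
      rw [Finset.mem_map_equiv, Equiv.symm_swap, Finset.mem_insert, Finset.mem_erase]
      by_cases hya : y = a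
      · subst hya
        rw [Equiv.swap_apply_left]
        have hne : y ≠ b := fun h => hb.2 (h ▸ ha.1)
        simp [hb.2, hne]
      · by_cases hyb : y = b
        · subst hyb
          rw [Equiv.swap_apply_right]
          simp [ha.1]
        · rw [Equiv.swap_apply_of_ne_of_ne hya hyb]
          simp [hya, hyb]
    rw [hstep, hmap]
    refine ih _ _ ?_ hT' ?_ ?_
    · intro y hy
      rcases Finset.mem_insert.1 hy with h | h
      · rw [h]; exact hT' hb.1
      · exact hT (Finset.mem_of_mem_erase h)
    · rw [Finset.card_insert_of_notMem (fun h => hb.2 (Finset.mem_of_mem_erase h)),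
        Finset.card_erase_of_mem ha.1]
      have : 0 < T.card := Finset.card_pos.2 ⟨a, ha.1⟩
      omega
    · have e : insert b (T.erase a) \ T' = (T \ T').erase a := by
        ext y
        simp only [Finset.mem_sdiff, Finset.mem_insert, Finset.mem_erase]
        constructor
        · rintro ⟨h | h, h'⟩
          · subst h; exact absurd hb.1 h'
          · exact ⟨h.1, h.2, h'⟩
        · rintro ⟨h1, h2, h3⟩
          exact ⟨Or.inr ⟨h1, h2⟩, h3⟩
      rw [e, Finset.card_erase_of_mem (Finset.mem_sdiff.2 ha), hm]
      omega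

theorem cn_eq {W : (Fin N ≃ α) → Prop} {A : Finset α} (hW : Inv A W) {x x' : α} (hx : x ∈ A)
    (hx' : x' ∈ A) {T T' : Finset α} (hT : T ⊆ A.erase x) (hT' : T' ⊆ A.erase x')
    (hc : T.card = T'.card) : cn W A x T = cn W A x' T' := by
  rw [cn_swap hW x T hx hx', Equiv.swap_apply_left]
  refine cn_eq_of_card hW x' _ _ _ ?_ hT' (by rw [Finset.card_map]; exact hc) rfl
  intro y hy
  rw [Finset.mem_map_equiv, Equiv.symm_swap] at hy
  have h1 := Finset.mem_erase.1 (hT hy)
  rw [Finset.mem_erase]
  have hne : y ≠ x' := by
    intro h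
    subst h
    rw [Equiv.swap_apply_right] at h1
    exact h1.1 rfl
  refine ⟨hne, ?_⟩
  by_cases hyx : y = x
  · rw [hyx]; exact hx
  · rw [Equiv.swap_apply_of_ne_of_ne hyx hne] at h1
    exact h1.2

/-- For each `t < |A|` exactly one element of `A` has rank `t`. -/
theorem rank_unique (σ : Fin N ≃ α) (A : Finset α) (t : ℕ) (ht : t < A.card) :
    (A.filter (fun x => (before σ A x).card = t)).card = 1 := by
  have hinj : Set.InjOn (fun x => (before σ A x).card) A := by
    intro x hx y hy h
    by_contra hne
    rcases lt_or_gt_of_ne (fun h' => hne (σ.symm.injective h') : σ.symm x ≠ σ.symm y) with hlt | hlt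
    · have : (before σ A x).card < (before σ A y).card := by
        refine Finset.card_lt_card ?_
        rw [Finset.ssubset_iff_of_subset]
        · exact ⟨x, Finset.mem_filter.2 ⟨hx, hlt⟩, fun h' => lt_irrefl _ (Finset.mem_filter.1 h').2⟩
        · intro z hz
          rw [before, Finset.mem_filter] at hz ⊢
          exact ⟨hz.1, hz.2.trans hlt⟩
      exact absurd h this.ne
    · have : (before σ A y).card < (before σ A x).card := by
        refine Finset.card_lt_card ?_
        rw [Finset.ssubset_iff_of_subset]
        · exact ⟨y, Finset.mem_filter.2 ⟨hy, hlt⟩, fun h' => lt_irrefl _ (Finset.mem_filter.1 h').2⟩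
        · intro z hz
          rw [before, Finset.mem_filter] at hz ⊢
          exact ⟨hz.1, hz.2.trans hlt⟩
      exact absurd h this.ne'
  have hmaps : ∀ x ∈ A, (before σ A x).card ∈ range A.card := by
    intro x hx
    rw [Finset.mem_range]
    have hsub : before σ A x ⊆ A := Finset.filter_subset _ _
    refine Finset.card_lt_card ?_
    rw [Finset.ssubset_iff_of_subset hsub]
    exact ⟨x, hx, fun h' => lt_irrefl _ (Finset.mem_filter.1 h').2⟩
  have himage : A.image (fun x => (before σ A x).card) = range A.card := by
    refine Finset.eq_of_subset_of_card_le ?_ ?_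
    · intro y hy
      obtain ⟨x, hx, rfl⟩ := Finset.mem_image.1 hy
      exact hmaps x hx
    · rw [Finset.card_image_of_injOn hinj, Finset.card_range]
  have ht' : t ∈ A.image (fun x => (before σ A x).card) := by
    rw [himage]
    exact Finset.mem_range.2 ht
  obtain ⟨x, hx, hxt⟩ := Finset.mem_image.1 ht'
  rw [Finset.card_eq_one]
  refine ⟨x, ?_⟩
  ext y
  rw [Finset.mem_filter, Finset.mem_singleton]
  constructor
  · rintro ⟨hy, hyt⟩
    exact hinj hy hx (hyt.trans hxt.symm)
  · intro h
    subst h
    exact ⟨hx, hxt⟩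

open Classical in
/-- **Rank lemma.** -/
theorem rank_lemma {W : (Fin N ≃ α) → Prop} {A : Finset α} (hW : Inv A W) {x : α} (hx : x ∈ A)
    {T : Finset α} (hT : T ⊆ A.erase x) :
    cn W A x T * (A.card * (A.card - 1).choose T.card)
      = (univ.filter (fun σ : Fin N ≃ α => W σ)).card := by
  have hTlt : T.card < A.card := by
    have h1 := Finset.card_le_card hT
    rw [Finset.card_erase_of_mem hx] at h1
    have : 0 < A.card := Finset.card_pos.2 ⟨x, hx⟩
    omega
  have h1 : ∑ y ∈ A, ∑ S ∈ (A.erase y).powersetCard T.card, cn W A y S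
      = (univ.filter (fun σ : Fin N ≃ α => W σ)).card := by
    have h2 : ∀ y ∈ A, ∑ S ∈ (A.erase y).powersetCard T.card, cn W A y S
        = (univ.filter (fun σ : Fin N ≃ α => W σ ∧ (before σ A y).card = T.card)).card := by
      intro y hy
      have h3 := Finset.card_eq_sum_card_fiberwise (s := univ.filter (fun σ : Fin N ≃ α =>
        W σ ∧ (before σ A y).card = T.card)) (t := (A.erase y).powersetCard T.card)
        (f := fun σ => before σ A y) (by
          intro σ hσ
          have hσ' := (Finset.mem_filter.1 (Finset.mem_coe.1 hσ)).2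
          rw [Finset.mem_coe, Finset.mem_powersetCard]
          refine ⟨?_, hσ'.2⟩
          intro z hz
          have hz' := Finset.mem_filter.1 hz
          rw [Finset.mem_erase]
          exact ⟨fun h => lt_irrefl _ (h ▸ hz'.2), hz'.1⟩)
      rw [h3]
      refine Finset.sum_congr rfl (fun S hS => ?_)
      unfold cn
      congr 1
      ext σ
      rw [Finset.mem_filter, Finset.mem_filter, Finset.mem_filter]
      have hS' := (Finset.mem_powersetCard.1 hS).2
      constructor
      · rintro ⟨_, h4, h5⟩
        exact ⟨⟨Finset.mem_univ _, h4, by rw [h5, hS']⟩, h5⟩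
      · rintro ⟨⟨_, h4, _⟩, h5⟩
        exact ⟨Finset.mem_univ _, h4, h5⟩
    rw [Finset.sum_congr rfl h2]
    have h4 : ∀ y ∈ A, (univ.filter (fun σ : Fin N ≃ α => W σ ∧
        (before σ A y).card = T.card)).card
        = ∑ σ : Fin N ≃ α, if W σ ∧ (before σ A y).card = T.card then 1 else 0 := by
      intro y _
      rw [Finset.card_filter]
    rw [Finset.sum_congr rfl h4, Finset.sum_comm, Finset.card_filter]
    refine Finset.sum_congr rfl (fun σ _ => ?_)
    by_cases hσ : W σ
    · rw [if_pos hσ]
      have h5 := rank_unique σ A T.card hTlt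
      rw [Finset.card_filter] at h5
      refine Eq.trans (Finset.sum_congr rfl (fun y _ => ?_)) h5
      simp only [hσ, true_and]
    · rw [if_neg hσ]
      refine Finset.sum_eq_zero (fun y _ => ?_)
      simp [hσ]
  rw [← h1]
  have h6 : ∀ y ∈ A, ∑ S ∈ (A.erase y).powersetCard T.card, cn W A y S
      = (A.card - 1).choose T.card * cn W A x T := by
    intro y hy
    have h7 : ∀ S ∈ (A.erase y).powersetCard T.card, cn W A y S = cn W A x T := by
      intro S hS
      obtain ⟨h8, h9⟩ := Finset.mem_powersetCard.1 hS
      exact cn_eq hW hy hx h8 hT h9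
    rw [Finset.sum_congr rfl h7, Finset.sum_const, Finset.card_powersetCard,
      Finset.card_erase_of_mem hy, smul_eq_mul]
  rw [Finset.sum_congr rfl h6, Finset.sum_const, smul_eq_mul]
  ring

/-- The probability that fewer than `k` elements of each of two sets of sizes `a` and `b` come
before `e`. -/
noncomputable def pk (k a b : ℕ) : ℝ :=
  ∑ i ∈ range k, ∑ j ∈ range k,
    ((a.choose i : ℝ) * (b.choose j)) / (((a + b + 1 : ℕ) : ℝ) * ((a + b).choose (i + j)))

open Classical in
theorem two_sided_count {W : (Fin N ≃ α) → Prop} {A1 A2 : Finset α} {e : α} (he1 : e ∉ A1)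
    (he2 : e ∉ A2) (hd : Disjoint A1 A2) (hW : Inv (insert e (A1 ∪ A2)) W) (k : ℕ) :
    ((univ.filter (fun σ : Fin N ≃ α => W σ ∧ (before σ A1 e).card < k ∧
      (before σ A2 e).card < k)).card : ℝ)
      = pk k A1.card A2.card * ((univ.filter (fun σ : Fin N ≃ α => W σ)).card : ℝ) := by
  set A := insert e (A1 ∪ A2) with hA
  have heA : e ∈ A := Finset.mem_insert_self _ _
  have hAe : A.erase e = A1 ∪ A2 := by
    rw [hA, Finset.erase_insert]
    rw [Finset.mem_union, not_or]
    exact ⟨he1, he2⟩
  have hcard : A.card = A1.card + A2.card + 1 := by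
    rw [hA, Finset.card_insert_of_notMem, Finset.card_union_of_disjoint hd]
    rw [Finset.mem_union, not_or]
    exact ⟨he1, he2⟩
  -- value of each term
  have hterm : ∀ T1 T2 : Finset α, T1 ⊆ A1 → T2 ⊆ A2 →
      (cn W A e (T1 ∪ T2) : ℝ) = ((univ.filter (fun σ : Fin N ≃ α => W σ)).card : ℝ)
        / (((A1.card + A2.card + 1 : ℕ) : ℝ) *
          ((A1.card + A2.card).choose (T1.card + T2.card))) := by
    intro T1 T2 h1 h2
    have hsub : T1 ∪ T2 ⊆ A.erase e := by
      rw [hAe]
      exact Finset.union_subset_union h1 h2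
    have hdT : Disjoint T1 T2 := Finset.disjoint_of_subset_left h1
      (Finset.disjoint_of_subset_right h2 hd)
    have h3 := rank_lemma hW heA hsub
    rw [hcard, Finset.card_union_of_disjoint hdT, Nat.add_sub_cancel] at h3
    have hchoose : 0 < (A1.card + A2.card).choose (T1.card + T2.card) :=
      Nat.choose_pos (Nat.add_le_add (Finset.card_le_card h1) (Finset.card_le_card h2))
    rw [eq_div_iff (by positivity)]
    exact_mod_cast h3
  have hsplit : (univ.filter (fun σ : Fin N ≃ α => W σ ∧ (before σ A1 e).card < k ∧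
      (before σ A2 e).card < k)).card
      = ∑ i ∈ range k, ∑ j ∈ range k, ∑ T1 ∈ A1.powersetCard i, ∑ T2 ∈ A2.powersetCard j,
        cn W A e (T1 ∪ T2) := by
    have key : ∀ σ : Fin N ≃ α, (if W σ ∧ (before σ A1 e).card < k ∧
        (before σ A2 e).card < k then 1 else 0)
        = ∑ i ∈ range k, ∑ j ∈ range k, ∑ T1 ∈ A1.powersetCard i, ∑ T2 ∈ A2.powersetCard j,
          if W σ ∧ before σ A e = T1 ∪ T2 then 1 else 0 := by
      intro σ
      have hbA : before σ A e = before σ A1 e ∪ before σ A2 e := by
        rw [hA]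
        unfold before
        rw [Finset.filter_insert, if_neg (lt_irrefl _), Finset.filter_union]
      have hiff : ∀ T1 T2 : Finset α, T1 ⊆ A1 → T2 ⊆ A2 →
          (before σ A e = T1 ∪ T2 ↔ before σ A1 e = T1 ∧ before σ A2 e = T2) := by
        intro T1 T2 h1 h2
        rw [hbA]
        constructor
        · intro h
          have hb1 : before σ A1 e ⊆ A1 := Finset.filter_subset _ _
          have hb2 : before σ A2 e ⊆ A2 := Finset.filter_subset _ _
          have hin1 : ∀ (X Y : Finset α), X ⊆ A1 → Y ⊆ A2 → (X ∪ Y) ∩ A1 = X := by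
            intro X Y hX hY
            rw [Finset.union_inter_distrib_right, Finset.inter_eq_left.2 hX]
            have : Y ∩ A1 = ∅ := by
              rw [← Finset.disjoint_iff_inter_eq_empty]
              exact (Finset.disjoint_of_subset_right hY hd).symm
            rw [this, Finset.union_empty]
          have hin2 : ∀ (X Y : Finset α), X ⊆ A1 → Y ⊆ A2 → (X ∪ Y) ∩ A2 = Y := by
            intro X Y hX hY
            rw [Finset.union_inter_distrib_right, Finset.inter_eq_left.2 hY]
            have : X ∩ A2 = ∅ := by
              rw [← Finset.disjoint_iff_inter_eq_empty]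
              exact Finset.disjoint_of_subset_left hX hd
            rw [this, Finset.empty_union]
          constructor
          · rw [← hin1 _ _ hb1 hb2, h, hin1 _ _ h1 h2]
          · rw [← hin2 _ _ hb1 hb2, h, hin2 _ _ h1 h2]
        · rintro ⟨rfl, rfl⟩
          rfl
      have hinner : ∀ i ∈ range k, ∀ j ∈ range k,
          ∑ T1 ∈ A1.powersetCard i, ∑ T2 ∈ A2.powersetCard j,
            (if W σ ∧ before σ A e = T1 ∪ T2 then 1 else 0)
          = if W σ ∧ (before σ A1 e).card = i ∧ (before σ A2 e).card = j then 1 else 0 := by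
        intro i _ j _
        have h1 : ∀ T1 ∈ A1.powersetCard i, ∑ T2 ∈ A2.powersetCard j,
            (if W σ ∧ before σ A e = T1 ∪ T2 then 1 else 0)
            = if W σ ∧ before σ A1 e = T1 ∧ (before σ A2 e).card = j then 1 else 0 := by
          intro T1 hT1
          have hT1' := (Finset.mem_powersetCard.1 hT1).1
          by_cases hj : (before σ A2 e).card = j
          · rw [Finset.sum_eq_single (before σ A2 e)]
            · have h3 : (before σ A e = T1 ∪ before σ A2 e) ↔ before σ A1 e = T1 := by
                rw [hiff T1 (before σ A2 e) hT1' (Finset.filter_subset _ _)]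
                simp
              simp only [h3, hj, and_true]
            · intro T2 hT2 hne
              rw [if_neg]
              rintro ⟨_, h2⟩
              rw [hiff T1 T2 hT1' (Finset.mem_powersetCard.1 hT2).1] at h2
              exact hne h2.2.symm
            · intro h
              exact absurd (Finset.mem_powersetCard.2 ⟨Finset.filter_subset _ _, hj⟩) h
          · rw [if_neg (fun h => hj h.2.2)]
            refine Finset.sum_eq_zero (fun T2 hT2 => ?_)
            rw [if_neg]
            rintro ⟨_, h2⟩
            rw [hiff T1 T2 hT1' (Finset.mem_powersetCard.1 hT2).1] at h2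
            exact hj (by rw [h2.2]; exact (Finset.mem_powersetCard.1 hT2).2)
        rw [Finset.sum_congr rfl h1]
        by_cases hi : (before σ A1 e).card = i
        · rw [Finset.sum_eq_single (before σ A1 e)]
          · simp only [hi, true_and]
          · intro T1 _ hne
            rw [if_neg]
            rintro ⟨_, h2, _⟩
            exact hne h2.symm
          · intro h
            exact absurd (Finset.mem_powersetCard.2 ⟨Finset.filter_subset _ _, hi⟩) h
        · rw [if_neg (fun h => hi h.2.1)]
          refine Finset.sum_eq_zero (fun T1 hT1 => ?_)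
          rw [if_neg]
          rintro ⟨_, h2, _⟩
          exact hi (by rw [h2]; exact (Finset.mem_powersetCard.1 hT1).2)
      rw [Finset.sum_congr rfl (fun i hi => Finset.sum_congr rfl (fun j hj => hinner i hi j hj))]
      by_cases hall : W σ ∧ (before σ A1 e).card < k ∧ (before σ A2 e).card < k
      · rw [if_pos hall, Finset.sum_eq_single (before σ A1 e).card]
        · rw [Finset.sum_eq_single (before σ A2 e).card]
          · simp [hall.1]
          · intro j _ hne
            rw [if_neg]
            rintro ⟨_, _, h2⟩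
            exact hne h2.symm
          · intro h
            exact absurd (Finset.mem_range.2 hall.2.2) h
        · intro i _ hne
          refine Finset.sum_eq_zero (fun j _ => ?_)
          rw [if_neg]
          rintro ⟨_, h2, _⟩
          exact hne h2.symm
        · intro h
          exact absurd (Finset.mem_range.2 hall.2.1) h
      · rw [if_neg hall]
        symm
        refine Finset.sum_eq_zero (fun i hi => Finset.sum_eq_zero (fun j hj => ?_))
        rw [if_neg]
        rintro ⟨h1, h2, h3⟩
        exact hall ⟨h1, by rw [h2]; exact Finset.mem_range.1 hi,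
          by rw [h3]; exact Finset.mem_range.1 hj⟩
    rw [Finset.card_filter, Finset.sum_congr rfl (fun σ _ => key σ), Finset.sum_comm]
    refine Finset.sum_congr rfl (fun i _ => ?_)
    rw [Finset.sum_comm]
    refine Finset.sum_congr rfl (fun j _ => ?_)
    rw [Finset.sum_comm]
    refine Finset.sum_congr rfl (fun T1 _ => ?_)
    rw [Finset.sum_comm]
    refine Finset.sum_congr rfl (fun T2 _ => ?_)
    unfold cn
    rw [Finset.card_filter]
  rw [hsplit, pk]
  push_cast
  rw [Finset.sum_mul]
  refine Finset.sum_congr rfl (fun i _ => ?_)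
  rw [Finset.sum_mul]
  refine Finset.sum_congr rfl (fun j _ => ?_)
  have h1 : ∑ T1 ∈ A1.powersetCard i, ∑ T2 ∈ A2.powersetCard j, (cn W A e (T1 ∪ T2) : ℝ)
      = ∑ T1 ∈ A1.powersetCard i, ∑ T2 ∈ A2.powersetCard j,
        ((univ.filter (fun σ : Fin N ≃ α => W σ)).card : ℝ)
        / (((A1.card + A2.card + 1 : ℕ) : ℝ) * ((A1.card + A2.card).choose (i + j))) := by
    refine Finset.sum_congr rfl (fun T1 hT1 => Finset.sum_congr rfl (fun T2 hT2 => ?_))
    obtain ⟨h2, h3⟩ := Finset.mem_powersetCard.1 hT1
    obtain ⟨h4, h5⟩ := Finset.mem_powersetCard.1 hT2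
    rw [hterm T1 T2 h2 h4, h3, h5]
  rw [h1]
  simp only [Finset.sum_const, Finset.card_powersetCard, nsmul_eq_mul]
  push_cast
  ring

end Pool.Agent.Work.MP_59e60d_pr
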