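import Pool.Agent.Work.MP_59e60d_pr.NearestConst
import Pool.Agent.Work.MP_59e60d_pr.Rank

/-!
# Existence of the constant of the `k`-nearest neighbour graph
-/

set_option linter.unusedSectionVars false

namespace Pool.Agent.Work.MP_59e60d_pr

open Finset Filter Topology

variable {n : ℕ}

/-! ### Edges from ordered pairs -/

/-- The edge `uv` (and a junk value if `u = v`, which never matters). -/
def mk (u v : Fin n) (h : u ≠ v) : Edge n := ⟨s(u, v), by rw [Sym2.mk_isDiag_iff]; exact h⟩

theorem mk_comm (u v : Fin n) (h : u ≠ v) : mk u v h = mk v u h.symm :=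
  Subtype.ext Sym2.eq_swap

theorem mem_mk {u v w : Fin n} {h : u ≠ v} : w ∈ (mk u v h).1 ↔ w = u ∨ w = v := Sym2.mem_iff

/-- The edges at `u` which avoid the vertices in `E`. -/
def SS (u : Fin n) (E : Finset (Fin n)) : Finset (Edge n) :=
  univ.filter (fun f => u ∈ f.1 ∧ ∀ z ∈ E, z ∉ f.1)

theorem mem_SS {u : Fin n} {E : Finset (Fin n)} {f : Edge n} :
    f ∈ SS u E ↔ u ∈ f.1 ∧ ∀ z ∈ E, z ∉ f.1 := by
  simp [SS]

theorem card_SS (u : Fin n) (E : Finset (Fin n)) (hu : u ∉ E) :
    (SS u E).card = n - 1 - E.card := by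
  have h : ((univ : Finset (Fin n)) \ (insert u E)).card = n - 1 - E.card := by
    rw [Finset.card_sdiff_of_subset (Finset.subset_univ _), Finset.card_insert_of_notMem hu]
    simp
    omega
  rw [← h]
  symm
  refine Finset.card_bij (fun w hw => mk u w (fun e => by
    subst e
    exact (Finset.mem_sdiff.1 hw).2 (Finset.mem_insert_self _ _))) ?_ ?_ ?_
  · intro w hw
    rw [mem_SS]
    refine ⟨mem_mk.2 (Or.inl rfl), fun z hz hzm => ?_⟩
    rcases mem_mk.1 hzm with h1 | h1
    · exact hu (h1 ▸ hz)
    · subst h1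
      exact (Finset.mem_sdiff.1 hw).2 (Finset.mem_insert_of_mem hz)
  · intro w hw w' hw' h1
    exact Sym2.congr_right.1 (congrArg Subtype.val h1)
  · intro e he
    rw [mem_SS] at he
    obtain ⟨w, hw⟩ := Sym2.mem_iff_exists.1 he.1
    have hne : u ≠ w := by
      intro h1
      apply e.2
      rw [hw, Sym2.mk_isDiag_iff]
      exact h1
    refine ⟨w, ?_, Subtype.ext hw.symm⟩
    rw [Finset.mem_sdiff]
    refine ⟨Finset.mem_univ _, fun h1 => ?_⟩
    rcases Finset.mem_insert.1 h1 with h2 | h2
    · exact hne h2.symm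
    · exact he.2 w h2 (by rw [hw]; exact Sym2.mem_mk_right u w)

/-- `D k u v E`: the edge `uv` is among the first `k` edges at `u` and at `v`, if only the edges
avoiding `E` are considered. -/
def D (k : ℕ) (u v : Fin n) (h : u ≠ v) (E : Finset (Fin n)) (σ : Order n) : Prop :=
  (before σ (SS u (insert v E)) (mk u v h)).card < k ∧
    (before σ (SS v (insert u E)) (mk u v h)).card < k

theorem D_symm (k : ℕ) (u v : Fin n) (h : u ≠ v) (E : Finset (Fin n)) (σ : Order n) :
    D k u v h E σ ↔ D k v u h.symm E σ := by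
  unfold D
  rw [mk_comm u v h]
  exact and_comm

theorem D_mono (k : ℕ) (u v : Fin n) (h : u ≠ v) {E E' : Finset (Fin n)} (hE : E ⊆ E')
    (σ : Order n) (hD : D k u v h E σ) : D k u v h E' σ := by
  have key : ∀ (w w' : Fin n), before σ (SS w (insert w' E')) (mk u v h)
      ⊆ before σ (SS w (insert w' E)) (mk u v h) := by
    intro w w' f hf
    rw [before, Finset.mem_filter, mem_SS] at hf ⊢
    exact ⟨⟨hf.1.1, fun z hz => hf.1.2 z (Finset.insert_subset_insert _ hE hz)⟩, hf.2⟩
  exact ⟨lt_of_le_of_lt (Finset.card_le_card (key _ _)) hD.1,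
    lt_of_le_of_lt (Finset.card_le_card (key _ _)) hD.2⟩

theorem early_iff_before (k : ℕ) (σ : Order n) (u v : Fin n) (h : u ≠ v) :
    Early k σ u (mk u v h) ↔ (before σ (SS u {v}) (mk u v h)).card < k := by
  unfold Early
  have : (univ.filter (fun f : Edge n => u ∈ f.1 ∧ σ.symm f < σ.symm (mk u v h)))
      = before σ (SS u {v}) (mk u v h) := by
    ext f
    rw [before, Finset.mem_filter, Finset.mem_filter, mem_SS]
    constructor
    · rintro ⟨_, h1, h2⟩
      refine ⟨⟨h1, fun z hz hzf => ?_⟩, h2⟩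
      rw [Finset.mem_singleton] at hz
      subst hz
      have : f = mk u z h := by
        apply Subtype.ext
        exact (Sym2.mem_and_mem_iff h).1 ⟨h1, hzf⟩
      rw [this] at h2
      exact lt_irrefl _ h2
    · rintro ⟨⟨h1, _⟩, h2⟩
      exact ⟨Finset.mem_univ _, h1, h2⟩
  rw [this]

theorem D_iff_early (k : ℕ) (σ : Order n) (u v : Fin n) (h : u ≠ v) :
    D k u v h ∅ σ ↔ Early k σ u (mk u v h) ∧ Early k σ v (mk u v h) := by
  rw [early_iff_before, mk_comm u v h, early_iff_before]
  unfold D
  rw [mk_comm u v h]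
  rfl

open Classical in
theorem count_D (k : ℕ) (u v : Fin n) (h : u ≠ v) (E : Finset (Fin n)) (hu : u ∉ E) (hv : v ∉ E)
    (W : Order n → Prop) (hW : Inv (insert (mk u v h) (SS u (insert v E) ∪ SS v (insert u E))) W) :
    ((univ.filter (fun σ : Order n => W σ ∧ D k u v h E σ)).card : ℝ)
      = pk k (n - 2 - E.card) (n - 2 - E.card) * ((univ.filter (fun σ : Order n => W σ)).card : ℝ) := by
  have h1 : mk u v h ∉ SS u (insert v E) := by
    intro hm
    exact (mem_SS.1 hm).2 v (Finset.mem_insert_self _ _) (mem_mk.2 (Or.inr rfl))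
  have h2 : mk u v h ∉ SS v (insert u E) := by
    intro hm
    exact (mem_SS.1 hm).2 u (Finset.mem_insert_self _ _) (mem_mk.2 (Or.inl rfl))
  have h3 : Disjoint (SS u (insert v E)) (SS v (insert u E)) := by
    rw [Finset.disjoint_left]
    intro f hf hf'
    exact (mem_SS.1 hf).2 v (Finset.mem_insert_self _ _) (mem_SS.1 hf').1
  have h4 := two_sided_count h1 h2 h3 hW k
  have h5 : (SS u (insert v E)).card = n - 2 - E.card := by
    rw [card_SS u _ (by rw [Finset.mem_insert, not_or]; exact ⟨h, hu⟩),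
      Finset.card_insert_of_notMem hv]
    omega
  have h6 : (SS v (insert u E)).card = n - 2 - E.card := by
    rw [card_SS v _ (by rw [Finset.mem_insert, not_or]; exact ⟨h.symm, hv⟩),
      Finset.card_insert_of_notMem hu]
    omega
  rw [h5, h6] at h4
  rw [← h4]
  congr 1
  refine congrArg Finset.card (Finset.filter_congr (fun σ _ => ?_))
  simp only [D]

theorem before_swap_out (σ : Order n) (B : Finset (Edge n)) (e a b : Edge n) (haB : a ∉ B)
    (hbB : b ∉ B) (hae : e ≠ a) (hbe : e ≠ b) :
    before (σ.trans (Equiv.swap a b)) B e = before σ B e := by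
  ext y
  rw [before, before, Finset.mem_filter, Finset.mem_filter]
  refine and_congr_right (fun hy => ?_)
  have hya : y ≠ a := fun h => haB (h ▸ hy)
  have hyb : y ≠ b := fun h => hbB (h ▸ hy)
  simp only [Equiv.symm_trans_apply, Equiv.symm_swap]
  rw [Equiv.swap_apply_of_ne_of_ne hya hyb, Equiv.swap_apply_of_ne_of_ne hae hbe]

open Classical in
/-- Two disjoint pairs. -/
theorem count_DD (k : ℕ) (u v x y : Fin n) (h : u ≠ v) (h' : x ≠ y) (hux : u ≠ x) (huy : u ≠ y)
    (hvx : v ≠ x) (hvy : v ≠ y) :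
    ((univ.filter (fun σ : Order n => D k x y h' ∅ σ ∧ D k u v h ∅ σ)).card : ℝ)
      ≤ (pk k (n - 4) (n - 4)) ^ 2 * (Fintype.card (Order n) : ℝ) := by
  have hEcard : ∀ a b : Fin n, a ≠ b → n - 2 - ({a, b} : Finset (Fin n)).card = n - 4 := by
    intro a b hab
    rw [Finset.card_pair hab]
    omega
  have hW : Inv (insert (mk u v h) (SS u (insert v {x, y}) ∪ SS v (insert u {x, y})))
      (fun σ : Order n => D k x y h' {u, v} σ) := by
    intro a ha b hb σ
    have hnot : ∀ c ∈ insert (mk u v h) (SS u (insert v {x, y}) ∪ SS v (insert u {x, y})),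
        x ∉ (c : Edge n).1 ∧ y ∉ (c : Edge n).1 := by
      intro c hc
      rcases Finset.mem_insert.1 hc with h1 | h1
      · subst h1
        rw [mem_mk, mem_mk]
        constructor
        · rintro (h2 | h2)
          · exact hux h2.symm
          · exact hvx h2.symm
        · rintro (h2 | h2)
          · exact huy h2.symm
          · exact hvy h2.symm
      · rcases Finset.mem_union.1 h1 with h2 | h2
        · exact ⟨(mem_SS.1 h2).2 x (by simp), (mem_SS.1 h2).2 y (by simp)⟩
        · exact ⟨(mem_SS.1 h2).2 x (by simp), (mem_SS.1 h2).2 y (by simp)⟩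
    have hout : ∀ (w w' : Fin n) (_ : w = x ∨ w = y) (F : Finset (Fin n)) (c : Edge n)
        (_ : x ∉ c.1 ∧ y ∉ c.1), c ∉ SS w F := by
      intro w w' hw F c hc hm
      rcases hw with h1 | h1
      · subst h1; exact hc.1 (mem_SS.1 hm).1
      · subst h1; exact hc.2 (mem_SS.1 hm).1
    have hne : ∀ c : Edge n, (x ∉ c.1 ∧ y ∉ c.1) → mk x y h' ≠ c := by
      intro c hc he
      apply hc.1
      rw [← he]
      exact mem_mk.2 (Or.inl rfl)
    simp only [D]
    rw [before_swap_out σ _ _ a b (hout x x (Or.inl rfl) _ a (hnot a ha))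
      (hout x x (Or.inl rfl) _ b (hnot b hb)) (hne a (hnot a ha)) (hne b (hnot b hb)),
      before_swap_out σ _ _ a b (hout y y (Or.inr rfl) _ a (hnot a ha))
      (hout y y (Or.inr rfl) _ b (hnot b hb)) (hne a (hnot a ha)) (hne b (hnot b hb))]
  have h1 := count_D k u v h {x, y} (by simp [hux, huy]) (by simp [hvx, hvy]) _ hW
  have hT : Inv (insert (mk x y h') (SS x (insert y {u, v}) ∪ SS y (insert x {u, v})))
      (fun _ : Order n => True) := fun _ _ _ _ _ => Iff.rfl
  have h2 := count_D k x y h' {u, v} (by simp [hux.symm, hvx.symm]) (by simp [huy.symm, hvy.symm])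
    _ hT
  rw [hEcard x y h'] at h1
  rw [hEcard u v h] at h2
  have h3 : ((univ.filter (fun σ : Order n => D k x y h' {u, v} σ)).card : ℝ)
      = pk k (n - 4) (n - 4) * (Fintype.card (Order n) : ℝ) := by
    have h4 : ((univ.filter (fun _ : Order n => True)).card : ℝ) = (Fintype.card (Order n) : ℝ) := by
      simp
    rw [← h4]
    simp only [true_and] at h2
    convert h2 using 4
    ext σ
    simp
  rw [h3] at h1
  have h5 : (univ.filter (fun σ : Order n => D k x y h' ∅ σ ∧ D k u v h ∅ σ)).card
      ≤ (univ.filter (fun σ : Order n => D k x y h' {u, v} σ ∧ D k u v h {x, y} σ)).card := by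
    refine Finset.card_le_card (fun σ hσ => ?_)
    rw [Finset.mem_filter] at hσ ⊢
    exact ⟨Finset.mem_univ _, D_mono k x y h' (Finset.empty_subset _) σ hσ.2.1,
      D_mono k u v h (Finset.empty_subset _) σ hσ.2.2⟩
  calc ((univ.filter (fun σ : Order n => D k x y h' ∅ σ ∧ D k u v h ∅ σ)).card : ℝ)
      ≤ ((univ.filter (fun σ : Order n => D k x y h' {u, v} σ ∧ D k u v h {x, y} σ)).card : ℝ) := by
        exact_mod_cast h5
    _ = _ := by rw [h1]; ring

/-! ### The number of ordered two-sided pairs -/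

/-- Indicator of a two-sided ordered pair. -/
def dd (k : ℕ) (σ : Order n) (u v : Fin n) : ℕ :=
  if h : u ≠ v then (if Early k σ u (mk u v h) ∧ Early k σ v (mk u v h) then 1 else 0) else 0

theorem dd_le_one (k : ℕ) (σ : Order n) (u v : Fin n) : dd k σ u v ≤ 1 := by
  unfold dd
  split_ifs <;> omega

theorem dd_symm (k : ℕ) (σ : Order n) (u v : Fin n) : dd k σ u v = dd k σ v u := by
  unfold dd
  by_cases h : u ≠ v
  · rw [dif_pos h, dif_pos h.symm, mk_comm u v h]
    simp only [and_comm]
  · rw [dif_neg h, dif_neg (fun h' => h h'.symm)]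

/-- Number of ordered two-sided pairs. -/
def SP (k : ℕ) (σ : Order n) : ℕ := ∑ u, ∑ v, dd k σ u v

theorem sum_row (u : Fin n) (f : Edge n → ℕ) :
    ∑ v : Fin n, (if h : u ≠ v then f (mk u v h) else 0)
      = ∑ e : Edge n, if u ∈ e.1 then f e else 0 := by
  rw [← Finset.sum_filter]
  have h2 : ∑ v : Fin n, (if h : u ≠ v then f (mk u v h) else 0)
      = ∑ v ∈ univ.filter (fun v => u ≠ v), (if h : u ≠ v then f (mk u v h) else 0) := by
    rw [Finset.sum_filter]
    refine Finset.sum_congr rfl (fun v _ => ?_)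
    by_cases h : u ≠ v
    · rw [if_pos h]
    · rw [if_neg h, dif_neg h]
  rw [h2]
  refine Finset.sum_bij (fun v hv => mk u v (Finset.mem_filter.1 hv).2) ?_ ?_ ?_ ?_
  · intro v hv
    rw [Finset.mem_filter]
    exact ⟨Finset.mem_univ _, mem_mk.2 (Or.inl rfl)⟩
  · intro w hw w' hw' h1
    exact Sym2.congr_right.1 (congrArg Subtype.val h1)
  · intro e he
    have hv : u ∈ e.1 := (Finset.mem_filter.1 he).2
    obtain ⟨w, hw⟩ := Sym2.mem_iff_exists.1 hv
    have hne : u ≠ w := by
      intro h
      apply e.2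
      rw [hw, Sym2.mk_isDiag_iff]
      exact h
    exact ⟨w, Finset.mem_filter.2 ⟨Finset.mem_univ _, hne⟩, Subtype.ext hw.symm⟩
  · intro v hv
    rw [dif_pos (Finset.mem_filter.1 hv).2]

theorem sum_pairs (f : Edge n → ℕ) :
    ∑ u : Fin n, ∑ v : Fin n, (if h : u ≠ v then f (mk u v h) else 0) = 2 * ∑ e, f e := by
  rw [Finset.sum_congr rfl (fun u _ => sum_row u f), Finset.sum_comm, Finset.mul_sum]
  refine Finset.sum_congr rfl (fun e _ => ?_)
  rw [← Finset.sum_filter, Finset.sum_const, card_endpoints, smul_eq_mul]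

theorem early_card_le (k : ℕ) (σ : Order n) (v : Fin n) :
    ((star v).filter (fun e => Early k σ v e)).card ≤ k := by
  have hinj : Set.InjOn (fun e => (univ.filter (fun f : Edge n => v ∈ f.1 ∧
      σ.symm f < σ.symm e)).card) (((star v).filter (fun e => Early k σ v e)) : Finset (Edge n)) := by
    intro x hx y hy h
    have hx' := Finset.mem_filter.1 (Finset.mem_coe.1 hx)
    have hy' := Finset.mem_filter.1 (Finset.mem_coe.1 hy)
    have hxv : v ∈ x.1 := (Finset.mem_filter.1 hx'.1).2
    have hyv : v ∈ y.1 := (Finset.mem_filter.1 hy'.1).2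
    by_contra hne
    have key : ∀ a b : Edge n, v ∈ a.1 → σ.symm a < σ.symm b →
        (univ.filter (fun f : Edge n => v ∈ f.1 ∧ σ.symm f < σ.symm a)).card
        < (univ.filter (fun f : Edge n => v ∈ f.1 ∧ σ.symm f < σ.symm b)).card := by
      intro a b ha hab
      refine Finset.card_lt_card ?_
      rw [Finset.ssubset_iff_of_subset]
      · exact ⟨a, Finset.mem_filter.2 ⟨Finset.mem_univ _, ha, hab⟩,
          fun h' => lt_irrefl _ (Finset.mem_filter.1 h').2.2⟩
      · intro z hz
        rw [Finset.mem_filter] at hz ⊢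
        exact ⟨hz.1, hz.2.1, hz.2.2.trans hab⟩
    rcases lt_or_gt_of_ne (fun h' => hne (σ.symm.injective h') : σ.symm x ≠ σ.symm y) with hlt | hlt
    · exact absurd h (key x y hxv hlt).ne
    · exact absurd h (key y x hyv hlt).ne'
  calc ((star v).filter (fun e => Early k σ v e)).card
      = (((star v).filter (fun e => Early k σ v e)).image (fun e =>
          (univ.filter (fun f : Edge n => v ∈ f.1 ∧ σ.symm f < σ.symm e)).card)).card :=
        (Finset.card_image_of_injOn hinj).symm
    _ ≤ (range k).card := by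
        refine Finset.card_le_card (fun m hm => ?_)
        obtain ⟨e, he, rfl⟩ := Finset.mem_image.1 hm
        rw [Finset.mem_range]
        exact (Finset.mem_filter.1 he).2
    _ = k := Finset.card_range k

theorem early_row (k : ℕ) (σ : Order n) (u : Fin n) :
    ∑ v : Fin n, (if h : u ≠ v then (if Early k σ u (mk u v h) then 1 else 0) else 0)
      = ((star u).filter (fun e => Early k σ u e)).card := by
  rw [sum_row u (fun e => if Early k σ u e then 1 else 0), Finset.card_filter, star,
    Finset.sum_filter]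

theorem dd_row_le (k : ℕ) (σ : Order n) (u : Fin n) : ∑ v, dd k σ u v ≤ k := by
  refine le_trans ?_ (early_card_le k σ u)
  rw [← early_row k σ u]
  refine Finset.sum_le_sum (fun v _ => ?_)
  unfold dd
  by_cases h : u ≠ v
  · rw [dif_pos h, dif_pos h]
    by_cases h1 : Early k σ u (mk u v h)
    · rw [if_pos h1]; split_ifs <;> omega
    · rw [if_neg (fun h2 => h1 h2.1)]; exact Nat.zero_le _
  · rw [dif_neg h]; exact Nat.zero_le _

/-- The number of edges of the `k`-nearest neighbour graph. -/
theorem nearest_eq (k : ℕ) (hk : k + 1 ≤ n) (σ : Order n) :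
    2 * (nearest k σ).card + SP k σ = 2 * (k * n) := by
  have h1 : ∑ u : Fin n, ∑ v : Fin n,
      (if h : u ≠ v then (if Early k σ u (mk u v h) then 1 else 0) else 0) = k * n := by
    rw [Finset.sum_congr rfl (fun u _ => early_row k σ u)]
    have : ∀ u : Fin n, ((star u).filter (fun e => Early k σ u e)).card = k := fun u =>
      le_antisymm (early_card_le k σ u) (early_card k hk σ u)
    simp [this, mul_comm]
  have h2 : ∑ u : Fin n, ∑ v : Fin n,
      (if h : u ≠ v then (if Early k σ v (mk u v h) then 1 else 0) else 0) = k * n := by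
    rw [Finset.sum_comm, ← h1]
    refine Finset.sum_congr rfl (fun u _ => Finset.sum_congr rfl (fun v _ => ?_))
    by_cases h : u ≠ v
    · rw [dif_pos h, dif_pos h.symm, mk_comm u v h]
    · rw [dif_neg h, dif_neg (fun h' => h h'.symm)]
  have h3 : ∑ u : Fin n, ∑ v : Fin n,
      (if h : u ≠ v then (if mk u v h ∈ nearest k σ then 1 else 0) else 0)
      = 2 * (nearest k σ).card := by
    rw [sum_pairs (fun e => if e ∈ nearest k σ then 1 else 0)]
    congr 1
    rw [Finset.sum_boole]
    simp
  have h4 : ∀ u v : Fin n,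
      (if h : u ≠ v then (if mk u v h ∈ nearest k σ then 1 else 0) else 0) + dd k σ u v
      = (if h : u ≠ v then (if Early k σ u (mk u v h) then 1 else 0) else 0)
        + (if h : u ≠ v then (if Early k σ v (mk u v h) then 1 else 0) else 0) := by
    intro u v
    unfold dd
    by_cases h : u ≠ v
    · simp only [dif_pos h]
      have hiff : mk u v h ∈ nearest k σ ↔ (Early k σ u (mk u v h) ∨ Early k σ v (mk u v h)) := by
        rw [mem_nearest]
        constructor
        · rintro ⟨w, hw, hE⟩
          rcases mem_mk.1 hw with h5 | h5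
          · subst h5; left; exact hE
          · subst h5; right; exact hE
        · rintro (hE | hE)
          · exact ⟨u, mem_mk.2 (Or.inl rfl), hE⟩
          · exact ⟨v, mem_mk.2 (Or.inr rfl), hE⟩
      by_cases hu : Early k σ u (mk u v h) <;> by_cases hv : Early k σ v (mk u v h) <;>
        simp [hiff, hu, hv]
    · simp only [dif_neg h]
  have h5 := Finset.sum_congr rfl (fun (u : Fin n) (_ : u ∈ univ) =>
    Finset.sum_congr rfl (fun (v : Fin n) (_ : v ∈ univ) => h4 u v))
  simp only [Finset.sum_add_distrib] at h5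
  rw [h1, h2, h3] at h5
  unfold SP
  omega

/-! ### Moments -/

open Classical in
theorem sum_dd (k : ℕ) (u v : Fin n) (h : u ≠ v) :
    ∑ σ : Order n, (dd k σ u v : ℝ) = pk k (n - 2) (n - 2) * (Fintype.card (Order n) : ℝ) := by
  have hT : Inv (insert (mk u v h) (SS u (insert v ∅) ∪ SS v (insert u ∅)))
      (fun _ : Order n => True) := fun _ _ _ _ _ => Iff.rfl
  have h2 := count_D k u v h ∅ (by simp) (by simp) _ hT
  have h4 : ((univ.filter (fun _ : Order n => True)).card : ℝ) = (Fintype.card (Order n) : ℝ) := by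
    simp
  rw [← h4]
  rw [Finset.card_empty, Nat.sub_zero] at h2
  have h5 : ((univ.filter (fun σ : Order n => True ∧ D k u v h ∅ σ)).card : ℝ)
      = pk k (n - 2) (n - 2) * ((univ.filter (fun _ : Order n => True)).card : ℝ) := by
    convert h2 using 3
    · ext σ
      simp
    · refine congrArg Finset.card ?_
      ext σ
      simp
  rw [← h5, Finset.card_filter]
  push_cast
  refine Finset.sum_congr rfl (fun σ _ => ?_)
  unfold dd
  rw [dif_pos h]
  simp only [D_iff_early, true_and]
  push_cast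
  rfl

theorem sum_SP (k : ℕ) : ∑ σ : Order n, (SP k σ : ℝ)
    = ((n : ℝ) * (n - 1)) * pk k (n - 2) (n - 2) * (Fintype.card (Order n) : ℝ) := by
  unfold SP
  push_cast
  rw [Finset.sum_comm]
  have h1 : ∀ u : Fin n, ∑ σ : Order n, ∑ v, (dd k σ u v : ℝ)
      = (n - 1) * (pk k (n - 2) (n - 2) * (Fintype.card (Order n) : ℝ)) := by
    intro u
    rw [Finset.sum_comm]
    have h2 : ∀ v : Fin n, ∑ σ : Order n, (dd k σ u v : ℝ)
        = if u ≠ v then pk k (n - 2) (n - 2) * (Fintype.card (Order n) : ℝ) else 0 := by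
      intro v
      by_cases h : u ≠ v
      · rw [if_pos h, sum_dd k u v h]
      · rw [if_neg h]
        refine Finset.sum_eq_zero (fun σ _ => ?_)
        unfold dd
        rw [dif_neg h]
        simp
    rw [Finset.sum_congr rfl (fun v _ => h2 v), ← Finset.sum_filter, Finset.sum_const,
      nsmul_eq_mul]
    congr 1
    have h3 : (univ.filter (fun v : Fin n => u ≠ v)) = univ.erase u := by
      ext v
      simp [eq_comm]
    rw [h3, Finset.card_erase_of_mem (Finset.mem_univ u), Finset.card_univ, Fintype.card_fin,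
      Nat.cast_sub (by have := u.2; omega)]
    simp
  rw [Finset.sum_congr rfl (fun u _ => h1 u), Finset.sum_const, Finset.card_univ,
    Fintype.card_fin, nsmul_eq_mul]
  ring

/-- Products of indicators of disjoint pairs. -/
theorem sum_dd_dd (k : ℕ) (u v x y : Fin n) (hux : u ≠ x) (huy : u ≠ y)
    (hvx : v ≠ x) (hvy : v ≠ y) :
    ∑ σ : Order n, (dd k σ u v : ℝ) * dd k σ x y
      ≤ (pk k (n - 4) (n - 4)) ^ 2 * (Fintype.card (Order n) : ℝ) := by
  classical
  by_cases h : u ≠ v
  · by_cases h' : x ≠ y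
    · refine le_trans (le_of_eq ?_) (count_DD k u v x y h h' hux huy hvx hvy)
      rw [Finset.card_filter]
      push_cast
      refine Finset.sum_congr rfl (fun σ _ => ?_)
      unfold dd
      rw [dif_pos h, dif_pos h']
      simp only [D_iff_early]
      by_cases h1 : Early k σ u (mk u v h) ∧ Early k σ v (mk u v h) <;>
        by_cases h2 : Early k σ x (mk x y h') ∧ Early k σ y (mk x y h') <;> simp [h1, h2]
    · refine le_trans (le_of_eq (Finset.sum_eq_zero (fun σ _ => ?_))) (by positivity)
      unfold dd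
      rw [dif_neg h']
      simp
  · refine le_trans (le_of_eq (Finset.sum_eq_zero (fun σ _ => ?_))) (by positivity)
    unfold dd
    rw [dif_neg h]
    simp

/-- Pairs sharing a vertex. -/
theorem sum_adjacent (k : ℕ) (σ : Order n) :
    ∑ u, ∑ v, ∑ x, ∑ y, (if u = x ∨ u = y ∨ v = x ∨ v = y then dd k σ u v * dd k σ x y else 0)
      ≤ 4 * (k ^ 2 * n) := by
  have hcol : ∀ u : Fin n, ∑ v, dd k σ v u ≤ k := by
    intro u
    rw [Finset.sum_congr rfl (fun v _ => dd_symm k σ v u)]
    exact dd_row_le k σ u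
  have hbase : ∑ u, ∑ v, dd k σ u v * k ≤ k ^ 2 * n := by
    calc ∑ u, ∑ v, dd k σ u v * k = (∑ u, ∑ v, dd k σ u v) * k := by
          rw [Finset.sum_mul]
          exact Finset.sum_congr rfl (fun u _ => (Finset.sum_mul _ _ _).symm)
      _ ≤ (∑ _u : Fin n, k) * k :=
          Nat.mul_le_mul_right _ (Finset.sum_le_sum (fun u _ => dd_row_le k σ u))
      _ = k ^ 2 * n := by simp; ring
  have h1 : ∑ u, ∑ v, ∑ x, ∑ y, (if u = x ∨ u = y ∨ v = x ∨ v = y then
        dd k σ u v * dd k σ x y else 0)
      ≤ ∑ u, ∑ v, (dd k σ u v * k + dd k σ u v * k + dd k σ u v * k + dd k σ u v * k) := by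
    refine Finset.sum_le_sum (fun u _ => Finset.sum_le_sum (fun v _ => ?_))
    calc ∑ x, ∑ y, (if u = x ∨ u = y ∨ v = x ∨ v = y then dd k σ u v * dd k σ x y else 0)
        ≤ ∑ x, ∑ y, ((if u = x then dd k σ u v * dd k σ x y else 0)
            + (if u = y then dd k σ u v * dd k σ x y else 0)
            + (if v = x then dd k σ u v * dd k σ x y else 0)
            + (if v = y then dd k σ u v * dd k σ x y else 0)) := by
          refine Finset.sum_le_sum (fun x _ => Finset.sum_le_sum (fun y _ => ?_))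
          by_cases h : u = x ∨ u = y ∨ v = x ∨ v = y
          · rw [if_pos h]
            rcases h with h | h | h | h
            · rw [if_pos h]; omega
            · rw [if_pos h]; omega
            · rw [if_pos h]; omega
            · rw [if_pos h]; omega
          · rw [if_neg h]; exact Nat.zero_le _
      _ = dd k σ u v * ∑ y, dd k σ u y + dd k σ u v * ∑ x, dd k σ x u
            + dd k σ u v * ∑ y, dd k σ v y + dd k σ u v * ∑ x, dd k σ x v := by
          simp only [Finset.sum_add_distrib]
          congr 1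
          · congr 1
            · congr 1
              · rw [Finset.sum_comm]
                simp only [Finset.sum_ite_eq, Finset.mem_univ, if_true, Finset.mul_sum]
              · simp only [Finset.sum_ite_eq, Finset.mem_univ, if_true, Finset.mul_sum]
            · rw [Finset.sum_comm]
              simp only [Finset.sum_ite_eq, Finset.mem_univ, if_true, Finset.mul_sum]
          · simp only [Finset.sum_ite_eq, Finset.mem_univ, if_true, Finset.mul_sum]
      _ ≤ _ := by
          gcongr
          · exact dd_row_le k σ u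
          · exact hcol u
          · exact dd_row_le k σ v
          · exact hcol v
  refine h1.trans ?_
  simp only [Finset.sum_add_distrib]
  omega

theorem sum_SP_sq (k : ℕ) : ∑ σ : Order n, (SP k σ : ℝ) ^ 2
    ≤ (4 * (k ^ 2 * n) + (n : ℝ) ^ 4 * (pk k (n - 4) (n - 4)) ^ 2)
      * (Fintype.card (Order n) : ℝ) := by
  have h1 : ∀ σ : Order n, (SP k σ : ℝ) ^ 2
      ≤ 4 * (k ^ 2 * n) + ∑ u, ∑ v, ∑ x, ∑ y,
        (if u = x ∨ u = y ∨ v = x ∨ v = y then 0 else (dd k σ u v : ℝ) * dd k σ x y) := by
    intro σ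
    have h2 : (SP k σ : ℝ) ^ 2 = ∑ u, ∑ v, ∑ x, ∑ y, (dd k σ u v : ℝ) * dd k σ x y := by
      unfold SP
      push_cast
      rw [sq, Finset.sum_mul]
      refine Finset.sum_congr rfl (fun u _ => ?_)
      rw [Finset.sum_mul]
      refine Finset.sum_congr rfl (fun v _ => ?_)
      rw [Finset.mul_sum]
      refine Finset.sum_congr rfl (fun x _ => ?_)
      rw [Finset.mul_sum]
    have h3 : (∑ u, ∑ v, ∑ x, ∑ y, (dd k σ u v : ℝ) * dd k σ x y)
        = ∑ u, ∑ v, ∑ x, ∑ y, (if u = x ∨ u = y ∨ v = x ∨ v = y then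
            (dd k σ u v : ℝ) * dd k σ x y else 0)
          + ∑ u, ∑ v, ∑ x, ∑ y,
        (if u = x ∨ u = y ∨ v = x ∨ v = y then 0 else (dd k σ u v : ℝ) * dd k σ x y) := by
      simp only [← Finset.sum_add_distrib]
      refine Finset.sum_congr rfl (fun u _ => Finset.sum_congr rfl (fun v _ =>
        Finset.sum_congr rfl (fun x _ => Finset.sum_congr rfl (fun y _ => ?_))))
      split_ifs <;> simp
    have h4 : (∑ u, ∑ v, ∑ x, ∑ y, (if u = x ∨ u = y ∨ v = x ∨ v = y then
            (dd k σ u v : ℝ) * dd k σ x y else 0)) ≤ 4 * (k ^ 2 * n) := by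
      have := sum_adjacent k σ
      exact_mod_cast this
    rw [h2, h3]
    linarith
  calc ∑ σ : Order n, (SP k σ : ℝ) ^ 2
      ≤ ∑ σ : Order n, ((4 * (k ^ 2 * n) : ℝ) + ∑ u, ∑ v, ∑ x, ∑ y,
        (if u = x ∨ u = y ∨ v = x ∨ v = y then 0 else (dd k σ u v : ℝ) * dd k σ x y)) :=
        Finset.sum_le_sum (fun σ _ => h1 σ)
    _ = (4 * (k ^ 2 * n)) * (Fintype.card (Order n) : ℝ) + ∑ u, ∑ v, ∑ x, ∑ y,
        ∑ σ : Order n, (if u = x ∨ u = y ∨ v = x ∨ v = y then 0
          else (dd k σ u v : ℝ) * dd k σ x y) := by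
        rw [Finset.sum_add_distrib, Finset.sum_const, Finset.card_univ, nsmul_eq_mul]
        congr 1
        · ring
        · rw [Finset.sum_comm]
          refine Finset.sum_congr rfl (fun u _ => ?_)
          rw [Finset.sum_comm]
          refine Finset.sum_congr rfl (fun v _ => ?_)
          rw [Finset.sum_comm]
          refine Finset.sum_congr rfl (fun x _ => ?_)
          rw [Finset.sum_comm]
    _ ≤ (4 * (k ^ 2 * n)) * (Fintype.card (Order n) : ℝ) + ∑ _u : Fin n, ∑ _v : Fin n,
        ∑ _x : Fin n, ∑ _y : Fin n, (pk k (n - 4) (n - 4)) ^ 2 * (Fintype.card (Order n) : ℝ) := by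
        gcongr with u _ v _ x _ y _
        by_cases h : u = x ∨ u = y ∨ v = x ∨ v = y
        · simp only [if_pos h, Finset.sum_const_zero]
          positivity
        · simp only [if_neg h]
          push Not at h
          exact sum_dd_dd k u v x y h.1 h.2.1 h.2.2.1 h.2.2.2
    _ = _ := by
        simp only [Finset.sum_const, Finset.card_univ, Fintype.card_fin, nsmul_eq_mul]
        ring

/-! ### Asymptotics -/

/-- Limit of `n * pk`. -/
noncomputable def gam (k : ℕ) : ℝ :=
  (∑ i ∈ range k, ∑ j ∈ range k, ((i + j).choose i : ℝ) / 2 ^ (i + j)) / 2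

theorem tendsto_pk (k : ℕ) : Tendsto (fun a : ℕ => (a : ℝ) * pk k a a) atTop (𝓝 (gam k)) := by
  unfold pk gam
  simp_rw [Finset.mul_sum]
  rw [Finset.sum_div]
  refine tendsto_finsetSum _ (fun i _ => ?_)
  rw [Finset.sum_div]
  refine tendsto_finsetSum _ (fun j _ => ?_)
  have hinv : Tendsto (fun a : ℕ => (a : ℝ) * (1 / (a : ℝ))) atTop (𝓝 1) := by
    refine tendsto_const_nhds.congr' ?_
    filter_upwards [eventually_gt_atTop 0] with a ha
    have : (a : ℝ) ≠ 0 := by exact_mod_cast ha.ne'
    field_simp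
  have hinv2 : Tendsto (fun a : ℕ => (a : ℝ) * (2 / (a : ℝ))) atTop (𝓝 2) := by
    refine tendsto_const_nhds.congr' ?_
    filter_upwards [eventually_gt_atTop 0] with a ha
    have : (a : ℝ) ≠ 0 := by exact_mod_cast ha.ne'
    field_simp
  have h1 : ∀ i : ℕ, Tendsto (fun a : ℕ => (a.choose i : ℝ) * (1 / (a : ℝ)) ^ i) atTop
      (𝓝 (1 ^ i / i.factorial)) := fun i =>
    ProbabilityTheory.tendsto_choose_mul_pow_atTop i hinv
  have h2 : Tendsto (fun a : ℕ => ((2 * a).choose (i + j) : ℝ) * (1 / (a : ℝ)) ^ (i + j)) atTop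
      (𝓝 (2 ^ (i + j) / (i + j).factorial)) := by
    have h3 := (ProbabilityTheory.tendsto_choose_mul_pow_atTop (i + j) hinv2).comp
      (tendsto_id.const_mul_atTop' (by norm_num : 0 < 2) : Tendsto (fun a : ℕ => 2 * a) atTop atTop)
    refine h3.congr (fun a => ?_)
    simp only [Function.comp]
    push_cast
    congr 2
    rcases Nat.eq_zero_or_pos a with h | h
    · subst h; simp
    · have : (a : ℝ) ≠ 0 := by exact_mod_cast h.ne'
      field_simp
  have h4 : Tendsto (fun a : ℕ => ((2 * a + 1 : ℕ) : ℝ) * (1 / (a : ℝ))) atTop (𝓝 2) := by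
    have h5 : Tendsto (fun a : ℕ => 2 + 1 / (a : ℝ)) atTop (𝓝 (2 + 0)) :=
      tendsto_const_nhds.add tendsto_one_div_atTop_nhds_zero_nat
    rw [add_zero] at h5
    refine h5.congr' ?_
    filter_upwards [eventually_gt_atTop 0] with a ha
    have : (a : ℝ) ≠ 0 := by exact_mod_cast ha.ne'
    push_cast
    field_simp
  have h6 := ((h1 i).mul (h1 j)).div (h4.mul h2) (by positivity)
  have e : (1 : ℝ) ^ i / i.factorial * (1 ^ j / j.factorial)
      / (2 * (2 ^ (i + j) / (i + j).factorial)) = ((i + j).choose i : ℝ) / 2 ^ (i + j) / 2 := by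
    have h7 : ((i + j).choose i : ℝ) * i.factorial * j.factorial = (i + j).factorial := by
      have := Nat.add_choose_mul_factorial_mul_factorial i j
      rw [← Nat.choose_symm_add] at this
      exact_mod_cast this
    have hi : (i.factorial : ℝ) ≠ 0 := by exact_mod_cast i.factorial_ne_zero
    have hj : (j.factorial : ℝ) ≠ 0 := by exact_mod_cast j.factorial_ne_zero
    rw [← h7]
    field_simp
    simp
  rw [e] at h6
  refine h6.congr' ?_
  filter_upwards [eventually_gt_atTop (i + j)] with a ha
  have ha0 : (a : ℝ) ≠ 0 := by exact_mod_cast (by omega : a ≠ 0)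
  have hc : (((2 * a).choose (i + j) : ℕ) : ℝ) ≠ 0 := by
    exact_mod_cast (Nat.choose_pos (by omega : i + j ≤ 2 * a)).ne'
  have e2 : a + a = 2 * a := by ring
  rw [e2]
  have hp : (1 / (a : ℝ)) ^ (i + j) = (1 / (a : ℝ)) ^ i * (1 / (a : ℝ)) ^ j := pow_add _ _ _
  simp only [Pi.div_apply]
  rw [hp]
  have hi : (1 / (a : ℝ)) ^ i ≠ 0 := by positivity
  have hj : (1 / (a : ℝ)) ^ j ≠ 0 := by positivity
  field_simp

/-- The constant `o_k`. -/
noncomputable def oConst (k : ℕ) : ℝ := k - gam k / 2

theorem tendsto_pk' (k c : ℕ) : Tendsto (fun n : ℕ => (n : ℝ) * pk k (n - c) (n - c)) atTop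
    (𝓝 (gam k)) := by
  have h1 := (tendsto_pk k).comp (tendsto_sub_atTop_nat c)
  have h2 : Tendsto (fun n : ℕ => (n : ℝ) / ((n - c : ℕ) : ℝ)) atTop (𝓝 1) := by
    have h3 : Tendsto (fun a : ℕ => 1 + (c : ℝ) * (1 / (a : ℝ))) atTop (𝓝 (1 + c * 0)) :=
      tendsto_const_nhds.add (tendsto_one_div_atTop_nhds_zero_nat.const_mul _)
    rw [mul_zero, add_zero] at h3
    have h4 := h3.comp (tendsto_sub_atTop_nat c)
    refine h4.congr' ?_
    filter_upwards [eventually_gt_atTop c] with n hn
    have h5 : ((n - c : ℕ) : ℝ) = n - c := by rw [Nat.cast_sub hn.le]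
    have h6 : (n : ℝ) - c ≠ 0 := by
      have : (c : ℝ) < n := by exact_mod_cast hn
      linarith
    simp only [Function.comp]
    rw [h5]
    field_simp
    ring
  have h7 := h2.mul h1
  rw [one_mul] at h7
  refine h7.congr' ?_
  filter_upwards [eventually_gt_atTop c] with n hn
  have h6 : ((n - c : ℕ) : ℝ) ≠ 0 := by
    have : n - c ≠ 0 := by omega
    exact_mod_cast this
  simp only [Function.comp]
  field_simp

/-- **The constant `o_k` exists.** -/
theorem exists_nearest_const (k : ℕ) : IsNearestConst k (oConst k) := by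
  intro η hη
  set g := gam k with hg
  -- the second moment bound
  set B : ℕ → ℝ := fun n => (4 * k ^ 2) * (1 / (n : ℝ)) + ((n : ℝ) * pk k (n - 4) (n - 4)) ^ 2
    - 2 * g * ((1 - 1 / (n : ℝ)) * ((n : ℝ) * pk k (n - 2) (n - 2))) + g ^ 2 with hB
  have hBlim : Tendsto B atTop (𝓝 0) := by
    have h1 : Tendsto (fun n : ℕ => (1 : ℝ) / n) atTop (𝓝 0) := tendsto_one_div_atTop_nhds_zero_nat
    have h2 := (((h1.const_mul (4 * (k : ℝ) ^ 2)).add ((tendsto_pk' k 4).pow 2)).sub
      ((((tendsto_const_nhds (x := (1 : ℝ))).sub h1).mul (tendsto_pk' k 2)).const_mul (2 * g))).add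
      (tendsto_const_nhds (x := g ^ 2))
    have e : 4 * (k : ℝ) ^ 2 * 0 + gam k ^ 2 - 2 * g * ((1 - 0) * gam k) + g ^ 2 = 0 := by
      rw [← hg]; ring
    rw [e] at h2
    exact h2
  have hbound : ∀ᶠ n : ℕ in atTop,
      prob (fun σ : Order n => η < |((nearest k σ).card : ℝ) / n - oConst k|)
        ≤ B n / (4 * η ^ 2) := by
    filter_upwards [eventually_gt_atTop k, eventually_gt_atTop 0] with n hn hn0
    have hnR : (0 : ℝ) < n := by exact_mod_cast hn0
    have hcard : (0 : ℝ) < (Fintype.card (Order n) : ℝ) := by exact_mod_cast card_order_pos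
    classical
    unfold prob
    rw [div_le_iff₀ hcard]
    -- Chebyshev
    have h1 : (4 * η ^ 2) * ((univ.filter (fun σ : Order n =>
        η < |((nearest k σ).card : ℝ) / n - oConst k|)).card : ℝ)
        ≤ ∑ σ : Order n, ((SP k σ : ℝ) / n - g) ^ 2 := by
      rw [Finset.card_filter]
      push_cast
      rw [Finset.mul_sum]
      refine Finset.sum_le_sum (fun σ _ => ?_)
      split_ifs with h
      · have h2 := nearest_eq k hn σ
        have h3 : (2 : ℝ) * (nearest k σ).card + SP k σ = 2 * (k * n) := by exact_mod_cast h2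
        have h4 : ((nearest k σ).card : ℝ) / n - oConst k = -(((SP k σ : ℝ) / n - g) / 2) := by
          unfold oConst
          rw [← hg]
          field_simp
          linarith
        rw [h4, abs_neg, abs_div, abs_two, lt_div_iff₀ (by norm_num)] at h
        rw [mul_one, ← sq_abs ((SP k σ : ℝ) / n - g)]
        nlinarith
      · rw [mul_zero]
        positivity
    have h5 : ∑ σ : Order n, ((SP k σ : ℝ) / n - g) ^ 2 ≤ B n * (Fintype.card (Order n) : ℝ) := by
      have h6 : ∑ σ : Order n, ((SP k σ : ℝ) / n - g) ^ 2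
          = (1 / (n : ℝ) ^ 2) * ∑ σ : Order n, (SP k σ : ℝ) ^ 2
            - (2 * g / n) * ∑ σ : Order n, (SP k σ : ℝ)
            + g ^ 2 * (Fintype.card (Order n) : ℝ) := by
        rw [Finset.mul_sum, Finset.mul_sum, ← Finset.sum_sub_distrib]
        have h7 : g ^ 2 * (Fintype.card (Order n) : ℝ) = ∑ _σ : Order n, g ^ 2 := by
          rw [Finset.sum_const, Finset.card_univ, nsmul_eq_mul, mul_comm]
        rw [h7, ← Finset.sum_add_distrib]
        refine Finset.sum_congr rfl (fun σ _ => ?_)
        field_simp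
        ring
      have h8 := sum_SP_sq (n := n) k
      rw [h6, sum_SP]
      have h9 : (1 / (n : ℝ) ^ 2) * ∑ σ : Order n, (SP k σ : ℝ) ^ 2
          ≤ (1 / (n : ℝ) ^ 2) * ((4 * (k ^ 2 * n) + (n : ℝ) ^ 4 * (pk k (n - 4) (n - 4)) ^ 2)
      * (Fintype.card (Order n) : ℝ)) := mul_le_mul_of_nonneg_left h8 (by positivity)
      have h10 : (1 / (n : ℝ) ^ 2) * ((4 * (k ^ 2 * n) + (n : ℝ) ^ 4 * (pk k (n - 4) (n - 4)) ^ 2)
          * (Fintype.card (Order n) : ℝ)) - (2 * g / n) * (((n : ℝ) * (n - 1))
            * pk k (n - 2) (n - 2) * (Fintype.card (Order n) : ℝ))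
            + g ^ 2 * (Fintype.card (Order n) : ℝ) = B n * (Fintype.card (Order n) : ℝ) := by
        rw [hB]
        field_simp
      linarith
    have h11 : (4 * η ^ 2) * ((univ.filter (fun σ : Order n =>
        η < |((nearest k σ).card : ℝ) / n - oConst k|)).card : ℝ)
        ≤ B n * (Fintype.card (Order n) : ℝ) := h1.trans h5
    rw [div_mul_eq_mul_div, le_div_iff₀ (by positivity)]
    linarith
  refine tendsto_of_tendsto_of_tendsto_of_le_of_le' tendsto_const_nhds
    (by simpa using hBlim.div_const (4 * η ^ 2)) ?_ hbound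
  refine Filter.Eventually.of_forall (fun n => ?_)
  unfold prob
  positivity

open Classical in
/-- There is at most one constant `o_k`. -/
theorem const_unique {k : ℕ} {o o' : ℝ} (h : IsNearestConst k o) (h' : IsNearestConst k o') :
    o' = o := by
  by_contra hne
  have hpos : 0 < |o' - o| / 3 := by
    have := abs_pos.2 (sub_ne_zero.2 hne)
    positivity
  have h1 := (h _ hpos).add (h' _ hpos)
  rw [add_zero] at h1
  have h2 : ∀ n : ℕ, 1 ≤ prob (fun σ : Order n =>
      |o' - o| / 3 < |((nearest k σ).card : ℝ) / n - o|)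
      + prob (fun σ : Order n => |o' - o| / 3 < |((nearest k σ).card : ℝ) / n - o'|) := by
    intro n
    unfold prob
    have hc : (0 : ℝ) < (Fintype.card (Order n) : ℝ) := by
      exact_mod_cast card_order_pos
    rw [← add_div, le_div_iff₀ hc, one_mul]
    have h3 : (univ : Finset (Order n)) ⊆
        univ.filter (fun σ : Order n => |o' - o| / 3 < |((nearest k σ).card : ℝ) / n - o|)
        ∪ univ.filter (fun σ : Order n => |o' - o| / 3 < |((nearest k σ).card : ℝ) / n - o'|) := by
      intro σ _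
      rw [Finset.mem_union, Finset.mem_filter, Finset.mem_filter]
      by_contra hcon
      rw [not_or] at hcon
      have h4 : |((nearest k σ).card : ℝ) / n - o| ≤ |o' - o| / 3 := by
        by_contra h5
        exact hcon.1 ⟨Finset.mem_univ _, not_le.1 h5⟩
      have h5 : |((nearest k σ).card : ℝ) / n - o'| ≤ |o' - o| / 3 := by
        by_contra h5
        exact hcon.2 ⟨Finset.mem_univ _, not_le.1 h5⟩
      have h6 : |o' - o| ≤ |((nearest k σ).card : ℝ) / n - o| + |((nearest k σ).card : ℝ) / n - o'| := by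
        have := abs_sub (((nearest k σ).card : ℝ) / n - o) (((nearest k σ).card : ℝ) / n - o')
        have e : (((nearest k σ).card : ℝ) / n - o) - (((nearest k σ).card : ℝ) / n - o') = o' - o := by
          ring
        rwa [e] at this
      linarith
    have h4 := (Finset.card_le_card h3).trans (Finset.card_union_le _ _)
    rw [Finset.card_univ] at h4
    exact_mod_cast h4
  have h3 := ge_of_tendsto' h1 h2
  linarith

end Pool.Agent.Work.MP_59e60d_pr
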