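import Pool.Agent.Work.MP_59e60d_pr.UpperProb
import Pool.Agent.Work.MP_59e60d_pr.Exist

/-!
# The constants: closed form of `o_k` and comparison with `w_k`
-/

namespace Pool.Agent.Work.MP_59e60d_pr

open Finset Filter Topology

/-! ### The closed form of `o_k` -/

theorem sum_half (k : ℕ) : ∑ i ∈ range (k + 1), (((k + i).choose i : ℕ) : ℝ) / 2 ^ i = 2 ^ k := by
  induction k with
  | zero => simp
  | succ k ih =>
    set T : ℝ := ∑ i ∈ range (k + 1 + 1), (((k + 1 + i).choose i : ℕ) : ℝ) / 2 ^ i with hT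
    set c : ℝ := (((2 * k + 1).choose (k + 1) : ℕ) : ℝ) / 2 ^ (k + 1) with hc
    have h1 : T = ∑ i ∈ range (k + 1), (((k + 1 + (i + 1)).choose (i + 1) : ℕ) : ℝ) / 2 ^ (i + 1)
        + 1 := by
      rw [hT, Finset.sum_range_succ']
      simp
    have h2 : ∀ i : ℕ, (((k + 1 + (i + 1)).choose (i + 1) : ℕ) : ℝ) / 2 ^ (i + 1)
        = (((k + 1 + i).choose i : ℕ) : ℝ) / 2 ^ i / 2
          + (((k + (i + 1)).choose (i + 1) : ℕ) : ℝ) / 2 ^ (i + 1) := by
      intro i
      have e1 : k + 1 + (i + 1) = (k + 1 + i) + 1 := by ring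
      have e2 : k + (i + 1) = k + 1 + i := by ring
      rw [e1, Nat.choose_succ_succ, e2]
      push_cast
      field_simp
      ring
    have h3 : ∑ i ∈ range (k + 1), (((k + 1 + (i + 1)).choose (i + 1) : ℕ) : ℝ) / 2 ^ (i + 1)
        = (∑ i ∈ range (k + 1), (((k + 1 + i).choose i : ℕ) : ℝ) / 2 ^ i) / 2
          + ∑ i ∈ range (k + 1), (((k + (i + 1)).choose (i + 1) : ℕ) : ℝ) / 2 ^ (i + 1) := by
      rw [Finset.sum_div, ← Finset.sum_add_distrib]
      exact Finset.sum_congr rfl (fun i _ => h2 i)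
    have h4 : T = (∑ i ∈ range (k + 1), (((k + 1 + i).choose i : ℕ) : ℝ) / 2 ^ i) + 2 * c := by
      rw [hT, Finset.sum_range_succ]
      congr 1
      have e1 : k + 1 + (k + 1) = 2 * k + 1 + 1 := by ring
      rw [e1, Nat.choose_succ_succ, hc, Nat.choose_symm_half]
      push_cast
      ring
    have h5 : ∑ i ∈ range (k + 1), (((k + (i + 1)).choose (i + 1) : ℕ) : ℝ) / 2 ^ (i + 1) + 1
        = 2 ^ k + c := by
      have h6 : ∑ i ∈ range (k + 1 + 1), (((k + i).choose i : ℕ) : ℝ) / 2 ^ i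
          = ∑ i ∈ range (k + 1), (((k + (i + 1)).choose (i + 1) : ℕ) : ℝ) / 2 ^ (i + 1) + 1 := by
        rw [Finset.sum_range_succ']
        simp
      rw [← h6, Finset.sum_range_succ, ih, hc]
      congr 3
      rw [show k + (k + 1) = 2 * k + 1 by ring]
    rw [pow_succ]
    linarith

theorem gam_succ (k : ℕ) : gam (k + 1) = gam k + 1
    - (((2 * k).choose k : ℕ) : ℝ) / (2 * 4 ^ k) := by
  unfold gam
  have h1 : ∑ i ∈ range (k + 1), ∑ j ∈ range (k + 1), ((i + j).choose i : ℝ) / 2 ^ (i + j)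
      = ∑ i ∈ range k, ∑ j ∈ range k, ((i + j).choose i : ℝ) / 2 ^ (i + j)
        + 2 * ∑ i ∈ range k, ((k + i).choose i : ℝ) / 2 ^ (k + i)
        + ((2 * k).choose k : ℝ) / 2 ^ (2 * k) := by
    rw [Finset.sum_range_succ, Finset.sum_range_succ]
    have h2 : ∑ i ∈ range k, ∑ j ∈ range (k + 1), ((i + j).choose i : ℝ) / 2 ^ (i + j)
        = ∑ i ∈ range k, ∑ j ∈ range k, ((i + j).choose i : ℝ) / 2 ^ (i + j)
          + ∑ i ∈ range k, ((k + i).choose i : ℝ) / 2 ^ (k + i) := by
      rw [← Finset.sum_add_distrib]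
      refine Finset.sum_congr rfl (fun i _ => ?_)
      rw [Finset.sum_range_succ, Nat.add_comm i k]
    have h3 : ∑ j ∈ range k, ((k + j).choose k : ℝ) / 2 ^ (k + j)
        = ∑ i ∈ range k, ((k + i).choose i : ℝ) / 2 ^ (k + i) := by
      refine Finset.sum_congr rfl (fun i _ => ?_)
      rw [Nat.choose_symm_add]
    rw [h2, h3, ← two_mul k]
    ring
  rw [h1]
  have h4 := sum_half k
  rw [Finset.sum_range_succ] at h4
  have h5 : ∑ i ∈ range k, ((k + i).choose i : ℝ) / 2 ^ (k + i)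
      = (∑ i ∈ range k, ((k + i).choose i : ℝ) / 2 ^ i) / 2 ^ k := by
    rw [Finset.sum_div]
    refine Finset.sum_congr rfl (fun i _ => ?_)
    rw [pow_add]
    field_simp
  have h6 : ∑ i ∈ range k, ((k + i).choose i : ℝ) / 2 ^ i
      = 2 ^ k - ((2 * k).choose k : ℝ) / 2 ^ k := by
    rw [two_mul]
    linarith
  rw [h5, h6]
  have e1 : (2 : ℝ) ^ (2 * k) = 4 ^ k := by
    rw [pow_mul]
    norm_num
  have e2 : (2 : ℝ) ^ k * 2 ^ k = 4 ^ k := by
    rw [← mul_pow]
    norm_num
  rw [e1]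
  have h7 : (2 ^ k - ((2 * k).choose k : ℝ) / 2 ^ k) / 2 ^ k
      = 1 - ((2 * k).choose k : ℝ) / 4 ^ k := by
    rw [← e2]
    field_simp
  rw [h7]
  field_simp
  ring

/-- Closed form of the constant `o_k`. -/
theorem oConst_eq (k : ℕ) : oConst k = (k : ℝ) / 2
    + 1 / 4 * ∑ j ∈ range k, (((2 * j).choose j : ℕ) : ℝ) / 4 ^ j := by
  have h : gam k = k - 1 / 2 * ∑ j ∈ range k, (((2 * j).choose j : ℕ) : ℝ) / 4 ^ j := by
    induction k with
    | zero => simp [gam]
    | succ k ih =>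
      rw [gam_succ, ih, Finset.sum_range_succ]
      push_cast
      field_simp
      ring
  unfold oConst
  rw [h]
  ring

/-! ### The constants `w_k` -/

theorem qd_pos (d : ℕ) : 0 < qd d := by
  unfold qd
  have h1 : ∑ i ∈ range (d + 1), 1 / (i.factorial : ℝ) ≤ Real.exp 1 := by
    have := Real.sum_le_exp_of_nonneg (x := 1) zero_le_one (d + 1)
    simpa using this
  have h2 : ∑ i ∈ range d, 1 / (i.factorial : ℝ) < Real.exp 1 := by
    rw [Finset.sum_range_succ] at h1
    have : 0 < 1 / (d.factorial : ℝ) := by positivity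
    linarith
  have h3 := mul_lt_mul_of_pos_left h2 (Real.exp_pos (-1))
  rw [← Real.exp_add] at h3
  norm_num at h3
  have h4 : Real.exp (-1) * ∑ i ∈ range d, 1 / (i.factorial : ℝ) < 1 := by
    simpa using h3
  linarith

/-- The partial sums of the `qd` are at most one. -/
theorem sum_qd_le (k : ℕ) : ∑ m ∈ range k, qd (m + 1) ≤ 1 := by
  classical
  have h1 : Tendsto (fun n : ℕ => ∑ m ∈ range k, av (fun (v : Fin n) (σ : Order n) =>
      if (nbr σ v).card = m then (1 : ℝ) else 0)) atTop (𝓝 (∑ m ∈ range k, qd (m + 1))) :=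
    tendsto_finsetSum _ (fun m _ => tendsto_frac m)
  refine le_of_tendsto h1 ?_
  filter_upwards [eventually_ge_atTop 1] with n hn
  have h2 : ∑ m ∈ range k, av (fun (v : Fin n) (σ : Order n) =>
      if (nbr σ v).card = m then (1 : ℝ) else 0)
      = av (fun (v : Fin n) (σ : Order n) => ∑ m ∈ range k, 1 *
        (if (nbr σ v).card = m then (1 : ℝ) else 0)) := by
    rw [av_sum (range k) (fun _ => 1)
      (fun m v σ => if (nbr σ v).card = m then (1 : ℝ) else 0)]
    exact Finset.sum_congr rfl (fun m _ => (one_mul _).symm)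
  rw [h2]
  have h3 : av (fun (v : Fin n) (σ : Order n) => ∑ m ∈ range k, 1 *
        (if (nbr σ v).card = m then (1 : ℝ) else 0)) ≤ av (fun (_ : Fin n) (_ : Order n) => 1) := by
    apply av_mono
    intro v σ
    simp only [one_mul]
    rw [Finset.sum_ite_eq]
    split_ifs <;> norm_num
  refine h3.trans ?_
  unfold av
  have hn0 : (n : ℝ) ≠ 0 := by
    have : n ≠ 0 := by omega
    exact_mod_cast this
  have hc := (card_pos' (n := n)).ne'
  apply le_of_eq
  simp
  field_simp

theorem sum_qd_lt (k : ℕ) : ∑ m ∈ range k, qd (m + 1) < 1 := by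
  have h1 := sum_qd_le (k + 1)
  rw [Finset.sum_range_succ] at h1
  have := qd_pos (k + 1)
  linarith

theorem wConst_succ (k : ℕ) (hk : 1 ≤ k) :
    wConst (k + 1) = wConst k + 1 / 2 * ∑ m ∈ range k, qd (m + 1) := by
  obtain ⟨j, rfl⟩ : ∃ j, k = j + 1 := ⟨k - 1, by omega⟩
  unfold wConst
  simp only [Nat.add_sub_cancel]
  rw [Finset.sum_range_succ, Finset.sum_range_succ]
  have h1 : ∑ x ∈ range j, (((j + 1 + 1 : ℕ) : ℝ) - 1 - x) * qd (x + 1)
      = ∑ x ∈ range j, (((j + 1 : ℕ) : ℝ) - 1 - x) * qd (x + 1) + ∑ x ∈ range j, qd (x + 1) := by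
    rw [← Finset.sum_add_distrib]
    refine Finset.sum_congr rfl (fun x _ => ?_)
    push_cast
    ring
  rw [h1]
  push_cast
  ring

theorem wConst_one : wConst 1 = 3 / 4 := by
  unfold wConst
  simp

theorem wConst_le (k : ℕ) (hk : 1 ≤ k) : wConst k ≤ (k : ℝ) / 2 + 1 / 4 := by
  induction k with
  | zero => omega
  | succ k ih =>
    by_cases h : k = 0
    · subst h
      rw [wConst_one]
      norm_num
    · have h1 := ih (by omega)
      rw [wConst_succ k (by omega)]
      have h2 := sum_qd_le k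
      push_cast
      linarith

theorem half_le_wConst (k : ℕ) : (k : ℝ) / 2 ≤ wConst k := by
  have h1 := tendsto_ex_WW k
  have h2 : (k : ℝ) ≤ 2 * wConst k := by
    refine ge_of_tendsto h1 ?_
    filter_upwards [eventually_ge_atTop 1] with n hn
    have hn0 : (0 : ℝ) < n := by exact_mod_cast hn
    rw [le_div_iff₀ hn0]
    have h3 : ex (fun _ : Order n => (k : ℝ) * n)
        ≤ ex (fun σ : Order n => (WW k (nearest 1 σ) : ℝ)) := by
      apply ex_mono
      intro σ
      have h4 : k * n ≤ WW k (nearest 1 σ) := by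
        unfold WW
        calc k * n = ∑ _v : Fin n, k := by simp [mul_comm]
          _ ≤ _ := Finset.sum_le_sum (fun v _ => le_max_left _ _)
      exact_mod_cast h4
    refine le_trans (le_of_eq ?_) h3
    unfold ex
    rw [Finset.sum_const, Finset.card_univ, nsmul_eq_mul]
    exact (mul_div_cancel_left₀ _ (card_pos' (n := n)).ne').symm
  linarith

/-- `k / 2 < w_k`. -/
theorem half_lt_wConst (k : ℕ) (hk : 1 ≤ k) : (k : ℝ) / 2 < wConst k := by
  have h1 := half_le_wConst (k + 1)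
  rw [wConst_succ k hk] at h1
  have h2 := sum_qd_lt k
  push_cast at h1
  linarith

theorem oConst_one : oConst 1 = 3 / 4 := by
  rw [oConst_eq]
  norm_num

/-- `w_k < o_k` for `k ≥ 2`. -/
theorem wConst_lt_oConst (k : ℕ) (hk : 2 ≤ k) : wConst k < oConst k := by
  have h1 := wConst_le k (by omega)
  have h2 : (3 : ℝ) / 2 ≤ ∑ j ∈ range k, (((2 * j).choose j : ℕ) : ℝ) / 4 ^ j := by
    have h3 : ∑ j ∈ range 2, (((2 * j).choose j : ℕ) : ℝ) / 4 ^ j
        ≤ ∑ j ∈ range k, (((2 * j).choose j : ℕ) : ℝ) / 4 ^ j :=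
      Finset.sum_le_sum_of_subset_of_nonneg (Finset.range_mono hk)
        (fun i _ _ => by positivity)
    refine le_trans (le_of_eq ?_) h3
    rw [Finset.sum_range_succ, Finset.sum_range_one]
    norm_num
  rw [oConst_eq]
  linarith

end Pool.Agent.Work.MP_59e60d_pr
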