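import Mathlib

/-!
# Optimal budget for minimum degree `k` at its hitting time: definitions

The random graph process on `Fin n`, its hitting time of minimum degree `k`, the online strategies
of Builder, and the random `k`-nearest neighbour graph.
-/

namespace Pool.Agent.Work.MP_59e60d_pr

open Finset Filter Topology

/-- The edges of the complete graph on the vertex set `Fin n`: unordered pairs of distinct
vertices. -/
abbrev Edge (n : ℕ) : Type := {e : Sym2 (Fin n) // ¬ e.IsDiag}

/-- An order in which all `n.choose 2` edges of the complete graph are shown: the edge shown at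
step `s` (with `1 ≤ s`) is the value at `s - 1`. -/
abbrev Order (n : ℕ) : Type := Fin (n.choose 2) ≃ Edge n

open Classical in
/-- The probability of the event `A` when the order of the edges is uniformly random. -/
noncomputable def prob {n : ℕ} (A : Order n → Prop) : ℝ :=
  ((univ.filter A).card : ℝ) / (Fintype.card (Order n) : ℝ)

/-- The degree of the vertex `v` in the graph with edge set `B`. -/
def deg {n : ℕ} (B : Finset (Edge n)) (v : Fin n) : ℕ := (B.filter (fun e => v ∈ e.1)).card

/-- `MinDeg k B`: the graph with edge set `B` has minimum degree at least `k`. -/
def MinDeg {n : ℕ} (k : ℕ) (B : Finset (Edge n)) : Prop := ∀ v : Fin n, k ≤ deg B v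

/-- The edge set of `G_t`: the first `t` edges of the order `σ`. -/
def shown {n : ℕ} (σ : Order n) (t : ℕ) : Finset (Edge n) :=
  univ.filter (fun e => ((σ.symm e : Fin (n.choose 2)) : ℕ) < t)

/-- The hitting time `τ_k`: the least `t` such that `G_t` has minimum degree at least `k`. -/
noncomputable def tau {n : ℕ} (k : ℕ) (σ : Order n) : ℕ := sInf {t : ℕ | MinDeg k (shown σ t)}

/-- A (deterministic) strategy of Builder: `S s e B` says that Builder buys the edge `e` if it is
shown at step `s` and `B` is the set of the edges that he has bought before step `s`. -/
abbrev Strategy (n : ℕ) : Type := ℕ → Edge n → Finset (Edge n) → Prop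

open Classical in
/-- The edge set of `B_s`: the edges bought up to step `s` by the strategy `S`, when the edges are
shown in the order `σ`. -/
noncomputable def bought {n : ℕ} (S : Strategy n) (σ : Order n) : ℕ → Finset (Edge n)
  | 0 => ∅
  | s + 1 =>
    if h : s < n.choose 2 then
      if S (s + 1) (σ ⟨s, h⟩) (bought S σ s) then insert (σ ⟨s, h⟩) (bought S σ s)
      else bought S σ s
    else bought S σ s

/-- The `k`-nearest neighbour graph of the order `σ` (edges ordered by increasing length): an edge
`e` is kept when, for one of its endpoints `v`, fewer than `k` edges at `v` come before `e`, that is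
when `e` is among the `k` shortest edges at `v`. -/
def nearest {n : ℕ} (k : ℕ) (σ : Order n) : Finset (Edge n) :=
  univ.filter (fun e => ∃ v ∈ e.1,
    (univ.filter (fun f : Edge n => v ∈ f.1 ∧ σ.symm f < σ.symm e)).card < k)

/-- `IsNearestConst k o`: the number of edges of the random `k`-nearest neighbour graph, divided by
`n`, tends to `o` in probability. This determines `o`, which is the constant `o_k`. -/
def IsNearestConst (k : ℕ) (o : ℝ) : Prop :=
  ∀ η : ℝ, 0 < η →
    Tendsto (fun n : ℕ => prob (fun σ : Order n => η < |((nearest k σ).card : ℝ) / n - o|))
      atTop (𝓝 0)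

end Pool.Agent.Work.MP_59e60d_pr
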