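import Pool.Agent.Work.MP_59e60d_pr.LawLarge

/-!
# Exponential bounds relative to revealed positions
-/

namespace Pool.Agent.Work.MP_59e60d_pr

open Finset Filter Topology

section General

set_option linter.unusedSectionVars false

variable {N : ℕ} {α : Type*} [Fintype α] [DecidableEq α]

/-- General exponential bound: while `D` holds the next value increases `X` with probability at
least `q`; the positions in `P0` are revealed from the start. -/
theorem exp_gen (P0 : Finset (Fin N)) (a w : ℕ) (haw : a + w ≤ N)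
    (hdisj : ∀ p ∈ P0, ¬ (a ≤ (p : ℕ) ∧ (p : ℕ) < a + w)) (X : ℕ → (Fin N ≃ α) → ℕ)
    (D : ℕ → (Fin N ≃ α) → Prop) [∀ i, DecidablePred (D i)] (F : ℕ → (Fin N ≃ α) → Finset α)
    (hX : ∀ i, Meas (P0 ∪ win N a i) (X i)) (hD : ∀ i, Meas (P0 ∪ win N a i) (D i))
    (hF : ∀ i, Meas (P0 ∪ win N a i) (F i))
    (hDD : ∀ i < w, ∀ σ, D (i + 1) σ → D i σ)
    (hX1 : ∀ i < w, ∀ σ, D (i + 1) σ → X i σ ≤ X (i + 1) σ)
    (hX2 : ∀ i, ∀ hi : i < w, ∀ σ, D (i + 1) σ →
      σ ⟨a + i, by omega⟩ ∈ F i σ → X i σ + 1 ≤ X (i + 1) σ)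
    (q lam : ℝ) (hq1 : q ≤ 1) (hl0 : 0 ≤ lam) (hl1 : lam ≤ 1)
    (hc : ∀ i < w, ∀ σ, D i σ →
      q * N ≤ (((P0 ∪ win N a i)ᶜ.filter (fun j => σ j ∈ F i σ)).card : ℝ))
    (K : ℕ) (hK : ∀ σ, D w σ → X w σ ≤ K) :
    lam ^ K * ((univ.filter (D w)).card : ℝ)
      ≤ (1 - q * (1 - lam)) ^ w * ((univ.filter (D 0)).card : ℝ) := by
  have key : ∀ i ≤ w, ∑ σ : Fin N ≃ α, (if D i σ then lam ^ (X i σ) else 0)
      ≤ (1 - q * (1 - lam)) ^ i * ((univ.filter (D 0)).card : ℝ) := by
    intro i
    induction i with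
    | zero =>
      intro _
      rw [pow_zero, one_mul, ← Finset.sum_boole]
      refine Finset.sum_le_sum (fun σ _ => ?_)
      split_ifs
      · exact pow_le_one₀ hl0 hl1
      · exact le_rfl
    | succ i ih =>
      intro hi
      have hi' : i < w := hi
      have ih' := ih hi'.le
      set g : (Fin N ≃ α) → ℝ := fun σ => if D i σ then lam ^ (X i σ) else 0 with hg
      have hg0 : ∀ σ, 0 ≤ g σ := by
        intro σ
        simp only [hg]
        split_ifs
        · positivity
        · exact le_rfl
      have hgM : Meas (P0 ∪ win N a i) g := by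
        intro σ σ' h
        simp only [hg]
        rw [hX i σ σ' h]
        simp only [hD i σ σ' h]
      have hpos : (⟨a + i, by omega⟩ : Fin N) ∉ P0 ∪ win N a i := by
        rw [Finset.mem_union, mem_win]
        rintro (h | h)
        · apply hdisj _ h
          constructor
          · simp
          · simp only []
            omega
        · simp at h
      have h1 := step_ge (P0 ∪ win N a i) g hgM hg0 (F i) (hF i) ⟨a + i, by omega⟩ hpos q (by
        intro σ h
        apply hc i hi' σ
        by_contra h'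
        apply h
        simp [hg, h'])
      have h2 : ∀ σ : Fin N ≃ α, (if D (i + 1) σ then lam ^ (X (i + 1) σ) else 0)
          ≤ g σ - (1 - lam) * (if σ ⟨a + i, by omega⟩ ∈ F i σ then g σ else 0) := by
        intro σ
        have hgσ := hg0 σ
        have hl : (1 - lam) * g σ ≤ g σ := by nlinarith
        have hl' : 0 ≤ (1 - lam) * g σ := mul_nonneg (by linarith) hgσ
        by_cases hd : D (i + 1) σ
        · have hd' := hDD i hi' σ hd
          have hgv : g σ = lam ^ (X i σ) := by simp [hg, hd']
          by_cases hf : σ ⟨a + i, by omega⟩ ∈ F i σ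
          · rw [if_pos hd, if_pos hf, hgv]
            have h3 := hX2 i hi' σ hd hf
            have h4 : lam ^ (X (i + 1) σ) ≤ lam ^ (X i σ + 1) :=
              pow_le_pow_of_le_one hl0 hl1 h3
            rw [pow_succ] at h4
            linarith
          · rw [if_pos hd, if_neg hf, hgv]
            have h3 := hX1 i hi' σ hd
            have h4 : lam ^ (X (i + 1) σ) ≤ lam ^ (X i σ) :=
              pow_le_pow_of_le_one hl0 hl1 h3
            linarith
        · rw [if_neg hd]
          split_ifs <;> linarith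
      have h3 : ∑ σ : Fin N ≃ α, (if D (i + 1) σ then lam ^ (X (i + 1) σ) else 0)
          ≤ ∑ σ : Fin N ≃ α, g σ - (1 - lam) * ∑ σ : Fin N ≃ α,
            (if σ ⟨a + i, by omega⟩ ∈ F i σ then g σ else 0) := by
        rw [Finset.mul_sum, ← Finset.sum_sub_distrib]
        exact Finset.sum_le_sum (fun σ _ => h2 σ)
      have h4 : ∑ σ : Fin N ≃ α, (if D (i + 1) σ then lam ^ (X (i + 1) σ) else 0)
          ≤ (1 - q * (1 - lam)) * ∑ σ : Fin N ≃ α, g σ := by
        have h5 := mul_le_mul_of_nonneg_left h1 (by linarith : 0 ≤ 1 - lam)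
        linarith
      have h6 : 0 ≤ 1 - q * (1 - lam) := by nlinarith
      calc ∑ σ : Fin N ≃ α, (if D (i + 1) σ then lam ^ (X (i + 1) σ) else 0)
          ≤ (1 - q * (1 - lam)) * ∑ σ : Fin N ≃ α, g σ := h4
        _ ≤ (1 - q * (1 - lam)) * ((1 - q * (1 - lam)) ^ i
            * ((univ.filter (D 0)).card : ℝ)) := mul_le_mul_of_nonneg_left ih' h6
        _ = (1 - q * (1 - lam)) ^ (i + 1) * ((univ.filter (D 0)).card : ℝ) := by ring
  refine le_trans ?_ (key w le_rfl)
  rw [← Finset.sum_filter, mul_comm, ← nsmul_eq_mul, ← Finset.sum_const]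
  refine Finset.sum_le_sum (fun σ hσ => ?_)
  exact pow_le_pow_of_le_one hl0 hl1 (hK σ (Finset.mem_filter.1 hσ).2)

end General

variable {n : ℕ}

theorem prob_def' (A : Order n → Prop) [DecidablePred A] :
    prob A = ((univ.filter A).card : ℝ) / (Fintype.card (Order n) : ℝ) := by
  unfold prob
  congr!

theorem slice_meas' (P0 : Finset (Fin (n.choose 2))) (a i : ℕ) :
    Meas (P0 ∪ win (n.choose 2) a i) (fun σ : Order n => slice σ a i) :=
  (slice_meas a i).mono Finset.subset_union_right

theorem card_pos_filter (σ : Order n) (P : Finset (Fin (n.choose 2))) (A : Finset (Edge n))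
    (B : Finset (Edge n)) (hPB : ∀ e : Edge n, σ.symm e ∈ P → e ∈ B) :
    (P.filter (fun j => σ j ∈ A)).card ≤ (A ∩ B).card := by
  refine Finset.card_le_card_of_injOn (fun j => σ j) ?_ ?_
  · intro j hj
    have h1 := Finset.mem_filter.1 (Finset.mem_coe.1 hj)
    rw [Finset.mem_coe, Finset.mem_inter]
    exact ⟨h1.2, hPB _ (by rw [Equiv.symm_apply_apply]; exact h1.1)⟩
  · intro x _ y _ h
    exact σ.injective h

/-- Few late edges at one vertex: sharp up to constants. -/
theorem deg_le_prob (j a w : ℕ) (haw : a + w ≤ n.choose 2) (v : Fin n) (q lam : ℝ)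
    (hq1 : q ≤ 1) (hl0 : 0 ≤ lam) (hl1 : lam ≤ 1) (hq : q * (n.choose 2 : ℕ) + j + 1 ≤ n) :
    lam ^ j * prob (fun σ : Order n => deg (slice σ a w) v ≤ j)
      ≤ (1 - q * (1 - lam)) ^ w := by
  classical
  have h := exp_gen (N := n.choose 2) (α := Edge n) ∅ a w haw (by simp)
    (fun i σ => deg (slice σ a i) v)
    (fun i σ => deg (slice σ a i) v ≤ j)
    (fun _ _ => star v)
    (fun i => (slice_meas' ∅ a i).comp (fun B => deg B v))
    (fun i => (slice_meas' ∅ a i).comp (fun B => deg B v ≤ j))
    (fun i => Meas.const _ _)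
    (by
      intro i _ σ h
      exact le_trans (deg_mono (slice_mono σ a (Nat.le_succ i)) v) h)
    (by
      intro i _ σ _
      exact deg_mono (slice_mono σ a (Nat.le_succ i)) v)
    (by
      intro i hi σ _ hF
      have h1 : v ∈ (σ ⟨a + i, by omega⟩).1 := (Finset.mem_filter.1 hF).2
      show deg (slice σ a i) v + 1 ≤ deg (slice σ a (i + 1)) v
      rw [slice_succ σ a i (by omega), deg_insert (notMem_slice σ a i (by omega)), if_pos h1])
    q lam hq1 hl0 hl1
    (by
      intro i hi σ hD
      have h1 := card_filter_compl (∅ ∪ win (n.choose 2) a i) σ (star v)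
      rw [card_star] at h1
      have h2 := card_pos_filter σ (∅ ∪ win (n.choose 2) a i) (star v) (slice σ a i) (by
        intro e he
        rw [Finset.empty_union, mem_win] at he
        simp only [slice, Finset.mem_filter, Finset.mem_univ, true_and]
        exact he)
      have h3 : (star v ∩ slice σ a i).card = deg (slice σ a i) v := by
        unfold deg
        congr 1
        ext e
        simp [star, and_comm]
      have hD' : deg (slice σ a i) v ≤ j := hD
      have h4 : n ≤ j + 1 + ((∅ ∪ win (n.choose 2) a i)ᶜ.filter (fun j => σ j ∈ star v)).card := by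
        have := v.isLt
        omega
      have h5 : (n : ℝ) ≤ (j : ℝ) + 1 +
          (((∅ ∪ win (n.choose 2) a i)ᶜ.filter (fun j => σ j ∈ star v)).card : ℝ) := by
        exact_mod_cast h4
      linarith)
    j
    (by
      intro σ hD
      exact hD)
  have hc := card_pos' (n := n)
  rw [prob_def', ← mul_div_assoc, div_le_iff₀ hc]
  have h0 : ((univ.filter (fun σ : Order n => deg (slice σ a 0) v ≤ j)).card : ℝ)
      ≤ (Fintype.card (Order n) : ℝ) := by
    exact_mod_cast Finset.card_le_univ _
  have h6 : 0 ≤ 1 - q * (1 - lam) := by nlinarith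
  exact le_trans h (mul_le_mul_of_nonneg_left h0 (pow_nonneg h6 w))

end Pool.Agent.Work.MP_59e60d_pr
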