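import Pool.Agent.Work.MP_59e60d_pr.Lower5
import Pool.Agent.Work.MP_59e60d_pr.Consts

/-!
# The thresholds: assembly
-/

namespace Pool.Agent.Work.MP_59e60d_pr

open Finset Filter Topology

theorem wThr_eq (k : ℕ) : wThr k = wConst k := by
  unfold wThr wConst
  rw [Finset.sum_Ico_eq_sum_range]
  congr 2
  refine Finset.sum_congr rfl (fun m _ => ?_)
  have e : 1 + m = m + 1 := Nat.add_comm 1 m
  rw [e]
  unfold qd poissonTail
  push_cast
  ring

theorem oThr_eq (k : ℕ) : oThr k = oConst k := by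
  rw [oConst_eq]
  unfold oThr
  norm_num

/-- The strategies `bought S` are online. -/
theorem bought_online {n : ℕ} (S : Strategy n) : Online (fun σ : Order n => bought S σ) where
  zero := fun _ => rfl
  grow := fun σ s => bought_mono_succ S σ s
  new := by
    intro σ s e he
    by_cases h : s < n.choose 2
    · by_cases hS : S (s + 1) (σ ⟨s, h⟩) (bought S σ s)
      · rw [bought_succ_pos S σ s h hS, Finset.mem_insert] at he
        rcases he with h1 | h1
        · right
          rw [h1, Equiv.symm_apply_apply]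
        · exact Or.inl h1
      · rw [bought_succ_neg S σ s h hS] at he
        exact Or.inl he
    · rw [bought_succ_of_ge S σ s h] at he
      exact Or.inl he
  adapted := by
    intro σ σ' s h
    apply bought_meas S s σ σ'
    intro p hp
    rw [mem_win] at hp
    exact h p (by omega)

/-- Randomised strategies. -/
theorem lower_mixed (k : ℕ) (hk : 1 ≤ k) (ε : ℝ) (hε : 0 < ε) : ∃ c : ℝ, 0 < c ∧
    ∀ᶠ n : ℕ in atTop, ∀ (ι : Type) [Fintype ι] (p : ι → ℝ)
      (B : ι → Order n → ℕ → Finset (Edge n)), (∀ i, 0 ≤ p i) → ∑ i, p i = 1 →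
      (∀ i, Online (B i)) → ∑ i, p i * prob (fun σ : Order n => MinDeg k (B i σ (tau k σ)) ∧
        ((B i σ (tau k σ)).card : ℝ) ≤ (wThr k - ε) * n) ≤ 1 - c := by
  obtain ⟨c, hc, hev⟩ := lower_whp k hk ε hε
  refine ⟨c, hc, ?_⟩
  filter_upwards [hev] with n hn
  intro ι _ p B hp hsum hB
  rw [wThr_eq]
  calc ∑ i, p i * prob (fun σ : Order n => MinDeg k (B i σ (tau k σ)) ∧
        ((B i σ (tau k σ)).card : ℝ) ≤ (wConst k - ε) * n)
      ≤ ∑ i, p i * (1 - c) :=
        Finset.sum_le_sum (fun i _ => mul_le_mul_of_nonneg_left (hn (B i) (hB i)) (hp i))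
    _ = 1 - c := by rw [← Finset.sum_mul, hsum, one_mul]

end Pool.Agent.Work.MP_59e60d_pr
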