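import Pool.Agent.Work.MP_59e60d_pr.Proba

/-!
# The first phase does not influence the hitting time, with probability bounded below
-/

namespace Pool.Agent.Work.MP_59e60d_pr

open Finset

variable {n : ℕ}

/-- The slice starting at `m` has minimum degree at least `k` for the first time at length
`i + 1`. -/
def Hit (k m i : ℕ) (σ : Order n) : Prop :=
  MinDeg k (slice σ m (i + 1)) ∧ ¬ MinDeg k (slice σ m i)

open Classical in
/-- The edges at a vertex of degree less than `k` in `B` (if there is one). -/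
noncomputable def lastStar (k : ℕ) (B : Finset (Edge n)) : Finset (Edge n) :=
  if h : ∃ v, deg B v < k then star h.choose else ∅

theorem card_lastStar_le (k : ℕ) (B : Finset (Edge n)) : (lastStar k B).card ≤ n - 1 := by
  unfold lastStar
  split_ifs with h
  · rw [card_star]
  · simp

theorem not_minDeg_shown (k m i : ℕ) (σ : Order n) (h : ¬ MinDeg k (slice σ m i))
    (hav : ∀ p ∈ win (n.choose 2) 0 m, σ p ∉ lastStar k (slice σ m i)) :
    ¬ MinDeg k (shown σ (m + i)) := by
  have h1 : ∃ v, deg (slice σ m i) v < k := by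
    unfold MinDeg at h
    push Not at h
    exact h
  have h2 : lastStar k (slice σ m i) = star h1.choose := by
    unfold lastStar
    rw [dif_pos h1]
  rw [h2] at hav
  intro h3
  have h4 := h3 h1.choose
  have h5 := h1.choose_spec
  have h6 : deg (shown σ (m + i)) h1.choose ≤ deg (slice σ m i) h1.choose := by
    apply Finset.card_le_card
    intro e he
    rw [Finset.mem_filter] at he ⊢
    refine ⟨?_, he.2⟩
    have h7 := he.1
    simp only [shown, slice, Finset.mem_filter, Finset.mem_univ, true_and] at h7 ⊢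
    refine ⟨?_, h7⟩
    by_contra h8
    push Not at h8
    have h9 : σ.symm e ∈ win (n.choose 2) 0 m := by
      rw [mem_win]
      omega
    apply hav _ h9
    rw [Equiv.apply_symm_apply]
    simp [star, he.2]
  omega

open Classical in
theorem hit_avoid (k m i : ℕ) (hi : m + (i + 1) ≤ n.choose 2) (d : ℝ) (hd : 0 < d)
    (hd' : d ≤ (n.choose 2 : ℕ) - (i + 1 : ℕ) - m) (hfd : ((n - 1 : ℕ) : ℝ) ≤ d) :
    (1 - ((n - 1 : ℕ) : ℝ) / d) ^ m * ((univ.filter (fun σ : Order n => Hit k m i σ)).card : ℝ)
      ≤ ((univ.filter (fun σ : Order n => Hit k m i σ ∧ ¬ MinDeg k (shown σ (m + i)))).card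
        : ℝ) := by
  have hslice : Meas (win (n.choose 2) m (i + 1)) (fun σ : Order n => slice σ m i) :=
    (slice_meas m i).mono (win_mono (Nat.le_succ i))
  have hslice' : Meas (win (n.choose 2) m (i + 1)) (fun σ : Order n => slice σ m (i + 1)) :=
    slice_meas m (i + 1)
  have h := avoid_bound (N := n.choose 2) (α := Edge n) (win (n.choose 2) m (i + 1))
    (fun σ => if Hit k m i σ then 1 else 0)
    (by
      intro σ σ' hσ
      have e1 := hslice σ σ' hσ
      have e2 := hslice' σ σ' hσ
      simp only [] at e1 e2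
      have e3 : Hit k m i σ ↔ Hit k m i σ' := by
        unfold Hit
        rw [e1, e2]
      show (if Hit k m i σ then (1 : ℝ) else 0) = if Hit k m i σ' then 1 else 0
      by_cases hh : Hit k m i σ
      · rw [if_pos hh, if_pos (e3.1 hh)]
      · rw [if_neg hh, if_neg (fun h' => hh (e3.2 h'))])
    (by
      intro σ
      show (0 : ℝ) ≤ if Hit k m i σ then 1 else 0
      split_ifs <;> norm_num)
    (fun σ => lastStar k (slice σ m i))
    (hslice.comp (fun B => lastStar k B)) 0 m (by omega)
    (by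
      intro p hp
      rw [mem_win] at hp
      omega)
    ((n - 1 : ℕ) : ℝ) d hd
    (by
      have h1 := card_win_le (n.choose 2) m (i + 1)
      have h2 : (((win (n.choose 2) m (i + 1)).card : ℕ) : ℝ) ≤ ((i + 1 : ℕ) : ℝ) := by
        exact_mod_cast h1
      linarith)
    (by
      intro σ _
      exact_mod_cast card_lastStar_le k (slice σ m i))
    hfd
  rw [Finset.sum_boole] at h
  refine h.trans ?_
  have h2 : ∑ σ : Order n, (if ∀ p ∈ win (n.choose 2) 0 m, σ p ∉ lastStar k (slice σ m i)
      then (if Hit k m i σ then (1 : ℝ) else 0) else 0)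
      ≤ ∑ σ : Order n, (if Hit k m i σ ∧ ¬ MinDeg k (shown σ (m + i)) then (1 : ℝ) else 0) := by
    refine Finset.sum_le_sum (fun σ _ => ?_)
    by_cases h3 : Hit k m i σ
    · by_cases h4 : ∀ p ∈ win (n.choose 2) 0 m, σ p ∉ lastStar k (slice σ m i)
      · have h5 := not_minDeg_shown k m i σ h3.2 h4
        rw [if_pos h4, if_pos h3, if_pos ⟨h3, h5⟩]
      · rw [if_neg h4]
        split_ifs <;> norm_num
    · simp only [h3, if_false, ite_self, false_and]
      exact le_rfl
  rw [Finset.sum_boole] at h2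
  exact h2

open Classical in
/-- The good event: the process after `m` steps reaches minimum degree `k` at the very time
`τ_k`. -/
theorem good_prob (k m w : ℕ) (hk : 1 ≤ k) (hn : 1 ≤ n) (hmw : m + w ≤ n.choose 2) (q d : ℝ)
    (hq1 : q ≤ 1) (hq : q * (n.choose 2 : ℕ) + k ≤ n) (hd : 0 < d)
    (hd' : d ≤ (n.choose 2 : ℕ) - w - m) (hfd : ((n - 1 : ℕ) : ℝ) ≤ d) :
    (1 - ((n - 1 : ℕ) : ℝ) / d) ^ m * ((1 - n * (2 ^ k * (1 - q / 2) ^ w)) *
      (Fintype.card (Order n) : ℝ))
      ≤ ((univ.filter (fun σ : Order n => ∃ i, MinDeg k (slice σ m (i + 1)) ∧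
        ¬ MinDeg k (shown σ (m + i)))).card : ℝ) := by
  have h1 := minDeg_slice_prob k m w hmw q hq1 hq
  have hc : 0 ≤ 1 - ((n - 1 : ℕ) : ℝ) / d := by
    have : ((n - 1 : ℕ) : ℝ) / d ≤ 1 := (div_le_one hd).2 hfd
    linarith
  have h2 : ((univ.filter (fun σ : Order n => MinDeg k (slice σ m w))).card : ℝ)
      ≤ ∑ i ∈ Finset.range w, ((univ.filter (fun σ : Order n => Hit k m i σ)).card : ℝ) := by
    have h3 : (univ.filter (fun σ : Order n => MinDeg k (slice σ m w)))
        ⊆ (Finset.range w).biUnion (fun i => univ.filter (fun σ : Order n => Hit k m i σ)) := by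
      intro σ hσ
      have hσ' := (Finset.mem_filter.1 hσ).2
      have hex : ∃ j, MinDeg k (slice σ m j) := ⟨w, hσ'⟩
      have hj := Nat.find_spec hex
      have hjmin := fun j (hj : j < Nat.find hex) => Nat.find_min hex hj
      have h0 : Nat.find hex ≠ 0 := by
        intro h0
        rw [h0] at hj
        have := hj ⟨0, by omega⟩
        have hempty : slice σ m 0 = ∅ := by
          ext e
          simp only [slice, Finset.mem_filter, Finset.mem_univ, true_and, Finset.notMem_empty,
            iff_false]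
          omega
        rw [hempty] at this
        simp [deg] at this
        omega
      obtain ⟨i, hi⟩ := Nat.exists_eq_succ_of_ne_zero h0
      have hle : Nat.find hex ≤ w := Nat.find_min' hex hσ'
      rw [Finset.mem_biUnion]
      refine ⟨i, Finset.mem_range.2 (by omega), Finset.mem_filter.2 ⟨Finset.mem_univ _, ?_, ?_⟩⟩
      · rw [hi] at hj
        exact hj
      · exact hjmin i (by omega)
    have h4 := (Finset.card_le_card h3).trans Finset.card_biUnion_le
    exact_mod_cast h4
  have h3 : ∀ i ∈ Finset.range w, (1 - ((n - 1 : ℕ) : ℝ) / d) ^ m *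
      ((univ.filter (fun σ : Order n => Hit k m i σ)).card : ℝ)
      ≤ ((univ.filter (fun σ : Order n => Hit k m i σ ∧ ¬ MinDeg k (shown σ (m + i)))).card
        : ℝ) := by
    intro i hi
    have hi' := Finset.mem_range.1 hi
    refine hit_avoid k m i (by omega) d hd ?_ hfd
    have : ((i + 1 : ℕ) : ℝ) ≤ (w : ℝ) := by exact_mod_cast hi'
    linarith
  have h4 : ∑ i ∈ Finset.range w,
      ((univ.filter (fun σ : Order n => Hit k m i σ ∧ ¬ MinDeg k (shown σ (m + i)))).card : ℝ)
      ≤ ((univ.filter (fun σ : Order n => ∃ i, MinDeg k (slice σ m (i + 1)) ∧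
        ¬ MinDeg k (shown σ (m + i)))).card : ℝ) := by
    rw [← Nat.cast_sum, ← Finset.card_biUnion]
    · have : ((Finset.range w).biUnion (fun i => univ.filter (fun σ : Order n =>
          Hit k m i σ ∧ ¬ MinDeg k (shown σ (m + i)))))
          ⊆ (univ.filter (fun σ : Order n => ∃ i, MinDeg k (slice σ m (i + 1)) ∧
            ¬ MinDeg k (shown σ (m + i)))) := by
        intro σ hσ
        rw [Finset.mem_biUnion] at hσ
        obtain ⟨i, _, hi⟩ := hσ
        have hi2 := (Finset.mem_filter.1 hi).2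
        exact Finset.mem_filter.2 ⟨Finset.mem_univ _, i, hi2.1.1, hi2.2⟩
      exact_mod_cast Finset.card_le_card this
    · intro i _ j _ hij
      show Disjoint _ _
      rw [Finset.disjoint_left]
      intro σ h5 h6
      have h5' := (Finset.mem_filter.1 h5).2.1
      have h6' := (Finset.mem_filter.1 h6).2.1
      rcases lt_or_gt_of_ne hij with hlt | hlt
      · apply h6'.2
        intro v
        exact (h5'.1 v).trans (deg_mono (slice_mono σ m hlt) v)
      · apply h5'.2
        intro v
        exact (h6'.1 v).trans (deg_mono (slice_mono σ m hlt) v)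
  calc (1 - ((n - 1 : ℕ) : ℝ) / d) ^ m * ((1 - n * (2 ^ k * (1 - q / 2) ^ w)) *
      (Fintype.card (Order n) : ℝ))
      ≤ (1 - ((n - 1 : ℕ) : ℝ) / d) ^ m *
        ∑ i ∈ Finset.range w, ((univ.filter (fun σ : Order n => Hit k m i σ)).card : ℝ) :=
        mul_le_mul_of_nonneg_left (h1.trans h2) (pow_nonneg hc _)
    _ = ∑ i ∈ Finset.range w, (1 - ((n - 1 : ℕ) : ℝ) / d) ^ m *
        ((univ.filter (fun σ : Order n => Hit k m i σ)).card : ℝ) := by rw [Finset.mul_sum]
    _ ≤ _ := (Finset.sum_le_sum h3).trans h4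

open Classical in
/-- Lower bound for the probability of success of Builder's strategy. -/
theorem success_prob (k M b m u w : ℕ) (hk : 1 ≤ k) (hn : 1 ≤ n) (hmw : m + w ≤ n.choose 2)
    (q1 q2 d : ℝ) (hq1 : q1 ≤ 1) (hq2 : q2 ≤ 1)
    (hq1' : q1 * (n.choose 2 : ℕ) + m ≤ ((u + 1).choose 2 : ℕ))
    (hq2' : q2 * (n.choose 2 : ℕ) + k ≤ n) (hd : 0 < d)
    (hd' : d ≤ (n.choose 2 : ℕ) - w - m) (hfd : ((n - 1 : ℕ) : ℝ) ≤ d)
    (hu : 2 * M + k * u ≤ k * n) (hb : k * n ≤ M + b) :
    (1 - ((n - 1 : ℕ) : ℝ) / d) ^ m * (1 - n * (2 ^ k * (1 - q2 / 2) ^ w))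
      - 2 ^ M * (1 - q1 / 2) ^ m
      ≤ prob (fun σ : Order n => MinDeg k (bt k M b σ (tau k σ))) := by
  have hΩ : (0 : ℝ) < (Fintype.card (Order n) : ℝ) := by exact_mod_cast card_order_pos
  unfold prob
  rw [le_div_iff₀ hΩ]
  have h1 := good_prob k m w hk hn hmw q2 d hq2 hq2' hd hd' hfd
  have h2 := phase1_prob (n := n) k M b m u (by omega) (by omega) hu q1 hq1 hq1'
  have h3 : (univ.filter (fun σ : Order n => ∃ i, MinDeg k (slice σ m (i + 1)) ∧
        ¬ MinDeg k (shown σ (m + i)))) ⊆
      (univ.filter (fun σ : Order n => MinDeg k (bt k M b σ (tau k σ)))) ∪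
      (univ.filter (fun σ : Order n => (bt k M b σ m).card < M)) := by
    intro σ hσ
    obtain ⟨i, hi1, hi2⟩ := (Finset.mem_filter.1 hσ).2
    rw [Finset.mem_union]
    by_cases hM : (bt k M b σ m).card < M
    · right
      exact Finset.mem_filter.2 ⟨Finset.mem_univ _, hM⟩
    · left
      exact Finset.mem_filter.2 ⟨Finset.mem_univ _,
        success k M b hb σ m (not_lt.1 hM) i hi1 hi2⟩
  have h4 := (Finset.card_le_card h3).trans (Finset.card_union_le _ _)
  have h5 : ((univ.filter (fun σ : Order n => ∃ i, MinDeg k (slice σ m (i + 1)) ∧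
        ¬ MinDeg k (shown σ (m + i)))).card : ℝ) ≤
      ((univ.filter (fun σ : Order n => MinDeg k (bt k M b σ (tau k σ)))).card : ℝ) +
      ((univ.filter (fun σ : Order n => (bt k M b σ m).card < M)).card : ℝ) := by
    exact_mod_cast h4
  have h2' : ((univ.filter (fun σ : Order n => (bt k M b σ m).card < M)).card : ℝ)
      ≤ 2 ^ M * (1 - q1 / 2) ^ m * (Fintype.card (Order n) : ℝ) := by
    convert h2
  nlinarith

end Pool.Agent.Work.MP_59e60d_pr
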