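import Pool.Agent.Work.MP_59e60d_pr.Variance
import Pool.Agent.Work.MP_59e60d_pr.Binom

/-!
# Law of large numbers for `∑ v, max k (deg v)` in the nearest neighbour graph
-/

namespace Pool.Agent.Work.MP_59e60d_pr

open Finset Filter Topology

variable {n : ℕ}

/-! ### Averages, Markov and Chebyshev -/

/-- The average over all orders. -/
noncomputable def ex (f : Order n → ℝ) : ℝ := (∑ σ : Order n, f σ) / (Fintype.card (Order n) : ℝ)

theorem card_pos' : (0 : ℝ) < (Fintype.card (Order n) : ℝ) := by exact_mod_cast card_order_pos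

theorem ex_add (f g : Order n → ℝ) : ex (fun σ => f σ + g σ) = ex f + ex g := by
  unfold ex
  rw [Finset.sum_add_distrib, add_div]

theorem ex_mono {f g : Order n → ℝ} (h : ∀ σ, f σ ≤ g σ) : ex f ≤ ex g := by
  unfold ex
  exact div_le_div_of_nonneg_right (Finset.sum_le_sum (fun σ _ => h σ)) card_pos'.le

open Classical in
theorem prob_eq_ex (A : Order n → Prop) : prob A = ex (fun σ => if A σ then 1 else 0) := by
  unfold prob ex
  rw [Finset.sum_boole]

theorem prob_mono' {A B : Order n → Prop} (h : ∀ σ, A σ → B σ) : prob A ≤ prob B := by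
  classical
  unfold prob
  apply div_le_div_of_nonneg_right _ card_pos'.le
  have : (univ.filter A) ⊆ (univ.filter B) := by
    intro σ hσ
    rw [Finset.mem_filter] at hσ ⊢
    exact ⟨hσ.1, h σ hσ.2⟩
  have h2 := Finset.card_le_card this
  exact_mod_cast (by convert h2 : (univ.filter A).card ≤ (univ.filter B).card)

theorem prob_or_le (A B : Order n → Prop) : prob (fun σ => A σ ∨ B σ) ≤ prob A + prob B := by
  classical
  rw [prob_eq_ex, prob_eq_ex, prob_eq_ex, ← ex_add]
  apply ex_mono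
  intro σ
  by_cases h1 : A σ <;> by_cases h2 : B σ <;> simp [h1, h2]

theorem prob_nonneg (A : Order n → Prop) : 0 ≤ prob A := by
  unfold prob
  positivity

theorem prob_le_one (A : Order n → Prop) : prob A ≤ 1 := by
  classical
  unfold prob
  rw [div_le_one card_pos']
  have := Finset.card_filter_le (univ : Finset (Order n)) A
  rw [Finset.card_univ] at this
  exact_mod_cast (by convert this : (univ.filter A).card ≤ Fintype.card (Order n))

theorem prob_not (A : Order n → Prop) : prob (fun σ => ¬ A σ) = 1 - prob A := by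
  classical
  have h : prob (fun σ => ¬ A σ) + prob A = 1 := by
    rw [prob_eq_ex, prob_eq_ex, ← ex_add]
    unfold ex
    rw [div_eq_one_iff_eq card_pos'.ne']
    have h2 : ∑ σ : Order n, (1 : ℝ) = (Fintype.card (Order n) : ℝ) := by simp
    rw [← h2]
    refine Finset.sum_congr rfl (fun σ _ => ?_)
    by_cases h : A σ <;> simp [h]
  linarith

theorem markov (f : Order n → ℝ) (hf : ∀ σ, 0 ≤ f σ) (t : ℝ) (ht : 0 < t) :
    prob (fun σ => t ≤ f σ) ≤ ex f / t := by
  classical
  rw [prob_eq_ex, le_div_iff₀ ht]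
  unfold ex
  rw [div_mul_eq_mul_div]
  apply div_le_div_of_nonneg_right _ card_pos'.le
  rw [Finset.sum_mul]
  refine Finset.sum_le_sum (fun σ _ => ?_)
  by_cases h : t ≤ f σ
  · rw [if_pos h]
    linarith
  · rw [if_neg h]
    have := hf σ
    linarith

theorem chebyshev (g : Order n → ℝ) (V t : ℝ) (ht : 0 < t)
    (hV : (Fintype.card (Order n) : ℝ) * ∑ σ : Order n, g σ ^ 2 - (∑ σ : Order n, g σ) ^ 2
      ≤ V * (Fintype.card (Order n) : ℝ) ^ 2) :
    prob (fun σ => t ≤ |g σ - ex g|) ≤ V / t ^ 2 := by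
  have hc := card_pos' (n := n)
  have h1 : prob (fun σ => t ≤ |g σ - ex g|) ≤ prob (fun σ => t ^ 2 ≤ (g σ - ex g) ^ 2) := by
    apply prob_mono'
    intro σ h
    rw [← sq_abs (g σ - ex g)]
    exact pow_le_pow_left₀ ht.le h 2
  refine h1.trans ((markov _ (fun σ => sq_nonneg _) _ (by positivity)).trans ?_)
  apply div_le_div_of_nonneg_right _ (by positivity)
  have h2 : ex (fun σ => (g σ - ex g) ^ 2)
      = (∑ σ : Order n, g σ ^ 2) / (Fintype.card (Order n) : ℝ) - (ex g) ^ 2 := by
    have h3 : ∀ σ : Order n, (g σ - ex g) ^ 2 = g σ ^ 2 - 2 * ex g * g σ + (ex g) ^ 2 := by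
      intro σ
      ring
    unfold ex at h3 ⊢
    simp_rw [h3]
    rw [Finset.sum_add_distrib, Finset.sum_sub_distrib, ← Finset.mul_sum, Finset.sum_const,
      Finset.card_univ, nsmul_eq_mul]
    field_simp
    ring
  rw [h2]
  unfold ex
  rw [div_pow, div_sub_div _ _ hc.ne' (by positivity), div_le_iff₀ (by positivity)]
  nlinarith

/-! ### The truncated nearest neighbour graph -/

/-- The edges shown in the first `m` steps which are first at one of their endpoints. -/
def Of (m : ℕ) (σ : Order n) : Finset (Edge n) :=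
  (shown σ m).filter (fun e => ∃ v ∈ e.1, ∀ f ∈ shown σ m, v ∈ f.1 → σ.symm e ≤ σ.symm f)

theorem mem_shown {σ : Order n} {m : ℕ} {e : Edge n} :
    e ∈ shown σ m ↔ ((σ.symm e : Fin (n.choose 2)) : ℕ) < m := by simp [shown]

theorem mem_Of {m : ℕ} {σ : Order n} {e : Edge n} : e ∈ Of m σ ↔
    e ∈ shown σ m ∧ ∃ v ∈ e.1, before σ (star v) e = ∅ := by
  unfold Of
  rw [Finset.mem_filter]
  constructor
  · rintro ⟨h1, v, hv, h2⟩
    refine ⟨h1, v, hv, before_eq_empty.2 (fun f hf => ?_)⟩
    by_cases hfm : f ∈ shown σ m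
    · exact h2 f hfm (Finset.mem_filter.1 hf).2
    · rw [mem_shown] at h1 hfm
      rw [Fin.le_def]
      omega
  · rintro ⟨h1, v, hv, h2⟩
    exact ⟨h1, v, hv, fun f _ hvf => before_eq_empty.1 h2 f (by simp [star, hvf])⟩

theorem symm_eq_of_agree {σ σ' : Order n} {m : ℕ}
    (h : ∀ p ∈ win (n.choose 2) 0 m, σ p = σ' p) {e : Edge n} (he : e ∈ shown σ m) :
    σ'.symm e = σ.symm e := by
  rw [mem_shown] at he
  have h1 := h (σ.symm e) (by rw [mem_win]; omega)
  rw [Equiv.apply_symm_apply] at h1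
  rw [Equiv.symm_apply_eq]
  exact h1

theorem Of_meas (m : ℕ) : Meas (win (n.choose 2) 0 m) (fun σ : Order n => Of m σ) := by
  have key : ∀ σ σ' : Order n, (∀ p ∈ win (n.choose 2) 0 m, σ p = σ' p) → Of m σ ⊆ Of m σ' := by
    intro σ σ' h e he
    have hsh : shown σ m = shown σ' m := shown_meas m σ σ' h
    unfold Of at he ⊢
    rw [Finset.mem_filter] at he ⊢
    rw [← hsh]
    refine ⟨he.1, ?_⟩
    obtain ⟨v, hv, h2⟩ := he.2
    refine ⟨v, hv, fun f hf hvf => ?_⟩
    rw [symm_eq_of_agree h he.1, symm_eq_of_agree h hf]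
    exact h2 f hf hvf
  intro σ σ' h
  exact Finset.Subset.antisymm (key σ σ' h) (key σ' σ (fun p hp => (h p hp).symm))

/-- `∑ v, max k (deg v)` for the graph with edge set `B`. -/
def WW (k : ℕ) (B : Finset (Edge n)) : ℕ := ∑ v : Fin n, max k (deg B v)

theorem WW_mono (k : ℕ) {B C : Finset (Edge n)} (h : B ⊆ C) : WW k B ≤ WW k C := by
  unfold WW
  refine Finset.sum_le_sum (fun v _ => ?_)
  have := deg_mono h v
  omega

theorem deg_le_add (B C : Finset (Edge n)) (v : Fin n) : deg B v ≤ deg C v + deg (B \ C) v := by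
  unfold deg
  rw [← Finset.card_union_add_card_inter]
  refine le_trans (Finset.card_le_card ?_) (Nat.le_add_right _ _)
  intro e he
  rw [Finset.mem_union, Finset.mem_filter, Finset.mem_filter, Finset.mem_sdiff]
  rw [Finset.mem_filter] at he
  by_cases h : e ∈ C
  · exact Or.inl ⟨h, he.2⟩
  · exact Or.inr ⟨⟨he.1, h⟩, he.2⟩

theorem WW_le (k : ℕ) (B C : Finset (Edge n)) : WW k B ≤ WW k C + 2 * (B \ C).card := by
  rw [← sum_deg]
  unfold WW
  rw [← Finset.sum_add_distrib]
  refine Finset.sum_le_sum (fun v _ => ?_)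
  have := deg_le_add B C v
  omega

theorem card_first_le (σ : Order n) (v : Fin n) :
    ((star v).filter (fun e => before σ (star v) e = ∅)).card ≤ 1 := by
  rw [Finset.card_le_one]
  intro e he f hf
  rw [Finset.mem_filter] at he hf
  exact first_unique he.1 hf.1 he.2 hf.2

theorem Of_sdiff (m : ℕ) (σ : Order n) (a b : Edge n) :
    (Of m σ \ Of m (σ.trans (Equiv.swap a b))).card ≤ 4 := by
  set σ' : Order n := σ.trans (Equiv.swap a b) with hσ'
  set V : Finset (Fin n) := (univ.filter (fun v : Fin n => v ∈ a.1)) ∪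
    (univ.filter (fun v : Fin n => v ∈ b.1)) with hV
  have hVcard : V.card ≤ 4 := by
    have h1 := Finset.card_union_le (univ.filter (fun v : Fin n => v ∈ a.1))
      (univ.filter (fun v : Fin n => v ∈ b.1))
    rw [card_endpoints, card_endpoints] at h1
    exact h1
  have hsub : Of m σ \ Of m σ' ⊆ V.biUnion (fun v => (star v).filter
      (fun e => before σ (star v) e = ∅)) := by
    intro e he
    rw [Finset.mem_sdiff] at he
    obtain ⟨he1, v, hv, he2⟩ := mem_Of.1 he.1
    rw [Finset.mem_biUnion]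
    refine ⟨v, ?_, Finset.mem_filter.2 ⟨by simp [star, hv], he2⟩⟩
    by_contra hvV
    rw [hV, Finset.mem_union, not_or] at hvV
    have hva : v ∉ a.1 := fun h => hvV.1 (by simp [h])
    have hvb : v ∉ b.1 := fun h => hvV.2 (by simp [h])
    have hpos : ∀ f : Edge n, v ∈ f.1 → σ'.symm f = σ.symm f := by
      intro f hf
      rw [hσ', Equiv.symm_trans_apply, Equiv.symm_swap, Equiv.swap_apply_of_ne_of_ne]
      · intro h
        exact hva (h ▸ hf)
      · intro h
        exact hvb (h ▸ hf)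
    apply he.2
    rw [mem_Of]
    refine ⟨?_, v, hv, ?_⟩
    · rw [mem_shown, hpos e hv]
      exact mem_shown.1 he1
    · rw [before_eq_empty] at he2 ⊢
      intro f hf
      rw [hpos e hv, hpos f (Finset.mem_filter.1 hf).2]
      exact he2 f hf
  calc (Of m σ \ Of m σ').card ≤ (V.biUnion (fun v => (star v).filter
      (fun e => before σ (star v) e = ∅))).card := Finset.card_le_card hsub
    _ ≤ ∑ v ∈ V, ((star v).filter (fun e => before σ (star v) e = ∅)).card :=
      Finset.card_biUnion_le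
    _ ≤ ∑ _v ∈ V, 1 := Finset.sum_le_sum (fun v _ => card_first_le σ v)
    _ ≤ 4 := by simpa using hVcard

theorem WW_Of_lip (k m : ℕ) : Lip 8 (fun σ : Order n => (WW k (Of m σ) : ℝ)) := by
  intro σ a b
  have h1 := Of_sdiff m σ a b
  have h2 := Of_sdiff m (σ.trans (Equiv.swap a b)) a b
  have h3 : (σ.trans (Equiv.swap a b)).trans (Equiv.swap a b) = σ := by
    ext x
    simp
  rw [h3] at h2
  have h4 := WW_le k (Of m σ) (Of m (σ.trans (Equiv.swap a b)))
  have h5 := WW_le k (Of m (σ.trans (Equiv.swap a b))) (Of m σ)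
  have h6 : WW k (Of m σ) ≤ WW k (Of m (σ.trans (Equiv.swap a b))) + 8 := by omega
  have h7 : WW k (Of m (σ.trans (Equiv.swap a b))) ≤ WW k (Of m σ) + 8 := by omega
  have h6' : (WW k (Of m σ) : ℝ) ≤ WW k (Of m (σ.trans (Equiv.swap a b))) + 8 := by
    exact_mod_cast h6
  have h7' : (WW k (Of m (σ.trans (Equiv.swap a b))) : ℝ) ≤ WW k (Of m σ) + 8 := by
    exact_mod_cast h7
  rw [abs_le]
  constructor <;> linarith

/-- Isolated vertices of `G_m`. -/
theorem nearest_sdiff (m : ℕ) (σ : Order n) :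
    (nearest 1 σ \ Of m σ).card ≤ (iso σ m).card := by
  have hEarly : ∀ (w : Fin n) (e : Edge n), Early 1 σ w e ↔ before σ (star w) e = ∅ := by
    intro w e
    unfold Early
    rw [Nat.lt_one_iff, Finset.card_eq_zero]
    have : (univ.filter (fun f : Edge n => w ∈ f.1 ∧ σ.symm f < σ.symm e))
        = before σ (star w) e := by
      ext f
      simp [before, star]
    rw [this]
  have hsub : nearest 1 σ \ Of m σ ⊆ (iso σ m).biUnion (fun v => (star v).filter
      (fun e => before σ (star v) e = ∅)) := by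
    intro e he
    rw [Finset.mem_sdiff, mem_nearest] at he
    obtain ⟨⟨v, hv, he1⟩, he2⟩ := he
    rw [hEarly] at he1
    rw [Finset.mem_biUnion]
    refine ⟨v, ?_, Finset.mem_filter.2 ⟨by simp [star, hv], he1⟩⟩
    have hnot : e ∉ shown σ m := fun h => he2 (mem_Of.2 ⟨h, v, hv, he1⟩)
    rw [mem_shown, not_lt] at hnot
    unfold iso
    rw [Finset.mem_filter]
    refine ⟨Finset.mem_univ _, ?_⟩
    unfold deg
    rw [Finset.card_eq_zero, Finset.filter_eq_empty_iff]
    intro f hf hvf
    rw [mem_shown] at hf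
    have h1 := before_eq_empty.1 he1 f (by simp [star, hvf])
    rw [Fin.le_def] at h1
    omega
  calc (nearest 1 σ \ Of m σ).card ≤ ((iso σ m).biUnion (fun v => (star v).filter
      (fun e => before σ (star v) e = ∅))).card := Finset.card_le_card hsub
    _ ≤ ∑ v ∈ iso σ m, ((star v).filter (fun e => before σ (star v) e = ∅)).card :=
      Finset.card_biUnion_le
    _ ≤ ∑ _v ∈ iso σ m, 1 := Finset.sum_le_sum (fun v _ => card_first_le σ v)
    _ = (iso σ m).card := by simp

theorem Of_subset_nearest (m : ℕ) (σ : Order n) : Of m σ ⊆ nearest 1 σ := by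
  intro e he
  obtain ⟨_, v, hv, he1⟩ := mem_Of.1 he
  rw [mem_nearest]
  refine ⟨v, hv, ?_⟩
  unfold Early
  rw [Nat.lt_one_iff, Finset.card_eq_zero]
  have : (univ.filter (fun f : Edge n => v ∈ f.1 ∧ σ.symm f < σ.symm e))
      = before σ (star v) e := by
    ext f
    simp [before, star]
  rw [this]
  exact he1

/-- Expected number of isolated vertices. -/
theorem ex_iso_le (hn : 2 ≤ n) (m : ℕ) (hm : m ≤ n.choose 2) :
    ex (fun σ : Order n => ((iso σ m).card : ℝ)) ≤ n * (2 * Real.exp (-((m : ℝ) / n))) := by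
  classical
  have hn' : (2 : ℝ) ≤ n := by exact_mod_cast hn
  have hN : (((n.choose 2 : ℕ)) : ℝ) = n * (n - 1) / 2 := Nat.cast_choose_two ℝ n
  have h1 : ∀ v : Fin n, ((univ.filter (fun σ : Order n => deg (slice σ 0 m) v < 1)).card : ℝ)
      ≤ 2 ^ 1 * (1 - (2 / (n : ℝ)) / 2) ^ m * (Fintype.card (Order n) : ℝ) := by
    intro v
    apply deg_prob 1 0 m (by omega) v (2 / n)
    · rw [div_le_one (by linarith)]
      exact hn'
    · rw [hN]
      have : 2 / (n : ℝ) * (n * (n - 1) / 2) = n - 1 := by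
        field_simp
      rw [this]
      push_cast
      linarith
  have h2 : ∑ σ : Order n, ((iso σ m).card : ℝ)
      = ∑ v : Fin n, ((univ.filter (fun σ : Order n => deg (slice σ 0 m) v < 1)).card : ℝ) := by
    have e1 : ∀ σ : Order n, ((iso σ m).card : ℝ)
        = ∑ v : Fin n, if deg (slice σ 0 m) v < 1 then (1 : ℝ) else 0 := by
      intro σ
      unfold iso
      rw [Finset.sum_boole]
      congr 2
      ext v
      rw [Finset.mem_filter, Finset.mem_filter, shown_eq_slice]
      constructor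
      · rintro ⟨_, h⟩; exact ⟨Finset.mem_univ _, by omega⟩
      · rintro ⟨_, h⟩; exact ⟨Finset.mem_univ _, by omega⟩
    simp_rw [e1]
    rw [Finset.sum_comm]
    refine Finset.sum_congr rfl (fun v _ => ?_)
    rw [Finset.sum_boole]
  unfold ex
  rw [h2, div_le_iff₀ card_pos']
  have h3 : (1 - (2 / (n : ℝ)) / 2) ^ m ≤ Real.exp (-((m : ℝ) / n)) := by
    have h4 : 1 - (2 / (n : ℝ)) / 2 ≤ Real.exp (-(1 / (n : ℝ))) := by
      have := Real.one_sub_le_exp_neg (1 / (n : ℝ))
      have e : (2 / (n : ℝ)) / 2 = 1 / n := by ring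
      rw [e]
      exact this
    have h5 : 0 ≤ 1 - (2 / (n : ℝ)) / 2 := by
      have e : (2 / (n : ℝ)) / 2 = 1 / n := by ring
      rw [e, sub_nonneg, div_le_one (by linarith)]
      linarith
    calc (1 - (2 / (n : ℝ)) / 2) ^ m ≤ Real.exp (-(1 / (n : ℝ))) ^ m := pow_le_pow_left₀ h5 h4 m
      _ = Real.exp (-((m : ℝ) / n)) := by
        rw [← Real.exp_nat_mul]
        congr 1
        ring
  calc ∑ v : Fin n, ((univ.filter (fun σ : Order n => deg (slice σ 0 m) v < 1)).card : ℝ)
      ≤ ∑ _v : Fin n, 2 ^ 1 * (1 - (2 / (n : ℝ)) / 2) ^ m * (Fintype.card (Order n) : ℝ) :=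
        Finset.sum_le_sum (fun v _ => h1 v)
    _ = n * (2 * (1 - (2 / (n : ℝ)) / 2) ^ m) * (Fintype.card (Order n) : ℝ) := by
        rw [Finset.sum_const, Finset.card_univ, Fintype.card_fin, nsmul_eq_mul]
        ring
    _ ≤ n * (2 * Real.exp (-((m : ℝ) / n))) * (Fintype.card (Order n) : ℝ) := by
        gcongr

/-! ### The expectation -/

/-- The constant `w_k` (the threshold for success with high probability). -/
noncomputable def wConst (k : ℕ) : ℝ :=
  3 / 4 + (1 / 2) * ∑ m ∈ range (k - 1), ((k : ℝ) - 1 - m) * qd (m + 1)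

theorem max_eq_sum (k x : ℕ) : ((max k (1 + x) : ℕ) : ℝ) = 1 + (x : ℝ)
    + ∑ m ∈ range (k - 1), ((k : ℝ) - 1 - m) * (if x = m then (1 : ℝ) else 0) := by
  by_cases h : x < k - 1
  · have h1 : ∑ m ∈ range (k - 1), ((k : ℝ) - 1 - m) * (if x = m then (1 : ℝ) else 0)
        = (k : ℝ) - 1 - x := by
      rw [Finset.sum_eq_single x]
      · simp
      · intro m _ hm
        rw [if_neg (fun h' => hm h'.symm)]
        ring
      · intro h'
        exact absurd (Finset.mem_range.2 h) h'
    rw [h1, max_eq_left (by omega)]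
    ring
  · have h1 : ∑ m ∈ range (k - 1), ((k : ℝ) - 1 - m) * (if x = m then (1 : ℝ) else 0) = 0 := by
      refine Finset.sum_eq_zero (fun m hm => ?_)
      rw [Finset.mem_range] at hm
      rw [if_neg (by omega)]
      ring
    rw [h1, max_eq_right (by omega)]
    push_cast
    ring

/-- Average over the vertices and the orders. -/
noncomputable def av (F : Fin n → Order n → ℝ) : ℝ :=
  (∑ v : Fin n, ∑ σ : Order n, F v σ) / ((Fintype.card (Order n) : ℝ) * n)

theorem av_sub (F G : Fin n → Order n → ℝ) :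
    av (fun v σ => F v σ - G v σ) = av F - av G := by
  unfold av
  simp_rw [Finset.sum_sub_distrib]
  rw [sub_div]

theorem av_add (F G : Fin n → Order n → ℝ) :
    av (fun v σ => F v σ + G v σ) = av F + av G := by
  unfold av
  simp_rw [Finset.sum_add_distrib]
  rw [add_div]

theorem av_smul (c : ℝ) (F : Fin n → Order n → ℝ) :
    av (fun v σ => c * F v σ) = c * av F := by
  unfold av
  simp_rw [← Finset.mul_sum]
  rw [mul_div_assoc]

theorem av_sum (s : Finset ℕ) (c : ℕ → ℝ) (G : ℕ → Fin n → Order n → ℝ) :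
    av (fun v σ => ∑ i ∈ s, c i * G i v σ) = ∑ i ∈ s, c i * av (G i) := by
  induction s using Finset.induction_on with
  | empty => simp [av]
  | insert a s ha ih =>
    rw [Finset.sum_insert ha, ← ih, ← av_smul, ← av_add]
    congr 1
    funext v σ
    rw [Finset.sum_insert ha]

theorem av_mono {F G : Fin n → Order n → ℝ} (h : ∀ v σ, F v σ ≤ G v σ) : av F ≤ av G := by
  unfold av
  apply div_le_div_of_nonneg_right _ (by positivity)
  exact Finset.sum_le_sum (fun v _ => Finset.sum_le_sum (fun σ _ => h v σ))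

theorem abs_av_le {F G : Fin n → Order n → ℝ} (h : ∀ v σ, |F v σ| ≤ G v σ) :
    |av F| ≤ av G := by
  rw [abs_le]
  constructor
  · have h1 : av (fun v σ => (-1) * G v σ) ≤ av F := av_mono (fun v σ => by
      have := (abs_le.1 (h v σ)).1
      linarith)
    rw [av_smul] at h1
    linarith
  · exact av_mono (fun v σ => (abs_le.1 (h v σ)).2)

theorem av_moment (hn : 2 ≤ n) (j : ℕ) :
    av (fun (v : Fin n) (σ : Order n) => (((nbr σ v).card.choose j : ℕ) : ℝ))
      = (((n - 1).choose j : ℕ) : ℝ) * (((n : ℝ) - 1 - j) * pj n j / tt n (j + 1)) := by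
  have hn0 : (n : ℝ) ≠ 0 := by
    have : n ≠ 0 := by omega
    exact_mod_cast this
  have hc := (card_pos' (n := n)).ne'
  unfold av
  simp_rw [sum_choose_nbr hn]
  rw [Finset.sum_const, Finset.card_univ, Fintype.card_fin, nsmul_eq_mul]
  field_simp

open Classical in
/-- Average (over vertices) of the probability that there are `m` in-neighbours. -/
theorem tendsto_frac (m : ℕ) : Tendsto (fun n : ℕ => av (fun (v : Fin n) (σ : Order n) =>
    if (nbr σ v).card = m then (1 : ℝ) else 0)) atTop (𝓝 (qd (m + 1))) := by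
  refine tendsto_of_moments m _ (fun n j =>
    av (fun (v : Fin n) (σ : Order n) => (((nbr σ v).card.choose j : ℕ) : ℝ))) ?_ ?_
  · refine Eventually.of_forall (fun n I => ?_)
    rw [← av_sum (range (I + 1)) (fun i => (-1 : ℝ) ^ i * ((m + i).choose m : ℝ))
      (fun i v σ => (((nbr σ v).card.choose (m + i) : ℕ) : ℝ)), ← av_sub, ← av_smul]
    apply abs_av_le
    intro v σ
    have := inversion (nbr σ v).card m I
    convert this
  · intro j
    refine (tendsto_moment j).congr' ?_
    filter_upwards [eventually_ge_atTop 2] with n hn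
    exact (av_moment hn j).symm

/-- The expectation of `WW k (nearest 1)` divided by `n`. -/
theorem tendsto_ex_WW (k : ℕ) : Tendsto (fun n : ℕ =>
    ex (fun σ : Order n => (WW k (nearest 1 σ) : ℝ)) / n) atTop (𝓝 (2 * wConst k)) := by
  classical
  have h1 : Tendsto (fun n : ℕ => 1
      + av (fun (v : Fin n) (σ : Order n) => (((nbr σ v).card.choose 1 : ℕ) : ℝ))
      + ∑ m ∈ range (k - 1), ((k : ℝ) - 1 - m) * av (fun (v : Fin n) (σ : Order n) =>
        if (nbr σ v).card = m then (1 : ℝ) else 0)) atTop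
      (𝓝 (1 + 1 / ((1 + 1).factorial : ℝ)
        + ∑ m ∈ range (k - 1), ((k : ℝ) - 1 - m) * qd (m + 1))) := by
    refine (tendsto_const_nhds.add ?_).add ?_
    · refine (tendsto_moment 1).congr' ?_
      filter_upwards [eventually_ge_atTop 2] with n hn
      exact (av_moment hn 1).symm
    · exact tendsto_finsetSum _ (fun m _ => (tendsto_frac m).const_mul _)
  have e : 1 + 1 / ((1 + 1).factorial : ℝ)
        + ∑ m ∈ range (k - 1), ((k : ℝ) - 1 - m) * qd (m + 1) = 2 * wConst k := by
    unfold wConst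
    norm_num
    ring
  rw [e] at h1
  refine h1.congr' ?_
  filter_upwards [eventually_ge_atTop 2] with n hn
  have hn0 : (n : ℝ) ≠ 0 := by
    have : n ≠ 0 := by omega
    exact_mod_cast this
  have hc := (card_pos' (n := n)).ne'
  have h2 : ex (fun σ : Order n => (WW k (nearest 1 σ) : ℝ)) / n
      = av (fun (v : Fin n) (σ : Order n) => ((max k (1 + (nbr σ v).card) : ℕ) : ℝ)) := by
    unfold ex av
    rw [div_div, Finset.sum_comm]
    congr 1
    refine Finset.sum_congr rfl (fun σ _ => ?_)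
    show ((∑ v : Fin n, max k (deg (nearest 1 σ) v) : ℕ) : ℝ) = _
    rw [Nat.cast_sum]
    refine Finset.sum_congr rfl (fun v _ => ?_)
    rw [deg_nearest_one hn]
  rw [h2]
  have h3 : (fun (v : Fin n) (σ : Order n) => ((max k (1 + (nbr σ v).card) : ℕ) : ℝ))
      = fun v σ => (1 + (((nbr σ v).card.choose 1 : ℕ) : ℝ))
        + ∑ m ∈ range (k - 1), ((k : ℝ) - 1 - m) *
          (if (nbr σ v).card = m then (1 : ℝ) else 0) := by
    funext v σ
    rw [max_eq_sum, Nat.choose_one_right]
  rw [h3, av_add, av_add, av_sum (range (k - 1)) (fun m => (k : ℝ) - 1 - m)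
    (fun m v σ => if (nbr σ v).card = m then (1 : ℝ) else 0)]
  congr 2
  unfold av
  simp
  field_simp

/-! ### Concentration -/

theorem prob_trunc (k C : ℕ) (η : ℝ) (hη : 0 < η) (hn : 2 ≤ n) (hC : C * n ≤ n.choose 2) :
    prob (fun σ : Order n => η * n ≤ |(WW k (Of (C * n) σ) : ℝ)
      - ex (fun σ : Order n => (WW k (Of (C * n) σ) : ℝ))|) ≤ 64 * C / η ^ 2 / n := by
  have hn0 : (0 : ℝ) < n := by
    have : 0 < n := by omega
    exact_mod_cast this
  have hmeas : Meas (win (n.choose 2) 0 (C * n)) (fun σ : Order n => (WW k (Of (C * n) σ) : ℝ)) :=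
    (Of_meas (C * n)).comp (fun B => (WW k B : ℝ))
  have hv := variance_le 8 (C * n) hC _ hmeas (WW_Of_lip k (C * n))
  refine (chebyshev _ _ _ (by positivity) hv).trans (le_of_eq ?_)
  push_cast
  field_simp
  ring

theorem prob_iso (C : ℕ) (η : ℝ) (hη : 0 < η) (hn : 2 ≤ n) (hC : C * n ≤ n.choose 2) :
    prob (fun σ : Order n => η * n ≤ ((iso σ (C * n)).card : ℝ)) ≤ 2 * Real.exp (-C) / η := by
  have hn0 : (0 : ℝ) < n := by
    have : 0 < n := by omega
    exact_mod_cast this
  refine (markov _ (fun σ => Nat.cast_nonneg _) _ (by positivity)).trans ?_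
  have h1 := ex_iso_le hn (C * n) hC
  have h2 : ((C * n : ℕ) : ℝ) / n = C := by
    push_cast
    field_simp
  rw [h2] at h1
  rw [div_le_div_iff₀ (by positivity) hη]
  nlinarith

theorem WW_nearest_le (k m : ℕ) (σ : Order n) :
    (WW k (nearest 1 σ) : ℝ) ≤ WW k (Of m σ) + 2 * (iso σ m).card := by
  have h1 := WW_le k (nearest 1 σ) (Of m σ)
  have h2 := nearest_sdiff m σ
  have h3 : WW k (nearest 1 σ) ≤ WW k (Of m σ) + 2 * (iso σ m).card := by omega
  exact_mod_cast h3

theorem WW_Of_le (k m : ℕ) (σ : Order n) :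
    (WW k (Of m σ) : ℝ) ≤ WW k (nearest 1 σ) := by
  exact_mod_cast WW_mono k (Of_subset_nearest m σ)

theorem tendsto_exp_neg_nat : Tendsto (fun C : ℕ => Real.exp (-(C : ℝ))) atTop (𝓝 0) :=
  (Real.tendsto_exp_neg_atTop_nhds_zero).comp tendsto_natCast_atTop_atTop

theorem choose_two_large (C : ℕ) : ∀ᶠ n : ℕ in atTop, C * n ≤ n.choose 2 := by
  filter_upwards [eventually_ge_atTop (2 * C + 1)] with n hn
  rw [Nat.choose_two_right, Nat.le_div_iff_mul_le (by norm_num)]
  have h1 : 2 * C ≤ n - 1 := by omega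
  calc C * n * 2 = n * (2 * C) := by ring
    _ ≤ n * (n - 1) := Nat.mul_le_mul_left n h1

/-- Concentration of the truncated sum around `2 w_k n`. -/
theorem trunc_conc (k : ℕ) (η ε : ℝ) (hη : 0 < η) (hε : 0 < ε) :
    ∃ C0 : ℕ, ∀ C ≥ C0, ∀ᶠ n : ℕ in atTop,
      prob (fun σ : Order n => η * n ≤ |(WW k (Of (C * n) σ) : ℝ) - 2 * wConst k * n|) ≤ ε := by
  have h0 := tendsto_exp_neg_nat.eventually (gt_mem_nhds (by positivity : (0 : ℝ) < η / 16))
  obtain ⟨C0, hC0⟩ := eventually_atTop.1 h0
  refine ⟨C0, fun C hC => ?_⟩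
  have hexp := hC0 C hC
  have h1 := (tendsto_ex_WW k).eventually (Metric.ball_mem_nhds _ (by positivity : 0 < η / 4))
  have h2 : ∀ᶠ n : ℕ in atTop, 64 * (C : ℝ) / (η / 2) ^ 2 / n ≤ ε := by
    have h3 : Tendsto (fun n : ℕ => 64 * (C : ℝ) / (η / 2) ^ 2 / n) atTop (𝓝 0) :=
      tendsto_const_div_atTop_nhds_zero_nat _
    filter_upwards [h3.eventually (gt_mem_nhds hε)] with n hn
    exact hn.le
  filter_upwards [h1, h2, choose_two_large C, eventually_ge_atTop 2] with n h1 h2 h3 h4
  have hn0 : (0 : ℝ) < n := by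
    have : 0 < n := by omega
    exact_mod_cast this
  rw [Real.dist_eq] at h1
  have h5 : |ex (fun σ : Order n => (WW k (nearest 1 σ) : ℝ)) - 2 * wConst k * n| < η / 4 * n := by
    have e : ex (fun σ : Order n => (WW k (nearest 1 σ) : ℝ)) - 2 * wConst k * n
        = (ex (fun σ : Order n => (WW k (nearest 1 σ) : ℝ)) / n - 2 * wConst k) * n := by
      field_simp
    rw [e, abs_mul, abs_of_pos hn0]
    exact mul_lt_mul_of_pos_right h1 hn0
  have h6 : ex (fun σ : Order n => (WW k (Of (C * n) σ) : ℝ))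
      ≤ ex (fun σ : Order n => (WW k (nearest 1 σ) : ℝ)) := ex_mono (fun σ => WW_Of_le k _ σ)
  have h7 : ex (fun σ : Order n => (WW k (nearest 1 σ) : ℝ))
      ≤ ex (fun σ : Order n => (WW k (Of (C * n) σ) : ℝ)) + η / 4 * n := by
    have h8 : ex (fun σ : Order n => (WW k (nearest 1 σ) : ℝ))
        ≤ ex (fun σ : Order n => (WW k (Of (C * n) σ) : ℝ) + 2 * ((iso σ (C * n)).card : ℝ)) :=
      ex_mono (fun σ => WW_nearest_le k _ σ)
    rw [ex_add] at h8
    have h9 : ex (fun σ : Order n => 2 * ((iso σ (C * n)).card : ℝ))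
        = 2 * ex (fun σ : Order n => ((iso σ (C * n)).card : ℝ)) := by
      unfold ex
      rw [← Finset.mul_sum, mul_div_assoc]
    rw [h9] at h8
    have h10 := ex_iso_le h4 (C * n) h3
    have h11 : ((C * n : ℕ) : ℝ) / n = C := by
      push_cast
      field_simp
    rw [h11] at h10
    nlinarith
  refine le_trans (prob_mono' (fun σ hσ => ?_)) ((prob_trunc k C (η / 2) (by positivity) h4
    h3).trans h2)
  have h12 := abs_sub_lt_iff.1 h5
  have h13 : |ex (fun σ : Order n => (WW k (Of (C * n) σ) : ℝ)) - 2 * wConst k * n|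
      ≤ η / 2 * n := by
    rw [abs_le]
    constructor <;> linarith
  have h14 := abs_sub_abs_le_abs_sub ((WW k (Of (C * n) σ) : ℝ) - 2 * wConst k * n)
    (ex (fun σ : Order n => (WW k (Of (C * n) σ) : ℝ)) - 2 * wConst k * n)
  have e : (WW k (Of (C * n) σ) : ℝ) - 2 * wConst k * n
      - (ex (fun σ : Order n => (WW k (Of (C * n) σ) : ℝ)) - 2 * wConst k * n)
      = (WW k (Of (C * n) σ) : ℝ) - ex (fun σ : Order n => (WW k (Of (C * n) σ) : ℝ)) := by ring
  rw [e] at h14
  linarith

/-- **Law of large numbers** (upper part). -/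
theorem WW_upper (k : ℕ) (η : ℝ) (hη : 0 < η) : Tendsto (fun n : ℕ =>
    prob (fun σ : Order n => (2 * wConst k + η) * n ≤ (WW k (nearest 1 σ) : ℝ))) atTop
    (𝓝 0) := by
  rw [Metric.tendsto_atTop]
  intro ε hε
  obtain ⟨C0, hC0⟩ := trunc_conc k (η / 2) (ε / 4) (by positivity) (by positivity)
  have h0 := tendsto_exp_neg_nat.eventually
    (gt_mem_nhds (by positivity : (0 : ℝ) < ε * η / 32))
  obtain ⟨C1, hC1⟩ := eventually_atTop.1 h0
  set C := max C0 C1 with hC
  have hexp := hC1 C (le_max_right _ _)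
  have h1 := hC0 C (le_max_left _ _)
  obtain ⟨n0, hn0⟩ := eventually_atTop.1 (h1.and ((choose_two_large C).and
    (eventually_ge_atTop 2)))
  refine ⟨n0, fun n hn => ?_⟩
  obtain ⟨h2, h3, h4⟩ := hn0 n hn
  have hn0 : (0 : ℝ) < n := by
    have : 0 < n := by omega
    exact_mod_cast this
  rw [Real.dist_eq, sub_zero, abs_of_nonneg (prob_nonneg _)]
  have h5 := prob_iso C (η / 4) (by positivity) h4 h3
  have h6 : 2 * Real.exp (-(C : ℝ)) / (η / 4) ≤ ε / 4 := by
    rw [div_le_iff₀ (by positivity)]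
    linarith
  have h7 : prob (fun σ : Order n => (2 * wConst k + η) * n ≤ (WW k (nearest 1 σ) : ℝ))
      ≤ prob (fun σ : Order n => η / 2 * n ≤ |(WW k (Of (C * n) σ) : ℝ) - 2 * wConst k * n| ∨
        η / 4 * n ≤ ((iso σ (C * n)).card : ℝ)) := by
    apply prob_mono'
    intro σ hσ
    by_contra hcon
    push Not at hcon
    have h8 := (abs_sub_lt_iff.1 hcon.1).1
    have h9 := WW_nearest_le k (C * n) σ
    linarith [hcon.2]
  have h8 := prob_or_le (fun σ : Order n => η / 2 * n ≤
    |(WW k (Of (C * n) σ) : ℝ) - 2 * wConst k * n|)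
    (fun σ : Order n => η / 4 * n ≤ ((iso σ (C * n)).card : ℝ))
  linarith

end Pool.Agent.Work.MP_59e60d_pr
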