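import Pool.Agent.Work.MP_59e60d_pr.Upper

/-!
# The strategy for success with high probability: probabilities
-/

namespace Pool.Agent.Work.MP_59e60d_pr

open Finset Filter Topology

variable {n : ℕ}

theorem prob_exists_le {ι : Type*} [Fintype ι] (A : ι → Order n → Prop) :
    prob (fun σ => ∃ v, A v σ) ≤ ∑ v, prob (A v) := by
  classical
  simp_rw [prob_eq_ex]
  rw [← ex_sum]
  apply ex_mono
  intro σ
  by_cases h : ∃ v, A v σ
  · obtain ⟨v, hv⟩ := h
    rw [if_pos ⟨v, hv⟩]
    have h1 := Finset.single_le_sum (f := fun i => if A i σ then (1 : ℝ) else 0)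
      (fun i _ => by split_ifs <;> norm_num) (Finset.mem_univ v)
    simp only [if_pos hv] at h1
    exact h1
  · rw [if_neg h]
    exact Finset.sum_nonneg (fun i _ => by split_ifs <;> norm_num)

section Phase2

variable {k a u : ℕ}

theorem wants_low (hk : 1 ≤ k) {e : Edge n} {B : Finset (Edge n)} (h : wants n k a u e B) :
    ∃ v ∈ e.1, deg B v < k := by
  rcases h with ⟨_, v, hv, h1⟩ | ⟨_, _, ⟨v, hv, h1⟩ | h1⟩ | ⟨_, _, v, hv, h1⟩
  · exact ⟨v, hv, by omega⟩
  · exact ⟨v, hv, by omega⟩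
  · obtain ⟨x, y, hxy⟩ : ∃ x y, e.1 = s(x, y) := by
      induction e.1 using Sym2.ind with
      | _ x y => exact ⟨x, y, rfl⟩
    have hx : x ∈ e.1 := by
      rw [hxy]
      exact Sym2.mem_mk_left x y
    exact ⟨x, hx, h1 x hx⟩
  · exact ⟨v, hv, h1⟩

theorem ub_gap (hk : 1 ≤ k) (σ : Order n) (s : ℕ) :
    (ub k a u σ s).card + gap k (ub k a u σ s) ≤ k * n := by
  induction s with
  | zero =>
    rw [ub_zero]
    have h1 := gap_le k (∅ : Finset (Edge n))
    have h2 : (low k (∅ : Finset (Edge n))).card ≤ n := by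
      have := Finset.card_le_univ (low k (∅ : Finset (Edge n)))
      rwa [Fintype.card_fin] at this
    have h3 := Nat.mul_le_mul_left k h2
    rw [Finset.card_empty]
    omega
  | succ s ih =>
    by_cases h : s < n.choose 2
    · by_cases hS : wants n k a u (σ ⟨s, h⟩) (ub k a u σ s)
      · rw [ub_pos h hS, Finset.card_insert_of_notMem (notMem_ub h)]
        have h1 := gap_insert k (notMem_ub h) (wants_low hk hS)
        omega
      · rw [ub_neg h hS]
        exact ih
    · rw [ub_ge h]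
      exact ih

/-- It is very unlikely that phase 2 is long. -/
theorem phase2_prob (hk : 1 ≤ k) (m w : ℕ) (hmw : m + w ≤ n.choose 2) (q : ℝ)
    (hq1 : q ≤ 1) (hq : q * (n.choose 2 : ℕ) + (m + w : ℕ) ≤ ((u + 1).choose 2 : ℕ)) :
    prob (fun σ : Order n => (low 1 (shown σ m)).card ≤ a ∧ u < (low k (ub k a u σ (m + w))).card)
      ≤ 2 ^ (k * n) * (1 - q / 2) ^ w := by
  classical
  have hwin : ∀ i, win (n.choose 2) 0 m ∪ win (n.choose 2) m i = win (n.choose 2) 0 (m + i) := by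
    intro i
    ext p
    rw [Finset.mem_union, mem_win, mem_win, mem_win]
    omega
  have hlowM : ∀ i, Meas (win (n.choose 2) 0 m ∪ win (n.choose 2) m i)
      (fun σ : Order n => low 1 (shown σ m)) := by
    intro i
    exact ((shown_meas m).comp (fun B => low 1 B)).mono Finset.subset_union_left
  have hubM : ∀ i, Meas (win (n.choose 2) 0 m ∪ win (n.choose 2) m i)
      (fun σ : Order n => ub k a u σ (m + i)) := by
    intro i
    rw [hwin i]
    exact ub_meas k a u (m + i)
  have h := exp_gen (N := n.choose 2) (α := Edge n) (win (n.choose 2) 0 m) m w hmw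
    (by
      intro p hp
      rw [mem_win] at hp
      omega)
    (fun i σ => (ub k a u σ (m + i)).card)
    (fun i σ => (low 1 (shown σ m)).card ≤ a ∧ u < (low k (ub k a u σ (m + i))).card)
    (fun i σ => univ.filter (fun e : Edge n => ∀ v ∈ e.1, v ∈ low k (ub k a u σ (m + i))))
    (fun i => (hubM i).comp (fun B => B.card))
    (fun i => (hlowM i).comp₂ (hubM i) (fun A B => A.card ≤ a ∧ u < (low k B).card))
    (fun i => (hubM i).comp (fun B => univ.filter (fun e : Edge n => ∀ v ∈ e.1, v ∈ low k B)))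
    (by
      intro i _ σ h
      exact ⟨h.1, lt_of_lt_of_le h.2 (card_low_anti k (ub_mono (by omega)))⟩)
    (by
      intro i _ σ _
      exact Finset.card_le_card (ub_mono (by omega)))
    (by
      intro i hi σ hD hF
      have hi' : m + i < n.choose 2 := by omega
      have hlow1 : (low 1 (ub k a u σ (m + i))).card ≤ a := by
        rw [ub_low_eq hk]
        exact (card_low_anti 1 (shown_mono (Nat.le_add_right m i))).trans hD.1
      have hlowk : u < (low k (ub k a u σ (m + i))).card :=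
        lt_of_lt_of_le hD.2 (card_low_anti k (ub_mono (by omega)))
      have hS : wants n k a u (σ ⟨m + i, hi'⟩) (ub k a u σ (m + i)) := by
        refine Or.inr (Or.inl ⟨hlow1, hlowk, Or.inr ?_⟩)
        intro v hv
        have h1 := (Finset.mem_filter.1 hF).2 v hv
        exact (Finset.mem_filter.1 h1).2
      show (ub k a u σ (m + i)).card + 1 ≤ (ub k a u σ (m + (i + 1))).card
      rw [← Nat.add_assoc m i 1, ub_pos hi' hS, Finset.card_insert_of_notMem (notMem_ub hi')])
    q (1 / 2) hq1 (by norm_num) (by norm_num)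
    (by
      intro i hi σ hD
      have h1 := card_filter_compl (win (n.choose 2) 0 m ∪ win (n.choose 2) m i) σ
        (univ.filter (fun e : Edge n => ∀ v ∈ e.1, v ∈ low k (ub k a u σ (m + i))))
      have h2 := card_inner (low k (ub k a u σ (m + i)))
      have h3 : ((win (n.choose 2) 0 m ∪ win (n.choose 2) m i).filter (fun j => σ j ∈
        (univ.filter (fun e : Edge n => ∀ v ∈ e.1, v ∈ low k (ub k a u σ (m + i)))))).card
          ≤ m + w := by
        rw [hwin i]
        refine (Finset.card_filter_le _ _).trans ((card_win_le _ _ _).trans (by omega))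
      have h4 : (u + 1).choose 2 ≤ (low k (ub k a u σ (m + i))).card.choose 2 :=
        Nat.choose_le_choose 2 hD.2
      have h5 : (u + 1).choose 2 ≤ (m + w) +
        ((win (n.choose 2) 0 m ∪ win (n.choose 2) m i)ᶜ.filter (fun j => σ j ∈
        (univ.filter (fun e : Edge n => ∀ v ∈ e.1, v ∈ low k (ub k a u σ (m + i)))))).card := by
        omega
      have h6 : (((u + 1).choose 2 : ℕ) : ℝ) ≤ ((m + w : ℕ) : ℝ) +
        (((win (n.choose 2) 0 m ∪ win (n.choose 2) m i)ᶜ.filter (fun j => σ j ∈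
        (univ.filter (fun e : Edge n => ∀ v ∈ e.1,
          v ∈ low k (ub k a u σ (m + i)))))).card : ℝ) := by
        exact_mod_cast h5
      linarith)
    (k * n)
    (by
      intro σ _
      have := ub_gap (a := a) (u := u) hk σ (m + w)
      show (ub k a u σ (m + w)).card ≤ k * n
      omega)
  have hc := card_pos' (n := n)
  have e1 : (1 : ℝ) - q * (1 - 1 / 2) = 1 - q / 2 := by ring
  rw [e1] at h
  have h0 : ((univ.filter (fun σ : Order n => (low 1 (shown σ m)).card ≤ a ∧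
      u < (low k (ub k a u σ (m + 0))).card)).card : ℝ) ≤ (Fintype.card (Order n) : ℝ) := by
    exact_mod_cast Finset.card_le_univ _
  have h6 : 0 ≤ 1 - q / 2 := by linarith
  have h7 := h.trans (mul_le_mul_of_nonneg_left h0 (pow_nonneg h6 w))
  rw [prob_def', div_le_iff₀ hc]
  have h8 : (2 : ℝ) ^ (k * n) * ((1 / 2) ^ (k * n) *
      ((univ.filter (fun σ : Order n => (low 1 (shown σ m)).card ≤ a ∧
      u < (low k (ub k a u σ (m + w))).card)).card : ℝ))
      ≤ 2 ^ (k * n) * ((1 - q / 2) ^ w * (Fintype.card (Order n) : ℝ)) :=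
    mul_le_mul_of_nonneg_left h7 (by positivity)
  rw [← mul_assoc, ← mul_pow, mul_one_div_cancel (by norm_num : (2 : ℝ) ≠ 0), one_pow, one_mul]
    at h8
  linarith

/-- The union bound. -/
theorem fail_le (hk : 1 ≤ k) (hn : k + 1 ≤ n) (b m1 m t : ℕ) (hm1 : m1 ≤ m) (hmt : m ≤ t) :
    prob (fun σ : Order n => ¬ MinDeg k (cb k a u b σ (tau k σ)))
      ≤ prob (fun σ : Order n => 2 * b < WW k (nearest 1 σ) + a + k * u)
        + (prob (fun σ : Order n => a < (iso σ m1).card)
        + (prob (fun σ : Order n => (low 1 (shown σ m1)).card ≤ a ∧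
            u < (low k (ub k a u σ m)).card)
        + (prob (fun σ : Order n => ∃ v, deg (slice σ m (t - m)) v + 1 < k)
        + prob (fun σ : Order n => MinDeg k (shown σ t))))) := by
  refine le_trans (prob_mono' (B := fun σ => 2 * b < WW k (nearest 1 σ) + a + k * u ∨
    (a < (iso σ m1).card ∨ (((low 1 (shown σ m1)).card ≤ a ∧ u < (low k (ub k a u σ m)).card) ∨
    ((∃ v, deg (slice σ m (t - m)) v + 1 < k) ∨ MinDeg k (shown σ t)))))
    (fun σ hσ => ?_)) ?_
  · by_contra hcon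
    simp only [not_or] at hcon
    obtain ⟨h1, h2, h3, h4, h5⟩ := hcon
    apply hσ
    rw [cb_eq_ub hk (not_lt.1 h1)]
    rw [iso_eq_low, not_lt] at h2
    apply success3 hk hn m t hmt ((card_low_anti 1 (shown_mono hm1)).trans h2) ?_ ?_ h5
    · by_contra h6
      exact h3 ⟨h2, not_le.1 h6⟩
    · intro v
      by_contra h6
      exact h4 ⟨v, not_le.1 h6⟩
  · refine (prob_or_le _ _).trans (add_le_add le_rfl ?_)
    refine (prob_or_le _ _).trans (add_le_add le_rfl ?_)
    refine (prob_or_le _ _).trans (add_le_add le_rfl ?_)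
    exact prob_or_le _ _

end Phase2

/-! ### Asymptotics -/

/-- `⌊log log n / 16⌋`. -/
noncomputable def hh (n : ℕ) : ℕ := ⌊LL n / 16⌋₊

theorem tendsto_hh : Tendsto hh atTop atTop :=
  tendsto_nat_floor_atTop.comp (tendsto_LL.atTop_div_const (by norm_num))

theorem hh_le : ∀ᶠ n : ℕ in atTop, (hh n : ℝ) ≤ LL n / 16 := by
  filter_upwards [tendsto_LL.eventually (eventually_ge_atTop 0)] with n h
  exact Nat.floor_le (by linarith)

/-- `hh n` is small. -/
theorem hh_small (c : ℝ) (hc : 0 < c) : ∀ᶠ n : ℕ in atTop, (hh n : ℝ) ≤ c * n := by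
  filter_upwards [hh_le, LL_le 1 one_pos, (tendsto_Lg_pow_div 1).eventually (gt_mem_nhds hc),
    eventually_gt_atTop 0, tendsto_LL.eventually (eventually_ge_atTop 0)] with n h1 h2 h3 h4 h5
  have hn0 : (0 : ℝ) < n := by exact_mod_cast h4
  rw [pow_one, div_lt_iff₀ hn0] at h3
  linarith

theorem two_n_hh (c : ℝ) (hc : 0 < c) : ∀ᶠ n : ℕ in atTop,
    ((n * hh n + n * hh n : ℕ) : ℝ) ≤ c * (n : ℝ) ^ 2 := by
  filter_upwards [hh_small (c / 2) (by positivity)] with n h
  push_cast
  have hn0 : (0 : ℝ) ≤ n := Nat.cast_nonneg n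
  nlinarith

theorem two_n_hh_le : ∀ᶠ n : ℕ in atTop, n * hh n + n * hh n ≤ n.choose 2 := by
  filter_upwards [two_n_hh (1 / 8) (by norm_num), eventually_ge_atTop 2] with n h h2
  have hn : (2 : ℝ) ≤ n := by exact_mod_cast h2
  have hN : (((n.choose 2 : ℕ)) : ℝ) = n * (n - 1) / 2 := Nat.cast_choose_two ℝ n
  have : ((n * hh n + n * hh n : ℕ) : ℝ) ≤ ((n.choose 2 : ℕ) : ℝ) := by
    rw [hN]
    nlinarith
  exact_mod_cast this

/-- Few isolated vertices at the time `n * hh n`. -/
theorem iso_whp (δ : ℝ) (hδ : 0 < δ) : Tendsto (fun n : ℕ =>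
    prob (fun σ : Order n => δ * n ≤ ((iso σ (n * hh n)).card : ℝ))) atTop (𝓝 0) := by
  have h1 : Tendsto (fun n : ℕ => 2 / δ * Real.exp (-(hh n : ℝ))) atTop (𝓝 (2 / δ * 0)) :=
    (tendsto_exp_neg_nat.comp tendsto_hh).const_mul _
  rw [mul_zero] at h1
  refine squeeze_zero' (Eventually.of_forall (fun n => prob_nonneg _)) ?_ h1
  filter_upwards [two_n_hh_le, eventually_ge_atTop 2] with n h2 h3
  have hn0 : (0 : ℝ) < n := by
    have : 0 < n := by omega
    exact_mod_cast this
  refine (markov _ (fun σ => Nat.cast_nonneg _) _ (by positivity)).trans ?_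
  have h4 := ex_iso_le h3 (n * hh n) (by omega)
  have h5 : ((n * hh n : ℕ) : ℝ) / n = hh n := by
    push_cast
    field_simp
  rw [h5] at h4
  rw [div_le_iff₀ (by positivity)]
  calc _ ≤ _ := h4
    _ = 2 / δ * Real.exp (-(hh n : ℝ)) * (δ * n) := by
      field_simp

/-- Phase 2 is short. -/
theorem phase2_whp (k : ℕ) (hk : 1 ≤ k) (β : ℝ) (hβ : 0 < β) (hβ1 : β ≤ 1) (a : ℕ → ℕ) :
    Tendsto (fun n : ℕ => prob (fun σ : Order n => (low 1 (shown σ (n * hh n))).card ≤ a n ∧
      ⌊β * n⌋₊ < (low k (ub k (a n) ⌊β * n⌋₊ σ (n * hh n + n * hh n))).card)) atTop (𝓝 0) := by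
  set q : ℝ := β ^ 2 / 2 with hq
  have hβ2 : β ^ 2 ≤ 1 := by nlinarith
  have hq0 : 0 < q := by positivity
  have hq1 : q ≤ 1 := by rw [hq]; linarith
  have h1 : Tendsto (fun n : ℕ => ((1 : ℝ) / 2) ^ n) atTop (𝓝 0) :=
    tendsto_pow_atTop_nhds_zero_of_lt_one (by norm_num) (by norm_num)
  refine squeeze_zero' (Eventually.of_forall (fun n => prob_nonneg _)) ?_ h1
  have h2 : Tendsto (fun n : ℕ => (2 : ℝ) ^ k * (1 - q / 2) ^ (hh n)) atTop (𝓝 (2 ^ k * 0)) :=
    ((tendsto_pow_atTop_nhds_zero_of_lt_one (by linarith) (by linarith)).comp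
      tendsto_hh).const_mul _
  rw [mul_zero] at h2
  filter_upwards [two_n_hh (β ^ 2 / 16) (by positivity), two_n_hh_le,
    h2.eventually (gt_mem_nhds (by norm_num : (0 : ℝ) < 1 / 2)),
    eventually_ge_atTop (⌈8 / β ^ 2⌉₊ + 2)] with n h3 h4 h5 h6
  have hn8 : 8 / β ^ 2 ≤ n := by
    have h7 := Nat.le_ceil (8 / β ^ 2)
    have h8 : ((⌈8 / β ^ 2⌉₊ + 2 : ℕ) : ℝ) ≤ n := by exact_mod_cast h6
    push_cast at h8
    linarith
  have hn0 : (0 : ℝ) < n := lt_of_lt_of_le (by positivity) hn8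
  have hN : (((n.choose 2 : ℕ)) : ℝ) = n * (n - 1) / 2 := Nat.cast_choose_two ℝ n
  have hu : β * n < (⌊β * n⌋₊ : ℝ) + 1 := Nat.lt_floor_add_one _
  have hcond : q * (n.choose 2 : ℕ) + ((n * hh n + n * hh n : ℕ) : ℝ)
      ≤ (((⌊β * n⌋₊ + 1).choose 2 : ℕ) : ℝ) := by
    have e1 : (((⌊β * n⌋₊ + 1).choose 2 : ℕ) : ℝ) = ((⌊β * n⌋₊ : ℝ) + 1) * (⌊β * n⌋₊ : ℝ) / 2 := by
      rw [Nat.cast_choose_two]
      push_cast
      ring
    rw [e1, hN, hq]
    have h9 : 0 ≤ (⌊β * n⌋₊ : ℝ) := Nat.cast_nonneg _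
    have h10 : β * n * (β * n - 1) / 2 ≤ ((⌊β * n⌋₊ : ℝ) + 1) * (⌊β * n⌋₊ : ℝ) / 2 := by
      have h11 : 0 ≤ β * n := by positivity
      nlinarith
    refine le_trans ?_ h10
    have h12 : 8 ≤ β ^ 2 * n := by
      rw [div_le_iff₀ (by positivity)] at hn8
      linarith
    have h13 : 8 * n ≤ β ^ 2 * n ^ 2 := by nlinarith
    have h14 : β * n ≤ n := by nlinarith
    nlinarith
  have h7 := phase2_prob (a := a n) (u := ⌊β * n⌋₊) hk (n * hh n) (n * hh n) h4 q hq1 hcond
  refine h7.trans ?_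
  have e2 : (2 : ℝ) ^ (k * n) * (1 - q / 2) ^ (n * hh n)
      = (2 ^ k * (1 - q / 2) ^ (hh n)) ^ n := by
    rw [mul_pow, ← pow_mul, ← pow_mul, mul_comm (hh n) n]
  rw [e2]
  exact pow_le_pow_left₀ (by
    have : 0 ≤ 1 - q / 2 := by linarith
    positivity) h5.le n

/-- After the second phase every vertex receives at least `k - 1` further edges. -/
theorem slice_whp (k : ℕ) (hk : 1 ≤ k) : Tendsto (fun n : ℕ => prob (fun σ : Order n =>
    ∃ v, deg (slice σ (n * hh n + n * hh n) (t0 k n - (n * hh n + n * hh n))) v + 1 < k))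
    atTop (𝓝 0) := by
  have h1 : Tendsto (fun n : ℕ => Real.exp 3 * Real.exp (-(LL n / 4))) atTop
      (𝓝 (Real.exp 3 * 0)) :=
    (Real.tendsto_exp_neg_atTop_nhds_zero.comp
      (tendsto_LL.atTop_div_const (by norm_num))).const_mul _
  rw [mul_zero] at h1
  refine squeeze_zero' (Eventually.of_forall (fun n => prob_nonneg _)) ?_ h1
  by_cases hk2 : k = 1
  · refine Eventually.of_forall (fun n => ?_)
    have h2 : prob (fun σ : Order n => ∃ v, deg (slice σ (n * hh n + n * hh n)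
        (t0 k n - (n * hh n + n * hh n))) v + 1 < k) ≤ prob (fun _ : Order n => False) := by
      apply prob_mono'
      rintro σ ⟨v, hv⟩
      omega
    have h3 : prob (fun _ : Order n => False) = 0 := by
      unfold prob
      simp
    rw [h3] at h2
    refine h2.trans (by positivity)
  obtain ⟨j, rfl⟩ : ∃ j, k = j + 2 := ⟨k - 2, by omega⟩
  have hj0 : (0 : ℝ) ≤ j := Nat.cast_nonneg j
  filter_upwards [t0_facts (j + 2) hk, hh_le, tendsto_LL.eventually (eventually_ge_atTop 0),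
    LL_le (1 / (4 * ((j : ℝ) + 2))) (by positivity),
    tendsto_Lg.eventually (eventually_ge_atTop 16), (tendsto_Lg_pow_div 1).eventually (gt_mem_nhds
      (by positivity : (0 : ℝ) < 1 / (8 * ((j : ℝ) + 2)))),
    (tendsto_t0_div (j + 2) hk).eventually (gt_mem_nhds (by norm_num : (0 : ℝ) < 1 / 4)),
    eventually_ge_atTop (4 * (j + 2))] with n h2 h3 h4 h5 h6 h7 h8 h9
  obtain ⟨f1, f2, f3, f4⟩ := h2
  set L := Lg n with hL
  set l := LL n with hl
  set t := t0 (j + 2) n with ht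
  set m := n * hh n + n * hh n with hm
  have hL0 : 0 < L := by linarith
  have hn8 : 4 * ((j : ℝ) + 2) ≤ n := by exact_mod_cast h9
  have hn0 : (0 : ℝ) < n := by linarith
  have hn2 : (8 : ℝ) ≤ n := by linarith
  have hN : (((n.choose 2 : ℕ)) : ℝ) = n * (n - 1) / 2 := Nat.cast_choose_two ℝ n
  have hNpos : 0 < ((n.choose 2 : ℕ) : ℝ) := by
    rw [hN]
    have : 0 < (n : ℝ) - 1 := by linarith
    positivity
  have hlL : ((j : ℝ) + 2) * l ≤ L / 4 := by
    have := mul_le_mul_of_nonneg_left h5 (by positivity : 0 ≤ (j : ℝ) + 2)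
    calc ((j : ℝ) + 2) * l ≤ ((j : ℝ) + 2) * (1 / (4 * ((j : ℝ) + 2)) * L) := this
      _ = L / 4 := by field_simp
  have hmr : (m : ℝ) ≤ n * (l / 8) := by
    rw [hm]
    push_cast
    nlinarith
  -- `Y`
  have f1' : 2 * (t : ℝ) / n ≤ L + ((j : ℝ) + 1 / 2) * l := by
    have := f1
    push_cast at this
    linarith
  have f2' : L + ((j : ℝ) + 1 / 2) * l - 2 / n ≤ 2 * (t : ℝ) / n := by
    have := f2
    push_cast at this
    linarith
  have h2n : 2 / (n : ℝ) ≤ 1 := by
    rw [div_le_one hn0]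
    linarith
  have hmt : m ≤ t := by
    have h10 : (m : ℝ) ≤ t := by
      have h11 : L / 2 * n ≤ 2 * t := by
        rw [le_div_iff₀ hn0] at f3
        exact f3
      have h12 : l / 8 ≤ L / 4 := by nlinarith
      nlinarith
    exact_mod_cast h10
  have hwr : ((t - m : ℕ) : ℝ) = t - m := Nat.cast_sub hmt
  set Y : ℝ := 2 * ((t - m : ℕ) : ℝ) / n with hY
  have hY1 : L + ((j : ℝ) + 1 / 4) * l - 1 ≤ Y := by
    have h13 : Y = 2 * (t : ℝ) / n - 2 * m / n := by
      rw [hY, hwr]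
      ring
    have h14 : 2 * (m : ℝ) / n ≤ l / 4 := by
      rw [div_le_iff₀ hn0]
      linarith
    rw [h13]
    linarith
  have hY2 : Y ≤ 3 / 2 * L := by
    have h15 : Y ≤ 2 * (t : ℝ) / n := by
      rw [hY, hwr]
      apply div_le_div_of_nonneg_right _ hn0.le
      have : (0 : ℝ) ≤ m := Nat.cast_nonneg m
      linarith
    nlinarith
  have hY0 : 0 ≤ Y := by
    rw [hY]
    positivity
  set q : ℝ := ((n : ℝ) - (j + 1)) / ((n.choose 2 : ℕ) : ℝ) with hq
  have hqN : q * ((n.choose 2 : ℕ) : ℝ) = (n : ℝ) - (j + 1) := by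
    rw [hq]
    field_simp
  have hq0 : 0 ≤ q := by
    rw [hq]
    apply div_nonneg _ hNpos.le
    linarith
  have hq1 : q ≤ 1 := by
    rw [hq, div_le_one hNpos, hN]
    nlinarith
  have htN : m + (t - m) ≤ n.choose 2 := by
    have h16 : (t : ℝ) ≤ ((n.choose 2 : ℕ) : ℝ) := by
      rw [div_lt_iff₀ (by positivity)] at h8
      rw [hN]
      nlinarith
    have h17 : t ≤ n.choose 2 := by exact_mod_cast h16
    omega
  have hlam0 : 0 ≤ 1 / L := by positivity
  have hlam1 : 1 / L ≤ 1 := by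
    rw [div_le_one hL0]
    linarith
  have hexp : (1 - q * (1 - 1 / L)) ^ (t - m)
      ≤ Real.exp 3 * Real.exp (-(l / 4)) * (1 / n) * (1 / L) ^ j := by
    have h18 : 1 - q * (1 - 1 / L) ≤ Real.exp (-(q * (1 - 1 / L))) :=
      Real.one_sub_le_exp_neg _
    have h19 : 0 ≤ 1 - q * (1 - 1 / L) := by nlinarith
    have h20 : L + ((j : ℝ) + 1 / 4) * l - 3 ≤ ((t - m : ℕ) : ℝ) * (q * (1 - 1 / L)) := by
      have h21 : (1 - ((j : ℝ) + 1) / n) * Y ≤ ((t - m : ℕ) : ℝ) * q := by
        rw [hY, hq, hN]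
        have h22 : 0 < (n : ℝ) - 1 := by linarith
        rw [div_div_eq_mul_div, mul_div_assoc', mul_div_assoc', div_le_div_iff₀ hn0
          (by positivity)]
        have h23 : 0 ≤ ((t - m : ℕ) : ℝ) := Nat.cast_nonneg _
        have e3 : (1 - ((j : ℝ) + 1) / n) = ((n : ℝ) - (j + 1)) / n := by field_simp
        rw [e3]
        have h24 : 0 ≤ ((n : ℝ) - (j + 1)) := by linarith
        have e4 : ((n : ℝ) - (j + 1)) / n * (2 * ((t - m : ℕ) : ℝ)) * (n * (n - 1))
            = (((n : ℝ) - (j + 1)) * (2 * ((t - m : ℕ) : ℝ))) * (n - 1) := by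
          field_simp
        rw [e4]
        have h25 : 0 ≤ ((n : ℝ) - (j + 1)) * (2 * ((t - m : ℕ) : ℝ)) := by positivity
        nlinarith
      have h26 : ((t - m : ℕ) : ℝ) * (q * (1 - 1 / L)) = (((t - m : ℕ) : ℝ) * q) * (1 - 1 / L) := by
        ring
      rw [h26]
      have h27 : (1 - ((j : ℝ) + 1) / n) * Y * (1 - 1 / L)
          ≤ (((t - m : ℕ) : ℝ) * q) * (1 - 1 / L) :=
        mul_le_mul_of_nonneg_right h21 (by linarith)
      refine le_trans ?_ h27
      have h28 : Y * (1 / L) ≤ 3 / 2 := by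
        rw [mul_one_div, div_le_iff₀ hL0]
        exact hY2
      have h29 : ((j : ℝ) + 1) / n * Y ≤ 1 / 2 := by
        rw [pow_one, div_lt_iff₀ hn0] at h7
        rw [div_mul_eq_mul_div, div_le_iff₀ hn0]
        have h30 : ((j : ℝ) + 1) * Y ≤ ((j : ℝ) + 2) * (3 / 2 * L) := by
          apply mul_le_mul _ hY2 hY0 (by positivity)
          linarith
        have h31 : ((j : ℝ) + 2) * L ≤ n / 8 := by
          have := mul_le_mul_of_nonneg_left h7.le (by positivity : 0 ≤ (j : ℝ) + 2)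
          calc ((j : ℝ) + 2) * L ≤ ((j : ℝ) + 2) * (1 / (8 * ((j : ℝ) + 2)) * n) := this
            _ = n / 8 := by field_simp
        linarith
      have h32 : 0 ≤ ((j : ℝ) + 1) / n * Y * (1 / L) := by positivity
      nlinarith
    calc (1 - q * (1 - 1 / L)) ^ (t - m) ≤ Real.exp (-(q * (1 - 1 / L))) ^ (t - m) :=
          pow_le_pow_left₀ h19 h18 _
      _ = Real.exp (-(((t - m : ℕ) : ℝ) * (q * (1 - 1 / L)))) := by
          rw [← Real.exp_nat_mul]
          congr 1
          ring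
      _ ≤ Real.exp (-(L + ((j : ℝ) + 1 / 4) * l - 3)) := by
          apply Real.exp_le_exp.2
          linarith
      _ = Real.exp 3 * Real.exp (-(l / 4)) * (1 / n) * (1 / L) ^ j := by
          have e5 : Real.exp L = n := by
            rw [hL]
            exact Real.exp_log hn0
          have e6 : Real.exp l = L := by
            rw [hl]
            exact Real.exp_log hL0
          have e7 : (1 : ℝ) / n = Real.exp (-L) := by rw [Real.exp_neg, e5, one_div]
          have e8 : (1 / L) ^ j = Real.exp (-(j * l)) := by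
            rw [Real.exp_neg, Real.exp_nat_mul, e6, one_div, inv_pow]
          rw [e7, e8, ← Real.exp_add, ← Real.exp_add, ← Real.exp_add]
          congr 1
          ring
  have hsum : prob (fun σ : Order n => ∃ v, deg (slice σ m (t - m)) v + 1 < j + 2)
      ≤ ∑ _v : Fin n, L ^ j * (Real.exp 3 * Real.exp (-(l / 4)) * (1 / n) * (1 / L) ^ j) := by
    refine (prob_exists_le _).trans (Finset.sum_le_sum (fun v _ => ?_))
    have h33 := deg_le_prob j m (t - m) htN v q (1 / L) hq1 hlam0 hlam1 (by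
      rw [hqN]
      linarith)
    have h34 : prob (fun σ : Order n => deg (slice σ m (t - m)) v + 1 < j + 2)
        ≤ prob (fun σ : Order n => deg (slice σ m (t - m)) v ≤ j) := by
      apply prob_mono'
      intro σ h
      omega
    refine h34.trans ?_
    have h35 := mul_le_mul_of_nonneg_left (h33.trans hexp) (pow_nonneg hL0.le j)
    rw [← mul_assoc, ← mul_pow, mul_one_div_cancel hL0.ne', one_pow, one_mul] at h35
    exact h35
  refine hsum.trans (le_of_eq ?_)
  rw [Finset.sum_const, Finset.card_univ, Fintype.card_fin, nsmul_eq_mul]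
  have e9 : L ^ j * (1 / L) ^ j = 1 := by
    rw [← mul_pow, mul_one_div_cancel hL0.ne', one_pow]
  have e10 : (n : ℝ) * (1 / n) = 1 := mul_one_div_cancel hn0.ne'
  calc (n : ℝ) * (L ^ j * (Real.exp 3 * Real.exp (-(l / 4)) * (1 / n) * (1 / L) ^ j))
      = (Real.exp 3 * Real.exp (-(l / 4))) * ((n : ℝ) * (1 / n)) * (L ^ j * (1 / L) ^ j) := by ring
    _ = _ := by rw [e9, e10]; ring

/-- **Upper bound for the whp threshold.** -/
theorem upper_whp (k : ℕ) (hk : 1 ≤ k) (ε : ℝ) (hε : 0 < ε) :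
    ∃ (b : ℕ → ℕ) (D : (n : ℕ) → Edge n → Finset (Edge n) → Prop),
      (∀ n : ℕ, (b n : ℝ) ≤ (wConst k + ε) * n) ∧
      (∀ (n : ℕ) (σ : Order n) (t : ℕ), (bought (fun _ => D n) σ t).card ≤ b n) ∧
      Tendsto (fun n : ℕ => prob (fun σ : Order n =>
        MinDeg k (bought (fun _ => D n) σ (tau k σ)))) atTop (𝓝 1) := by
  wlog hε1 : ε ≤ 1 generalizing ε
  · obtain ⟨b, D, h1, h2, h3⟩ := this 1 one_pos le_rfl
    push Not at hε1
    refine ⟨b, D, fun n => (h1 n).trans ?_, h2, h3⟩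
    have : (0 : ℝ) ≤ n := Nat.cast_nonneg n
    nlinarith
  have hw : 0 ≤ wConst k := by
    unfold wConst
    have : 0 ≤ ∑ m ∈ range (k - 1), ((k : ℝ) - 1 - m) * qd (m + 1) := by
      apply Finset.sum_nonneg
      intro m hm
      rw [Finset.mem_range] at hm
      apply mul_nonneg
      · have : ((m + 1 : ℕ) : ℝ) ≤ k := by
          exact_mod_cast (by omega : m + 1 ≤ k)
        push_cast at this
        linarith
      · unfold qd
        have h1 : ∑ i ∈ range (m + 1), 1 / (i.factorial : ℝ) ≤ Real.exp 1 := by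
          have := Real.sum_le_exp_of_nonneg (x := 1) zero_le_one (m + 1)
          simpa using this
        have h2 : Real.exp (-1) * ∑ i ∈ range (m + 1), 1 / (i.factorial : ℝ)
            ≤ Real.exp (-1) * Real.exp 1 := mul_le_mul_of_nonneg_left h1 (Real.exp_pos _).le
        rw [← Real.exp_add] at h2
        simp at h2
        simpa using h2
    linarith
  have hk' : (1 : ℝ) ≤ k := by exact_mod_cast hk
  set β : ℝ := ε / (4 * k) with hβ
  have hβ0 : 0 < β := by positivity
  have hβ1 : β ≤ 1 := by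
    rw [hβ, div_le_one (by positivity)]
    linarith
  refine ⟨fun n => ⌊(wConst k + ε) * n⌋₊, fun n => rule3 n k ⌊ε / 4 * n⌋₊ ⌊β * n⌋₊
    ⌊(wConst k + ε) * n⌋₊, fun n => Nat.floor_le (by positivity), ?_, ?_⟩
  · intro n σ t
    exact cb_budget (k := k) (a := ⌊ε / 4 * n⌋₊) (u := ⌊β * n⌋₊)
      (b := ⌊(wConst k + ε) * n⌋₊) (σ := σ) t
  have hfail : Tendsto (fun n : ℕ => prob (fun σ : Order n => ¬ MinDeg k
      (cb k ⌊ε / 4 * n⌋₊ ⌊β * n⌋₊ ⌊(wConst k + ε) * n⌋₊ σ (tau k σ)))) atTop (𝓝 0) := by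
    have l1 := WW_upper k ε hε
    have l2 := iso_whp (ε / 4) (by positivity)
    have l3 := phase2_whp k hk β hβ0 hβ1 (fun n => ⌊ε / 4 * n⌋₊)
    have l4 := slice_whp k hk
    have l5 := tau_lower k hk
    have lsum := l1.add (l2.add (l3.add (l4.add l5)))
    simp only [add_zero] at lsum
    refine squeeze_zero' (Eventually.of_forall (fun n => prob_nonneg _)) ?_ lsum
    have htm : ∀ᶠ n : ℕ in atTop, n * hh n + n * hh n ≤ t0 k n := by
      filter_upwards [hh_le, t0_facts k hk, LL_le 1 one_pos, eventually_gt_atTop 0,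
        tendsto_LL.eventually (eventually_ge_atTop 0)] with n g1 g2 g3 g4 g5
      have hn0 : (0 : ℝ) < n := by exact_mod_cast g4
      have g6 := g2.2.2.1
      rw [le_div_iff₀ hn0] at g6
      have g7 : ((n * hh n + n * hh n : ℕ) : ℝ) ≤ t0 k n := by
        push_cast
        nlinarith
      exact_mod_cast g7
    filter_upwards [htm, eventually_ge_atTop (k + 1), eventually_ge_atTop (⌈8 / ε⌉₊ + 1)]
      with n g1 g2 g3
    have hn8 : 8 / ε ≤ n := by
      have h7 := Nat.le_ceil (8 / ε)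
      have h8 : ((⌈8 / ε⌉₊ + 1 : ℕ) : ℝ) ≤ n := by exact_mod_cast g3
      push_cast at h8
      linarith
    have hn0 : (0 : ℝ) < n := lt_of_lt_of_le (by positivity) hn8
    have hεn : 8 ≤ ε * n := by
      rw [div_le_iff₀ hε] at hn8
      linarith
    refine (fail_le (a := ⌊ε / 4 * n⌋₊) (u := ⌊β * n⌋₊) hk g2 ⌊(wConst k + ε) * n⌋₊ (n * hh n)
      (n * hh n + n * hh n) (t0 k n) (by omega) g1).trans ?_
    refine add_le_add (prob_mono' (fun σ hσ => ?_)) (add_le_add (prob_mono' (fun σ hσ => ?_))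
      le_rfl)
    · have g4 : (⌊ε / 4 * n⌋₊ : ℝ) ≤ ε / 4 * n := Nat.floor_le (by positivity)
      have g5 : (⌊β * n⌋₊ : ℝ) ≤ β * n := Nat.floor_le (by positivity)
      have g6 : (wConst k + ε) * n < (⌊(wConst k + ε) * n⌋₊ : ℝ) + 1 := Nat.lt_floor_add_one _
      have g7 : 2 * (⌊(wConst k + ε) * n⌋₊ : ℝ)
          < (WW k (nearest 1 σ) : ℝ) + ⌊ε / 4 * n⌋₊ + k * ⌊β * n⌋₊ := by exact_mod_cast hσ
      have g8 : (k : ℝ) * (⌊β * n⌋₊ : ℝ) ≤ ε / 4 * n := by
        calc (k : ℝ) * (⌊β * n⌋₊ : ℝ) ≤ k * (β * n) :=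
              mul_le_mul_of_nonneg_left g5 (by positivity)
          _ = ε / 4 * n := by
              rw [hβ]
              field_simp
      show (2 * wConst k + ε) * n ≤ (WW k (nearest 1 σ) : ℝ)
      nlinarith
    · have g4 : ε / 4 * n < (⌊ε / 4 * n⌋₊ : ℝ) + 1 := Nat.lt_floor_add_one _
      have g5 : (⌊ε / 4 * n⌋₊ : ℝ) + 1 ≤ ((iso σ (n * hh n)).card : ℝ) := by
        exact_mod_cast hσ
      show ε / 4 * n ≤ ((iso σ (n * hh n)).card : ℝ)
      linarith
  have h2 := (tendsto_const_nhds (x := (1 : ℝ))).sub hfail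
  rw [sub_zero] at h2
  refine h2.congr (fun n => ?_)
  rw [prob_not]
  show 1 - (1 - prob (fun σ : Order n => MinDeg k (cb k ⌊ε / 4 * n⌋₊ ⌊β * n⌋₊
    ⌊(wConst k + ε) * n⌋₊ σ (tau k σ)))) = _
  rw [sub_sub_cancel]
  rfl

end Pool.Agent.Work.MP_59e60d_pr
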