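import Pool.Agent.Work.MP_59e60d_pr.Online
import Pool.Agent.Work.MP_59e60d_pr.UpperProb

/-!
# Lower bound for the whp threshold: deterministic part and the missed first edges
-/

namespace Pool.Agent.Work.MP_59e60d_pr

open Finset Filter Topology

variable {n : ℕ} {B : Order n → ℕ → Finset (Edge n)}

theorem Online.mono (h : Online B) (σ : Order n) {s t : ℕ} (hst : s ≤ t) : B σ s ⊆ B σ t := by
  induction t with
  | zero =>
    have : s = 0 := by omega
    rw [this]
  | succ t ih =>
    by_cases h1 : s = t + 1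
    · rw [h1]
    · exact (ih (by omega)).trans (h.grow σ t)

theorem Online.pos_lt (h : Online B) (σ : Order n) (s : ℕ) {e : Edge n} (he : e ∈ B σ s) :
    ((σ.symm e : Fin (n.choose 2)) : ℕ) < s := by
  induction s with
  | zero =>
    rw [h.zero σ] at he
    simp at he
  | succ s ih =>
    rcases h.new σ s e he with h1 | h1
    · have := ih h1
      omega
    · omega

theorem Online.mem_of_pos (h : Online B) (σ : Order n) {s t : ℕ} {e : Edge n}
    (he : e ∈ B σ t) (hs : ((σ.symm e : Fin (n.choose 2)) : ℕ) < s) : e ∈ B σ s := by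
  by_cases hts : t ≤ s
  · exact h.mono σ hts he
  · obtain ⟨d, rfl⟩ : ∃ d, t = s + d := ⟨t - s, by omega⟩
    clear hts
    induction d with
    | zero => exact he
    | succ d ih =>
      rcases h.new σ (s + d) e he with h1 | h1
      · exact ih h1
      · omega

theorem Online.subset_shown (h : Online B) (σ : Order n) (s : ℕ) : B σ s ⊆ shown σ s := by
  intro e he
  rw [mem_shown]
  exact h.pos_lt σ s he

theorem Online.meas (h : Online B) (s : ℕ) :
    Meas (win (n.choose 2) 0 s) (fun σ : Order n => B σ s) := by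
  intro σ σ' hσ
  apply h.adapted σ σ' s
  intro p hp
  apply hσ
  rw [mem_win]
  omega

/-- Failure criterion. -/
theorem Online.fail (h : Online B) {k : ℕ} (σ : Order n) (m w : ℕ) (v : Fin n)
    (h0 : deg (B σ m) v = 0) (h1 : deg (slice σ m w) v + 1 ≤ k)
    (h2 : MinDeg k (shown σ (m + w))) : ¬ MinDeg k (B σ (tau k σ)) := by
  intro h3
  have h4 : tau k σ ≤ m + w := Nat.sInf_le h2
  have h5 := h3 v
  have h6 := deg_mono (h.mono σ h4) v
  have h7 := deg_le_add (B σ (m + w)) (B σ m) v
  have h8 : deg (B σ (m + w) \ B σ m) v ≤ deg (slice σ m w) v := by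
    apply deg_mono
    intro e he
    rw [Finset.mem_sdiff] at he
    have h9 := h.pos_lt σ _ he.1
    simp only [slice, Finset.mem_filter, Finset.mem_univ, true_and]
    refine ⟨?_, h9⟩
    by_contra h10
    exact he.2 (h.mem_of_pos σ he.1 (by omega))
  omega

/-! ### Missed first edges -/

open Classical in
/-- Vertices whose first edge has been shown before time `t` and has not been bought. -/
noncomputable def miss (B : Order n → ℕ → Finset (Edge n)) (t : ℕ) (σ : Order n) : Finset (Fin n) :=
  univ.filter (fun v => ∃ e ∈ shown σ t, v ∈ e.1 ∧ before σ (star v) e = ∅ ∧ e ∉ B σ t)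

/-- Vertices which are not isolated in `G_t` but isolated in Builder's graph. -/
def bad (B : Order n → ℕ → Finset (Edge n)) (t : ℕ) (σ : Order n) : Finset (Fin n) :=
  univ.filter (fun v => 1 ≤ deg (shown σ t) v ∧ deg (B σ t) v = 0)

theorem card_Of_sdiff_le (t : ℕ) (σ : Order n) : (Of t σ \ B σ t).card ≤ (miss B t σ).card := by
  classical
  have h1 : Of t σ \ B σ t ⊆ (miss B t σ).biUnion
      (fun v => (star v).filter (fun e => before σ (star v) e = ∅)) := by
    intro e he
    rw [Finset.mem_sdiff, mem_Of] at he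
    obtain ⟨⟨h1, v, hv, h2⟩, h3⟩ := he
    rw [Finset.mem_biUnion]
    refine ⟨v, ?_, ?_⟩
    · rw [miss, Finset.mem_filter]
      exact ⟨Finset.mem_univ _, e, h1, hv, h2, h3⟩
    · rw [Finset.mem_filter]
      exact ⟨by simp [star, hv], h2⟩
  calc (Of t σ \ B σ t).card ≤ _ := Finset.card_le_card h1
    _ ≤ ∑ v ∈ miss B t σ, ((star v).filter (fun e => before σ (star v) e = ∅)).card :=
        Finset.card_biUnion_le
    _ ≤ ∑ _v ∈ miss B t σ, 1 := Finset.sum_le_sum (fun v _ => card_first_le σ v)
    _ = (miss B t σ).card := by simp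

theorem Online.miss_mono (h : Online B) (t : ℕ) (σ : Order n) : miss B t σ ⊆ miss B (t + 1) σ := by
  intro v hv
  rw [miss, Finset.mem_filter] at hv ⊢
  obtain ⟨_, e, h1, h2, h3, h4⟩ := hv
  refine ⟨Finset.mem_univ _, e, shown_mono (Nat.le_succ t) h1, h2, h3, fun h5 => h4 ?_⟩
  rw [mem_shown] at h1
  exact h.mem_of_pos σ h5 h1

theorem deg_pos_of_mem {C : Finset (Edge n)} {e : Edge n} {v : Fin n} (he : e ∈ C)
    (hv : v ∈ e.1) : 1 ≤ deg C v := by
  unfold deg
  rw [Nat.one_le_iff_ne_zero, Finset.card_ne_zero]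
  exact ⟨e, Finset.mem_filter.2 ⟨he, hv⟩⟩

/-- One step of the recurrence. -/
theorem Online.bad_step (h : Online B) (t : ℕ) (ht : t < n.choose 2) (σ : Order n) :
    ((bad B t σ).filter (fun v => σ ⟨t, ht⟩ ∉ star v)).card + (miss B (t + 1) σ).card
      ≤ (bad B (t + 1) σ).card + (miss B t σ).card := by
  classical
  set e0 := σ ⟨t, ht⟩ with he0
  have hpos0 : ((σ.symm e0 : Fin (n.choose 2)) : ℕ) = t := by
    rw [he0, Equiv.symm_apply_apply]
  set New : Finset (Fin n) := univ.filter (fun v => v ∈ e0.1 ∧ deg (shown σ t) v < 1 ∧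
    e0 ∉ B σ (t + 1)) with hNew
  have h1 : miss B (t + 1) σ ⊆ miss B t σ ∪ New := by
    intro v hv
    rw [miss, Finset.mem_filter] at hv
    obtain ⟨_, e, h1, h2, h3, h4⟩ := hv
    rw [Finset.mem_union]
    rw [shown_succ t ht, Finset.mem_insert] at h1
    rcases h1 with h1 | h1
    · right
      rw [hNew, Finset.mem_filter]
      rw [h1] at h2 h3 h4
      exact ⟨Finset.mem_univ _, h2, (before_eq_iff t ht v).1 h3, h4⟩
    · left
      rw [miss, Finset.mem_filter]
      exact ⟨Finset.mem_univ _, e, h1, h2, h3, fun h5 => h4 (h.grow σ t h5)⟩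
  have h2 : ((bad B t σ).filter (fun v => e0 ∉ star v)) ∪ New ⊆ bad B (t + 1) σ := by
    intro v hv
    rw [bad, Finset.mem_filter]
    refine ⟨Finset.mem_univ _, ?_⟩
    rcases Finset.mem_union.1 hv with h3 | h3
    · rw [Finset.mem_filter, bad, Finset.mem_filter] at h3
      obtain ⟨⟨_, h4, h5⟩, h6⟩ := h3
      refine ⟨h4.trans (deg_mono (shown_mono (Nat.le_succ t)) v), ?_⟩
      unfold deg at h5 ⊢
      rw [Finset.card_eq_zero, Finset.filter_eq_empty_iff] at h5 ⊢
      intro e he hve
      rcases h.new σ t e he with h7 | h7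
      · exact h5 h7 hve
      · have h8 : e = e0 := by
          have : σ.symm e = σ.symm e0 := Fin.ext (by rw [h7, hpos0])
          exact σ.symm.injective this
        apply h6
        rw [← h8]
        simp [star, hve]
    · rw [hNew, Finset.mem_filter] at h3
      obtain ⟨_, h4, h5, h6⟩ := h3
      constructor
      · apply deg_pos_of_mem (e := e0) _ h4
        rw [mem_shown]
        omega
      · unfold deg
        rw [Finset.card_eq_zero, Finset.filter_eq_empty_iff]
        intro e he hve
        rcases h.new σ t e he with h7 | h7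
        · have h8 := deg_pos_of_mem (h.subset_shown σ t h7) hve
          omega
        · have h8 : e = e0 := by
            have : σ.symm e = σ.symm e0 := Fin.ext (by rw [h7, hpos0])
            exact σ.symm.injective this
          exact h6 (h8 ▸ he)
  have h3 : Disjoint ((bad B t σ).filter (fun v => e0 ∉ star v)) New := by
    rw [Finset.disjoint_left]
    intro v hv hv'
    rw [Finset.mem_filter] at hv
    rw [hNew, Finset.mem_filter] at hv'
    apply hv.2
    simp [star, hv'.2.1]
  have h4 := Finset.card_le_card h2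
  rw [Finset.card_union_of_disjoint h3] at h4
  have h5 := (Finset.card_le_card h1).trans (Finset.card_union_le _ _)
  omega

/-- A missed vertex stays isolated in Builder's graph with probability bounded below. -/
theorem Online.bad_ge (h : Online B) (m : ℕ) (d : ℝ) (hd : 0 < d)
    (hd' : d ≤ (n.choose 2 : ℕ) - (m : ℝ)) (hfd : ((n - 1 : ℕ) : ℝ) ≤ d) (hm : m ≤ n.choose 2) :
    ∀ t ≤ m, (1 - ((n - 1 : ℕ) : ℝ) / d) ^ t * ∑ σ : Order n, ((miss B t σ).card : ℝ)
      ≤ ∑ σ : Order n, ((bad B t σ).card : ℝ) := by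
  have hy0 : 0 ≤ ((n - 1 : ℕ) : ℝ) / d := by positivity
  have hy1 : ((n - 1 : ℕ) : ℝ) / d ≤ 1 := (div_le_one hd).2 hfd
  set y : ℝ := ((n - 1 : ℕ) : ℝ) / d with hy
  intro t
  induction t with
  | zero =>
    intro _
    have h1 : ∀ σ : Order n, (miss B 0 σ).card = 0 := by
      intro σ
      rw [Finset.card_eq_zero, miss, Finset.filter_eq_empty_iff]
      rintro v _ ⟨e, he, _⟩
      rw [mem_shown] at he
      omega
    simp only [h1, Nat.cast_zero, Finset.sum_const_zero, mul_zero]
    exact Finset.sum_nonneg (fun σ _ => Nat.cast_nonneg _)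
  | succ t ih =>
    intro htm
    have ih' := ih (by omega)
    have ht : t < n.choose 2 := by omega
    -- step
    have h1 : ∑ σ : Order n, ((((bad B t σ).filter (fun v => σ ⟨t, ht⟩ ∉ star v)).card : ℝ)
        + ((miss B (t + 1) σ).card : ℝ))
        ≤ ∑ σ : Order n, (((bad B (t + 1) σ).card : ℝ) + ((miss B t σ).card : ℝ)) := by
      refine Finset.sum_le_sum (fun σ _ => ?_)
      exact_mod_cast h.bad_step t ht σ
    rw [Finset.sum_add_distrib, Finset.sum_add_distrib] at h1
    have h2 : (1 - y) * ∑ σ : Order n, ((bad B t σ).card : ℝ)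
        ≤ ∑ σ : Order n, (((bad B t σ).filter (fun v => σ ⟨t, ht⟩ ∉ star v)).card : ℝ) := by
      have e1 : ∑ σ : Order n, ((bad B t σ).card : ℝ)
          = ∑ v : Fin n, ∑ σ : Order n, (if v ∈ bad B t σ then (1 : ℝ) else 0) := by
        rw [Finset.sum_comm]
        refine Finset.sum_congr rfl (fun σ _ => ?_)
        rw [Finset.sum_boole]
        simp
      have e2 : ∑ σ : Order n, (((bad B t σ).filter (fun v => σ ⟨t, ht⟩ ∉ star v)).card : ℝ)
          = ∑ v : Fin n, ∑ σ : Order n, (if σ ⟨t, ht⟩ ∉ star v then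
            (if v ∈ bad B t σ then (1 : ℝ) else 0) else 0) := by
        rw [Finset.sum_comm]
        refine Finset.sum_congr rfl (fun σ _ => ?_)
        rw [Finset.card_filter]
        push_cast
        rw [← Finset.sum_filter_add_sum_filter_not univ (fun v => v ∈ bad B t σ)]
        have e3 : ∑ v ∈ univ.filter (fun v => ¬ v ∈ bad B t σ), (if σ ⟨t, ht⟩ ∉ star v then
            (if v ∈ bad B t σ then (1 : ℝ) else 0) else 0) = 0 := by
          apply Finset.sum_eq_zero
          intro v hv
          rw [if_neg (Finset.mem_filter.1 hv).2]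
          simp
        rw [e3, add_zero]
        have e4 : univ.filter (fun v => v ∈ bad B t σ) = bad B t σ := by
          ext v
          simp
        rw [e4]
        refine Finset.sum_congr rfl (fun v hv => ?_)
        rw [if_pos hv]
      rw [e1, e2, Finset.mul_sum]
      refine Finset.sum_le_sum (fun v _ => ?_)
      have hM : Meas (win (n.choose 2) 0 t) (fun σ : Order n => bad B t σ) :=
        (shown_meas t).comp₂ (h.meas t) (fun A C =>
          univ.filter (fun v => 1 ≤ deg A v ∧ deg C v = 0))
      apply step_avoid (win (n.choose 2) 0 t) (fun σ : Order n => if v ∈ bad B t σ then (1 : ℝ)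
        else 0) (hM.comp (fun A => if v ∈ A then (1 : ℝ) else 0))
        (by
          intro σ
          show (0 : ℝ) ≤ if v ∈ bad B t σ then (1 : ℝ) else 0
          split_ifs <;> norm_num)
        (fun _ => star v) (Meas.const _ _) ⟨t, ht⟩ (by rw [mem_win]; simp) _ d hd
      · have h3 := card_win_le (n.choose 2) 0 t
        have h4 : (((win (n.choose 2) 0 t).card : ℕ) : ℝ) ≤ (m : ℝ) := by
          exact_mod_cast (h3.trans (by omega))
        linarith
      · intro σ _
        have h3 := card_filter_compl (win (n.choose 2) 0 t) σ (star v)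
        rw [card_star] at h3
        exact_mod_cast (by omega :
          ((win (n.choose 2) 0 t)ᶜ.filter (fun j => σ j ∈ star v)).card ≤ n - 1)
    have h3 : ∑ σ : Order n, ((miss B t σ).card : ℝ) ≤ ∑ σ : Order n, ((miss B (t + 1) σ).card : ℝ) := by
      refine Finset.sum_le_sum (fun σ _ => ?_)
      exact_mod_cast Finset.card_le_card (h.miss_mono t σ)
    have h4 : (1 - y) ^ (t + 1) ≤ 1 := pow_le_one₀ (by linarith) (by linarith)
    have h5 := mul_le_mul_of_nonneg_left ih' (by linarith : 0 ≤ 1 - y)
    have h6 : (1 - y) ^ (t + 1) * (∑ σ : Order n, ((miss B (t + 1) σ).card : ℝ)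
        - ∑ σ : Order n, ((miss B t σ).card : ℝ)) ≤ 1 * (∑ σ : Order n, ((miss B (t + 1) σ).card : ℝ)
        - ∑ σ : Order n, ((miss B t σ).card : ℝ)) :=
      mul_le_mul_of_nonneg_right h4 (by linarith)
    have h7 : (1 - y) ^ (t + 1) = (1 - y) * (1 - y) ^ t := by ring
    rw [h7] at h6 ⊢
    nlinarith

end Pool.Agent.Work.MP_59e60d_pr
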