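import Pool.Agent.Work.MP_59e60d_pr.Lower1

/-!
# Lower bound for the whp threshold: probabilities of degree patterns
-/

namespace Pool.Agent.Work.MP_59e60d_pr

open Finset Filter Topology

variable {n : ℕ}

/-- The positions of the first `i` steps after `m` at which an edge at `v` is shown are exactly
those in `P`. -/
def Pat (m : ℕ) (v : Fin n) (P : Finset ℕ) (i : ℕ) (σ : Order n) : Prop :=
  ∀ r < i, ∀ h : m + r < n.choose 2, (σ ⟨m + r, h⟩ ∈ star v ↔ r ∈ P)

theorem Pat_succ (m : ℕ) (v : Fin n) (P : Finset ℕ) (i : ℕ) (σ : Order n)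
    (h : m + i < n.choose 2) :
    Pat m v P (i + 1) σ ↔ Pat m v P i σ ∧ (σ ⟨m + i, h⟩ ∈ star v ↔ i ∈ P) := by
  constructor
  · intro h1
    exact ⟨fun r hr h2 => h1 r (by omega) h2, h1 i (by omega) h⟩
  · rintro ⟨h1, h2⟩ r hr h3
    by_cases h4 : r = i
    · subst h4
      exact h2
    · exact h1 r (by omega) h3

theorem Pat_deg (m : ℕ) (v : Fin n) (P : Finset ℕ) (i : ℕ) (σ : Order n)
    (hmi : m + i ≤ n.choose 2) (h : Pat m v P i σ) :
    deg (slice σ m i) v = (P.filter (fun r => r < i)).card := by
  induction i with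
  | zero =>
    have h1 : slice σ m 0 = ∅ := by
      ext e
      simp only [slice, Finset.mem_filter, Finset.mem_univ, true_and, Finset.notMem_empty,
        iff_false]
      omega
    rw [h1]
    simp [deg]
  | succ i ih =>
    have hi : m + i < n.choose 2 := by omega
    have h1 := (Pat_succ m v P i σ hi).1 h
    have h2 := ih (by omega) h1.1
    rw [slice_succ σ m i hi, deg_insert (notMem_slice σ m i hi), h2]
    by_cases h3 : i ∈ P
    · have h4 : v ∈ (σ ⟨m + i, hi⟩).1 := by
        have := h1.2.2 h3
        simpa [star] using this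
      rw [if_pos h4]
      have h5 : P.filter (fun r => r < i + 1) = insert i (P.filter (fun r => r < i)) := by
        ext r
        rw [Finset.mem_insert, Finset.mem_filter, Finset.mem_filter]
        constructor
        · rintro ⟨h6, h7⟩
          by_cases h8 : r = i
          · exact Or.inl h8
          · exact Or.inr ⟨h6, by omega⟩
        · rintro (h6 | h6)
          · rw [h6]
            exact ⟨h3, by omega⟩
          · exact ⟨h6.1, by omega⟩
      rw [h5, Finset.card_insert_of_notMem (by simp)]
    · have h4 : v ∉ (σ ⟨m + i, hi⟩).1 := by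
        intro h5
        apply h3
        apply h1.2.1
        simp [star, h5]
      rw [if_neg h4]
      have h5 : P.filter (fun r => r < i + 1) = P.filter (fun r => r < i) := by
        ext r
        rw [Finset.mem_filter, Finset.mem_filter]
        constructor
        · rintro ⟨h6, h7⟩
          refine ⟨h6, ?_⟩
          by_contra h8
          have h9 : r = i := by omega
          exact h3 (h9 ▸ h6)
        · rintro ⟨h6, h7⟩
          exact ⟨h6, by omega⟩
      rw [h5]
      rfl

theorem Pat_meas (m : ℕ) (v : Fin n) (P : Finset ℕ) (i : ℕ) :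
    Meas (win (n.choose 2) 0 (m + i)) (fun σ : Order n => Pat m v P i σ) := by
  intro σ σ' hσ
  show Pat m v P i σ = Pat m v P i σ'
  have key : ∀ σ σ' : Order n, (∀ p ∈ win (n.choose 2) 0 (m + i), σ p = σ' p) →
      Pat m v P i σ → Pat m v P i σ' := by
    intro σ σ' hσ h r hr h1
    rw [← hσ ⟨m + r, h1⟩ (by rw [mem_win]; simp; omega)]
    exact h r hr h1
  exact propext ⟨key σ σ' hσ, key σ' σ (fun p hp => (hσ p hp).symm)⟩

open Classical in
/-- Probability of a pattern. -/
theorem pattern_ge (m w K j : ℕ) (hmw : m + w ≤ n.choose 2) (v : Fin n) (g : Order n → ℝ)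
    (hg : Meas (win (n.choose 2) 0 m) g) (hg0 : ∀ σ, 0 ≤ g σ)
    (hgK : ∀ σ, g σ ≠ 0 → deg (shown σ m) v ≤ K) (P : Finset ℕ) (hP : P.card ≤ j)
    (q d : ℝ) (hq0 : 0 ≤ q) (hq : q * (n.choose 2 : ℕ) + (K + j + 1 : ℕ) ≤ n) (hd : 0 < d)
    (hd' : d ≤ (n.choose 2 : ℕ) - (m + w : ℕ)) (hfd : ((n - 1 : ℕ) : ℝ) ≤ d) :
    ∀ i ≤ w, q ^ (P.filter (fun r => r < i)).card * (1 - ((n - 1 : ℕ) : ℝ) / d) ^ i *
      ∑ σ : Order n, g σ ≤ ∑ σ : Order n, (if Pat m v P i σ then g σ else 0) := by
  have hy0 : 0 ≤ ((n - 1 : ℕ) : ℝ) / d := by positivity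
  have hy1 : ((n - 1 : ℕ) : ℝ) / d ≤ 1 := (div_le_one hd).2 hfd
  set y : ℝ := ((n - 1 : ℕ) : ℝ) / d with hy
  have hsum0 : 0 ≤ ∑ σ : Order n, g σ := Finset.sum_nonneg (fun σ _ => hg0 σ)
  intro i
  induction i with
  | zero =>
    intro _
    simp [Pat]
  | succ i ih =>
    intro hi
    have ih' := ih (by omega)
    have hi' : m + i < n.choose 2 := by omega
    set g' : Order n → ℝ := fun σ => if Pat m v P i σ then g σ else 0 with hg'
    have hg'M : Meas (win (n.choose 2) 0 (m + i)) g' := by
      intro σ σ' hσ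
      have e1 := Pat_meas m v P i σ σ' hσ
      have e2 := (hg.mono (win_mono (by omega : m ≤ m + i))) σ σ' hσ
      simp only [] at e1
      show (if Pat m v P i σ then g σ else 0) = (if Pat m v P i σ' then g σ' else 0)
      rw [e2]
      by_cases h1 : Pat m v P i σ
      · rw [if_pos h1, if_pos (e1 ▸ h1)]
      · rw [if_neg h1, if_neg (fun h2 => h1 (e1 ▸ h2))]
    have hg'0 : ∀ σ, 0 ≤ g' σ := by
      intro σ
      simp only [hg']
      split_ifs
      · exact hg0 σ
      · exact le_rfl
    have hnot : (⟨m + i, hi'⟩ : Fin (n.choose 2)) ∉ win (n.choose 2) 0 (m + i) := by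
      rw [mem_win]
      simp
    by_cases hiP : i ∈ P
    · have h1 := step_ge (win (n.choose 2) 0 (m + i)) g' hg'M hg'0 (fun _ => star v)
        (Meas.const _ _) ⟨m + i, hi'⟩ hnot q (by
        intro σ hσ
        have hpat : Pat m v P i σ := by
          by_contra h2
          apply hσ
          simp [hg', h2]
        have hgσ : g σ ≠ 0 := by
          intro h2
          apply hσ
          simp [hg', h2]
        have h2 := card_filter_compl (win (n.choose 2) 0 (m + i)) σ (star v)
        rw [card_star] at h2
        have h3 := card_pos_filter σ (win (n.choose 2) 0 (m + i)) (star v) (shown σ (m + i)) (by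
          intro e he
          rw [mem_win] at he
          rw [mem_shown]
          omega)
        have h4 : (star v ∩ shown σ (m + i)).card = deg (shown σ (m + i)) v := by
          unfold deg
          congr 1
          ext e
          simp [star, and_comm]
        have h5 := deg_shown_le (σ := σ) m i v
        have h6 := hgK σ hgσ
        have h7 := Pat_deg m v P i σ (by omega) hpat
        have h8 : (P.filter (fun r => r < i)).card ≤ j :=
          (Finset.card_filter_le _ _).trans hP
        have h9 : n ≤ (K + j + 1) + ((win (n.choose 2) 0 (m + i))ᶜ.filter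
            (fun p => σ p ∈ star v)).card := by
          have := v.isLt
          omega
        have h10 : (n : ℝ) ≤ ((K + j + 1 : ℕ) : ℝ) + (((win (n.choose 2) 0 (m + i))ᶜ.filter
            (fun p => σ p ∈ star v)).card : ℝ) := by
          exact_mod_cast h9
        linarith)
      have h2 : ∀ σ : Order n, (if σ ⟨m + i, hi'⟩ ∈ star v then g' σ else 0)
          ≤ (if Pat m v P (i + 1) σ then g σ else 0) := by
        intro σ
        by_cases h3 : σ ⟨m + i, hi'⟩ ∈ star v
        · by_cases h4 : Pat m v P i σ
          · have h5 : Pat m v P (i + 1) σ :=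
              (Pat_succ m v P i σ hi').2 ⟨h4, ⟨fun _ => hiP, fun _ => h3⟩⟩
            rw [if_pos h3, if_pos h5]
            simp [hg', h4]
          · rw [if_pos h3]
            simp only [hg', if_neg h4]
            split_ifs
            · exact hg0 σ
            · exact le_rfl
        · rw [if_neg h3]
          split_ifs
          · exact hg0 σ
          · exact le_rfl
      have h3 := h1.trans (Finset.sum_le_sum (fun σ _ => h2 σ))
      refine le_trans ?_ h3
      have h5 : P.filter (fun r => r < i + 1) = insert i (P.filter (fun r => r < i)) := by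
        ext r
        rw [Finset.mem_insert, Finset.mem_filter, Finset.mem_filter]
        constructor
        · rintro ⟨h6, h7⟩
          by_cases h8 : r = i
          · exact Or.inl h8
          · exact Or.inr ⟨h6, by omega⟩
        · rintro (h6 | h6)
          · rw [h6]
            exact ⟨hiP, by omega⟩
          · exact ⟨h6.1, by omega⟩
      rw [h5, Finset.card_insert_of_notMem (by simp)]
      have h6 : q ^ ((P.filter (fun r => r < i)).card + 1) * (1 - y) ^ (i + 1)
          ≤ q * (q ^ (P.filter (fun r => r < i)).card * (1 - y) ^ i) := by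
        have h7 : (1 - y) ^ (i + 1) ≤ (1 - y) ^ i :=
          pow_le_pow_of_le_one (by linarith) (by linarith) (Nat.le_succ i)
        calc q ^ ((P.filter (fun r => r < i)).card + 1) * (1 - y) ^ (i + 1)
            ≤ q ^ ((P.filter (fun r => r < i)).card + 1) * (1 - y) ^ i :=
              mul_le_mul_of_nonneg_left h7 (pow_nonneg hq0 _)
          _ = q * (q ^ (P.filter (fun r => r < i)).card * (1 - y) ^ i) := by ring
      calc q ^ ((P.filter (fun r => r < i)).card + 1) * (1 - y) ^ (i + 1) * ∑ σ : Order n, g σ
          ≤ q * (q ^ (P.filter (fun r => r < i)).card * (1 - y) ^ i) * ∑ σ : Order n, g σ :=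
            mul_le_mul_of_nonneg_right h6 hsum0
        _ = q * (q ^ (P.filter (fun r => r < i)).card * (1 - y) ^ i * ∑ σ : Order n, g σ) := by
            ring
        _ ≤ q * ∑ σ : Order n, g' σ := mul_le_mul_of_nonneg_left ih' hq0
    · have h1 := step_avoid (win (n.choose 2) 0 (m + i)) g' hg'M hg'0 (fun _ => star v)
        (Meas.const _ _) ⟨m + i, hi'⟩ hnot ((n - 1 : ℕ) : ℝ) d hd
        (by
          have h3 := card_win_le (n.choose 2) 0 (m + i)
          have h4 : (((win (n.choose 2) 0 (m + i)).card : ℕ) : ℝ) ≤ ((m + w : ℕ) : ℝ) := by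
            exact_mod_cast (h3.trans (by omega))
          linarith)
        (by
          intro σ _
          have h3 := card_filter_compl (win (n.choose 2) 0 (m + i)) σ (star v)
          rw [card_star] at h3
          exact_mod_cast (by omega :
            ((win (n.choose 2) 0 (m + i))ᶜ.filter (fun j => σ j ∈ star v)).card ≤ n - 1))
      have h2 : ∀ σ : Order n, (if σ ⟨m + i, hi'⟩ ∉ star v then g' σ else 0)
          ≤ (if Pat m v P (i + 1) σ then g σ else 0) := by
        intro σ
        by_cases h3 : σ ⟨m + i, hi'⟩ ∉ star v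
        · by_cases h4 : Pat m v P i σ
          · have h5 : Pat m v P (i + 1) σ :=
              (Pat_succ m v P i σ hi').2 ⟨h4, ⟨fun h => absurd h h3, fun h => absurd h hiP⟩⟩
            rw [if_pos h3, if_pos h5]
            simp [hg', h4]
          · rw [if_pos h3]
            simp only [hg', if_neg h4]
            split_ifs
            · exact hg0 σ
            · exact le_rfl
        · rw [if_neg h3]
          split_ifs
          · exact hg0 σ
          · exact le_rfl
      have h3 := h1.trans (Finset.sum_le_sum (fun σ _ => h2 σ))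
      refine le_trans ?_ h3
      have h5 : P.filter (fun r => r < i + 1) = P.filter (fun r => r < i) := by
        ext r
        rw [Finset.mem_filter, Finset.mem_filter]
        constructor
        · rintro ⟨h6, h7⟩
          refine ⟨h6, ?_⟩
          by_contra h8
          have h9 : r = i := by omega
          exact hiP (h9 ▸ h6)
        · rintro ⟨h6, h7⟩
          exact ⟨h6, by omega⟩
      rw [h5]
      calc q ^ (P.filter (fun r => r < i)).card * (1 - y) ^ (i + 1) * ∑ σ : Order n, g σ
          = (1 - y) * (q ^ (P.filter (fun r => r < i)).card * (1 - y) ^ i *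
            ∑ σ : Order n, g σ) := by ring
        _ ≤ (1 - y) * ∑ σ : Order n, g' σ := mul_le_mul_of_nonneg_left ih' (by linarith)

open Classical in
/-- Lower bound for the probability that `v` receives exactly `j` edges. -/
theorem deg_eq_ge (m w K j : ℕ) (hmw : m + w ≤ n.choose 2) (v : Fin n) (g : Order n → ℝ)
    (hg : Meas (win (n.choose 2) 0 m) g) (hg0 : ∀ σ, 0 ≤ g σ)
    (hgK : ∀ σ, g σ ≠ 0 → deg (shown σ m) v ≤ K)
    (q d : ℝ) (hq0 : 0 ≤ q) (hq : q * (n.choose 2 : ℕ) + (K + j + 1 : ℕ) ≤ n) (hd : 0 < d)
    (hd' : d ≤ (n.choose 2 : ℕ) - (m + w : ℕ)) (hfd : ((n - 1 : ℕ) : ℝ) ≤ d) :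
    (w.choose j : ℝ) * (q ^ j * (1 - ((n - 1 : ℕ) : ℝ) / d) ^ w) * ∑ σ : Order n, g σ
      ≤ ∑ σ : Order n, (if deg (slice σ m w) v = j then g σ else 0) := by
  have h1 : ∀ P ∈ powersetCard j (range w), (q ^ j * (1 - ((n - 1 : ℕ) : ℝ) / d) ^ w) *
      ∑ σ : Order n, g σ ≤ ∑ σ : Order n, (if Pat m v P w σ then g σ else 0) := by
    intro P hP
    rw [Finset.mem_powersetCard] at hP
    have h2 := pattern_ge m w K j hmw v g hg hg0 hgK P hP.2.le q d hq0 hq hd hd' hfd w le_rfl
    have h3 : P.filter (fun r => r < w) = P := by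
      rw [Finset.filter_eq_self]
      intro r hr
      exact Finset.mem_range.1 (hP.1 hr)
    rw [h3, hP.2] at h2
    exact h2
  have h2 := Finset.sum_le_sum h1
  rw [Finset.sum_const, Finset.card_powersetCard, Finset.card_range, nsmul_eq_mul,
    Finset.sum_comm] at h2
  rw [mul_assoc]
  refine h2.trans (Finset.sum_le_sum (fun σ _ => ?_))
  set Q : Finset ℕ := (range w).filter (fun r => ∃ h : m + r < n.choose 2,
    σ ⟨m + r, h⟩ ∈ star v) with hQ
  have h3 : ∀ P ∈ powersetCard j (range w), Pat m v P w σ → P = Q := by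
    intro P hP h
    rw [Finset.mem_powersetCard] at hP
    ext r
    rw [hQ, Finset.mem_filter, Finset.mem_range]
    constructor
    · intro hr
      have hrw := Finset.mem_range.1 (hP.1 hr)
      have hlt : m + r < n.choose 2 := by omega
      exact ⟨hrw, hlt, (h r hrw hlt).2 hr⟩
    · rintro ⟨hrw, hlt, h4⟩
      exact (h r hrw hlt).1 h4
  by_cases h4 : ∃ P ∈ powersetCard j (range w), Pat m v P w σ
  · obtain ⟨P, hP, hpat⟩ := h4
    have h5 := h3 P hP hpat
    have h6 : deg (slice σ m w) v = j := by
      rw [Pat_deg m v P w σ hmw hpat]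
      rw [Finset.mem_powersetCard] at hP
      have h7 : P.filter (fun r => r < w) = P := by
        rw [Finset.filter_eq_self]
        intro r hr
        exact Finset.mem_range.1 (hP.1 hr)
      rw [h7, hP.2]
    rw [if_pos h6, Finset.sum_eq_single P]
    · rw [if_pos hpat]
    · intro P' hP' hne
      rw [if_neg]
      intro hpat'
      exact hne ((h3 P' hP' hpat').trans h5.symm)
    · intro h7
      exact absurd hP h7
  · rw [Finset.sum_eq_zero]
    · split_ifs
      · exact hg0 σ
      · exact le_rfl
    · intro P hP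
      rw [if_neg]
      intro hpat
      exact h4 ⟨P, hP, hpat⟩

open Classical in
/-- Upper bound for the probability that two vertices both receive few edges. -/
theorem pair_le (m w K j : ℕ) (hmw : m + w ≤ n.choose 2) (v u : Fin n) (huv : v ≠ u)
    (Dv : Order n → Prop) (hDv : Meas (win (n.choose 2) 0 m) Dv)
    (hK : ∀ σ, Dv σ → deg (shown σ m) v ≤ K) (q lam : ℝ) (hq1 : q ≤ 1) (hl0 : 0 ≤ lam)
    (hl1 : lam ≤ 1) (hq : q * (n.choose 2 : ℕ) + (2 * K + 2 * j + 3 : ℕ) ≤ 2 * n) :
    lam ^ (2 * j) * ((univ.filter (fun σ : Order n => Dv σ ∧ deg (shown σ m) u ≤ K ∧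
      deg (slice σ m w) v ≤ j ∧ deg (slice σ m w) u ≤ j)).card : ℝ)
      ≤ (1 - q * (1 - lam)) ^ w * ((univ.filter (fun σ : Order n => Dv σ)).card : ℝ) := by
  have hTT : ((TT ({v, u} : Finset (Fin n))).card : ℝ) = 2 * n - 3 := by
    rw [card_TT_real, Finset.card_pair huv, tt_eq]
    · push_cast
      ring
    · have h1 := Finset.card_le_univ ({v, u} : Finset (Fin n))
      rwa [Finset.card_pair huv, Fintype.card_fin] at h1
  have hTTle : ∀ C : Finset (Edge n), (TT ({v, u} : Finset (Fin n)) ∩ C).card
      ≤ deg C v + deg C u := by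
    intro C
    unfold deg
    refine le_trans (Finset.card_le_card ?_) (Finset.card_union_le _ _)
    intro e he
    rw [Finset.mem_inter, mem_TT] at he
    obtain ⟨⟨z, hz, hze⟩, heC⟩ := he
    rw [Finset.mem_union, Finset.mem_filter, Finset.mem_filter]
    rcases Finset.mem_insert.1 hz with h1 | h1
    · left
      exact ⟨heC, h1 ▸ hze⟩
    · right
      rw [Finset.mem_singleton] at h1
      exact ⟨heC, h1 ▸ hze⟩
  have hP0 : ∀ {β : Type} (f : Order n → β), Meas (win (n.choose 2) 0 m) f → ∀ i,
      Meas (win (n.choose 2) 0 m ∪ win (n.choose 2) m i) f :=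
    fun f hf i => hf.mono Finset.subset_union_left
  have h := exp_gen (N := n.choose 2) (α := Edge n) (win (n.choose 2) 0 m) m w hmw
    (by
      intro p hp
      rw [mem_win] at hp
      omega)
    (fun i σ => (TT ({v, u} : Finset (Fin n)) ∩ slice σ m i).card)
    (fun i σ => Dv σ ∧ deg (shown σ m) u ≤ K ∧
      deg (slice σ m i) v ≤ j ∧ deg (slice σ m i) u ≤ j)
    (fun _ _ => TT ({v, u} : Finset (Fin n)))
    (fun i => (slice_meas' _ m i).comp (fun C => (TT ({v, u} : Finset (Fin n)) ∩ C).card))
    (fun i => by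
      have h1 : Meas (win (n.choose 2) 0 m ∪ win (n.choose 2) m i) Dv := hDv.mono
        Finset.subset_union_left
      have h2 : Meas (win (n.choose 2) 0 m ∪ win (n.choose 2) m i)
          (fun σ : Order n => deg (shown σ m) u ≤ K) :=
        ((shown_meas m).comp (fun C => deg C u ≤ K)).mono Finset.subset_union_left
      have h3 : Meas (win (n.choose 2) 0 m ∪ win (n.choose 2) m i)
          (fun σ : Order n => deg (slice σ m i) v ≤ j ∧ deg (slice σ m i) u ≤ j) :=
        (slice_meas' _ m i).comp (fun C => deg C v ≤ j ∧ deg C u ≤ j)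
      exact h1.comp₂ (h2.comp₂ h3 (fun a b => a ∧ b)) (fun a b => a ∧ b))
    (fun i => Meas.const _ _)
    (by
      intro i _ σ h
      exact ⟨h.1, h.2.1, (deg_mono (slice_mono σ m (Nat.le_succ i)) v).trans h.2.2.1,
        (deg_mono (slice_mono σ m (Nat.le_succ i)) u).trans h.2.2.2⟩)
    (by
      intro i _ σ _
      exact Finset.card_le_card (Finset.inter_subset_inter_left
        (slice_mono σ m (Nat.le_succ i))))
    (by
      intro i hi σ _ hF
      have hi' : m + i < n.choose 2 := by omega
      show (TT ({v, u} : Finset (Fin n)) ∩ slice σ m i).card + 1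
        ≤ (TT ({v, u} : Finset (Fin n)) ∩ slice σ m (i + 1)).card
      rw [slice_succ σ m i hi', Finset.inter_insert_of_mem hF,
        Finset.card_insert_of_notMem]
      intro h1
      exact notMem_slice σ m i hi' (Finset.mem_inter.1 h1).2)
    q lam hq1 hl0 hl1
    (by
      intro i hi σ hD
      have h1 := card_filter_compl (win (n.choose 2) 0 m ∪ win (n.choose 2) m i) σ
        (TT ({v, u} : Finset (Fin n)))
      have h2 := card_pos_filter σ (win (n.choose 2) 0 m ∪ win (n.choose 2) m i)
        (TT ({v, u} : Finset (Fin n))) (shown σ (m + i)) (by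
        intro e he
        rw [Finset.mem_union, mem_win, mem_win] at he
        rw [mem_shown]
        omega)
      have h3 := hTTle (shown σ (m + i))
      have h4 := deg_shown_le (σ := σ) m i v
      have h5 := deg_shown_le (σ := σ) m i u
      have h6 := hK σ hD.1
      obtain ⟨_, h7, h8, h9⟩ := hD
      have h10 : ((win (n.choose 2) 0 m ∪ win (n.choose 2) m i).filter
          (fun p => σ p ∈ TT ({v, u} : Finset (Fin n)))).card ≤ 2 * K + 2 * j := by omega
      have h11 : (((win (n.choose 2) 0 m ∪ win (n.choose 2) m i).filter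
          (fun p => σ p ∈ TT ({v, u} : Finset (Fin n)))).card : ℝ) ≤ 2 * K + 2 * j := by
        exact_mod_cast h10
      have h12 : (((win (n.choose 2) 0 m ∪ win (n.choose 2) m i).filter
          (fun p => σ p ∈ TT ({v, u} : Finset (Fin n)))).card : ℝ) +
          (((win (n.choose 2) 0 m ∪ win (n.choose 2) m i)ᶜ.filter
          (fun p => σ p ∈ TT ({v, u} : Finset (Fin n)))).card : ℝ) = 2 * n - 3 := by
        rw [← hTT]
        exact_mod_cast h1
      push_cast at hq
      linarith)
    (2 * j)
    (by
      intro σ hD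
      have h1 := hTTle (slice σ m w)
      obtain ⟨_, _, h2, h3⟩ := hD
      show (TT ({v, u} : Finset (Fin n)) ∩ slice σ m w).card ≤ 2 * j
      omega)
  have h0 : ((univ.filter (fun σ : Order n => Dv σ ∧ deg (shown σ m) u ≤ K ∧
      deg (slice σ m 0) v ≤ j ∧ deg (slice σ m 0) u ≤ j)).card : ℝ)
      ≤ ((univ.filter (fun σ : Order n => Dv σ)).card : ℝ) := by
    have h1 : (univ.filter (fun σ : Order n => Dv σ ∧ deg (shown σ m) u ≤ K ∧
      deg (slice σ m 0) v ≤ j ∧ deg (slice σ m 0) u ≤ j)).card
      ≤ (univ.filter (fun σ : Order n => Dv σ)).card := by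
      apply Finset.card_le_card
      intro σ hσ
      rw [Finset.mem_filter] at hσ ⊢
      exact ⟨hσ.1, hσ.2.1⟩
    exact_mod_cast h1
  have h6 : 0 ≤ 1 - q * (1 - lam) := by nlinarith
  have h7 := h.trans (mul_le_mul_of_nonneg_left (by convert h0) (pow_nonneg h6 w))
  convert h7

end Pool.Agent.Work.MP_59e60d_pr
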