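import Pool.Agent.Work.MP_59e60d_pr.Lower2

/-!
# Lower bound for the whp threshold: second moment argument
-/

namespace Pool.Agent.Work.MP_59e60d_pr

open Finset Filter Topology

variable {n : ℕ} {B : Order n → ℕ → Finset (Edge n)}

/-- Vertices of `bad` whose degree in `G_m` is at most `K`. -/
def badK (B : Order n → ℕ → Finset (Edge n)) (m K : ℕ) (σ : Order n) : Finset (Fin n) :=
  (bad B m σ).filter (fun v => deg (shown σ m) v ≤ K)

theorem deg_shown_ge (σ : Order n) (m i : ℕ) (v : Fin n) :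
    deg (shown σ m) v + deg (slice σ m i) v ≤ deg (shown σ (m + i)) v := by
  unfold deg
  rw [← Finset.card_union_of_disjoint]
  · apply Finset.card_le_card
    intro e he
    rw [Finset.mem_filter, mem_shown]
    rcases Finset.mem_union.1 he with h1 | h1
    · rw [Finset.mem_filter, mem_shown] at h1
      exact ⟨by omega, h1.2⟩
    · rw [Finset.mem_filter] at h1
      have h2 := h1.1
      simp only [slice, Finset.mem_filter, Finset.mem_univ, true_and] at h2
      exact ⟨by omega, h1.2⟩
  · rw [Finset.disjoint_left]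
    intro e he he'
    rw [Finset.mem_filter, mem_shown] at he
    rw [Finset.mem_filter] at he'
    have h2 := he'.1
    simp only [slice, Finset.mem_filter, Finset.mem_univ, true_and] at h2
    omega

/-- Two vertices with few edges. -/
def Hp (k K m w : ℕ) (v u : Fin n) (σ : Order n) : Prop :=
  deg (shown σ m) u ≤ K ∧ deg (slice σ m w) v ≤ k - 1 ∧ deg (slice σ m w) u ≤ k - 1

open Classical in
theorem Online.point (h : Online B) {k K : ℕ} (hk : 1 ≤ k) (hK : k ≤ K) (m w : ℕ) (σ : Order n) :
    ∑ v ∈ badK B m K σ, ((if deg (slice σ m w) v = k - 1 then (1 : ℝ) else 0)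
      - ∑ u ∈ univ.erase v, (if Hp k K m w v u σ then (1 : ℝ) else 0))
      ≤ if ¬ MinDeg k (B σ (tau k σ)) then (1 : ℝ) else 0 := by
  set f : Fin n → ℝ := fun v => ((if deg (slice σ m w) v = k - 1 then (1 : ℝ) else 0)
      - ∑ u ∈ univ.erase v, (if Hp k K m w v u σ then (1 : ℝ) else 0)) with hf
  have hs0 : ∀ v : Fin n, 0 ≤ ∑ u ∈ univ.erase v, (if Hp k K m w v u σ then (1 : ℝ) else 0) :=
    fun v => Finset.sum_nonneg (fun u _ => by split_ifs <;> norm_num)
  have hle1 : ∀ v, f v ≤ 1 := by
    intro v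
    have := hs0 v
    simp only [hf]
    split_ifs <;> linarith
  have hle0 : ∀ v, (deg (slice σ m w) v ≠ k - 1 ∨ ∃ u, u ≠ v ∧ Hp k K m w v u σ) → f v ≤ 0 := by
    rintro v (h1 | ⟨u, hu, h1⟩)
    · simp only [hf, if_neg h1]
      have := hs0 v
      linarith
    · have h2 : (1 : ℝ) ≤ ∑ u ∈ univ.erase v, (if Hp k K m w v u σ then (1 : ℝ) else 0) := by
        have h3 := Finset.single_le_sum (f := fun u => if Hp k K m w v u σ then (1 : ℝ) else 0)
          (fun u _ => by split_ifs <;> norm_num) (Finset.mem_erase.2 ⟨hu, Finset.mem_univ u⟩)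
        simp only [if_pos h1] at h3
        exact h3
      simp only [hf]
      split_ifs <;> linarith
  by_cases hex : ∃ v ∈ badK B m K σ, deg (slice σ m w) v = k - 1 ∧
      ∀ u, u ≠ v → ¬ Hp k K m w v u σ
  · obtain ⟨v, hv, h1, h2⟩ := hex
    have hv' := hv
    rw [badK, Finset.mem_filter, bad, Finset.mem_filter] at hv
    obtain ⟨⟨_, h3, h4⟩, h5⟩ := hv
    have hmin : MinDeg k (shown σ (m + w)) := by
      intro u
      by_contra h6
      rw [not_le] at h6
      have h7 := deg_shown_ge σ m w u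
      by_cases huv : u = v
      · subst huv
        omega
      · apply h2 u huv
        refine ⟨by omega, by omega, by omega⟩
    have hfail := h.fail σ m w v h4 (by omega) hmin
    rw [if_pos hfail]
    rw [← Finset.add_sum_erase _ _ hv']
    have h8 : ∑ x ∈ (badK B m K σ).erase v, f x ≤ 0 := by
      apply Finset.sum_nonpos
      intro x hx
      rw [Finset.mem_erase] at hx
      apply hle0
      by_contra h9
      push Not at h9
      have hx2 := hx.2
      rw [badK, Finset.mem_filter] at hx2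
      apply h2 x hx.1
      refine ⟨hx2.2, by omega, by omega⟩
    have h9 := hle1 v
    linarith
  · have h1 : ∑ v ∈ badK B m K σ, f v ≤ 0 := by
      apply Finset.sum_nonpos
      intro v hv
      apply hle0
      by_contra h9
      push Not at h9
      exact hex ⟨v, hv, h9.1, h9.2⟩
    refine h1.trans ?_
    split_ifs <;> norm_num

open Classical in
theorem sum_card_eq (S : Order n → Finset (Fin n)) :
    ∑ σ : Order n, ((S σ).card : ℝ) = ∑ v : Fin n, ∑ σ : Order n, (if v ∈ S σ then (1 : ℝ) else 0) := by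
  rw [Finset.sum_comm]
  refine Finset.sum_congr rfl (fun σ _ => ?_)
  rw [Finset.sum_boole]
  simp

open Classical in
/-- Lower bound for the probability of failure. -/
theorem Online.fail_ge (h : Online B) {k K : ℕ} (hk : 1 ≤ k) (hK : k ≤ K) (m w : ℕ)
    (hmw : m + w ≤ n.choose 2) (q1 d q2 lam : ℝ) (hq10 : 0 ≤ q1)
    (hq1 : q1 * (n.choose 2 : ℕ) + (K + (k - 1) + 1 : ℕ) ≤ n) (hd : 0 < d)
    (hd' : d ≤ (n.choose 2 : ℕ) - (m + w : ℕ)) (hfd : ((n - 1 : ℕ) : ℝ) ≤ d) (hq21 : q2 ≤ 1)
    (hl0 : 0 < lam) (hl1 : lam ≤ 1)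
    (hq2 : q2 * (n.choose 2 : ℕ) + (2 * K + 2 * (k - 1) + 3 : ℕ) ≤ 2 * n) :
    ((w.choose (k - 1) : ℝ) * (q1 ^ (k - 1) * (1 - ((n - 1 : ℕ) : ℝ) / d) ^ w)
      - n * ((1 - q2 * (1 - lam)) ^ w / lam ^ (2 * (k - 1)))) *
      ex (fun σ : Order n => ((badK B m K σ).card : ℝ))
      ≤ prob (fun σ : Order n => ¬ MinDeg k (B σ (tau k σ))) := by
  set pl : ℝ := (w.choose (k - 1) : ℝ) * (q1 ^ (k - 1) * (1 - ((n - 1 : ℕ) : ℝ) / d) ^ w) with hpl
  set pu : ℝ := (1 - q2 * (1 - lam)) ^ w / lam ^ (2 * (k - 1)) with hpu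
  have hpu0 : 0 ≤ pu := by
    rw [hpu]
    have h6 : 0 ≤ 1 - q2 * (1 - lam) := by nlinarith
    positivity
  have hM : Meas (win (n.choose 2) 0 m) (fun σ : Order n => badK B m K σ) :=
    (shown_meas m).comp₂ (h.meas m) (fun A C =>
      (univ.filter (fun v => 1 ≤ deg A v ∧ deg C v = 0)).filter (fun v => deg A v ≤ K))
  have hkey : ∀ v : Fin n, (pl - n * pu) * ∑ σ : Order n, (if v ∈ badK B m K σ then (1 : ℝ) else 0)
      ≤ ∑ σ : Order n, (if v ∈ badK B m K σ then
        ((if deg (slice σ m w) v = k - 1 then (1 : ℝ) else 0)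
        - ∑ u ∈ univ.erase v, (if Hp k K m w v u σ then (1 : ℝ) else 0)) else 0) := by
    intro v
    have hgM := hM.comp (fun A => if v ∈ A then (1 : ℝ) else 0)
    have h1 := deg_eq_ge m w K (k - 1) hmw v (fun σ => if v ∈ badK B m K σ then (1 : ℝ) else 0)
      hgM (by
        intro σ
        show (0 : ℝ) ≤ if v ∈ badK B m K σ then (1 : ℝ) else 0
        split_ifs <;> norm_num)
      (by
        intro σ hσ
        have h2 : v ∈ badK B m K σ := by
          by_contra h3
          apply hσ
          exact if_neg h3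
        rw [badK, Finset.mem_filter] at h2
        exact h2.2)
      q1 d hq10 hq1 hd hd' hfd
    have h2 : ∀ u ∈ univ.erase v, ∑ σ : Order n, (if v ∈ badK B m K σ then
        (if Hp k K m w v u σ then (1 : ℝ) else 0) else 0)
        ≤ pu * ∑ σ : Order n, (if v ∈ badK B m K σ then (1 : ℝ) else 0) := by
      intro u hu
      have huv : v ≠ u := (Finset.mem_erase.1 hu).1.symm
      have h3 := pair_le m w K (k - 1) hmw v u huv (fun σ => v ∈ badK B m K σ)
        (hM.comp (fun A => v ∈ A)) (by
          intro σ hσ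
          have h2 : v ∈ badK B m K σ := hσ
          rw [badK, Finset.mem_filter] at h2
          exact h2.2) q2 lam hq21 hl0.le hl1 hq2
      rw [← Finset.sum_boole, ← Finset.sum_boole] at h3
      have h4 : ∑ σ : Order n, (if v ∈ badK B m K σ then
          (if Hp k K m w v u σ then (1 : ℝ) else 0) else 0)
          = ∑ σ : Order n, (if v ∈ badK B m K σ ∧ deg (shown σ m) u ≤ K ∧
            deg (slice σ m w) v ≤ k - 1 ∧ deg (slice σ m w) u ≤ k - 1 then (1 : ℝ) else 0) := by
        refine Finset.sum_congr rfl (fun σ _ => ?_)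
        by_cases h5 : v ∈ badK B m K σ
        · by_cases h6 : Hp k K m w v u σ
          · rw [if_pos h5, if_pos h6, if_pos ⟨h5, h6⟩]
          · rw [if_pos h5, if_neg h6, if_neg (fun h7 => h6 h7.2)]
        · rw [if_neg h5, if_neg (fun h7 => h5 h7.1)]
      rw [h4, hpu, div_mul_eq_mul_div, le_div_iff₀ (by positivity), mul_comm]
      refine le_trans (le_of_eq ?_) (h3.trans (le_of_eq ?_))
      · congr!
      · congr!
    have h5 : ∑ σ : Order n, (if v ∈ badK B m K σ then
        ((if deg (slice σ m w) v = k - 1 then (1 : ℝ) else 0)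
        - ∑ u ∈ univ.erase v, (if Hp k K m w v u σ then (1 : ℝ) else 0)) else 0)
        = ∑ σ : Order n, (if deg (slice σ m w) v = k - 1 then
          (if v ∈ badK B m K σ then (1 : ℝ) else 0) else 0)
        - ∑ u ∈ univ.erase v, ∑ σ : Order n, (if v ∈ badK B m K σ then
        (if Hp k K m w v u σ then (1 : ℝ) else 0) else 0) := by
      rw [Finset.sum_comm (s := univ.erase v), ← Finset.sum_sub_distrib]
      refine Finset.sum_congr rfl (fun σ _ => ?_)
      by_cases h6 : v ∈ badK B m K σ
      · simp only [if_pos h6]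
      · simp only [if_neg h6, ite_self, Finset.sum_const_zero, sub_zero]
    rw [h5]
    have h6 := Finset.sum_le_sum h2
    rw [Finset.sum_const, nsmul_eq_mul] at h6
    have h7 : (((univ.erase v : Finset (Fin n)).card : ℕ) : ℝ) ≤ n := by
      have h8 := Finset.card_le_univ (univ.erase v : Finset (Fin n))
      rw [Fintype.card_fin] at h8
      exact_mod_cast h8
    have h9 : 0 ≤ ∑ σ : Order n, (if v ∈ badK B m K σ then (1 : ℝ) else 0) :=
      Finset.sum_nonneg (fun σ _ => by split_ifs <;> norm_num)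
    have h10 : (((univ.erase v : Finset (Fin n)).card : ℕ) : ℝ) *
        (pu * ∑ σ : Order n, (if v ∈ badK B m K σ then (1 : ℝ) else 0))
        ≤ n * (pu * ∑ σ : Order n, (if v ∈ badK B m K σ then (1 : ℝ) else 0)) :=
      mul_le_mul_of_nonneg_right h7 (mul_nonneg hpu0 h9)
    rw [← hpl] at h1
    linarith
  have h1 : (pl - n * pu) * ∑ σ : Order n, ((badK B m K σ).card : ℝ)
      ≤ ∑ σ : Order n, (if ¬ MinDeg k (B σ (tau k σ)) then (1 : ℝ) else 0) := by
    rw [sum_card_eq, Finset.mul_sum]
    refine (Finset.sum_le_sum (fun v _ => hkey v)).trans ?_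
    rw [Finset.sum_comm]
    refine Finset.sum_le_sum (fun σ _ => ?_)
    refine le_trans (le_of_eq ?_) (h.point hk hK m w σ)
    rw [← Finset.sum_filter]
    congr 1
    ext v
    simp
  rw [prob_eq_ex]
  unfold ex
  rw [← mul_div_assoc]
  apply div_le_div_of_nonneg_right _ card_pos'.le
  refine h1.trans (le_of_eq ?_)
  congr!

end Pool.Agent.Work.MP_59e60d_pr
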