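import Pool.Agent.Work.MP_59e60d_pr.Lower3

/-!
# Lower bound for the whp threshold: asymptotics
-/

namespace Pool.Agent.Work.MP_59e60d_pr

open Finset Filter Topology

theorem one_sub_pow_ge (y : ℝ) (hy1 : y < 1) (w : ℕ) :
    Real.exp (-(w * (y / (1 - y)))) ≤ (1 - y) ^ w := by
  have h1 : 0 < 1 - y := by linarith
  have h2 := Real.one_sub_inv_le_log_of_pos h1
  have h3 : Real.exp (-(y / (1 - y))) ≤ 1 - y := by
    rw [← Real.le_log_iff_exp_le h1]
    have e : 1 - (1 - y)⁻¹ = -(y / (1 - y)) := by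
      field_simp
      ring
    rw [← e]
    exact h2
  calc Real.exp (-(w * (y / (1 - y)))) = Real.exp (-(y / (1 - y))) ^ w := by
        rw [← Real.exp_nat_mul]
        congr 1
        ring
    _ ≤ (1 - y) ^ w := pow_le_pow_left₀ (Real.exp_pos _).le h3 w

/-- The time `(n/2)(log n + j log log n + c1)`. -/
noncomputable def t1 (j : ℕ) (c1 : ℝ) (n : ℕ) : ℕ :=
  ⌊(n : ℝ) / 2 * (Lg n + j * LL n + c1)⌋₊

/-- The basic facts. -/
theorem t1_facts (j C : ℕ) (c1 : ℝ) (hc1 : 0 ≤ c1) : ∀ᶠ n : ℕ in atTop,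
    16 ≤ Lg n ∧ Lg n ^ 2 ≤ n / 64 ∧ Lg n + j * LL n + c1 ≤ 2 * Lg n ∧
    C * n ≤ t1 j c1 n ∧ (t1 j c1 n : ℝ) ≤ n * Lg n ∧
    2 * ((t1 j c1 n - C * n : ℕ) : ℝ) / n ≤ Lg n + j * LL n + c1 ∧
    Lg n + j * LL n + c1 - 1 - 2 * C ≤ 2 * ((t1 j c1 n - C * n : ℕ) : ℝ) / n ∧
    n * (Lg n / 4) ≤ ((t1 j c1 n - C * n : ℕ) : ℝ) := by
  have hj0 : (0 : ℝ) ≤ j := Nat.cast_nonneg j
  have hC0 : (0 : ℝ) ≤ C := Nat.cast_nonneg C
  filter_upwards [tendsto_LL.eventually (eventually_ge_atTop 0),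
    LL_le (1 / (4 * ((j : ℝ) + 1))) (by positivity),
    tendsto_Lg.eventually (eventually_ge_atTop (16 + 8 * (C : ℝ) + 4 * c1)),
    (tendsto_Lg_pow_div 2).eventually (gt_mem_nhds (by norm_num : (0 : ℝ) < 1 / 64)),
    eventually_ge_atTop 24] with n h1 h2 h3 h4 h6
  set L := Lg n with hL
  set l := LL n with hl
  have hn8 : (24 : ℝ) ≤ n := by exact_mod_cast h6
  have hn0 : (0 : ℝ) < n := by linarith
  have hL16 : 16 ≤ L := by linarith
  have hL0 : 0 < L := by linarith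
  have hjl : (j : ℝ) * l ≤ L / 4 := by
    have := mul_le_mul_of_nonneg_left h2 (by positivity : 0 ≤ (j : ℝ) + 1)
    have e : ((j : ℝ) + 1) * (1 / (4 * ((j : ℝ) + 1)) * L) = L / 4 := by field_simp
    rw [e] at this
    linarith
  have hjl0 : 0 ≤ (j : ℝ) * l := mul_nonneg hj0 h1
  have hL2n : L ^ 2 ≤ n / 64 := by
    rw [div_lt_iff₀ hn0] at h4
    linarith
  set R : ℝ := L + j * l + c1 with hR
  have hR2 : R ≤ 2 * L := by
    rw [hR]
    linarith
  have hRL : L ≤ R := by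
    rw [hR]
    linarith
  have ht1 : (t1 j c1 n : ℝ) ≤ n / 2 * R :=
    Nat.floor_le (mul_nonneg (by positivity) (by linarith))
  have ht2 : (n : ℝ) / 2 * R < t1 j c1 n + 1 := Nat.lt_floor_add_one _
  have hnR : (n : ℝ) * R ≤ n * (2 * L) := mul_le_mul_of_nonneg_left hR2 hn0.le
  have hnR' : (n : ℝ) * L ≤ n * R := mul_le_mul_of_nonneg_left hRL hn0.le
  have hnC : (n : ℝ) * (16 + 8 * C) ≤ n * L := mul_le_mul_of_nonneg_left (by linarith) hn0.le
  have htL : (t1 j c1 n : ℝ) ≤ n * L := by linarith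
  have hmt' : (C : ℝ) * n ≤ t1 j c1 n := by
    have : 0 ≤ (n : ℝ) * C := by positivity
    linarith
  have hmt : C * n ≤ t1 j c1 n := by exact_mod_cast hmt'
  have hwr : ((t1 j c1 n - C * n : ℕ) : ℝ) = t1 j c1 n - C * n := by
    rw [Nat.cast_sub hmt]
    push_cast
    ring
  refine ⟨hL16, hL2n, hR2, hmt, htL, ?_, ?_, ?_⟩
  · rw [div_le_iff₀ hn0, hwr]
    have : 0 ≤ (C : ℝ) * n := by positivity
    linarith
  · rw [le_div_iff₀ hn0, hwr]
    linarith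
  · rw [hwr]
    have : 0 ≤ (n : ℝ) * C := by positivity
    linarith

/-- Exponential of the main term. -/
theorem exp_neg_R (j n : ℕ) (c1 : ℝ) (hn : (0 : ℝ) < n) (hL : 0 < Lg n) :
    Real.exp (-(Lg n + j * LL n + c1)) = 1 / n * (1 / Lg n) ^ j * Real.exp (-c1) := by
  have e5 : Real.exp (Lg n) = n := Real.exp_log hn
  have e6 : Real.exp (LL n) = Lg n := Real.exp_log hL
  have e7 : (1 : ℝ) / n = Real.exp (-(Lg n)) := by rw [Real.exp_neg, e5, one_div]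
  have e8 : (1 / Lg n) ^ j = Real.exp (-(j * LL n)) := by
    rw [Real.exp_neg, Real.exp_nat_mul, e6, one_div, inv_pow]
  rw [e7, e8, ← Real.exp_add, ← Real.exp_add]
  congr 1
  ring

theorem aux_Y (n L t Y N : ℝ) (hn : 24 ≤ n) (hL : 16 ≤ L) (hL2 : L ^ 2 ≤ n / 64) (ht0 : 0 ≤ t)
    (ht : t ≤ n * L) (hY : Y ≤ 2 * L) (hN : n ^ 2 / 4 ≤ N) :
    (Y + 1) * (t + (n - 1)) ≤ N := by
  have h8 : t + (n - 1) ≤ 2 * (n * L) := by
    have : n * 1 ≤ n * L := mul_le_mul_of_nonneg_left (by linarith) (by linarith)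
    linarith
  have h9 : Y + 1 ≤ 3 * L := by linarith
  calc (Y + 1) * (t + (n - 1)) ≤ (3 * L) * (2 * (n * L)) :=
        mul_le_mul h9 h8 (by linarith) (by linarith)
    _ = 6 * n * L ^ 2 := by ring
    _ ≤ 6 * n * (n / 64) := mul_le_mul_of_nonneg_left hL2 (by linarith)
    _ ≤ n ^ 2 / 4 := by
        have : 0 ≤ n ^ 2 := sq_nonneg n
        linarith
    _ ≤ _ := hN

/-- Lower bound for the main term. -/
theorem low_main (j n w : ℕ) (q1 d L Y R t : ℝ) (hn : (24 : ℝ) ≤ n) (hL : 16 ≤ L)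
    (hL2 : L ^ 2 ≤ n / 64) (ht0 : 0 ≤ t) (ht : t ≤ n * L) (hYR : Y ≤ R) (hR : R ≤ 2 * L)
    (hwY : (w : ℝ) = Y * n / 2) (hd : d = ((n.choose 2 : ℕ) : ℝ) - t) (hwL : n * (L / 4) ≤ (w : ℝ))
    (hj : 8 * (j : ℝ) ≤ n) (hq1 : 1 / (n : ℝ) ≤ q1) :
    (L / 8) ^ j / (j.factorial : ℝ) * Real.exp (-(R + 1)) ≤
      (w.choose j : ℝ) * (q1 ^ j * (1 - ((n - 1 : ℕ) : ℝ) / d) ^ w) := by
  have hn0 : (0 : ℝ) < n := by linarith
  have hN : (((n.choose 2 : ℕ)) : ℝ) = n * (n - 1) / 2 := Nat.cast_choose_two ℝ n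
  have hn1 : ((n - 1 : ℕ) : ℝ) = n - 1 := by
    have h24 : 24 ≤ n := by exact_mod_cast hn
    rw [Nat.cast_sub (by omega), Nat.cast_one]
  have hNbig : (n : ℝ) ^ 2 / 4 ≤ ((n.choose 2 : ℕ) : ℝ) := by
    rw [hN]
    have : (n : ℝ) * 24 ≤ n * n := mul_le_mul_of_nonneg_left hn hn0.le
    linarith [sq (n : ℝ)]
  have hY := aux_Y n L t Y _ hn hL hL2 ht0 ht (hYR.trans hR) hNbig
  have hq10 : 0 ≤ q1 := le_trans (by positivity) hq1
  have hw0 : (0 : ℝ) ≤ w := Nat.cast_nonneg w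
  have hY0 : 0 ≤ Y := by
    by_contra h
    push Not at h
    have h1 : Y * n < 0 := mul_neg_of_neg_of_pos h hn0
    linarith
  have hdy : 0 < d - ((n : ℝ) - 1) := by
    have h1 : 1 * (t + ((n : ℝ) - 1)) ≤ (Y + 1) * (t + (n - 1)) :=
      mul_le_mul_of_nonneg_right (by linarith) (by linarith)
    have h2 : t + ((n : ℝ) - 1) < ((n.choose 2 : ℕ) : ℝ) := by
      have h3 := aux_Y n L t (2 * L) _ hn hL hL2 ht0 ht le_rfl hNbig
      have h4 : 2 * (t + ((n : ℝ) - 1)) ≤ (2 * L + 1) * (t + (n - 1)) :=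
        mul_le_mul_of_nonneg_right (by linarith) (by linarith)
      linarith
    rw [hd]
    linarith
  have hd0 : 0 < d := by linarith
  rw [hn1]
  have hy : (w : ℝ) * ((((n : ℝ) - 1) / d) / (1 - ((n : ℝ) - 1) / d)) ≤ Y + 1 := by
    have e1 : (((n : ℝ) - 1) / d) / (1 - ((n : ℝ) - 1) / d) = ((n : ℝ) - 1) / (d - (n - 1)) := by
      have hne : d - ((n : ℝ) - 1) ≠ 0 := hdy.ne'
      have hne2 : 1 - ((n : ℝ) - 1) / d ≠ 0 := by
        have : ((n : ℝ) - 1) / d < 1 := by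
          rw [div_lt_one hd0]
          linarith
        linarith
      field_simp
    rw [e1, ← mul_div_assoc, div_le_iff₀ hdy]
    have e2 : (w : ℝ) * ((n : ℝ) - 1) = Y * ((n.choose 2 : ℕ) : ℝ) := by
      rw [hwY, hN]
      ring
    rw [e2, hd]
    linarith
  have hpow : Real.exp (-(R + 1)) ≤ (1 - ((n : ℝ) - 1) / d) ^ w := by
    refine le_trans ?_ (one_sub_pow_ge (((n : ℝ) - 1) / d) ?_ w)
    · apply Real.exp_le_exp.2
      linarith
    · rw [div_lt_one hd0]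
      linarith
  have hchoose : (L / 8) ^ j / (j.factorial : ℝ) ≤ (w.choose j : ℝ) * q1 ^ j := by
    have hf : (0 : ℝ) < (j.factorial : ℝ) := by exact_mod_cast j.factorial_pos
    have h7 := Nat.pow_sub_le_descFactorial w j
    rw [Nat.descFactorial_eq_factorial_mul_choose] at h7
    have hnL : (n : ℝ) * 16 ≤ n * L := mul_le_mul_of_nonneg_left hL hn0.le
    have hjw : j ≤ w := by
      have h8 : (j : ℝ) ≤ w := by linarith
      exact_mod_cast h8
    have h8 : ((w : ℝ) + 1 - j) ^ j ≤ (j.factorial : ℝ) * (w.choose j : ℝ) := by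
      have h9 : (((w + 1 - j : ℕ)) : ℝ) = (w : ℝ) + 1 - j := by
        rw [Nat.cast_sub (by omega)]
        push_cast
        ring
      rw [← h9]
      exact_mod_cast h7
    have h10 : n * (L / 8) ≤ (w : ℝ) + 1 - j := by linarith
    have h12 : (L / 8) ^ j ≤ ((w : ℝ) + 1 - j) ^ j * q1 ^ j := by
      rw [← mul_pow]
      apply pow_le_pow_left₀ (by positivity)
      calc L / 8 = (n * (L / 8)) * (1 / n) := by field_simp
        _ ≤ ((w : ℝ) + 1 - j) * q1 := mul_le_mul h10 hq1 (by positivity)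
            (le_trans (by positivity) h10)
    rw [div_le_iff₀ hf]
    calc (L / 8) ^ j ≤ ((w : ℝ) + 1 - j) ^ j * q1 ^ j := h12
      _ ≤ ((j.factorial : ℝ) * (w.choose j : ℝ)) * q1 ^ j :=
          mul_le_mul_of_nonneg_right h8 (pow_nonneg hq10 _)
      _ = (w.choose j : ℝ) * q1 ^ j * (j.factorial : ℝ) := by ring
  rw [← mul_assoc]
  exact mul_le_mul hchoose hpow (Real.exp_pos _).le
    (mul_nonneg (Nat.cast_nonneg _) (pow_nonneg hq10 _))

/-- Upper bound for the error term. -/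
theorem up_main (j n w C : ℕ) (q2 L Y R a : ℝ) (hn : (24 : ℝ) ≤ n) (hL : 16 ≤ L)
    (hYR : R - 1 - 2 * C ≤ Y) (hYL : Y ≤ 2 * L) (hY0 : 0 ≤ Y)
    (hwY : (w : ℝ) = Y * n / 2) (ha : 3 ≤ a) (hq2 : q2 * ((n.choose 2 : ℕ) : ℝ) = 2 * n - a)
    (haL : 2 * a * L ≤ n) (hq21 : q2 ≤ 1) :
    (1 - q2 * (1 - 1 / L)) ^ w / (1 / L) ^ (2 * j) ≤
      Real.exp (4 * C + 10) * Real.exp (-(2 * R)) * L ^ (2 * j) := by
  have hn0 : (0 : ℝ) < n := by linarith
  have hL0 : 0 < L := by linarith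
  have hN : (((n.choose 2 : ℕ)) : ℝ) = n * (n - 1) / 2 := Nat.cast_choose_two ℝ n
  have hlam1 : 1 / L ≤ 1 := by
    rw [div_le_one hL0]
    linarith
  have hlam0 : 0 < 1 / L := by positivity
  have h18 : 1 - q2 * (1 - 1 / L) ≤ Real.exp (-(q2 * (1 - 1 / L))) :=
    Real.one_sub_le_exp_neg _
  have h19 : 0 ≤ 1 - q2 * (1 - 1 / L) := by
    have : q2 * (1 - 1 / L) ≤ 1 * 1 := mul_le_mul hq21 (by linarith) (by linarith) (by norm_num)
    linarith
  have haY : a * Y ≤ n := by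
    have : a * Y ≤ a * (2 * L) := mul_le_mul_of_nonneg_left hYL (by linarith)
    linarith
  have hn1 : 0 < (n : ℝ) - 1 := by linarith
  have e1 : q2 * w * (n - 1) = (2 * n - a) * Y := by
    rw [hwY, ← hq2, hN]
    ring
  have hqw : 2 * Y - 2 ≤ q2 * w := by
    have h1 : (2 * Y - 2) * (n - 1) ≤ q2 * w * (n - 1) := by
      rw [e1]
      linarith
    exact le_of_mul_le_mul_right h1 hn1
  have hqw2 : q2 * w ≤ 3 * Y := by
    have h1 : q2 * w * (n - 1) ≤ 3 * Y * (n - 1) := by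
      rw [e1]
      have h2 : Y * 3 ≤ Y * n := mul_le_mul_of_nonneg_left (by linarith) hY0
      have h3 : Y * 0 ≤ Y * a := mul_le_mul_of_nonneg_left (by linarith) hY0
      linarith
    exact le_of_mul_le_mul_right h1 hn1
  have hexpo : 2 * R - (4 * C + 10) ≤ (w : ℝ) * (q2 * (1 - 1 / L)) := by
    have e1 : (w : ℝ) * (q2 * (1 - 1 / L)) = q2 * w - q2 * w * (1 / L) := by ring
    rw [e1]
    have h21 : q2 * w * (1 / L) ≤ 6 := by
      rw [mul_one_div, div_le_iff₀ hL0]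
      linarith
    linarith
  rw [one_div_pow, div_div_eq_mul_div, div_one]
  apply mul_le_mul_of_nonneg_right _ (by positivity)
  calc (1 - q2 * (1 - 1 / L)) ^ w ≤ Real.exp (-(q2 * (1 - 1 / L))) ^ w :=
        pow_le_pow_left₀ h19 h18 _
    _ = Real.exp (-((w : ℝ) * (q2 * (1 - 1 / L)))) := by
        rw [← Real.exp_nat_mul]
        congr 1
        ring
    _ ≤ Real.exp (4 * C + 10 - 2 * R) := by
        apply Real.exp_le_exp.2
        linarith
    _ = Real.exp (4 * C + 10) * Real.exp (-(2 * R)) := by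
        rw [← Real.exp_add]
        congr 1

theorem asymp_low (j C K : ℕ) (c1 : ℝ) (hc1 : 0 ≤ c1) :
    ∀ᶠ n : ℕ in atTop, ∃ (w : ℕ) (q1 d q2 lam : ℝ), C * n + w ≤ n.choose 2 ∧ 0 ≤ q1 ∧
      q1 * (n.choose 2 : ℕ) + (K + j + 1 : ℕ) ≤ n ∧ 0 < d ∧
      d ≤ (n.choose 2 : ℕ) - (C * n + w : ℕ) ∧ ((n - 1 : ℕ) : ℝ) ≤ d ∧ q2 ≤ 1 ∧ 0 < lam ∧
      lam ≤ 1 ∧ q2 * (n.choose 2 : ℕ) + (2 * K + 2 * j + 3 : ℕ) ≤ 2 * n ∧
      (Real.exp (-1) / (8 ^ j * (j.factorial : ℝ))) * Real.exp (-c1)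
        ≤ n * ((w.choose j : ℝ) * (q1 ^ j * (1 - ((n - 1 : ℕ) : ℝ) / d) ^ w)) ∧
      (n : ℝ) ^ 2 * ((1 - q2 * (1 - lam)) ^ w / lam ^ (2 * j))
        ≤ Real.exp (4 * C + 10) * Real.exp (-(2 * c1)) := by
  have hj0 : (0 : ℝ) ≤ j := Nat.cast_nonneg j
  have hC0 : (0 : ℝ) ≤ C := Nat.cast_nonneg C
  have hK0 : (0 : ℝ) ≤ K := Nat.cast_nonneg K
  filter_upwards [t1_facts j C c1 hc1,
    (tendsto_Lg_pow_div 1).eventually (gt_mem_nhds
      (by positivity : (0 : ℝ) < 1 / (2 * (2 * (K : ℝ) + 2 * j + 3)))),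
    eventually_ge_atTop (8 * (K + j + 2) + 8)] with n h1 h5 h6
  obtain ⟨f1, f2, f3, f4, f5, f6, f7, f8⟩ := h1
  set L := Lg n with hL
  set l := LL n with hl
  set t := t1 j c1 n with ht
  set w := t - C * n with hw
  have hn : 8 * ((K : ℝ) + j + 2) + 8 ≤ n := by exact_mod_cast h6
  have hn0 : (0 : ℝ) < n := by linarith
  have hn8 : (24 : ℝ) ≤ n := by linarith
  have hL0 : 0 < L := by linarith
  have hN : (((n.choose 2 : ℕ)) : ℝ) = n * (n - 1) / 2 := Nat.cast_choose_two ℝ n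
  have hn1 : ((n - 1 : ℕ) : ℝ) = n - 1 := by
    rw [Nat.cast_sub (by omega), Nat.cast_one]
  have hNbig : (n : ℝ) ^ 2 / 4 ≤ ((n.choose 2 : ℕ) : ℝ) := by
    rw [hN]
    have : (n : ℝ) * 24 ≤ n * n := mul_le_mul_of_nonneg_left hn8 hn0.le
    linarith [sq (n : ℝ)]
  have hNpos : 0 < ((n.choose 2 : ℕ) : ℝ) := lt_of_lt_of_le (by positivity) hNbig
  set R : ℝ := L + j * l + c1 with hR
  set Y : ℝ := 2 * (w : ℝ) / n with hY
  have hwY : (w : ℝ) = Y * n / 2 := by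
    rw [hY]
    field_simp
  have hY0 : 0 ≤ Y := by rw [hY]; positivity
  have ht0 : (0 : ℝ) ≤ t := Nat.cast_nonneg t
  set d : ℝ := ((n.choose 2 : ℕ) : ℝ) - t with hd
  have haux := aux_Y n L t (2 * L) _ hn8 f1 f2 ht0 f5 le_rfl hNbig
  have haux2 : 2 * ((t : ℝ) + (n - 1)) ≤ (2 * L + 1) * (t + (n - 1)) :=
    mul_le_mul_of_nonneg_right (by linarith) (by linarith)
  have hmw : C * n + w = t := by omega
  have htN' : t ≤ n.choose 2 := by
    have : (t : ℝ) ≤ ((n.choose 2 : ℕ) : ℝ) := by linarith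
    exact_mod_cast this
  set q1 : ℝ := ((n : ℝ) - (K + j + 1)) / ((n.choose 2 : ℕ) : ℝ) with hq1
  set q2 : ℝ := (2 * (n : ℝ) - (2 * K + 2 * j + 3)) / ((n.choose 2 : ℕ) : ℝ) with hq2
  have hq1N : q1 * ((n.choose 2 : ℕ) : ℝ) = (n : ℝ) - (K + j + 1) := by
    rw [hq1]
    field_simp
  have hq2N : q2 * ((n.choose 2 : ℕ) : ℝ) = 2 * (n : ℝ) - (2 * K + 2 * j + 3) := by
    rw [hq2]
    field_simp
  have hq1n : 1 / (n : ℝ) ≤ q1 := by
    rw [hq1, div_le_div_iff₀ hn0 hNpos, hN, one_mul]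
    have h7 : (n : ℝ) * (n / 2) ≤ n * (n - (K + j + 1)) :=
      mul_le_mul_of_nonneg_left (by linarith) hn0.le
    linarith
  have hq20 : 0 ≤ q2 := by
    rw [hq2]
    apply div_nonneg _ hNpos.le
    linarith
  have hq21 : q2 ≤ 1 := by
    rw [hq2, div_le_one hNpos]
    have h7 : (n : ℝ) * 24 ≤ n * n := mul_le_mul_of_nonneg_left hn8 hn0.le
    rw [hN]
    linarith
  have eR := exp_neg_R j n c1 hn0 hL0
  refine ⟨w, q1, d, q2, 1 / L, by omega, le_trans (by positivity) hq1n, ?_, by linarith, ?_, ?_,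
    hq21, by positivity, ?_, ?_, ?_, ?_⟩
  · rw [hq1N]
    push_cast
    linarith
  · rw [hmw]
  · rw [hn1]
    linarith
  · rw [div_le_one hL0]
    linarith
  · rw [hq2N]
    push_cast
    linarith
  · have h7 := low_main j n w q1 d L Y R t hn8 f1 f2 ht0 f5 f6 f3 hwY rfl f8 (by linarith) hq1n
    have h8 := mul_le_mul_of_nonneg_left h7 hn0.le
    refine le_trans (le_of_eq ?_) h8
    have hexp : Real.exp (-(R + 1)) = Real.exp (-1) * (1 / n * (1 / L) ^ j * Real.exp (-c1)) := by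
      rw [← eR, ← Real.exp_add]
      congr 1
      ring
    rw [hexp]
    have hf : (j.factorial : ℝ) ≠ 0 := by exact_mod_cast j.factorial_ne_zero
    have e9 : (L / 8) ^ j * (1 / L) ^ j = (1 / 8) ^ j := by
      rw [← mul_pow]
      congr 1
      field_simp
    have e10 : (n : ℝ) * (1 / n) = 1 := mul_one_div_cancel hn0.ne'
    calc Real.exp (-1) / (8 ^ j * (j.factorial : ℝ)) * Real.exp (-c1)
        = (1 / 8) ^ j * (Real.exp (-1) * Real.exp (-c1)) / (j.factorial : ℝ) := by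
          rw [one_div_pow]
          field_simp
      _ = ((L / 8) ^ j * (1 / L) ^ j) * (Real.exp (-1) * Real.exp (-c1)) *
          ((n : ℝ) * (1 / n)) / (j.factorial : ℝ) := by rw [e9, e10, mul_one]
      _ = _ := by ring
  · have haL : 2 * (2 * (K : ℝ) + 2 * j + 3) * L ≤ n := by
      rw [pow_one, div_lt_iff₀ hn0] at h5
      have := mul_le_mul_of_nonneg_left h5.le (by positivity : 0 ≤ 2 * (2 * (K : ℝ) + 2 * j + 3))
      calc 2 * (2 * (K : ℝ) + 2 * j + 3) * L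
          ≤ 2 * (2 * (K : ℝ) + 2 * j + 3) * (1 / (2 * (2 * (K : ℝ) + 2 * j + 3)) * n) := this
        _ = n := by field_simp
    have h7 := up_main j n w C q2 L Y R (2 * (K : ℝ) + 2 * j + 3) hn8 f1 f7 (f6.trans f3) hY0
      hwY (by linarith) hq2N haL hq21
    have h8 := mul_le_mul_of_nonneg_left h7 (sq_nonneg (n : ℝ))
    refine h8.trans (le_of_eq ?_)
    have e11 : Real.exp (-(2 * R)) = Real.exp (-R) ^ 2 := by
      rw [← Real.exp_nat_mul]
      congr 1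
      push_cast
      ring
    have e12 : Real.exp (-(2 * c1)) = Real.exp (-c1) ^ 2 := by
      rw [← Real.exp_nat_mul]
      congr 1
      push_cast
      ring
    rw [e11, eR, e12]
    have e13 : (1 / L) ^ j * L ^ j = 1 := by
      rw [← mul_pow, one_div_mul_cancel hL0.ne', one_pow]
    have e10 : (n : ℝ) * (1 / n) = 1 := mul_one_div_cancel hn0.ne'
    calc (n : ℝ) ^ 2 * (Real.exp (4 * C + 10) * (1 / n * (1 / L) ^ j * Real.exp (-c1)) ^ 2
          * L ^ (2 * j))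
        = ((n : ℝ) * (1 / n)) ^ 2 * ((1 / L) ^ j * L ^ j) ^ 2 *
          (Real.exp (4 * C + 10) * Real.exp (-c1) ^ 2) := by ring
      _ = _ := by rw [e10, e13]; ring

end Pool.Agent.Work.MP_59e60d_pr
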