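import Pool.Agent.Work.MP_59e60d_pr.Lower4

/-!
# Lower bound for the whp threshold
-/

namespace Pool.Agent.Work.MP_59e60d_pr

open Finset Filter Topology

section

variable {n : ℕ} {B : Order n → ℕ → Finset (Edge n)}

theorem bad_le (m K : ℕ) (hm : m ≤ n.choose 2) (σ : Order n) :
    ((bad B m σ).card : ℝ) ≤ ((badK B m K σ).card : ℝ) + 2 * m / (K + 1) := by
  set H : Finset (Fin n) := univ.filter (fun v => K + 1 ≤ deg (shown σ m) v) with hH
  have h1 : bad B m σ ⊆ badK B m K σ ∪ H := by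
    intro v hv
    rw [Finset.mem_union]
    by_cases h : deg (shown σ m) v ≤ K
    · left
      rw [badK, Finset.mem_filter]
      exact ⟨hv, h⟩
    · right
      rw [hH, Finset.mem_filter]
      exact ⟨Finset.mem_univ _, by omega⟩
  have h2 := (Finset.card_le_card h1).trans (Finset.card_union_le _ _)
  have h3 : (K + 1) * H.card ≤ 2 * m := by
    have h4 := sum_deg (shown σ m)
    rw [card_shown σ m hm] at h4
    rw [← h4]
    calc (K + 1) * H.card = ∑ _v ∈ H, (K + 1) := by rw [Finset.sum_const, smul_eq_mul, mul_comm]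
      _ ≤ ∑ v ∈ H, deg (shown σ m) v := by
          refine Finset.sum_le_sum (fun v hv => ?_)
          rw [hH, Finset.mem_filter] at hv
          exact hv.2
      _ ≤ ∑ v, deg (shown σ m) v :=
          Finset.sum_le_sum_of_subset (Finset.subset_univ _)
  have h5 : (H.card : ℝ) ≤ 2 * m / (K + 1) := by
    rw [le_div_iff₀ (by positivity)]
    have : (((K + 1) * H.card : ℕ) : ℝ) ≤ ((2 * m : ℕ) : ℝ) := by exact_mod_cast h3
    push_cast at this
    linarith
  have h6 : ((bad B m σ).card : ℝ) ≤ ((badK B m K σ).card : ℝ) + (H.card : ℝ) := by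
    exact_mod_cast h2
  linarith

theorem ex_const (c : ℝ) : ex (fun _ : Order n => c) = c := by
  unfold ex
  rw [Finset.sum_const, Finset.card_univ, nsmul_eq_mul]
  exact mul_div_cancel_left₀ c card_pos'.ne'

theorem ex_mul_left (c : ℝ) (f : Order n → ℝ) : ex (fun σ => c * f σ) = c * ex f := by
  unfold ex
  rw [← Finset.mul_sum, mul_div_assoc]

/-- Minimum degree and `WW`. -/
theorem WW_of_minDeg {k : ℕ} {C : Finset (Edge n)} (h : MinDeg k C) : WW k C = 2 * C.card := by
  rw [← sum_deg]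
  unfold WW
  refine Finset.sum_congr rfl (fun v _ => ?_)
  exact max_eq_right (h v)

end

/-- **Lower bound for the whp threshold.** -/
theorem lower_whp (k : ℕ) (hk : 1 ≤ k) (ε : ℝ) (hε : 0 < ε) : ∃ c : ℝ, 0 < c ∧
    ∀ᶠ n : ℕ in atTop, ∀ B : Order n → ℕ → Finset (Edge n), Online B →
      prob (fun σ : Order n => MinDeg k (B σ (tau k σ)) ∧
        ((B σ (tau k σ)).card : ℝ) ≤ (wConst k - ε) * n) ≤ 1 - c := by
  obtain ⟨C0, hC0⟩ := trunc_conc k ε (1 / 8) hε (by norm_num)
  set C : ℕ := max C0 1 with hC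
  have hC1 : 1 ≤ C := le_max_right _ _
  have hCr : (1 : ℝ) ≤ C := by exact_mod_cast hC1
  have hconc := hC0 C (le_max_left _ _)
  set K : ℕ := max k ⌈32 * (C : ℝ) * Real.exp (6 * C) / ε⌉₊ with hK
  have hkK : k ≤ K := le_max_left _ _
  have hKr : 32 * (C : ℝ) * Real.exp (6 * C) / ε ≤ K := by
    have h1 : ⌈32 * (C : ℝ) * Real.exp (6 * C) / ε⌉₊ ≤ K := le_max_right _ _
    exact (Nat.le_ceil _).trans (by exact_mod_cast h1)
  set j : ℕ := k - 1 with hj
  set κ : ℝ := Real.exp (-1) / (8 ^ j * (j.factorial : ℝ)) with hκ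
  have hκ0 : 0 < κ := by
    rw [hκ]
    have : (0 : ℝ) < (j.factorial : ℝ) := by exact_mod_cast j.factorial_pos
    positivity
  set κ' : ℝ := Real.exp (4 * C + 10) with hκ'
  have hκ'0 : 0 < κ' := Real.exp_pos _
  obtain ⟨c1, hc1, hc1'⟩ : ∃ c1 : ℝ, 0 ≤ c1 ∧ κ' * Real.exp (-c1) ≤ κ / 2 := by
    have h1 : Tendsto (fun x : ℝ => κ' * Real.exp (-x)) atTop (𝓝 (κ' * 0)) :=
      Real.tendsto_exp_neg_atTop_nhds_zero.const_mul _
    rw [mul_zero] at h1
    obtain ⟨x, hx1, hx2⟩ := ((eventually_ge_atTop (0 : ℝ)).and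
      (h1.eventually (gt_mem_nhds (by positivity : (0 : ℝ) < κ / 2)))).exists
    exact ⟨x, hx1, hx2.le⟩
  set δ : ℝ := Real.exp (-(6 * C)) * ε / 16 with hδ
  have hδ0 : 0 < δ := by positivity
  set c0 : ℝ := κ / 2 * Real.exp (-c1) * δ with hc0
  have hc00 : 0 < c0 := by positivity
  refine ⟨min (1 / 2) c0, lt_min (by norm_num) hc00, ?_⟩
  have htau := (tau_lower k hk).eventually (gt_mem_nhds (by norm_num : (0 : ℝ) < 1 / 8))
  have hm_t0 : ∀ᶠ n : ℕ in atTop, C * n ≤ t0 k n := by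
    filter_upwards [t0_facts k hk, tendsto_Lg.eventually (eventually_ge_atTop (4 * (C : ℝ))),
      eventually_gt_atTop 0] with n g1 g2 g3
    have hn0 : (0 : ℝ) < n := by exact_mod_cast g3
    have g4 := g1.2.2.1
    rw [le_div_iff₀ hn0] at g4
    have g5 : (C : ℝ) * n ≤ t0 k n := by
      have g6 : 4 * (C : ℝ) * n ≤ Lg n * n := mul_le_mul_of_nonneg_right g2 hn0.le
      linarith
    exact_mod_cast g5
  filter_upwards [hconc, htau, hm_t0, asymp_low j C K c1 hc1, choose_two_large (C + 1),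
    eventually_ge_atTop (16 * C + 16)] with n h1 h2 h3 h4 h5 h6
  intro B hB
  obtain ⟨w, q1, d, q2, lam, a1, a2, a3, a4, a5, a6, a7, a8, a9, a10, a11, a12⟩ := h4
  have hn16 : 16 * (C : ℝ) + 16 ≤ n := by exact_mod_cast h6
  have hn0 : (0 : ℝ) < n := by linarith
  set S : ℝ := prob (fun σ : Order n => MinDeg k (B σ (tau k σ)) ∧
    ((B σ (tau k σ)).card : ℝ) ≤ (wConst k - ε) * n) with hS
  set Fl : ℝ := prob (fun σ : Order n => ¬ MinDeg k (B σ (tau k σ))) with hFl
  have hSF : S ≤ 1 - Fl := by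
    rw [hFl, prob_not, sub_sub_cancel]
    apply prob_mono'
    intro σ h
    exact h.1
  by_cases hS2 : S ≤ 1 / 2
  · have := min_le_left (1 / 2 : ℝ) c0
    linarith
  push Not at hS2
  -- many missed first edges
  set m : ℕ := C * n with hm
  have hmN : m ≤ n.choose 2 := by
    have : C * n ≤ (C + 1) * n := Nat.mul_le_mul_right n (Nat.le_succ C)
    omega
  have hZ : 1 / 4 ≤ prob (fun σ : Order n => ε / 2 * n ≤ ((Of m σ \ B σ m).card : ℝ)) := by
    have h7 : S ≤ prob (fun σ : Order n => ε / 2 * n ≤ ((Of m σ \ B σ m).card : ℝ) ∨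
        (ε * n ≤ |(WW k (Of m σ) : ℝ) - 2 * wConst k * n| ∨ MinDeg k (shown σ (t0 k n)))) := by
      apply prob_mono'
      rintro σ ⟨g1, g2⟩
      by_contra hcon
      simp only [not_or, not_le] at hcon
      obtain ⟨g3, g4, g5⟩ := hcon
      have hnk : k + 1 ≤ n := by
        by_contra hcon2
        have hcard : ∀ v : Fin n, deg (B σ (tau k σ)) v ≤ n - 1 := by
          intro v
          have e1 : deg (B σ (tau k σ)) v ≤ (star v).card := by
            apply Finset.card_le_card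
            intro e he
            rw [Finset.mem_filter] at he
            simp [star, he.2]
          rwa [card_star] at e1
        have hpos : 0 < n := by exact_mod_cast hn0
        have g6 := hcard ⟨0, hpos⟩
        have g7 := g1 ⟨0, hpos⟩
        omega
      have g6 := tau_gt hnk g5
      have g7 : B σ m ⊆ B σ (tau k σ) := hB.mono σ (by omega)
      have g8 := WW_le k (Of m σ) (B σ (tau k σ))
      rw [WW_of_minDeg g1] at g8
      have g9 : (Of m σ \ B σ (tau k σ)).card ≤ (Of m σ \ B σ m).card :=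
        Finset.card_le_card (Finset.sdiff_subset_sdiff (Finset.Subset.refl _) g7)
      have g10 : (WW k (Of m σ) : ℝ) ≤ 2 * ((B σ (tau k σ)).card : ℝ)
          + 2 * ((Of m σ \ B σ m).card : ℝ) := by
        have : WW k (Of m σ) ≤ 2 * (B σ (tau k σ)).card + 2 * (Of m σ \ B σ m).card := by omega
        exact_mod_cast this
      have g11 := (abs_sub_lt_iff.1 g4).2
      linarith
    have h8 := (prob_or_le (fun σ : Order n => ε / 2 * n ≤ ((Of m σ \ B σ m).card : ℝ))
      (fun σ : Order n => ε * n ≤ |(WW k (Of m σ) : ℝ) - 2 * wConst k * n| ∨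
        MinDeg k (shown σ (t0 k n))))
    have h9 := (prob_or_le (fun σ : Order n => ε * n ≤ |(WW k (Of m σ) : ℝ) - 2 * wConst k * n|)
      (fun σ : Order n => MinDeg k (shown σ (t0 k n))))
    linarith
  have hexZ : ε / 8 * n ≤ ex (fun σ : Order n => ((Of m σ \ B σ m).card : ℝ)) := by
    have h7 := markov (fun σ : Order n => ((Of m σ \ B σ m).card : ℝ))
      (fun σ => Nat.cast_nonneg _) (ε / 2 * n) (by positivity)
    rw [le_div_iff₀ (by positivity)] at h7
    have h8 := mul_le_mul_of_nonneg_right hZ (by positivity : 0 ≤ ε / 2 * n)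
    linarith
  have hexM : ε / 8 * n ≤ ex (fun σ : Order n => ((miss B m σ).card : ℝ)) := by
    refine hexZ.trans (ex_mono (fun σ => ?_))
    exact_mod_cast card_Of_sdiff_le m σ
  -- many bad vertices
  have hN : (((n.choose 2 : ℕ)) : ℝ) = n * (n - 1) / 2 := Nat.cast_choose_two ℝ n
  have hn1 : ((n - 1 : ℕ) : ℝ) = n - 1 := by
    rw [Nat.cast_sub (by omega), Nat.cast_one]
  set d0 : ℝ := ((n.choose 2 : ℕ) : ℝ) - (m : ℝ) with hd0
  have hmr : (m : ℝ) = C * n := by rw [hm]; push_cast; ring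
  have hd0big : (n : ℝ) * ((n - 1) / 3) ≤ d0 := by
    rw [hd0, hN, hmr]
    have h7 : (n : ℝ) * C ≤ n * ((n - 1) / 6) := mul_le_mul_of_nonneg_left (by linarith) hn0.le
    linarith
  have hn1' : (0 : ℝ) < n - 1 := by linarith
  have hd0pos : 0 < d0 := lt_of_lt_of_le (by positivity) hd0big
  have hd0n : ((n - 1 : ℕ) : ℝ) ≤ d0 := by
    rw [hn1]
    have h7 : ((n : ℝ) - 1) * 3 ≤ (n - 1) * n := mul_le_mul_of_nonneg_left (by linarith) hn1'.le
    linarith
  have hbad0 := hB.bad_ge m d0 hd0pos le_rfl hd0n hmN m le_rfl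
  have hy3 : ((n - 1 : ℕ) : ℝ) / d0 ≤ 3 / n := by
    rw [hn1, div_le_div_iff₀ hd0pos hn0]
    linarith
  have hpow : Real.exp (-(6 * C)) ≤ (1 - ((n - 1 : ℕ) : ℝ) / d0) ^ m := by
    have h7 : Real.exp (-(2 * (3 / (n : ℝ)))) ≤ 1 - 3 / n := by
      apply one_sub_ge_exp (by positivity)
      rw [div_le_div_iff₀ hn0 (by norm_num)]
      linarith
    have h8 : Real.exp (-(2 * (3 / (n : ℝ)))) ≤ 1 - ((n - 1 : ℕ) : ℝ) / d0 := by linarith
    calc Real.exp (-(6 * C)) = Real.exp (-(2 * (3 / (n : ℝ)))) ^ m := by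
          rw [← Real.exp_nat_mul, hmr]
          congr 1
          field_simp
          ring
      _ ≤ _ := pow_le_pow_left₀ (Real.exp_pos _).le h8 m
  have hexB : Real.exp (-(6 * C)) * (ε / 8 * n) ≤ ex (fun σ : Order n => ((bad B m σ).card : ℝ)) := by
    have h7 : (1 - ((n - 1 : ℕ) : ℝ) / d0) ^ m * ex (fun σ : Order n => ((miss B m σ).card : ℝ))
        ≤ ex (fun σ : Order n => ((bad B m σ).card : ℝ)) := by
      unfold ex
      rw [← mul_div_assoc]
      exact div_le_div_of_nonneg_right hbad0 card_pos'.le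
    refine le_trans ?_ h7
    exact mul_le_mul hpow hexM (by positivity) (le_trans (Real.exp_pos _).le hpow)
  have hexK : δ * n ≤ ex (fun σ : Order n => ((badK B m K σ).card : ℝ)) := by
    have h7 : ex (fun σ : Order n => ((bad B m σ).card : ℝ))
        ≤ ex (fun σ : Order n => ((badK B m K σ).card : ℝ) + 2 * (m : ℝ) / (K + 1)) :=
      ex_mono (fun σ => bad_le m K hmN σ)
    rw [ex_add, ex_const] at h7
    have h8 : 2 * (m : ℝ) / (K + 1) ≤ δ * n := by
      have hK1 : (0 : ℝ) < (K : ℝ) + 1 := by positivity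
      rw [div_le_iff₀ hK1, hmr, hδ]
      rw [div_le_iff₀ hε] at hKr
      have h9 : 32 * (C : ℝ) * Real.exp (6 * C) ≤ (K + 1) * ε := by linarith
      have h10 := mul_le_mul_of_nonneg_left h9
        (by positivity : 0 ≤ Real.exp (-(6 * (C : ℝ))) * n / 16)
      have h11 : Real.exp (-(6 * (C : ℝ))) * Real.exp (6 * C) = 1 := by
        rw [← Real.exp_add]
        simp
      calc 2 * ((C : ℝ) * n) = (Real.exp (-(6 * (C : ℝ))) * Real.exp (6 * C)) * (2 * (C * n)) := by
            rw [h11, one_mul]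
        _ = Real.exp (-(6 * (C : ℝ))) * n / 16 * (32 * (C : ℝ) * Real.exp (6 * C)) := by ring
        _ ≤ _ := h10
        _ = _ := by ring
    have h9 : Real.exp (-(6 * C)) * (ε / 8 * n) = δ * n + δ * n := by
      rw [hδ]
      ring
    linarith
  -- conclusion
  have hk1 : k - 1 = j := rfl
  have hfin := hB.fail_ge hk hkK m w a1 q1 d q2 lam a2 a3 a4 a5 a6 a7 a8 a9 a10
  rw [hk1] at hfin
  set pl : ℝ := (w.choose j : ℝ) * (q1 ^ j * (1 - ((n - 1 : ℕ) : ℝ) / d) ^ w) with hpl
  set pu : ℝ := (1 - q2 * (1 - lam)) ^ w / lam ^ (2 * j) with hpu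
  have hdiff : κ / 2 * Real.exp (-c1) ≤ n * (pl - n * pu) := by
    have e1 : Real.exp (-(2 * c1)) = Real.exp (-c1) * Real.exp (-c1) := by
      rw [← Real.exp_add]
      congr 1
      ring
    rw [e1] at a12
    have h7 := mul_le_mul_of_nonneg_right hc1' (Real.exp_pos (-c1)).le
    have h8 : n * (pl - n * pu) = n * pl - (n : ℝ) ^ 2 * pu := by ring
    rw [h8]
    have h9 : κ' * Real.exp (-c1) * Real.exp (-c1) = κ' * (Real.exp (-c1) * Real.exp (-c1)) := by
      ring
    linarith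
  have hdiff0 : 0 ≤ pl - n * pu := by
    have h7 : 0 ≤ n * (pl - n * pu) := le_trans (by positivity) hdiff
    exact nonneg_of_mul_nonneg_right h7 hn0
  have hFl0 : c0 ≤ Fl := by
    have h7 := mul_le_mul_of_nonneg_left hexK hdiff0
    have h8 := mul_le_mul_of_nonneg_right hdiff hδ0.le
    calc c0 = κ / 2 * Real.exp (-c1) * δ := rfl
      _ ≤ n * (pl - n * pu) * δ := h8
      _ = (pl - n * pu) * (δ * n) := by ring
      _ ≤ _ := h7
      _ ≤ Fl := hfin
  have := min_le_right (1 / 2 : ℝ) c0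
  linarith

end Pool.Agent.Work.MP_59e60d_pr
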