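import Pool.Agent.Work.MP_59e60d_pr.Exist

/-!
# Joint law of the first edges: factorial moments of the degree in the nearest neighbour graph
-/

namespace Pool.Agent.Work.MP_59e60d_pr

open Finset

variable {n : ℕ}

/-- The edges touching the vertex set `U`. -/
def TT (U : Finset (Fin n)) : Finset (Edge n) := univ.filter (fun e => ∃ u ∈ U, u ∈ e.1)

theorem mem_TT {U : Finset (Fin n)} {e : Edge n} : e ∈ TT U ↔ ∃ u ∈ U, u ∈ e.1 := by simp [TT]

theorem TT_mono {U V : Finset (Fin n)} (h : U ⊆ V) : TT U ⊆ TT V := by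
  intro e he
  rw [mem_TT] at he ⊢
  obtain ⟨u, hu, hue⟩ := he
  exact ⟨u, h hu, hue⟩

theorem star_subset_TT {U : Finset (Fin n)} {u : Fin n} (hu : u ∈ U) : star u ⊆ TT U := by
  intro e he
  rw [mem_TT]
  exact ⟨u, hu, (Finset.mem_filter.1 he).2⟩

theorem card_inner_eq (W : Finset (Fin n)) :
    (univ.filter (fun e : Edge n => ∀ v ∈ e.1, v ∈ W)).card = W.card.choose 2 := by
  refine le_antisymm ?_ (card_inner W)
  rw [← Sym2.card_image_offDiag]
  refine Finset.card_le_card_of_injOn (fun e : Edge n => e.1) ?_ ?_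
  · intro e he
    have he' := (Finset.mem_filter.1 (Finset.mem_coe.1 he)).2
    rw [Finset.mem_coe, Finset.mem_image]
    obtain ⟨z, hz⟩ := e
    induction z using Sym2.ind with
    | _ x y =>
      refine ⟨(x, y), ?_, rfl⟩
      rw [Finset.mem_offDiag]
      refine ⟨he' x (Sym2.mem_mk_left x y), he' y (Sym2.mem_mk_right x y), ?_⟩
      intro hxy
      apply hz
      rw [Sym2.mk_isDiag_iff]
      exact hxy
  · intro e _ e' _ h
    exact Subtype.ext h

theorem card_TT (U : Finset (Fin n)) :
    (TT U).card + (n - U.card).choose 2 = n.choose 2 := by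
  have h1 : (univ : Finset (Edge n)).card = n.choose 2 := by
    rw [Finset.card_univ, Sym2.card_subtype_not_diag]
    simp
  have h2 := Finset.card_filter_add_card_filter_not (s := (univ : Finset (Edge n)))
    (fun e => ∃ u ∈ U, u ∈ e.1)
  have h3 : (univ.filter (fun e : Edge n => ¬ ∃ u ∈ U, u ∈ e.1))
      = univ.filter (fun e : Edge n => ∀ v ∈ e.1, v ∈ Uᶜ) := by
    ext e
    simp only [Finset.mem_filter, Finset.mem_univ, true_and, Finset.mem_compl]
    constructor
    · intro h v hv hvU
      exact h ⟨v, hvU, hv⟩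
    · rintro h ⟨v, hvU, hv⟩
      exact h v hv hvU
  rw [h3, card_inner_eq, Finset.card_compl, Fintype.card_fin, h1] at h2
  exact h2

/-- The number of edges touching a set of `r` vertices. -/
noncomputable def tt (n r : ℕ) : ℝ := ((n.choose 2 : ℕ) : ℝ) - (((n - r).choose 2 : ℕ) : ℝ)

theorem card_TT_real (U : Finset (Fin n)) : ((TT U).card : ℝ) = tt n U.card := by
  have h := card_TT U
  have h' : ((TT U).card : ℝ) + (((n - U.card).choose 2 : ℕ) : ℝ) = ((n.choose 2 : ℕ) : ℝ) := by
    exact_mod_cast h
  unfold tt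
  linarith

/-- `pj n j` is the probability that for `j` given neighbours `u` of `v` the edge `vu` is the first
edge at `u`. -/
noncomputable def pj (n j : ℕ) : ℝ := ∏ r ∈ range j, (((r : ℝ) + 1) / tt n (r + 1))

/-- The first element of `A` is the edge `vu`. -/
def Mn (A : Finset (Edge n)) (v u : Fin n) (σ : Order n) : Prop :=
  ∀ e : Edge n, v ∈ e.1 → u ∈ e.1 → before σ A e = ∅

theorem Mn_iff {A : Finset (Edge n)} {v u : Fin n} (h : v ≠ u) (σ : Order n) :
    Mn A v u σ ↔ before σ A (mk v u h) = ∅ := by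
  constructor
  · intro h1
    exact h1 _ (mem_mk.2 (Or.inl rfl)) (mem_mk.2 (Or.inr rfl))
  · intro h1 e hv hu
    have : e = mk v u h := by
      apply Subtype.ext
      exact (Sym2.mem_and_mem_iff h).1 ⟨hv, hu⟩
    rw [this]
    exact h1

theorem before_mono (σ : Order n) {A B : Finset (Edge n)} (h : A ⊆ B) (e : Edge n)
    (hB : before σ B e = ∅) : before σ A e = ∅ := by
  rw [← Finset.subset_empty, ← hB]
  intro f hf
  rw [before, Finset.mem_filter] at hf ⊢
  exact ⟨h hf.1, hf.2⟩

/-- The edge `vu` is the first edge at `u`. -/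
def InN (v u : Fin n) (σ : Order n) : Prop := Mn (star u) v u σ

theorem before_eq_empty {σ : Order n} {A : Finset (Edge n)} {e : Edge n} :
    before σ A e = ∅ ↔ ∀ f ∈ A, σ.symm e ≤ σ.symm f := by
  rw [before, Finset.filter_eq_empty_iff]
  constructor
  · intro h f hf
    exact not_lt.1 (h hf)
  · intro h f hf
    exact not_lt.2 (h f hf)

theorem exists_first (σ : Order n) (A : Finset (Edge n)) (hA : A.Nonempty) :
    ∃ e ∈ A, before σ A e = ∅ := by
  obtain ⟨e, he, hmin⟩ := Finset.exists_min_image A (fun e => σ.symm e) hA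
  exact ⟨e, he, before_eq_empty.2 hmin⟩

theorem first_unique {σ : Order n} {A : Finset (Edge n)} {e f : Edge n} (he : e ∈ A) (hf : f ∈ A)
    (h1 : before σ A e = ∅) (h2 : before σ A f = ∅) : e = f :=
  σ.symm.injective (le_antisymm (before_eq_empty.1 h1 f hf) (before_eq_empty.1 h2 e he))

theorem Inv.mono' {A B : Finset (Edge n)} {W : Order n → Prop} (hW : Inv A W) (h : B ⊆ A) :
    Inv B W := fun a ha b hb σ => hW a (h ha) b (h hb) σ

/-- Requiring that `vu` is the first element of `A` keeps the invariance on sets avoiding `vu`. -/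
theorem inv_min {A B : Finset (Edge n)} {W : Order n → Prop} (hW : Inv A W) {v u : Fin n}
    (h : v ≠ u) (hB : B ⊆ A.erase (mk v u h)) : Inv B (fun σ => W σ ∧ Mn A v u σ) := by
  intro a ha b hb σ
  have ha' := Finset.mem_erase.1 (hB ha)
  have hb' := Finset.mem_erase.1 (hB hb)
  show (W (σ.trans (Equiv.swap a b)) ∧ Mn A v u (σ.trans (Equiv.swap a b))) ↔ (W σ ∧ Mn A v u σ)
  rw [hW a ha'.2 b hb'.2 σ, Mn_iff h, Mn_iff h]
  have h1 := before_swap σ A (mk v u h) a b ha'.2 hb'.2
  rw [Equiv.swap_apply_of_ne_of_ne ha'.1.symm hb'.1.symm] at h1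
  rw [h1, Finset.map_eq_empty]

open Classical in
theorem count_Mn {A : Finset (Edge n)} {W : Order n → Prop} (hW : Inv A W) {v u : Fin n}
    (h : v ≠ u) (hA : mk v u h ∈ A) :
    ((univ.filter (fun σ : Order n => W σ ∧ Mn A v u σ)).card : ℝ) * A.card
      = ((univ.filter (fun σ : Order n => W σ)).card : ℝ) := by
  have h1 := rank_lemma hW hA (T := ∅) (Finset.empty_subset _)
  unfold cn at h1
  rw [Finset.card_empty, Nat.choose_zero_right, mul_one] at h1
  have h2 : (univ.filter (fun σ : Order n => W σ ∧ before σ A (mk v u h) = ∅))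
      = univ.filter (fun σ : Order n => W σ ∧ Mn A v u σ) := by
    ext σ
    simp only [Finset.mem_filter, Mn_iff h]
  rw [h2] at h1
  exact_mod_cast h1

open Classical in
/-- The probability that for all `u ∈ U` the edge `vu` is the first edge at `u`. -/
theorem count_InN (v : Fin n) (m : ℕ) : ∀ (U : Finset (Fin n)) (W : Order n → Prop),
    U.card = m → v ∉ U → Inv (TT U) W →
    ((univ.filter (fun σ : Order n => W σ ∧ ∀ u ∈ U, InN v u σ)).card : ℝ)
      = pj n m * ((univ.filter (fun σ : Order n => W σ)).card : ℝ) := by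
  induction m with
  | zero =>
    intro U W hU _ _
    rw [Finset.card_eq_zero] at hU
    subst hU
    simp [pj]
  | succ m ih =>
    intro U W hU hv hW
    have hne : ∀ u ∈ U, v ≠ u := fun u hu h => hv (h ▸ hu)
    have hUne : U.Nonempty := by
      rw [← Finset.card_pos]
      omega
    have hmem : ∀ u, ∀ hu : u ∈ U, mk v u (hne u hu) ∈ TT U := fun u hu =>
      mem_TT.2 ⟨u, hu, mem_mk.2 (Or.inr rfl)⟩
    have hTTne : (TT U).Nonempty := by
      obtain ⟨u, hu⟩ := hUne
      exact ⟨_, hmem u hu⟩
    have hTTpos : (0 : ℝ) < (TT U).card := by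
      exact_mod_cast Finset.card_pos.2 hTTne
    -- decomposition
    have hdec : (univ.filter (fun σ : Order n => W σ ∧ ∀ u ∈ U, InN v u σ))
        = U.biUnion (fun u => univ.filter (fun σ : Order n =>
          (W σ ∧ Mn (TT U) v u σ) ∧ ∀ w ∈ U.erase u, InN v w σ)) := by
      ext σ
      simp only [Finset.mem_filter, Finset.mem_univ, true_and, Finset.mem_biUnion]
      constructor
      · rintro ⟨hWσ, hall⟩
        obtain ⟨e, he, hemin⟩ := exists_first σ (TT U) hTTne
        obtain ⟨u, hu, hue⟩ := mem_TT.1 he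
        have h1 := (Mn_iff (hne u hu) σ).1 (hall u hu)
        have h2 := before_mono σ (star_subset_TT hu) e hemin
        have h3 : e = mk v u (hne u hu) := first_unique
          (by simp [star, hue]) (by simp [star, mem_mk]) h2 h1
        refine ⟨u, hu, ⟨hWσ, ?_⟩, fun w hw => hall w (Finset.mem_of_mem_erase hw)⟩
        rw [Mn_iff (hne u hu), ← h3]
        exact hemin
      · rintro ⟨u, hu, ⟨hWσ, hM⟩, hrest⟩
        refine ⟨hWσ, fun w hw => ?_⟩
        by_cases hwu : w = u
        · subst hwu
          unfold InN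
          rw [Mn_iff (hne w hw)] at hM ⊢
          exact before_mono σ (star_subset_TT hu) _ hM
        · exact hrest w (Finset.mem_erase.2 ⟨hwu, hw⟩)
    have hdisj : ∀ u ∈ U, ∀ w ∈ U, u ≠ w → Disjoint
        (univ.filter (fun σ : Order n =>
          (W σ ∧ Mn (TT U) v u σ) ∧ ∀ z ∈ U.erase u, InN v z σ))
        (univ.filter (fun σ : Order n =>
          (W σ ∧ Mn (TT U) v w σ) ∧ ∀ z ∈ U.erase w, InN v z σ)) := by
      intro u hu w hw huw
      rw [Finset.disjoint_left]
      intro σ h1 h2
      have h1' := (Mn_iff (hne u hu) σ).1 (Finset.mem_filter.1 h1).2.1.2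
      have h2' := (Mn_iff (hne w hw) σ).1 (Finset.mem_filter.1 h2).2.1.2
      have h3 := first_unique (hmem u hu) (hmem w hw) h1' h2'
      exact huw (Sym2.congr_right.1 (congrArg Subtype.val h3))
    rw [hdec, Finset.card_biUnion (by
      intro u hu w hw huw
      exact hdisj u hu w hw huw)]
    rw [Nat.cast_sum]
    have hterm : ∀ u ∈ U, ((univ.filter (fun σ : Order n =>
          (W σ ∧ Mn (TT U) v u σ) ∧ ∀ w ∈ U.erase u, InN v w σ)).card : ℝ)
        = pj n m * (((univ.filter (fun σ : Order n => W σ)).card : ℝ) / (TT U).card) := by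
      intro u hu
      have hsub : TT (U.erase u) ⊆ (TT U).erase (mk v u (hne u hu)) := by
        intro e he
        rw [Finset.mem_erase]
        refine ⟨?_, TT_mono (Finset.erase_subset _ _) he⟩
        intro h
        subst h
        obtain ⟨w, hw, hwe⟩ := mem_TT.1 he
        rcases mem_mk.1 hwe with h1 | h1
        · exact hv (h1 ▸ Finset.mem_of_mem_erase hw)
        · exact (Finset.mem_erase.1 hw).1 h1
      have h1 := ih (U.erase u) (fun σ => W σ ∧ Mn (TT U) v u σ)
        (by rw [Finset.card_erase_of_mem hu, hU]; rfl)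
        (fun h => hv (Finset.mem_of_mem_erase h)) (inv_min hW (hne u hu) hsub)
      have h2 := count_Mn hW (hne u hu) (hmem u hu)
      rw [← eq_div_iff hTTpos.ne'] at h2
      rw [← h2]
      convert h1
    rw [Finset.sum_congr rfl hterm, Finset.sum_const, hU, nsmul_eq_mul, card_TT_real, hU]
    unfold pj
    rw [Finset.prod_range_succ]
    push_cast
    ring

/-- The vertices `u` such that `vu` is the first edge at `u` but not at `v`. -/
noncomputable def nbr (σ : Order n) (v : Fin n) : Finset (Fin n) := by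
  classical
  exact univ.filter (fun u => v ≠ u ∧ InN v u σ ∧ ¬ Mn (star v) v u σ)

theorem mem_nbr {σ : Order n} {v u : Fin n} :
    u ∈ nbr σ v ↔ v ≠ u ∧ InN v u σ ∧ ¬ Mn (star v) v u σ := by
  unfold nbr
  simp

open Classical in
/-- The probability that `U ⊆ nbr σ v`. -/
theorem count_nbr (v : Fin n) (U : Finset (Fin n)) (hv : v ∉ U) (hn : 2 ≤ n) :
    ((univ.filter (fun σ : Order n => U ⊆ nbr σ v)).card : ℝ)
      = ((n : ℝ) - 1 - U.card) * pj n U.card / tt n (U.card + 1)
        * (Fintype.card (Order n) : ℝ) := by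
  have hne : ∀ u ∈ U, v ≠ u := fun u hu h => hv (h ▸ hu)
  set A := TT (insert v U) with hA
  have hcard : (insert v U).card = U.card + 1 := Finset.card_insert_of_notMem hv
  have hAne : A.Nonempty := by
    have h1 : 0 < (star v).card := by
      rw [card_star]
      omega
    obtain ⟨e, he⟩ := Finset.card_pos.1 h1
    exact ⟨e, star_subset_TT (Finset.mem_insert_self _ _) he⟩
  have hApos : (0 : ℝ) < A.card := by exact_mod_cast Finset.card_pos.2 hAne
  set X := (insert v U)ᶜ with hX
  have hXne : ∀ x ∈ X, v ≠ x := by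
    intro x hx h
    rw [hX, Finset.mem_compl, Finset.mem_insert, not_or] at hx
    exact hx.1 h.symm
  have hXU : ∀ x ∈ X, x ∉ U := by
    intro x hx
    rw [hX, Finset.mem_compl, Finset.mem_insert, not_or] at hx
    exact hx.2
  have hmem : ∀ x, ∀ hx : x ∈ X, mk v x (hXne x hx) ∈ A := fun x hx =>
    mem_TT.2 ⟨v, Finset.mem_insert_self _ _, mem_mk.2 (Or.inl rfl)⟩
  have hdec : (univ.filter (fun σ : Order n => U ⊆ nbr σ v))
      = X.biUnion (fun x => univ.filter (fun σ : Order n =>
        (True ∧ Mn A v x σ) ∧ ∀ w ∈ U, InN v w σ)) := by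
    ext σ
    simp only [Finset.mem_filter, Finset.mem_univ, true_and, Finset.mem_biUnion]
    constructor
    · intro hsub
      obtain ⟨e, he, hemin⟩ := exists_first σ A hAne
      -- no vertex of `U` touches `e`
      have hnoU : ∀ u ∈ U, u ∉ e.1 := by
        intro u hu hue
        have h0 := mem_nbr.1 (hsub hu)
        have h1 := (Mn_iff (hne u hu) σ).1 h0.2.1
        have h2 := before_mono σ (star_subset_TT (Finset.mem_insert_of_mem hu)) e hemin
        have h3 : e = mk v u (hne u hu) := first_unique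
          (by simp [star, hue]) (by simp [star, mem_mk]) h2 h1
        apply h0.2.2
        rw [Mn_iff (hne u hu), ← h3]
        exact before_mono σ (star_subset_TT (Finset.mem_insert_self _ _)) e hemin
      have hve : v ∈ e.1 := by
        obtain ⟨w, hw, hwe⟩ := mem_TT.1 he
        rcases Finset.mem_insert.1 hw with h1 | h1
        · rw [← h1]; exact hwe
        · exact absurd hwe (hnoU w h1)
      obtain ⟨x, hx⟩ := Sym2.mem_iff_exists.1 hve
      have hvx : v ≠ x := by
        intro h
        apply e.2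
        rw [hx, Sym2.mk_isDiag_iff]
        exact h
      have hex : e = mk v x hvx := Subtype.ext hx
      refine ⟨x, ?_, ?_, fun w hw => (mem_nbr.1 (hsub hw)).2.1⟩
      · rw [hX, Finset.mem_compl, Finset.mem_insert, not_or]
        refine ⟨hvx.symm, fun hxU => hnoU x hxU ?_⟩
        rw [hex]
        exact mem_mk.2 (Or.inr rfl)
      · rw [Mn_iff hvx, ← hex]
        exact hemin
    · rintro ⟨x, hx, hM, hall⟩ u hu
      rw [mem_nbr]
      refine ⟨hne u hu, hall u hu, ?_⟩
      rw [Mn_iff (hne u hu)]
      rw [Mn_iff (hXne x hx)] at hM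
      intro h1
      have h2 := before_mono σ (star_subset_TT (Finset.mem_insert_self v U)) _ hM
      have h3 := first_unique (A := star v) (by simp [star, mem_mk]) (by simp [star, mem_mk]) h2 h1
      have h4 : x = u := Sym2.congr_right.1 (congrArg Subtype.val h3)
      exact hXU x hx (h4 ▸ hu)
  have hdisj : ∀ x ∈ X, ∀ y ∈ X, x ≠ y → Disjoint
      (univ.filter (fun σ : Order n => (True ∧ Mn A v x σ) ∧ ∀ w ∈ U, InN v w σ))
      (univ.filter (fun σ : Order n => (True ∧ Mn A v y σ) ∧ ∀ w ∈ U, InN v w σ)) := by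
    intro x hx y hy hxy
    rw [Finset.disjoint_left]
    intro σ h1 h2
    have h1' := (Mn_iff (hXne x hx) σ).1 (Finset.mem_filter.1 h1).2.1.2
    have h2' := (Mn_iff (hXne y hy) σ).1 (Finset.mem_filter.1 h2).2.1.2
    have h3 := first_unique (hmem x hx) (hmem y hy) h1' h2'
    exact hxy (Sym2.congr_right.1 (congrArg Subtype.val h3))
  rw [hdec, Finset.card_biUnion (by
    intro x hx y hy hxy
    exact hdisj x hx y hy hxy), Nat.cast_sum]
  have hterm : ∀ x ∈ X, ((univ.filter (fun σ : Order n =>
        (True ∧ Mn A v x σ) ∧ ∀ w ∈ U, InN v w σ)).card : ℝ)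
      = pj n U.card * ((Fintype.card (Order n) : ℝ) / A.card) := by
    intro x hx
    have hsub : TT U ⊆ A.erase (mk v x (hXne x hx)) := by
      intro e he
      rw [Finset.mem_erase]
      refine ⟨?_, TT_mono (Finset.subset_insert _ _) he⟩
      intro h
      subst h
      obtain ⟨w, hw, hwe⟩ := mem_TT.1 he
      rcases mem_mk.1 hwe with h1 | h1
      · exact hv (h1 ▸ hw)
      · exact hXU x hx (h1 ▸ hw)
    have hTr : Inv A (fun _ : Order n => True) := fun _ _ _ _ _ => Iff.rfl
    have h1 := count_InN v U.card U (fun σ => True ∧ Mn A v x σ) rfl hv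
      (inv_min hTr (hXne x hx) hsub)
    have h2 := count_Mn hTr (hXne x hx) (hmem x hx)
    rw [← eq_div_iff hApos.ne'] at h2
    have h3 : ((univ.filter (fun σ : Order n => True ∧ Mn A v x σ)).card : ℝ)
        = (Fintype.card (Order n) : ℝ) / A.card := by
      convert h2 using 2
      · simp
      · rw [← Finset.card_univ]
        congr 2
        exact (Finset.filter_true (h := fun _ => Classical.propDecidable True) univ).symm
    rw [← h3]
    convert h1
  have hXcard : ((X.card : ℕ) : ℝ) = (n : ℝ) - 1 - U.card := by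
    rw [hX, Finset.card_compl, Fintype.card_fin, hcard, Nat.cast_sub]
    · push_cast
      ring
    · rw [← hcard]
      simpa using Finset.card_le_univ (insert v U)
  rw [Finset.sum_congr rfl hterm, Finset.sum_const, nsmul_eq_mul, hXcard]
  have hAcard : ((A.card : ℕ) : ℝ) = tt n (U.card + 1) := by
    rw [hA, card_TT_real, hcard]
  rw [hAcard]
  ring

/-- The degree of `v` in the nearest neighbour graph. -/
theorem deg_nearest_one (hn : 2 ≤ n) (σ : Order n) (v : Fin n) :
    deg (nearest 1 σ) v = 1 + (nbr σ v).card := by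
  classical
  have hEarly : ∀ (w : Fin n) (e : Edge n), Early 1 σ w e ↔ before σ (star w) e = ∅ := by
    intro w e
    unfold Early
    rw [Nat.lt_one_iff, Finset.card_eq_zero]
    have : (univ.filter (fun f : Edge n => w ∈ f.1 ∧ σ.symm f < σ.symm e))
        = before σ (star w) e := by
      ext f
      simp [before, star]
    rw [this]
  have hsplit : (nearest 1 σ).filter (fun e => v ∈ e.1)
      = (star v).filter (fun e => before σ (star v) e = ∅) ∪
        (star v).filter (fun e => ¬ before σ (star v) e = ∅ ∧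
          ∃ w ∈ e.1, before σ (star w) e = ∅) := by
    ext e
    simp only [Finset.mem_filter, Finset.mem_union, mem_nearest, hEarly, star, Finset.mem_univ,
      true_and]
    constructor
    · rintro ⟨⟨w, hw, h1⟩, hv⟩
      by_cases h2 : before σ (univ.filter (fun e : Edge n => v ∈ e.1)) e = ∅
      · exact Or.inl ⟨hv, h2⟩
      · exact Or.inr ⟨hv, h2, w, hw, h1⟩
    · rintro (⟨hv, h1⟩ | ⟨hv, _, w, hw, h1⟩)
      · exact ⟨⟨v, hv, h1⟩, hv⟩
      · exact ⟨⟨w, hw, h1⟩, hv⟩
  have hdisj : Disjoint ((star v).filter (fun e => before σ (star v) e = ∅))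
      ((star v).filter (fun e => ¬ before σ (star v) e = ∅ ∧
          ∃ w ∈ e.1, before σ (star w) e = ∅)) := by
    rw [Finset.disjoint_left]
    intro e h1 h2
    exact (Finset.mem_filter.1 h2).2.1 (Finset.mem_filter.1 h1).2
  unfold deg
  rw [hsplit, Finset.card_union_of_disjoint hdisj]
  congr 1
  · have h1 := rank_unique σ (star v) 0 (by rw [card_star]; omega)
    simpa [Finset.card_eq_zero] using h1
  · symm
    refine Finset.card_bij (fun u hu => mk v u (mem_nbr.1 hu).1) ?_ ?_ ?_
    · intro u hu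
      obtain ⟨h1, h2, h3⟩ := mem_nbr.1 hu
      unfold InN at h2
      rw [Mn_iff h1] at h2 h3
      rw [Finset.mem_filter]
      exact ⟨by simp [star, mem_mk], h3, u, mem_mk.2 (Or.inr rfl), h2⟩
    · intro u hu w hw h
      exact Sym2.congr_right.1 (congrArg Subtype.val h)
    · intro e he
      obtain ⟨h1, h2, w, hw, h3⟩ := Finset.mem_filter.1 he
      have hve : v ∈ e.1 := (Finset.mem_filter.1 h1).2
      have hwv : v ≠ w := by
        intro h
        rw [← h] at h3
        exact h2 h3
      have hew : e = mk v w hwv := by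
        apply Subtype.ext
        exact (Sym2.mem_and_mem_iff hwv).1 ⟨hve, hw⟩
      refine ⟨w, ?_, hew.symm⟩
      rw [mem_nbr]
      unfold InN
      refine ⟨hwv, ?_, ?_⟩
      · rw [Mn_iff hwv, ← hew]
        exact h3
      · rw [Mn_iff hwv, ← hew]
        exact h2

end Pool.Agent.Work.MP_59e60d_pr
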