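import Pool.Agent.Work.MP_59e60d_pr.Asymp

/-!
# The constant of the `k`-nearest neighbour graph is greater than `k / 2`
-/

namespace Pool.Agent.Work.MP_59e60d_pr

open Finset Filter Topology

variable {n : ℕ}

/-- The edge `e` is among the first `k` edges at `v`. -/
def Early (k : ℕ) (σ : Order n) (v : Fin n) (e : Edge n) : Prop :=
  (univ.filter (fun f : Edge n => v ∈ f.1 ∧ σ.symm f < σ.symm e)).card < k

instance (k : ℕ) (σ : Order n) (v : Fin n) (e : Edge n) : Decidable (Early k σ v e) := by
  unfold Early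
  infer_instance

theorem mem_nearest {k : ℕ} {σ : Order n} {e : Edge n} :
    e ∈ nearest k σ ↔ ∃ v ∈ e.1, Early k σ v e := by
  simp [nearest, Early]

/-- Each vertex has at least `k` early edges. -/
theorem early_card (k : ℕ) (hk : k + 1 ≤ n) (σ : Order n) (v : Fin n) :
    k ≤ ((star v).filter (fun e => Early k σ v e)).card := by
  by_contra hlt
  push Not at hlt
  have hs := card_star v
  -- there is an edge at `v` that is not early
  have hne : ((star v).filter (fun e => ¬ Early k σ v e)).Nonempty := by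
    rw [← Finset.card_pos]
    have := Finset.card_filter_add_card_filter_not (s := star v) (fun e => Early k σ v e)
    omega
  obtain ⟨e, he, hmin⟩ := Finset.exists_min_image _ (fun e => σ.symm e) hne
  rw [Finset.mem_filter] at he
  apply he.2
  unfold Early
  refine lt_of_le_of_lt (Finset.card_le_card ?_) hlt
  intro f hf
  rw [Finset.mem_filter] at hf
  rw [Finset.mem_filter]
  have hfs : f ∈ star v := by simp [star, hf.2.1]
  refine ⟨hfs, ?_⟩
  by_contra hne
  have := hmin f (Finset.mem_filter.2 ⟨hfs, hne⟩)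
  exact absurd hf.2.2 (not_lt.2 this)

/-- One-sided edges: early at exactly one endpoint. -/
def oneSided (k : ℕ) (σ : Order n) : Finset (Edge n) :=
  univ.filter (fun e => (∃ v ∈ e.1, Early k σ v e) ∧ (∃ v ∈ e.1, ¬ Early k σ v e))

theorem nearest_card (k : ℕ) (hk : k + 1 ≤ n) (σ : Order n) :
    k * n + (oneSided k σ).card ≤ 2 * (nearest k σ).card := by
  have h1 : k * n ≤ ∑ v : Fin n, ((star v).filter (fun e => Early k σ v e)).card := by
    calc k * n = ∑ _v : Fin n, k := by simp [mul_comm]
      _ ≤ _ := Finset.sum_le_sum (fun v _ => early_card k hk σ v)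
  have h2 : ∑ v : Fin n, ((star v).filter (fun e => Early k σ v e)).card
      = ∑ e : Edge n, (univ.filter (fun v : Fin n => v ∈ e.1 ∧ Early k σ v e)).card := by
    simp_rw [Finset.card_filter, star, Finset.sum_filter]
    rw [Finset.sum_comm]
    refine Finset.sum_congr rfl (fun e _ => Finset.sum_congr rfl (fun v _ => ?_))
    by_cases h : v ∈ e.1 <;> simp [h]
  have h3 : ∀ e : Edge n, (univ.filter (fun v : Fin n => v ∈ e.1 ∧ Early k σ v e)).card
      + (if e ∈ oneSided k σ then 1 else 0) ≤ 2 * (if e ∈ nearest k σ then 1 else 0) := by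
    intro e
    by_cases hn : e ∈ nearest k σ
    · rw [if_pos hn]
      have hle : (univ.filter (fun v : Fin n => v ∈ e.1 ∧ Early k σ v e)).card
          ≤ (univ.filter (fun v : Fin n => v ∈ e.1)).card := by
        apply Finset.card_le_card
        intro v hv
        rw [Finset.mem_filter] at hv ⊢
        exact ⟨hv.1, hv.2.1⟩
      rw [card_endpoints] at hle
      by_cases ho : e ∈ oneSided k σ
      · rw [if_pos ho]
        obtain ⟨v, hv, hv'⟩ := (Finset.mem_filter.1 ho).2.2
        have hlt : (univ.filter (fun v : Fin n => v ∈ e.1 ∧ Early k σ v e)).card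
            < (univ.filter (fun v : Fin n => v ∈ e.1)).card := by
          apply Finset.card_lt_card
          rw [Finset.ssubset_iff_of_subset]
          · exact ⟨v, by simp [hv], by simp [hv']⟩
          · intro v hv
            rw [Finset.mem_filter] at hv ⊢
            exact ⟨hv.1, hv.2.1⟩
        rw [card_endpoints] at hlt
        omega
      · rw [if_neg ho]
        omega
    · have ho : e ∉ oneSided k σ := by
        intro ho
        apply hn
        rw [mem_nearest]
        exact (Finset.mem_filter.1 ho).2.1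
      rw [if_neg hn, if_neg ho]
      have : (univ.filter (fun v : Fin n => v ∈ e.1 ∧ Early k σ v e)) = ∅ := by
        rw [Finset.filter_eq_empty_iff]
        rintro v _ ⟨h4, h5⟩
        exact hn (mem_nearest.2 ⟨v, h4, h5⟩)
      rw [this]
      simp
  have h4 := Finset.sum_le_sum (fun e (_ : e ∈ (univ : Finset (Edge n))) => h3 e)
  rw [Finset.sum_add_distrib, ← Finset.mul_sum, ← h2] at h4
  have h5 : ∑ e : Edge n, (if e ∈ oneSided k σ then 1 else 0) = (oneSided k σ).card := by
    rw [Finset.sum_boole]
    simp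
  have h6 : ∑ e : Edge n, (if e ∈ nearest k σ then 1 else 0) = (nearest k σ).card := by
    rw [Finset.sum_boole]
    simp
  rw [h5, h6] at h4
  omega

/-- Isolated vertices of `G_s`. -/
def iso (σ : Order n) (s : ℕ) : Finset (Fin n) := univ.filter (fun v => deg (shown σ s) v = 0)

/-- Vertices of degree at least `k` of `G_s`. -/
def high (k : ℕ) (σ : Order n) (s : ℕ) : Finset (Fin n) :=
  univ.filter (fun v => k ≤ deg (shown σ s) v)

/-- The edges between an isolated vertex and a vertex of degree at least `k`. -/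
def cross (k : ℕ) (σ : Order n) (s : ℕ) : Finset (Edge n) :=
  univ.filter (fun e => (∃ u ∈ e.1, u ∈ iso σ s) ∧ (∃ v ∈ e.1, v ∈ high k σ s))

theorem early_iff (k : ℕ) (σ : Order n) (v : Fin n) (e : Edge n) :
    Early k σ v e ↔ deg (shown σ ((σ.symm e : Fin (n.choose 2)) : ℕ)) v < k := by
  unfold Early deg shown
  rw [Finset.filter_filter]
  have : (univ.filter (fun f : Edge n => v ∈ f.1 ∧ σ.symm f < σ.symm e))
      = (univ.filter (fun f : Edge n => ((σ.symm f : Fin (n.choose 2)) : ℕ) <
        ((σ.symm e : Fin (n.choose 2)) : ℕ) ∧ v ∈ f.1)) := by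
    ext f
    simp only [Finset.mem_filter, Finset.mem_univ, true_and, Fin.lt_def]
    tauto
  rw [this]

theorem cross_oneSided (k : ℕ) (hk : 1 ≤ k) (σ : Order n) (s : ℕ) (hs : s < n.choose 2)
    (h : σ ⟨s, hs⟩ ∈ cross k σ s) : σ ⟨s, hs⟩ ∈ oneSided k σ := by
  obtain ⟨⟨u, hu, hu'⟩, ⟨v, hv, hv'⟩⟩ := (Finset.mem_filter.1 h).2
  have h1 := (Finset.mem_filter.1 hu').2
  have h2 := (Finset.mem_filter.1 hv').2
  refine Finset.mem_filter.2 ⟨Finset.mem_univ _, ⟨u, hu, ?_⟩, ⟨v, hv, ?_⟩⟩
  · rw [early_iff, Equiv.symm_apply_apply]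
    show deg (shown σ s) u < k
    omega
  · rw [early_iff, Equiv.symm_apply_apply]
    show ¬ deg (shown σ s) v < k
    omega

theorem card_cross (k : ℕ) (hk : 1 ≤ k) (σ : Order n) (s : ℕ) :
    (iso σ s).card * (high k σ s).card ≤ (cross k σ s).card := by
  rw [← Finset.card_product]
  have hdisj : ∀ u ∈ iso σ s, ∀ v ∈ high k σ s, u ≠ v := by
    intro u hu v hv huv
    have h1 := (Finset.mem_filter.1 hu).2
    have h2 := (Finset.mem_filter.1 hv).2
    rw [huv] at h1
    omega
  have himg : ((iso σ s ×ˢ high k σ s).image (fun p : Fin n × Fin n => s(p.1, p.2))).card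
      = (iso σ s ×ˢ high k σ s).card := by
    apply Finset.card_image_of_injOn
    rintro ⟨u, v⟩ hp ⟨u', v'⟩ hp' h
    simp only [Finset.coe_product, Set.mem_prod, Finset.mem_coe] at hp hp'
    simp only [Sym2.eq_iff] at h
    rcases h with ⟨h1, h2⟩ | ⟨h1, h2⟩
    · rw [h1, h2]
    · exact absurd h1 (hdisj u hp.1 v' hp'.2)
  rw [← himg]
  refine Finset.card_le_card_of_surjOn (fun e : Edge n => e.1) ?_
  intro z hz
  rw [Finset.mem_coe, Finset.mem_image] at hz
  obtain ⟨⟨x, y⟩, hxy, rfl⟩ := hz
  rw [Finset.mem_product] at hxy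
  refine ⟨⟨s(x, y), ?_⟩, ?_, rfl⟩
  · rw [Sym2.mk_isDiag_iff]
    exact hdisj x hxy.1 y hxy.2
  · simp only [cross, Finset.coe_filter, Finset.mem_univ, true_and, Set.mem_ofPred_eq]
    exact ⟨⟨x, Sym2.mem_mk_left x y, hxy.1⟩, ⟨y, Sym2.mem_mk_right x y, hxy.2⟩⟩

theorem iso_anti (σ : Order n) {s t : ℕ} (h : s ≤ t) : iso σ t ⊆ iso σ s := by
  intro v hv
  simp only [iso, Finset.mem_filter, Finset.mem_univ, true_and] at hv ⊢
  have : deg (shown σ s) v ≤ deg (shown σ t) v := by
    rw [shown_eq_slice, shown_eq_slice]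
    exact deg_mono (slice_mono σ 0 h) v
  omega

theorem high_mono (k : ℕ) (σ : Order n) {s t : ℕ} (h : s ≤ t) : high k σ s ⊆ high k σ t := by
  intro v hv
  simp only [high, Finset.mem_filter, Finset.mem_univ, true_and] at hv ⊢
  have : deg (shown σ s) v ≤ deg (shown σ t) v := by
    rw [shown_eq_slice, shown_eq_slice]
    exact deg_mono (slice_mono σ 0 h) v
  omega

theorem shown_meas (s : ℕ) : Meas (win (n.choose 2) 0 s) (fun σ : Order n => shown σ s) := by
  intro σ σ' h
  show shown σ s = shown σ' s
  rw [shown_eq_slice, shown_eq_slice]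
  exact slice_meas 0 s σ σ' h

/-- No edge of `cross` has been shown. -/
theorem cross_unrevealed (k : ℕ) (σ : Order n) (s : ℕ) :
    (cross k σ s).card ≤
      (((win (n.choose 2) 0 s)ᶜ.filter (fun j => σ j ∈ cross k σ s)).card) := by
  have h := card_filter_compl (win (n.choose 2) 0 s) σ (cross k σ s)
  have h0 : ((win (n.choose 2) 0 s).filter (fun j => σ j ∈ cross k σ s)) = ∅ := by
    rw [Finset.filter_eq_empty_iff]
    intro j hj hc
    obtain ⟨⟨u, hu, hu'⟩, _⟩ := (Finset.mem_filter.1 hc).2
    have h1 := (Finset.mem_filter.1 hu').2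
    unfold deg at h1
    rw [Finset.card_eq_zero, Finset.filter_eq_empty_iff] at h1
    apply h1 _ hu
    rw [mem_win] at hj
    simp only [shown, Finset.mem_filter, Finset.mem_univ, true_and, Equiv.symm_apply_apply]
    omega
  rw [h0] at h
  simp only [Finset.card_empty, zero_add] at h
  omega

open Classical in
/-- At each step of a window a cross edge is shown with probability at least `q` times the
probability of the good event. -/
theorem cross_prob (k : ℕ) (hk : 1 ≤ k) (s L H : ℕ) (hs : s < n.choose 2) (q : ℝ)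
    (hq : q * (n.choose 2 : ℕ) ≤ ((L * H : ℕ) : ℝ)) :
    q * ((univ.filter (fun σ : Order n => L ≤ (iso σ s).card ∧ H ≤ (high k σ s).card)).card : ℝ)
      ≤ ((univ.filter (fun σ : Order n => σ ⟨s, hs⟩ ∈ cross k σ s)).card : ℝ) := by
  have hM := shown_meas (n := n) s
  have hg : Meas (win (n.choose 2) 0 s) (fun σ : Order n =>
      if L ≤ (iso σ s).card ∧ H ≤ (high k σ s).card then (1 : ℝ) else 0) := by
    intro σ σ' h
    have e := hM σ σ' h
    have e' : shown σ s = shown σ' s := e
    have e1 : iso σ s = iso σ' s := by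
      unfold iso
      rw [e']
    have e2 : high k σ s = high k σ' s := by
      unfold high
      rw [e']
    show (if L ≤ (iso σ s).card ∧ H ≤ (high k σ s).card then (1 : ℝ) else 0) =
      if L ≤ (iso σ' s).card ∧ H ≤ (high k σ' s).card then (1 : ℝ) else 0
    rw [e1, e2]
  have hF : Meas (win (n.choose 2) 0 s) (fun σ : Order n => cross k σ s) := by
    intro σ σ' h
    have e' : shown σ s = shown σ' s := hM σ σ' h
    show cross k σ s = cross k σ' s
    unfold cross iso high
    rw [e']
  have h := step_ge (N := n.choose 2) (α := Edge n) (win (n.choose 2) 0 s) _ hg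
    (by
      intro σ
      split_ifs <;> norm_num) (fun σ => cross k σ s) hF ⟨s, hs⟩
    (by
      rw [mem_win]
      simp) q
    (by
      intro σ hσ
      have hσ' : L ≤ (iso σ s).card ∧ H ≤ (high k σ s).card := by
        by_contra hcon
        apply hσ
        rw [if_neg hcon]
      have h1 := Nat.mul_le_mul hσ'.1 hσ'.2
      have h2 := h1.trans ((card_cross k hk σ s).trans (cross_unrevealed k σ s))
      exact hq.trans (by exact_mod_cast h2))
  rw [Finset.sum_boole] at h
  refine h.trans ?_
  have h2 : ∑ σ : Order n, (if σ ⟨s, hs⟩ ∈ cross k σ s then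
      (if L ≤ (iso σ s).card ∧ H ≤ (high k σ s).card then (1 : ℝ) else 0) else 0)
      ≤ ∑ σ : Order n, (if σ ⟨s, hs⟩ ∈ cross k σ s then (1 : ℝ) else 0) := by
    refine Finset.sum_le_sum (fun σ _ => ?_)
    split_ifs <;> norm_num
  rw [Finset.sum_boole] at h2
  exact h2

end Pool.Agent.Work.MP_59e60d_pr
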