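import Pool.Agent.Work.MP_59e60d_pr.Nearest

/-!
# `k / 2 < o_k`
-/

namespace Pool.Agent.Work.MP_59e60d_pr

open Finset Filter Topology

variable {n : ℕ}

/-- First moment method. -/
theorem first_moment {Ω : Type*} [Fintype Ω] (f : Ω → ℝ) (B t : ℝ) (hB : ∀ σ, f σ ≤ B)
    (_hB0 : 0 ≤ B) (ht : 0 ≤ t) :
    letI := Classical.decPred (fun σ => t ≤ f σ)
    ∑ σ, f σ ≤ B * ((univ.filter (fun σ => t ≤ f σ)).card : ℝ) + t * (Fintype.card Ω : ℝ) := by
  classical
  have h1 : ∀ σ, f σ ≤ B * (if t ≤ f σ then 1 else 0) + t := by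
    intro σ
    split_ifs with h
    · linarith [hB σ]
    · push Not at h
      linarith
  calc ∑ σ, f σ ≤ ∑ σ, (B * (if t ≤ f σ then 1 else 0) + t) :=
        Finset.sum_le_sum (fun σ _ => h1 σ)
    _ = _ := by
      rw [Finset.sum_add_distrib, ← Finset.mul_sum, Finset.sum_boole, Finset.sum_const,
        Finset.card_univ, nsmul_eq_mul]
      ring

theorem iso_prob (s : ℕ) (v : Fin n) (hs : s ≤ n.choose 2) (d : ℝ) (hd : 0 < d)
    (hd' : d ≤ (n.choose 2 : ℕ) - s) (hfd : ((n - 1 : ℕ) : ℝ) ≤ d) :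
    (1 - ((n - 1 : ℕ) : ℝ) / d) ^ s * (Fintype.card (Order n) : ℝ)
      ≤ ((univ.filter (fun σ : Order n => v ∈ iso σ s)).card : ℝ) := by
  classical
  have h := avoid_bound (N := n.choose 2) (α := Edge n) ∅ (fun _ => 1) (Meas.const _ _)
    (fun _ => zero_le_one) (fun _ => star v) (Meas.const _ _) 0 s (by omega)
    (by simp) ((n - 1 : ℕ) : ℝ) d hd (by simpa using hd')
    (by
      intro σ _
      rw [card_star]) hfd
  rw [Finset.sum_const, Finset.card_univ, nsmul_eq_mul, mul_one, Finset.sum_boole] at h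
  refine h.trans ?_
  have : (univ.filter (fun σ : Order n => ∀ p ∈ win (n.choose 2) 0 s, σ p ∉ star v))
      ⊆ (univ.filter (fun σ : Order n => v ∈ iso σ s)) := by
    intro σ hσ
    have h1 := (Finset.mem_filter.1 hσ).2
    refine Finset.mem_filter.2 ⟨Finset.mem_univ _, Finset.mem_filter.2 ⟨Finset.mem_univ _, ?_⟩⟩
    unfold deg
    rw [Finset.card_eq_zero, Finset.filter_eq_empty_iff]
    intro e he hv
    have h2 : σ.symm e ∈ win (n.choose 2) 0 s := by
      rw [mem_win]
      have := (Finset.mem_filter.1 he).2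
      omega
    apply h1 _ h2
    simp [star, hv]
  exact_mod_cast Finset.card_le_card this

open Classical in
theorem iso_many (s L : ℕ) (hn : 1 ≤ n) (hs : s ≤ n.choose 2) (d : ℝ) (hd : 0 < d)
    (hd' : d ≤ (n.choose 2 : ℕ) - s) (hfd : ((n - 1 : ℕ) : ℝ) ≤ d) :
    ((1 - ((n - 1 : ℕ) : ℝ) / d) ^ s - L / n) * (Fintype.card (Order n) : ℝ)
      ≤ ((univ.filter (fun σ : Order n => L ≤ (iso σ s).card)).card : ℝ) := by
  have hn0 : (0 : ℝ) < n := by exact_mod_cast hn
  have h1 : ∑ σ : Order n, (((iso σ s).card : ℕ) : ℝ)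
      = ∑ v : Fin n, ((univ.filter (fun σ : Order n => v ∈ iso σ s)).card : ℝ) := by
    have : ∀ σ : Order n, (((iso σ s).card : ℕ) : ℝ)
        = ∑ v : Fin n, (if v ∈ iso σ s then (1 : ℝ) else 0) := by
      intro σ
      rw [Finset.sum_boole]
      congr 2
      ext v
      simp
    simp_rw [this]
    rw [Finset.sum_comm]
    refine Finset.sum_congr rfl (fun v _ => ?_)
    rw [Finset.sum_boole]
  have h2 : (n : ℝ) * ((1 - ((n - 1 : ℕ) : ℝ) / d) ^ s * (Fintype.card (Order n) : ℝ))
      ≤ ∑ σ : Order n, (((iso σ s).card : ℕ) : ℝ) := by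
    rw [h1]
    calc (n : ℝ) * ((1 - ((n - 1 : ℕ) : ℝ) / d) ^ s * (Fintype.card (Order n) : ℝ))
        = ∑ _v : Fin n, ((1 - ((n - 1 : ℕ) : ℝ) / d) ^ s * (Fintype.card (Order n) : ℝ)) := by
          rw [Finset.sum_const, Finset.card_univ, Fintype.card_fin, nsmul_eq_mul]
      _ ≤ _ := Finset.sum_le_sum (fun v _ => iso_prob s v hs d hd hd' hfd)
  have h3 := first_moment (fun σ : Order n => (((iso σ s).card : ℕ) : ℝ)) n L
    (by
      intro σ
      have : (iso σ s).card ≤ n := (Finset.card_le_univ _).trans (by simp)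
      exact_mod_cast this) hn0.le (by positivity)
  have h4 : (univ.filter (fun σ : Order n => (L : ℝ) ≤ (((iso σ s).card : ℕ) : ℝ)))
      = (univ.filter (fun σ : Order n => L ≤ (iso σ s).card)) := by
    ext σ
    simp
  have h3' : ∑ σ : Order n, (((iso σ s).card : ℕ) : ℝ) ≤
      n * ((univ.filter (fun σ : Order n => L ≤ (iso σ s).card)).card : ℝ)
        + L * (Fintype.card (Order n) : ℝ) := by
    rw [← h4]
    convert h3
  have h5 := h2.trans h3'
  have h6 : (n : ℝ) * (((1 - ((n - 1 : ℕ) : ℝ) / d) ^ s - L / n) *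
      (Fintype.card (Order n) : ℝ)) = (n : ℝ) * ((1 - ((n - 1 : ℕ) : ℝ) / d) ^ s *
      (Fintype.card (Order n) : ℝ)) - L * (Fintype.card (Order n) : ℝ) := by
    field_simp
  have h7 : (n : ℝ) * (((1 - ((n - 1 : ℕ) : ℝ) / d) ^ s - L / n) *
      (Fintype.card (Order n) : ℝ)) ≤
      n * ((univ.filter (fun σ : Order n => L ≤ (iso σ s).card)).card : ℝ) := by
    rw [h6]
    linarith
  exact le_of_mul_le_mul_left h7 hn0

open Classical in
theorem high_few (k s u M H : ℕ) (hu : 2 * M + k * u ≤ k * n) (hH : H + k * n ≤ n + 2 * M)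
    (hs : s ≤ n.choose 2) (q : ℝ)
    (hq1 : q ≤ 1) (hq : q * (n.choose 2 : ℕ) + s ≤ ((u + 1).choose 2 : ℕ)) :
    ((univ.filter (fun σ : Order n => ¬ (H ≤ (high k σ s).card))).card : ℝ)
      ≤ 2 ^ M * (1 - q / 2) ^ s * (Fintype.card (Order n) : ℝ) := by
  have h := phase1_prob (n := n) k M (k * n) s u hs (by omega) hu q hq1 hq
  refine le_trans ?_ h
  have : (univ.filter (fun σ : Order n => ¬ (H ≤ (high k σ s).card))) ⊆
      (univ.filter (fun σ : Order n => (bt k M (k * n) σ s).card < M)) := by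
    intro σ hσ
    have h1 := (Finset.mem_filter.1 hσ).2
    refine Finset.mem_filter.2 ⟨Finset.mem_univ _, ?_⟩
    by_contra hcon
    apply h1
    have hcon' : M ≤ (bt k M (k * n) σ s).card := not_lt.1 hcon
    have htot := total k M (k * n) σ s hcon'
    have h2 : (high k σ s).card + (univ.filter (fun v => ¬ k ≤ deg (shown σ s) v)).card = n := by
      have := Finset.card_filter_add_card_filter_not (s := (univ : Finset (Fin n)))
        (fun v => k ≤ deg (shown σ s) v)
      rw [Finset.card_univ, Fintype.card_fin] at this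
      exact this
    have h3 : (univ.filter (fun v => ¬ k ≤ deg (shown σ s) v)) ⊆
        low k (bt k M (k * n) σ s) := by
      intro v hv
      have h4 := (Finset.mem_filter.1 hv).2
      refine Finset.mem_filter.2 ⟨Finset.mem_univ _, ?_⟩
      have h5 : bt k M (k * n) σ s ⊆ shown σ s := by
        intro e he
        have := bought_pos _ σ s e he
        simp [shown, this]
      have := deg_mono h5 v
      omega
    have h6 := Finset.card_le_card h3
    have h7 : (low k (bt k M (k * n) σ s)).card ≤ gap k (bt k M (k * n) σ s) := by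
      unfold low gap
      rw [Finset.card_filter]
      refine Finset.sum_le_sum (fun v _ => ?_)
      split_ifs <;> omega
    omega
  exact_mod_cast Finset.card_le_card this

open Classical in
/-- With probability bounded away from zero there are linearly many one-sided edges. -/
theorem oneSided_prob (k : ℕ) (hk : 1 ≤ k) : ∃ c : ℝ, 0 < c ∧ ∀ᶠ n : ℕ in atTop,
    c ≤ prob (fun σ : Order n => c * n ≤ ((oneSided k σ).card : ℝ)) := by
  have hk' : (1 : ℝ) ≤ k := by exact_mod_cast hk
  set q1 : ℝ := 1 / (32 * k ^ 2) with hq1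
  have hq1pos : 0 < q1 := by positivity
  have hq1le : q1 ≤ 1 := by
    rw [hq1, div_le_one (by positivity)]
    nlinarith
  obtain ⟨C, hC⟩ : ∃ C : ℕ, (1 - q1 / 2) ^ C < 1 / (2 * 2 ^ k) := by
    apply exists_pow_lt_of_lt_one
    · positivity
    · linarith
  have hC1 : 1 ≤ C := by
    rcases Nat.eq_zero_or_pos C with h | h
    · exfalso
      rw [h, pow_zero] at hC
      have h2 : (1 : ℝ) ≤ 2 ^ k := one_le_pow₀ (by norm_num)
      rw [lt_div_iff₀ (by positivity)] at hC
      linarith
    · exact h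
  have hC1' : (1 : ℝ) ≤ C := by exact_mod_cast hC1
  set a : ℝ := Real.exp (-(16 * C)) with ha
  have ha0 : 0 < a := Real.exp_pos _
  have ha1 : a ≤ 1 := by
    rw [ha, Real.exp_le_one_iff]
    linarith
  set c : ℝ := a ^ 2 / 64 with hc
  have hc0 : 0 < c := by positivity
  refine ⟨c, hc0, ?_⟩
  have e1 : ∀ᶠ n : ℕ in atTop, (1 / 2 : ℝ) ^ n < a / 4 :=
    (tendsto_pow_atTop_nhds_zero_of_lt_one (by norm_num) (by norm_num)).eventually
      (gt_mem_nhds (by positivity))
  have e2 : ∀ᶠ n : ℕ in atTop, 16 * (C : ℝ) + 16 ≤ (n : ℝ) :=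
    tendsto_natCast_atTop_atTop.eventually (eventually_ge_atTop _)
  have e3 : ∀ᶠ n : ℕ in atTop, 4 / a ≤ (n : ℝ) :=
    tendsto_natCast_atTop_atTop.eventually (eventually_ge_atTop _)
  have e5 : ∀ᶠ n : ℕ in atTop, 64 * (k : ℝ) ^ 2 * C ≤ (n : ℝ) :=
    tendsto_natCast_atTop_atTop.eventually (eventually_ge_atTop _)
  filter_upwards [e1, e2, e3, eventually_ge_atTop (16 + 8 * k), e5] with n h1 h2 h3 h4 h4'
  have hn0 : (0 : ℝ) < n := by linarith
  have hn16 : (16 : ℝ) ≤ n := by linarith
  set N : ℕ := n.choose 2 with hN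
  have hNr : (N : ℝ) = n * (n - 1) / 2 := choose_two_real n
  have hNpos : (0 : ℝ) < N := by
    rw [hNr]
    have : (0 : ℝ) < n - 1 := by linarith
    positivity
  have hNle : (N : ℝ) ≤ n ^ 2 / 2 := by rw [hNr]; nlinarith
  set s : ℕ := C * n with hs
  have hsr : (s : ℝ) = C * n := by rw [hs]; push_cast; ring
  have hs2 : ((2 * s : ℕ) : ℝ) ≤ N / 2 := by
    push_cast
    rw [hsr, hNr]
    nlinarith
  have hsN : 2 * s ≤ N := by
    have : ((2 * s : ℕ) : ℝ) ≤ N := by linarith
    exact_mod_cast this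
  set L : ℕ := ⌊a * n / 2⌋₊ with hL
  have hLle : (L : ℝ) ≤ a * n / 2 := Nat.floor_le (by positivity)
  have hLge : a * n / 2 < L + 1 := Nat.lt_floor_add_one _
  set M : ℕ := (k * n - n / 2) / 2 with hM
  have hkn : n ≤ k * n := Nat.le_mul_of_pos_left n hk
  set u : ℕ := n / 2 / k with hu
  have hku : k * u ≤ n / 2 := Nat.mul_div_le _ _
  have hug : (n : ℝ) / (4 * k) ≤ u := by
    have h6 : n / 2 < k * (u + 1) := by
      rw [hu]
      exact Nat.lt_mul_div_succ _ (by omega)
    have h7 : n < 2 * (k * (u + 1)) + 1 := by omega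
    have h8 : (n : ℝ) < 2 * (k * (u + 1)) + 1 := by exact_mod_cast h7
    have h9 : (16 : ℝ) + 8 * k ≤ n := by exact_mod_cast h4
    rw [div_le_iff₀ (by positivity)]
    linarith
  set H : ℕ := n - n / 2 - 1 with hH
  have hHg : (n : ℝ) / 4 ≤ H := by
    have h6 : n ≤ 4 * H := by omega
    have h7 : (n : ℝ) ≤ 4 * H := by exact_mod_cast h6
    linarith
  have hΩ : (0 : ℝ) < (Fintype.card (Order n) : ℝ) := by exact_mod_cast card_order_pos
  -- probability of many isolated vertices at time `2 s`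
  have p1 := iso_many (n := n) (2 * s) L (by omega) hsN (N / 2) (by positivity)
    (by
      rw [← hN]
      linarith)
    (by
      rw [Nat.cast_sub (by omega), Nat.cast_one, hNr]
      nlinarith)
  have hx : (((n - 1 : ℕ) : ℝ)) / ((N : ℝ) / 2) = 4 / n := by
    rw [Nat.cast_sub (by omega), Nat.cast_one, hNr]
    have : (n : ℝ) - 1 ≠ 0 := by linarith
    field_simp
    norm_num
  rw [hx] at p1
  have hf1 : a ≤ (1 - 4 / (n : ℝ)) ^ (2 * s) := by
    have h7 : Real.exp (-(2 * (4 / n))) ≤ 1 - 4 / (n : ℝ) :=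
      one_sub_ge_exp (by positivity) (by rw [div_le_iff₀ hn0]; linarith)
    have h8 : a = Real.exp (-(2 * (4 / (n : ℝ)))) ^ (2 * s) := by
      rw [← Real.exp_nat_mul, ha]
      congr 1
      push_cast
      rw [hsr]
      field_simp
      ring
    rw [h8]
    exact pow_le_pow_left₀ (Real.exp_pos _).le h7 _
  have hLn : (L : ℝ) / n ≤ a / 2 := by
    rw [div_le_iff₀ hn0]
    linarith
  have p1' : a / 2 * (Fintype.card (Order n) : ℝ)
      ≤ ((univ.filter (fun σ : Order n => L ≤ (iso σ (2 * s)).card)).card : ℝ) := by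
    refine le_trans ?_ p1
    apply mul_le_mul_of_nonneg_right _ hΩ.le
    linarith
  -- few low vertices at time `s`
  have p2 := high_few (n := n) k s u M H (by omega) (by omega) (by omega) q1 hq1le
    (by
      have h7 : (((u + 1).choose 2 : ℕ) : ℝ) = (u + 1) * u / 2 := by
        rw [choose_two_real]
        push_cast
        ring
      rw [← hN, hsr, h7]
      have h5 : (C : ℝ) * n ≤ n ^ 2 / (64 * k ^ 2) := by
        rw [le_div_iff₀ (by positivity)]
        nlinarith
      have h6 : q1 * (N : ℝ) ≤ n ^ 2 / (64 * k ^ 2) := by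
        calc q1 * (N : ℝ) ≤ q1 * (n ^ 2 / 2) := mul_le_mul_of_nonneg_left hNle hq1pos.le
          _ = n ^ 2 / (64 * k ^ 2) := by
            rw [hq1]
            field_simp
            norm_num
      have h8 : (n : ℝ) / (4 * k) * (n / (4 * k)) ≤ ((u : ℝ) + 1) * u := by
        apply mul_le_mul _ hug (by positivity) (by positivity)
        linarith
      have h9 : (n : ℝ) / (4 * k) * (n / (4 * k)) = 4 * (n ^ 2 / (64 * k ^ 2)) := by
        field_simp
        norm_num
      linarith)
  have hf3 : (2 : ℝ) ^ M * (1 - q1 / 2) ^ s ≤ (1 / 2) ^ n := by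
    have h7 : (2 : ℝ) ^ M ≤ 2 ^ (k * n) :=
      pow_le_pow_right₀ (by norm_num) (by omega)
    have h9 : (2 : ℝ) ^ k * (1 - q1 / 2) ^ C ≤ 1 / 2 := by
      have h10 : (2 : ℝ) ^ k * (1 - q1 / 2) ^ C ≤ 2 ^ k * (1 / (2 * 2 ^ k)) :=
        mul_le_mul_of_nonneg_left hC.le (by positivity)
      have h11 : (2 : ℝ) ^ k * (1 / (2 * 2 ^ k)) = 1 / 2 := by
        field_simp
      linarith
    have h12 : 0 ≤ 1 - q1 / 2 := by linarith
    calc (2 : ℝ) ^ M * (1 - q1 / 2) ^ s
        ≤ 2 ^ (k * n) * (1 - q1 / 2) ^ s :=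
          mul_le_mul_of_nonneg_right h7 (pow_nonneg h12 _)
      _ = (2 ^ k * (1 - q1 / 2) ^ C) ^ n := by rw [mul_pow, hs, pow_mul, pow_mul]
      _ ≤ (1 / 2) ^ n := pow_le_pow_left₀ (by positivity) h9 _
  have p2' : ((univ.filter (fun σ : Order n => ¬ (H ≤ (high k σ s).card))).card : ℝ)
      ≤ a / 4 * (Fintype.card (Order n) : ℝ) := by
    refine p2.trans ?_
    apply mul_le_mul_of_nonneg_right _ hΩ.le
    linarith
  -- each step of the window `[s, 2 s)`
  have hLH : a / 8 * (N : ℝ) ≤ ((L * H : ℕ) : ℝ) := by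
    push_cast
    have h5 : a * n / 4 ≤ (L : ℝ) := by
      have h6 : 4 ≤ n * a := by
        rwa [div_le_iff₀ ha0] at h3
      linarith
    have h6 : a * n / 4 * (n / 4) ≤ (L : ℝ) * H := by
      apply mul_le_mul h5 hHg (by positivity) (by positivity)
    have h7 : a / 8 * (N : ℝ) ≤ a / 8 * (n ^ 2 / 2) :=
      mul_le_mul_of_nonneg_left hNle (by positivity)
    nlinarith
  have p3 : ∀ t, s ≤ t → ∀ ht : t < 2 * s, c * 2 * (Fintype.card (Order n) : ℝ) ≤
      ((univ.filter (fun σ : Order n => σ ⟨t, lt_of_lt_of_le ht hsN⟩ ∈ cross k σ t)).card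
        : ℝ) := by
    intro t hst ht
    have h5 := cross_prob (n := n) k hk t L H (lt_of_lt_of_le ht hsN) (a / 8) hLH
    refine le_trans ?_ h5
    have h6 : (univ.filter (fun σ : Order n => L ≤ (iso σ (2 * s)).card)) ⊆
        (univ.filter (fun σ : Order n => L ≤ (iso σ t).card ∧ H ≤ (high k σ t).card)) ∪
        (univ.filter (fun σ : Order n => ¬ (H ≤ (high k σ s).card))) := by
      intro σ hσ
      have h7 := (Finset.mem_filter.1 hσ).2
      rw [Finset.mem_union]
      by_cases h8 : H ≤ (high k σ s).card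
      · left
        refine Finset.mem_filter.2 ⟨Finset.mem_univ _, ?_, ?_⟩
        · exact h7.trans (Finset.card_le_card (iso_anti σ ht.le))
        · exact h8.trans (Finset.card_le_card (high_mono k σ hst))
      · right
        exact Finset.mem_filter.2 ⟨Finset.mem_univ _, h8⟩
    have h7 := (Finset.card_le_card h6).trans (Finset.card_union_le _ _)
    have h8 : ((univ.filter (fun σ : Order n => L ≤ (iso σ (2 * s)).card)).card : ℝ) ≤
        ((univ.filter (fun σ : Order n =>
          L ≤ (iso σ t).card ∧ H ≤ (high k σ t).card)).card : ℝ) +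
        ((univ.filter (fun σ : Order n => ¬ (H ≤ (high k σ s).card))).card : ℝ) := by
      exact_mod_cast h7
    have h9 : a / 4 * (Fintype.card (Order n) : ℝ) ≤ ((univ.filter (fun σ : Order n =>
          L ≤ (iso σ t).card ∧ H ≤ (high k σ t).card)).card : ℝ) := by linarith
    have h10 : a / 8 * (a / 4 * (Fintype.card (Order n) : ℝ)) ≤ a / 8 *
        ((univ.filter (fun σ : Order n =>
          L ≤ (iso σ t).card ∧ H ≤ (high k σ t).card)).card : ℝ) :=
      mul_le_mul_of_nonneg_left h9 (by positivity)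
    refine le_trans (le_of_eq ?_) h10
    rw [hc]
    ring
  -- the number of cross edges in the window
  set W : Order n → ℝ := fun σ => (((univ.filter (fun p : Fin N =>
    (s ≤ (p : ℕ) ∧ (p : ℕ) < 2 * s) ∧ σ p ∈ cross k σ p)).card : ℕ) : ℝ) with hW
  have hMone : ∀ σ, W σ ≤ ((oneSided k σ).card : ℝ) := by
    intro σ
    have : (univ.filter (fun p : Fin N =>
      (s ≤ (p : ℕ) ∧ (p : ℕ) < 2 * s) ∧ σ p ∈ cross k σ p)).card ≤ (oneSided k σ).card := by
      refine Finset.card_le_card_of_injOn (fun p => σ p) ?_ ?_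
      · intro p hp
        have h5 := (Finset.mem_filter.1 hp).2.2
        exact cross_oneSided k hk σ p p.isLt h5
      · intro p _ p' _ h
        exact σ.injective h
    show (((univ.filter (fun p : Fin N =>
      (s ≤ (p : ℕ) ∧ (p : ℕ) < 2 * s) ∧ σ p ∈ cross k σ p)).card : ℕ) : ℝ) ≤ _
    exact_mod_cast this
  have hMs : ∀ σ, W σ ≤ s := by
    intro σ
    have h5 : (univ.filter (fun p : Fin N =>
      (s ≤ (p : ℕ) ∧ (p : ℕ) < 2 * s) ∧ σ p ∈ cross k σ p)) ⊆ win N s s := by
      intro p hp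
      have h6 := (Finset.mem_filter.1 hp).2.1
      rw [mem_win]
      omega
    have h6 := (Finset.card_le_card h5).trans (card_win_le N s s)
    show (((univ.filter (fun p : Fin N =>
      (s ≤ (p : ℕ) ∧ (p : ℕ) < 2 * s) ∧ σ p ∈ cross k σ p)).card : ℕ) : ℝ) ≤ _
    exact_mod_cast h6
  have hMsum : (s : ℝ) * (c * 2 * (Fintype.card (Order n) : ℝ)) ≤ ∑ σ, W σ := by
    have h5 : ∑ σ, W σ = ∑ p : Fin N, (if s ≤ (p : ℕ) ∧ (p : ℕ) < 2 * s then
        ((univ.filter (fun σ : Order n => σ p ∈ cross k σ p)).card : ℝ) else 0) := by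
      have h6 : ∀ σ, W σ = ∑ p : Fin N, (if s ≤ (p : ℕ) ∧ (p : ℕ) < 2 * s then
          (if σ p ∈ cross k σ p then (1 : ℝ) else 0) else 0) := by
        intro σ
        show (((univ.filter (fun p : Fin N =>
          (s ≤ (p : ℕ) ∧ (p : ℕ) < 2 * s) ∧ σ p ∈ cross k σ p)).card : ℕ) : ℝ) = _
        rw [← Finset.sum_boole]
        refine Finset.sum_congr rfl (fun p _ => ?_)
        rw [← ite_and]
      simp_rw [h6]
      rw [Finset.sum_comm]
      refine Finset.sum_congr rfl (fun p _ => ?_)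
      by_cases hp : s ≤ (p : ℕ) ∧ (p : ℕ) < 2 * s
      · simp only [if_pos hp]
        rw [Finset.sum_boole]
      · simp only [if_neg hp]
        rw [Finset.sum_const_zero]
    rw [h5, ← Finset.sum_filter]
    have h6 : (univ.filter (fun p : Fin N => s ≤ (p : ℕ) ∧ (p : ℕ) < 2 * s)).card = s := by
      have : (univ.filter (fun p : Fin N => s ≤ (p : ℕ) ∧ (p : ℕ) < 2 * s)).map Fin.valEmbedding
          = Finset.Ico s (2 * s) := by
        ext x
        rw [Finset.mem_map, Finset.mem_Ico]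
        constructor
        · rintro ⟨p, hp, rfl⟩
          exact (Finset.mem_filter.1 hp).2
        · intro hx
          exact ⟨⟨x, lt_of_lt_of_le hx.2 hsN⟩, Finset.mem_filter.2 ⟨Finset.mem_univ _, hx⟩, rfl⟩
      rw [← Finset.card_map Fin.valEmbedding, this, Nat.card_Ico]
      omega
    calc (s : ℝ) * (c * 2 * (Fintype.card (Order n) : ℝ))
        = ∑ _p ∈ univ.filter (fun p : Fin N => s ≤ (p : ℕ) ∧ (p : ℕ) < 2 * s),
          (c * 2 * (Fintype.card (Order n) : ℝ)) := by
          rw [Finset.sum_const, h6, nsmul_eq_mul]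
      _ ≤ _ := by
        refine Finset.sum_le_sum (fun p hp => ?_)
        have hp' := (Finset.mem_filter.1 hp).2
        exact p3 p hp'.1 hp'.2
  have h5 := first_moment W s (c * s) hMs (by positivity) (by positivity)
  have h6 : (univ.filter (fun σ : Order n => c * s ≤ W σ)) ⊆
      (univ.filter (fun σ : Order n => c * n ≤ ((oneSided k σ).card : ℝ))) := by
    intro σ hσ
    have h7 := (Finset.mem_filter.1 hσ).2
    refine Finset.mem_filter.2 ⟨Finset.mem_univ _, ?_⟩
    refine le_trans ?_ (h7.trans (hMone σ))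
    apply mul_le_mul_of_nonneg_left _ hc0.le
    rw [hsr]
    nlinarith
  have h7 : ((univ.filter (fun σ : Order n => c * s ≤ W σ)).card : ℝ) ≤
      ((univ.filter (fun σ : Order n => c * n ≤ ((oneSided k σ).card : ℝ))).card : ℝ) := by
    exact_mod_cast Finset.card_le_card h6
  have h5' : ∑ σ, W σ ≤ s * ((univ.filter (fun σ : Order n => c * s ≤ W σ)).card : ℝ)
      + c * s * (Fintype.card (Order n) : ℝ) := by
    convert h5
  unfold prob
  rw [le_div_iff₀ hΩ]
  have hs0 : (0 : ℝ) < s := by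
    rw [hsr]
    positivity
  have h8 : (s : ℝ) * (c * (Fintype.card (Order n) : ℝ)) ≤
      s * ((univ.filter (fun σ : Order n => c * s ≤ W σ)).card : ℝ) := by nlinarith
  have h9 := le_of_mul_le_mul_left h8 hs0
  refine h9.trans (h7.trans ?_)
  apply le_of_eq
  congr!

/-- The constant `o_k` is greater than `k / 2`. -/
theorem half_lt_const (k : ℕ) (hk : 1 ≤ k) (o : ℝ) (ho : IsNearestConst k o) :
    (k : ℝ) / 2 < o := by
  classical
  obtain ⟨c, hc, hev⟩ := oneSided_prob k hk
  by_contra hcon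
  push Not at hcon
  have h1 := ho (c / 4) (by positivity)
  have h2 : ∀ᶠ n : ℕ in atTop,
      prob (fun σ : Order n => c / 4 < |((nearest k σ).card : ℝ) / n - o|) < c :=
    h1.eventually (gt_mem_nhds hc)
  obtain ⟨n, hn1, hn2, hn3⟩ := (hev.and (h2.and (eventually_ge_atTop (k + 1)))).exists
  have hn0 : (0 : ℝ) < n := by
    have : 0 < n := by omega
    exact_mod_cast this
  refine absurd hn2 (not_lt.2 (hn1.trans ?_))
  unfold prob
  apply div_le_div_of_nonneg_right _ (by positivity)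
  have : (univ.filter (fun σ : Order n => c * n ≤ ((oneSided k σ).card : ℝ))) ⊆
      (univ.filter (fun σ : Order n => c / 4 < |((nearest k σ).card : ℝ) / n - o|)) := by
    intro σ hσ
    have h3 := (Finset.mem_filter.1 hσ).2
    refine Finset.mem_filter.2 ⟨Finset.mem_univ _, ?_⟩
    have h4 := nearest_card k hn3 σ
    have h5 : (k : ℝ) * n + ((oneSided k σ).card : ℝ) ≤ 2 * ((nearest k σ).card : ℝ) := by
      exact_mod_cast h4
    have h6 : (k : ℝ) / 2 + c / 2 ≤ ((nearest k σ).card : ℝ) / n := by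
      rw [le_div_iff₀ hn0]
      linarith
    have h7 : c / 2 ≤ ((nearest k σ).card : ℝ) / n - o := by linarith
    exact lt_of_lt_of_le (by linarith) (h7.trans (le_abs_self _))
  exact_mod_cast Finset.card_le_card this

end Pool.Agent.Work.MP_59e60d_pr
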