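import Pool.Agent.Work.MP_59e60d_pr.Defs

/-!
# Optimal budget for minimum degree `k` at its hitting time: thresholds and online strategies

The two constants of the theorem and the most general online strategies of Builder.
-/

namespace Pool.Agent.Work.MP_59e60d_pr

open Finset

/-- The probability that a Poisson variable of mean `1` is at least `d`. -/
noncomputable def poissonTail (d : ℕ) : ℝ :=
  1 - Real.exp (-1) * ∑ i ∈ range d, 1 / (i.factorial : ℝ)

/-- The constant `w_k = 3/4 + (1/2) ∑_{1 ≤ j < k} (k - j) P(N ≥ j)`, `N` Poisson of mean `1`. -/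
noncomputable def wThr (k : ℕ) : ℝ :=
  3 / 4 + (1 / 2) * ∑ j ∈ Ico 1 k, ((k : ℝ) - j) * poissonTail j

/-- The constant `o_k = k/2 + (1/4) ∑_{0 ≤ j < k} C(2j, j) / 4^j` (see `IsNearestConst`). -/
noncomputable def oThr (k : ℕ) : ℝ :=
  (k : ℝ) / 2 + (1 / 4) * ∑ j ∈ range k, ((2 * j).choose j : ℝ) / 4 ^ j

/-- `Online B`: the random edge sets `B σ s` (`σ` the order in which the edges are shown, `s` the
number of steps) are the edge sets bought by a deterministic strategy of Builder: he starts with no
edge, never gives an edge back, at step `s + 1` can only buy the edge shown at this step (the one at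
position `s`), and his decisions up to step `s` depend only on the first `s` edges shown. He may
remember all the edges shown so far, bought or not. -/
structure Online {n : ℕ} (B : Order n → ℕ → Finset (Edge n)) : Prop where
  zero : ∀ σ, B σ 0 = ∅
  grow : ∀ σ s, B σ s ⊆ B σ (s + 1)
  new : ∀ σ s, ∀ e ∈ B σ (s + 1), e ∈ B σ s ∨ ((σ.symm e : Fin (n.choose 2)) : ℕ) = s
  adapted : ∀ (σ σ' : Order n) (s : ℕ),
    (∀ p : Fin (n.choose 2), (p : ℕ) < s → σ p = σ' p) → B σ s = B σ' s

end Pool.Agent.Work.MP_59e60d_pr
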