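import Pool.Agent.Work.MP_59e60d_pr.Builder

/-!
# Probability estimates for Builder's strategy
-/

namespace Pool.Agent.Work.MP_59e60d_pr

open Finset

variable {n : ℕ}

/-- The edges at `v`. -/
def star (v : Fin n) : Finset (Edge n) := univ.filter (fun e => v ∈ e.1)

theorem card_star (v : Fin n) : (star v).card = n - 1 := by
  have h : ((univ : Finset (Fin n)).erase v).card = n - 1 := by
    rw [Finset.card_erase_of_mem (Finset.mem_univ v)]
    simp
  rw [← h]
  symm
  refine Finset.card_bij (fun w hw => ⟨s(v, w), ?_⟩) ?_ ?_ ?_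
  · rw [Sym2.mk_isDiag_iff]
    exact (Finset.ne_of_mem_erase hw).symm
  · intro w hw
    simp [star]
  · intro w hw w' hw' h
    have h1 : s(v, w) = s(v, w') := congrArg Subtype.val h
    exact Sym2.congr_right.1 h1
  · intro e he
    have hv : v ∈ e.1 := (Finset.mem_filter.1 he).2
    obtain ⟨w, hw⟩ := Sym2.mem_iff_exists.1 hv
    have hne : v ≠ w := by
      intro h
      apply e.2
      rw [hw, Sym2.mk_isDiag_iff]
      exact h
    refine ⟨w, Finset.mem_erase.2 ⟨hne.symm, Finset.mem_univ _⟩, ?_⟩
    exact Subtype.ext hw.symm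

theorem card_order_pos : 0 < Fintype.card (Order n) := by
  rw [Fintype.card_pos_iff]
  refine ⟨(Fintype.equivFinOfCardEq ?_).symm⟩
  rw [Sym2.card_subtype_not_diag]
  simp

/-- The edges inside the vertex set `W`. -/
theorem card_inner (W : Finset (Fin n)) :
    W.card.choose 2 ≤ (univ.filter (fun e : Edge n => ∀ v ∈ e.1, v ∈ W)).card := by
  rw [← Sym2.card_image_offDiag]
  refine Finset.card_le_card_of_surjOn (fun e : Edge n => e.1) ?_
  intro z hz
  rw [Finset.mem_coe, Finset.mem_image] at hz
  obtain ⟨⟨x, y⟩, hxy, rfl⟩ := hz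
  rw [Finset.mem_offDiag] at hxy
  refine ⟨⟨s(x, y), ?_⟩, ?_, rfl⟩
  · rw [Sym2.mk_isDiag_iff]
    exact hxy.2.2
  · simp only [Finset.coe_filter, Finset.mem_univ, true_and, Set.mem_ofPred_eq]
    intro v hv
    rw [Sym2.mem_iff] at hv
    rcases hv with rfl | rfl
    · exact hxy.1
    · exact hxy.2.1

section General

set_option linter.unusedSectionVars false

variable {N : ℕ} {α : Type*} [Fintype α] [DecidableEq α]

theorem card_filter_compl (P : Finset (Fin N)) (σ : Fin N ≃ α) (F : Finset α) :
    (P.filter (fun j => σ j ∈ F)).card + (Pᶜ.filter (fun j => σ j ∈ F)).card = F.card := by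
  have h1 : (P.filter (fun j => σ j ∈ F)).card + (Pᶜ.filter (fun j => σ j ∈ F)).card
      = (univ.filter (fun j => σ j ∈ F)).card := by
    rw [← Finset.card_union_of_disjoint]
    · congr 1
      ext j
      simp only [Finset.mem_union, Finset.mem_filter, Finset.mem_compl, Finset.mem_univ, true_and]
      tauto
    · rw [Finset.disjoint_left]
      intro j h1 h2
      simp only [Finset.mem_filter, Finset.mem_compl] at h1 h2
      exact h2.1 h1.1
  rw [h1]
  refine Finset.card_bij (fun j _ => σ j) ?_ ?_ ?_
  · intro j hj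
    exact (Finset.mem_filter.1 hj).2
  · intro j _ j' _ h
    exact σ.injective h
  · intro f hf
    exact ⟨σ.symm f, by simp [hf], by simp⟩

end General

/-- With overwhelming probability at least `M` edges are bought in the first `m` steps. -/
theorem phase1_prob (k M b m u : ℕ) (hm : m ≤ n.choose 2) (hMb : M ≤ b)
    (hu : 2 * M + k * u ≤ k * n) (q : ℝ)
    (hq1 : q ≤ 1) (hq : q * (n.choose 2 : ℕ) + m ≤ ((u + 1).choose 2 : ℕ)) :
    ((univ.filter (fun σ : Order n => (bt k M b σ m).card < M)).card : ℝ)
      ≤ 2 ^ M * (1 - q / 2) ^ m * (Fintype.card (Order n) : ℝ) := by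
  have h := exp_card (N := n.choose 2) (α := Edge n) 0 m (by omega)
    (fun i σ => (bt k M b σ i).card)
    (fun i σ => (bt k M b σ i).card < M)
    (fun i σ => univ.filter (fun e : Edge n => ∀ v ∈ e.1, v ∈ low k (bt k M b σ i)))
    (fun i => (bt_meas k M b i).comp (fun B => B.card))
    (fun i => (bt_meas k M b i).comp (fun B => B.card < M))
    (fun i => (bt_meas k M b i).comp
      (fun B => univ.filter (fun e : Edge n => ∀ v ∈ e.1, v ∈ low k B)))
    (by
      intro i _ σ h
      exact lt_of_le_of_lt (Finset.card_le_card (bt_mono k M b σ (Nat.le_succ i))) h)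
    (by
      intro i _ σ _
      exact Finset.card_le_card (bt_mono k M b σ (Nat.le_succ i)))
    (by
      intro i hi σ hD hF
      have hi' : i < n.choose 2 := by omega
      have e0 : (⟨0 + i, by omega⟩ : Fin (n.choose 2)) = ⟨i, hi'⟩ := Fin.ext (by simp)
      rw [e0] at hF
      have hD' : (bt k M b σ i).card < M :=
        lt_of_le_of_lt (Finset.card_le_card (bt_mono k M b σ (Nat.le_succ i))) hD
      have hS : rule n k M b (σ ⟨i, hi'⟩) (bt k M b σ i) := by
        refine ⟨by omega, Or.inl ⟨hD', ?_⟩⟩
        intro v hv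
        have h1 := (Finset.mem_filter.1 hF).2 v hv
        exact (Finset.mem_filter.1 h1).2
      show (bt k M b σ i).card + 1 ≤ (bt k M b σ (i + 1)).card
      rw [bt_succ_pos k M b σ i hi' hS,
        Finset.card_insert_of_notMem (notMem_bt k M b σ i hi')])
    q hq1
    (by
      intro i hi σ hD
      have hD' : (bt k M b σ i).card < M := hD
      have hg1 := phase1_gap k M b σ i hD'.le
      have hg2 := gap_le k (bt k M b σ i)
      have hlow : u + 1 ≤ (low k (bt k M b σ i)).card := by
        by_contra hcon
        have hcon' : (low k (bt k M b σ i)).card ≤ u := by omega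
        have := Nat.mul_le_mul_left k hcon'
        omega
      have h1 := card_filter_compl (win (n.choose 2) 0 i) σ
        (univ.filter (fun e : Edge n => ∀ v ∈ e.1, v ∈ low k (bt k M b σ i)))
      have h2 := card_inner (low k (bt k M b σ i))
      have h3 : ((win (n.choose 2) 0 i).filter (fun j => σ j ∈
        (univ.filter (fun e : Edge n => ∀ v ∈ e.1, v ∈ low k (bt k M b σ i))))).card
          ≤ i := (Finset.card_filter_le _ _).trans (card_win_le _ _ _)
      have h4 : (u + 1).choose 2 ≤ (low k (bt k M b σ i)).card.choose 2 :=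
        Nat.choose_le_choose 2 hlow
      have h5 : (u + 1).choose 2 ≤ m + ((win (n.choose 2) 0 i)ᶜ.filter (fun j => σ j ∈
        (univ.filter (fun e : Edge n => ∀ v ∈ e.1, v ∈ low k (bt k M b σ i))))).card := by omega
      have h6 : (((u + 1).choose 2 : ℕ) : ℝ) ≤ (m : ℝ) +
        (((win (n.choose 2) 0 i)ᶜ.filter (fun j => σ j ∈
        (univ.filter (fun e : Edge n => ∀ v ∈ e.1, v ∈ low k (bt k M b σ i))))).card : ℝ) := by
        exact_mod_cast h5
      linarith)
    M
    (by
      intro σ hD
      exact le_of_lt hD)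
  convert h

/-- It is unlikely that the degree of `v` in a long slice is less than `k`. -/
theorem deg_prob (k a w : ℕ) (haw : a + w ≤ n.choose 2) (v : Fin n) (q : ℝ)
    (hq1 : q ≤ 1) (hq : q * (n.choose 2 : ℕ) + k ≤ n) :
    ((univ.filter (fun σ : Order n => deg (slice σ a w) v < k)).card : ℝ)
      ≤ 2 ^ k * (1 - q / 2) ^ w * (Fintype.card (Order n) : ℝ) := by
  have h := exp_card (N := n.choose 2) (α := Edge n) a w haw
    (fun i σ => deg (slice σ a i) v)
    (fun i σ => deg (slice σ a i) v < k)
    (fun _ _ => star v)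
    (fun i => (slice_meas a i).comp (fun B => deg B v))
    (fun i => (slice_meas a i).comp (fun B => deg B v < k))
    (fun i => Meas.const _ _)
    (by
      intro i _ σ h
      exact lt_of_le_of_lt (deg_mono (slice_mono σ a (Nat.le_succ i)) v) h)
    (by
      intro i _ σ _
      exact deg_mono (slice_mono σ a (Nat.le_succ i)) v)
    (by
      intro i hi σ _ hF
      have h1 : v ∈ (σ ⟨a + i, by omega⟩).1 := (Finset.mem_filter.1 hF).2
      show deg (slice σ a i) v + 1 ≤ deg (slice σ a (i + 1)) v
      rw [slice_succ σ a i (by omega), deg_insert (notMem_slice σ a i (by omega)), if_pos h1])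
    q hq1
    (by
      intro i hi σ hD
      have h1 := card_filter_compl (win (n.choose 2) a i) σ (star v)
      rw [card_star] at h1
      have h2 : ((win (n.choose 2) a i).filter (fun j => σ j ∈ star v)).card
          = deg (slice σ a i) v := by
        unfold deg
        refine Finset.card_bij (fun j _ => σ j) ?_ ?_ ?_
        · intro j hj
          rw [Finset.mem_filter, mem_win] at hj
          rw [Finset.mem_filter]
          refine ⟨?_, (Finset.mem_filter.1 hj.2).2⟩
          simp only [slice, Finset.mem_filter, Finset.mem_univ, true_and,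
            Equiv.symm_apply_apply]
          exact hj.1
        · intro j _ j' _ hjj
          exact σ.injective hjj
        · intro e he
          rw [Finset.mem_filter] at he
          refine ⟨σ.symm e, ?_, by simp⟩
          rw [Finset.mem_filter, mem_win]
          refine ⟨(Finset.mem_filter.1 he.1).2, ?_⟩
          simp [star, he.2]
      have hD' : deg (slice σ a i) v < k := hD
      have h3 : n ≤ k + ((win (n.choose 2) a i)ᶜ.filter (fun j => σ j ∈ star v)).card := by
        have := v.isLt
        omega
      have h4 : (n : ℝ) ≤ (k : ℝ) +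
          (((win (n.choose 2) a i)ᶜ.filter (fun j => σ j ∈ star v)).card : ℝ) := by
        exact_mod_cast h3
      linarith)
    k
    (by
      intro σ hD
      exact le_of_lt hD)
  convert h

open Classical in
/-- Most orders: the slice of length `w` after position `m` has minimum degree at least `k`. -/
theorem minDeg_slice_prob (k a w : ℕ) (haw : a + w ≤ n.choose 2) (q : ℝ)
    (hq1 : q ≤ 1) (hq : q * (n.choose 2 : ℕ) + k ≤ n) :
    (1 - n * (2 ^ k * (1 - q / 2) ^ w)) * (Fintype.card (Order n) : ℝ)
      ≤ ((univ.filter (fun σ : Order n => MinDeg k (slice σ a w))).card : ℝ) := by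
  have h1 : (univ.filter (fun σ : Order n => ¬ MinDeg k (slice σ a w)))
      ⊆ univ.biUnion (fun v : Fin n => univ.filter (fun σ : Order n =>
        deg (slice σ a w) v < k)) := by
    intro σ hσ
    rw [Finset.mem_filter] at hσ
    have h2 := hσ.2
    unfold MinDeg at h2
    push Not at h2
    obtain ⟨v, hv⟩ := h2
    rw [Finset.mem_biUnion]
    exact ⟨v, Finset.mem_univ _, Finset.mem_filter.2 ⟨Finset.mem_univ _, hv⟩⟩
  have h2 : ((univ.filter (fun σ : Order n => ¬ MinDeg k (slice σ a w))).card : ℝ)
      ≤ ∑ v : Fin n, ((univ.filter (fun σ : Order n => deg (slice σ a w) v < k)).card : ℝ) := by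
    have h3 := (Finset.card_le_card h1).trans Finset.card_biUnion_le
    exact_mod_cast h3
  have h3 : ∑ v : Fin n, ((univ.filter (fun σ : Order n => deg (slice σ a w) v < k)).card : ℝ)
      ≤ ∑ _v : Fin n, 2 ^ k * (1 - q / 2) ^ w * (Fintype.card (Order n) : ℝ) :=
    Finset.sum_le_sum (fun v _ => deg_prob k a w haw v q hq1 hq)
  rw [Finset.sum_const, Finset.card_univ, Fintype.card_fin, nsmul_eq_mul] at h3
  have h4 : ((univ.filter (fun σ : Order n => MinDeg k (slice σ a w))).card : ℝ)
      + ((univ.filter (fun σ : Order n => ¬ MinDeg k (slice σ a w))).card : ℝ)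
      = (Fintype.card (Order n) : ℝ) := by
    have := Finset.card_filter_add_card_filter_not (s := (univ : Finset (Order n)))
      (fun σ : Order n => MinDeg k (slice σ a w))
    rw [Finset.card_univ] at this
    exact_mod_cast this
  have h5 := h2.trans h3
  nlinarith

end Pool.Agent.Work.MP_59e60d_pr
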