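import Pool.Agent.Work.MP_59e60d_pr.UniformSet

/-!
# Lower bound for the hitting time, with high probability
-/

namespace Pool.Agent.Work.MP_59e60d_pr

open Finset Filter Topology

/-- `log n`. -/
noncomputable def Lg (n : ℕ) : ℝ := Real.log n

/-- `log log n`. -/
noncomputable def LL (n : ℕ) : ℝ := Real.log (Real.log n)

theorem tendsto_Lg : Tendsto Lg atTop atTop :=
  Real.tendsto_log_atTop.comp tendsto_natCast_atTop_atTop

theorem tendsto_LL : Tendsto LL atTop atTop :=
  Real.tendsto_log_atTop.comp tendsto_Lg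

theorem tendsto_LL_div : Tendsto (fun n => LL n / Lg n) atTop (𝓝 0) :=
  (Real.isLittleO_log_id_atTop.tendsto_div_nhds_zero).comp tendsto_Lg

theorem tendsto_Lg_pow_div (i : ℕ) : Tendsto (fun n : ℕ => Lg n ^ i / (n : ℝ)) atTop (𝓝 0) :=
  ((Real.isLittleO_pow_log_id_atTop (n := i)).tendsto_div_nhds_zero).comp
    tendsto_natCast_atTop_atTop

/-- `LL` is much smaller than `Lg`. -/
theorem LL_le (c : ℝ) (hc : 0 < c) : ∀ᶠ n : ℕ in atTop, LL n ≤ c * Lg n := by
  filter_upwards [tendsto_LL_div.eventually (gt_mem_nhds hc),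
    tendsto_Lg.eventually (eventually_gt_atTop 0)] with n h1 h2
  rw [div_lt_iff₀ h2] at h1
  exact h1.le

/-- The time `(n/2)(log n + (k - 3/2) log log n)`. -/
noncomputable def t0 (k n : ℕ) : ℕ := ⌊(n : ℝ) / 2 * (Lg n + ((k : ℝ) - 3 / 2) * LL n)⌋₊

theorem t0_facts (k : ℕ) (hk : 1 ≤ k) : ∀ᶠ n : ℕ in atTop,
    2 * (t0 k n : ℝ) / n ≤ Lg n + ((k : ℝ) - 3 / 2) * LL n ∧
    Lg n + ((k : ℝ) - 3 / 2) * LL n - 2 / n ≤ 2 * (t0 k n : ℝ) / n ∧
    Lg n / 2 ≤ 2 * (t0 k n : ℝ) / n ∧ (t0 k n : ℝ) ≤ k * (n * Lg n) := by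
  have hk' : (1 : ℝ) ≤ k := by exact_mod_cast hk
  filter_upwards [LL_le (1 / 4) (by norm_num), tendsto_LL.eventually (eventually_ge_atTop 0),
    tendsto_Lg.eventually (eventually_ge_atTop 16), eventually_ge_atTop 2] with n h1 h2 h3 h4
  have hn : (2 : ℝ) ≤ n := by exact_mod_cast h4
  have hn0 : (0 : ℝ) < n := by linarith
  have h5 : Lg n * (3 / 4) ≤ Lg n + ((k : ℝ) - 3 / 2) * LL n := by nlinarith
  have h6 : Lg n + ((k : ℝ) - 3 / 2) * LL n ≤ 2 * k * Lg n := by nlinarith
  have hpos : 0 ≤ (n : ℝ) / 2 * (Lg n + ((k : ℝ) - 3 / 2) * LL n) := by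
    apply mul_nonneg (by positivity)
    linarith
  have h7 : (t0 k n : ℝ) ≤ (n : ℝ) / 2 * (Lg n + ((k : ℝ) - 3 / 2) * LL n) := Nat.floor_le hpos
  have h8 : (n : ℝ) / 2 * (Lg n + ((k : ℝ) - 3 / 2) * LL n) < (t0 k n : ℝ) + 1 :=
    Nat.lt_floor_add_one _
  have h9 : Lg n + ((k : ℝ) - 3 / 2) * LL n - 2 / n ≤ 2 * (t0 k n : ℝ) / n := by
    rw [le_div_iff₀ hn0, sub_mul, div_mul_cancel₀ _ hn0.ne']
    nlinarith
  refine ⟨?_, h9, ?_, ?_⟩
  · rw [div_le_iff₀ hn0]
    linarith
  · have h10 : 2 / (n : ℝ) ≤ 1 := by rw [div_le_one hn0]; exact hn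
    linarith
  · calc (t0 k n : ℝ) ≤ (n : ℝ) / 2 * (Lg n + ((k : ℝ) - 3 / 2) * LL n) := h7
      _ ≤ (n : ℝ) / 2 * (2 * k * Lg n) := mul_le_mul_of_nonneg_left h6 (by positivity)
      _ = k * (n * Lg n) := by ring

theorem tendsto_t0 (k : ℕ) (hk : 1 ≤ k) : Tendsto (fun n => (t0 k n : ℝ)) atTop atTop := by
  have h1 : Tendsto (fun n : ℕ => (n : ℝ)) atTop atTop := tendsto_natCast_atTop_atTop
  refine tendsto_atTop_mono' atTop ?_ h1
  filter_upwards [t0_facts k hk, tendsto_Lg.eventually (eventually_ge_atTop 4),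
    eventually_gt_atTop 0] with n h2 h3 h4
  have hn0 : (0 : ℝ) < n := by exact_mod_cast h4
  have h5 := h2.2.2.1
  rw [le_div_iff₀ hn0] at h5
  nlinarith

theorem tendsto_t0_div (k : ℕ) (hk : 1 ≤ k) :
    Tendsto (fun n => (t0 k n : ℝ) / (n : ℝ) ^ 2) atTop (𝓝 0) := by
  have h1 := (tendsto_Lg_pow_div 1).const_mul (k : ℝ)
  rw [mul_zero] at h1
  refine squeeze_zero' (Eventually.of_forall (fun n => by positivity)) ?_ h1
  filter_upwards [t0_facts k hk, eventually_gt_atTop 0] with n h2 h4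
  have hn0 : (0 : ℝ) < n := by exact_mod_cast h4
  rw [div_le_iff₀ (by positivity)]
  have := h2.2.2.2
  calc (t0 k n : ℝ) ≤ k * (n * Lg n) := this
    _ = k * (Lg n ^ 1 / n) * n ^ 2 := by field_simp

theorem tendsto_t0_sq_div (k : ℕ) (hk : 1 ≤ k) :
    Tendsto (fun n => (t0 k n : ℝ) ^ 2 / (n : ℝ) ^ 3) atTop (𝓝 0) := by
  have h1 := (tendsto_Lg_pow_div 2).const_mul ((k : ℝ) ^ 2)
  rw [mul_zero] at h1
  refine squeeze_zero' (Eventually.of_forall (fun n => by positivity)) ?_ h1
  filter_upwards [t0_facts k hk, eventually_gt_atTop 0] with n h2 h4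
  have hn0 : (0 : ℝ) < n := by exact_mod_cast h4
  rw [div_le_iff₀ (by positivity)]
  have := h2.2.2.2
  calc (t0 k n : ℝ) ^ 2 ≤ (k * (n * Lg n)) ^ 2 := pow_le_pow_left₀ (by positivity) this 2
    _ = (k : ℝ) ^ 2 * (Lg n ^ 2 / n) * n ^ 3 := by
      field_simp

/-- With high probability the minimum degree at time `t0 k n` is smaller than `k`. -/
theorem tau_lower (k : ℕ) (hk : 1 ≤ k) : Tendsto (fun n : ℕ =>
    prob (fun σ : Order n => MinDeg k (shown σ (t0 k n)))) atTop (𝓝 0) := by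
  obtain ⟨j, rfl⟩ : ∃ j, k = j + 1 := ⟨k - 1, by omega⟩
  set T := t0 (j + 1) with hT
  -- the two error terms
  set ρ : ℕ → ℝ := fun n => (1 + (j : ℝ) / ((T n : ℝ) - j)) ^ (2 * j) *
    (1 / (1 - 4 * ((T n : ℝ) / n ^ 2))) *
    Real.exp (16 * (j * (1 / (n : ℝ)) + 2 * ((T n : ℝ) / n ^ 2))) - 1 with hρ
  set c : ℝ := 1 / 3 * (1 / (j.factorial : ℝ)) * (1 / 16) ^ j * Real.exp (-1) with hc
  have hcpos : 0 < c := by
    rw [hc]
    have : (0 : ℝ) < (j.factorial : ℝ) := by exact_mod_cast j.factorial_pos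
    positivity
  have hρ0 : Tendsto ρ atTop (𝓝 0) := by
    have h1 : Tendsto (fun n : ℕ => (T n : ℝ) - j) atTop atTop :=
      tendsto_atTop_add_const_right _ _ (tendsto_t0 (j + 1) hk)
    have h2 : Tendsto (fun n : ℕ => (1 + (j : ℝ) / ((T n : ℝ) - j)) ^ (2 * j)) atTop
        (𝓝 ((1 + 0) ^ (2 * j))) :=
      (tendsto_const_nhds.add (tendsto_const_nhds.div_atTop h1)).pow _
    have h3 := tendsto_t0_div (j + 1) hk
    have h4 : Tendsto (fun n : ℕ => 1 / (1 - 4 * ((T n : ℝ) / (n : ℝ) ^ 2))) atTop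
        (𝓝 (1 / (1 - 4 * 0))) :=
      tendsto_const_nhds.div (tendsto_const_nhds.sub (h3.const_mul 4)) (by norm_num)
    have h5 : Tendsto (fun n : ℕ => Real.exp (16 * (j * (1 / (n : ℝ))
        + 2 * ((T n : ℝ) / (n : ℝ) ^ 2)))) atTop
        (𝓝 (Real.exp (16 * (j * 0 + 2 * 0)))) := by
      refine (Real.continuous_exp.tendsto _).comp ?_
      exact ((tendsto_one_div_atTop_nhds_zero_nat.const_mul (j : ℝ)).add
        (h3.const_mul 2)).const_mul 16
    have h6 := ((h2.mul h4).mul h5).sub_const 1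
    have e : ((1 : ℝ) + 0) ^ (2 * j) * (1 / (1 - 4 * 0)) *
        Real.exp (16 * ((j : ℝ) * 0 + 2 * 0)) - 1 = 0 := by
      simp
    rw [e] at h6
    exact h6
  have hμ : Tendsto (fun n : ℕ => 1 / (c * Real.exp (LL n / 2)) + ρ n) atTop (𝓝 0) := by
    have h1 : Tendsto (fun n : ℕ => c * Real.exp (LL n / 2)) atTop atTop := by
      apply Tendsto.const_mul_atTop hcpos
      exact Real.tendsto_exp_atTop.comp (tendsto_LL.atTop_div_const (by norm_num))
    have h2 := (tendsto_const_nhds (x := (1 : ℝ))).div_atTop h1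
    have h3 := h2.add hρ0
    rw [add_zero] at h3
    exact h3
  refine squeeze_zero' (Eventually.of_forall (fun n => prob_nonneg _)) ?_ hμ
  have e1 := (tendsto_t0_div (j + 1) hk).eventually (gt_mem_nhds (by norm_num : (0 : ℝ) < 1 / 32))
  have e2 := (tendsto_t0_sq_div (j + 1) hk).eventually
    (gt_mem_nhds (by norm_num : (0 : ℝ) < 1 / 32))
  have e3 := (tendsto_t0 (j + 1) hk).eventually (eventually_ge_atTop (8 * (j : ℝ) + 8))
  have e4 := (tendsto_Lg_pow_div 1).eventually (gt_mem_nhds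
    (by positivity : (0 : ℝ) < 1 / (64 * ((j : ℝ) + 1))))
  filter_upwards [t0_facts (j + 1) hk, e1, e2, e3, e4, eventually_ge_atTop (64 * (j + 1)),
    tendsto_Lg.eventually (eventually_ge_atTop (16 * (j : ℝ) + 16))] with n h0 h1 h2 h3 h4 h5 h6
  obtain ⟨f1, f2, f3, f4⟩ := h0
  rw [← hT] at f1 f2 f3 f4 h1 h2 h3
  have hj0 : (0 : ℝ) ≤ j := Nat.cast_nonneg j
  have hnj : 64 * ((j : ℝ) + 1) ≤ n := by exact_mod_cast h5
  have hn64 : (64 : ℝ) ≤ n := by linarith
  have hn0 : (0 : ℝ) < n := by linarith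
  have hN : (((n.choose 2 : ℕ)) : ℝ) = n * (n - 1) / 2 := Nat.cast_choose_two ℝ n
  set N := n.choose 2 with hNdef
  set t := T n with ht
  have htn2 : (t : ℝ) ≤ n ^ 2 / 32 := by
    rw [div_lt_iff₀ (by positivity)] at h1
    linarith
  have htj : 8 * (j : ℝ) + 8 ≤ t := h3
  have hNbig : (n : ℝ) ^ 2 / 4 + 2 * n + t ≤ N := by
    rw [hN]
    nlinarith only [htn2, hn64]
  have hjt : 2 * j ≤ t := by
    have : ((2 * j : ℕ) : ℝ) ≤ t := by push_cast; linarith
    exact_mod_cast this
  have htN : t + n + n ≤ N := by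
    have : ((t + n + n : ℕ) : ℝ) ≤ N := by push_cast; linarith only [hNbig, sq_nonneg (n : ℝ)]
    exact_mod_cast this
  have hnj' : j + 2 ≤ n := by omega
  -- quantities
  set D : ℕ := n - 1 - j with hD
  have hDr : (D : ℝ) = n - 1 - j := by
    rw [hD, Nat.cast_sub (by omega), Nat.cast_sub (by omega)]
    push_cast
    ring
  have hjD : j + D = n - 1 := by omega
  have hNn : (0 : ℝ) < (N : ℝ) - ((n - 1 : ℕ) : ℝ) := by
    rw [Nat.cast_sub (by omega), Nat.cast_one]
    linarith only [hNbig, sq_nonneg (n : ℝ), (Nat.cast_nonneg t : (0 : ℝ) ≤ t), hn0]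
  have hn1 : ((n - 1 : ℕ) : ℝ) = n - 1 := by
    rw [Nat.cast_sub (by omega), Nat.cast_one]
  set x : ℝ := ((t : ℝ) - j) / ((N : ℝ) - ((n - 1 : ℕ) : ℝ)) with hx
  set y : ℝ := ((t : ℝ) - ((2 * j : ℕ) : ℝ)) / N with hy
  have hNpos : (0 : ℝ) < N := by linarith only [hNbig, sq_nonneg (n : ℝ), (Nat.cast_nonneg t : (0 : ℝ) ≤ t), hn0]
  have hx0 : 0 ≤ x := by
    rw [hx]
    apply div_nonneg _ hNn.le
    linarith
  have hx1 : x ≤ 1 / 2 := by
    rw [hx, div_le_iff₀ hNn, hn1]
    linarith only [hNbig, htn2, (Nat.cast_nonneg t : (0 : ℝ) ≤ t), hn0, hj0]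
  set A : ℝ := (((t : ℝ) - j) / N) ^ j * (1 - x) ^ D with hA
  have hp1 : A ≤ pp N t (n - 1) j := by
    have := pp_ge (M := N) (s := t) (by omega) (by omega) j (by omega) D (by omega) D le_rfl
    rw [hjD] at this
    exact this
  have hA0 : 0 < A := by
    rw [hA]
    have h7 : 0 < ((t : ℝ) - j) / N := by
      apply div_pos _ hNpos
      linarith
    have h8 : 0 < 1 - x := by linarith
    positivity
  have hp2 : pp N t (2 * n - 3) (2 * j) ≤ ((t : ℝ) / N) ^ (2 * j) * (1 - y) ^ (2 * n - 3 - 2 * j) := by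
    have := pp_le (M := N) (s := t) (by omega) (by omega) (2 * j) hjt (2 * n - 3 - 2 * j)
      (by omega)
    have e : 2 * j + (2 * n - 3 - 2 * j) = 2 * n - 3 := by omega
    rw [e] at this
    exact this
  -- comparison of `x` and `y`
  have hxy : x - y ≤ 4 * (j * (1 / (n : ℝ)) + 2 * ((t : ℝ) / n ^ 2)) / n := by
    have e1 : x - y = (j * N + ((t : ℝ) - 2 * j) * (n - 1)) / (N * ((N : ℝ) - (n - 1))) := by
      rw [hx, hy, hn1]
      have h9 : (N : ℝ) - (n - 1) ≠ 0 := by rw [hn1] at hNn; exact hNn.ne'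
      push_cast
      field_simp
      ring
    rw [e1]
    have hN4 : (n : ℝ) ^ 2 / 4 ≤ (N : ℝ) - (n - 1) := by linarith only [hNbig, (Nat.cast_nonneg t : (0 : ℝ) ≤ t), hn0]
    have h10 : j * (N : ℝ) + ((t : ℝ) - 2 * j) * (n - 1) ≤ j * N + t * (n - 1) := by nlinarith only [hj0, hn64]
    have h11 : (0 : ℝ) ≤ j * (N : ℝ) + t * (n - 1) := by
      have : (0 : ℝ) ≤ (n : ℝ) - 1 := by linarith
      positivity
    calc (j * (N : ℝ) + ((t : ℝ) - 2 * j) * (n - 1)) / (N * ((N : ℝ) - (n - 1)))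
        ≤ (j * N + t * (n - 1)) / (N * ((N : ℝ) - (n - 1))) := by
          apply div_le_div_of_nonneg_right h10
          rw [hn1] at hNn
          positivity
      _ ≤ (j * N + t * (n - 1)) / (N * ((n : ℝ) ^ 2 / 4)) := by
          apply div_le_div_of_nonneg_left h11 (by positivity)
          exact mul_le_mul_of_nonneg_left hN4 hNpos.le
      _ = 4 * (j * (1 / (n : ℝ)) + 2 * ((t : ℝ) / n ^ 2)) / n := by
          have h12 : (n : ℝ) - 1 ≠ 0 := by
            have : (0 : ℝ) < (n : ℝ) - 1 := by linarith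
            exact this.ne'
          rw [hN]
          field_simp
  have hy0 : 0 ≤ y := by
    rw [hy]
    apply div_nonneg _ hNpos.le
    push_cast
    linarith
  have hy1 : y ≤ 4 * ((t : ℝ) / n ^ 2) := by
    rw [hy, div_le_iff₀ hNpos]
    push_cast
    have e1 : 4 * ((t : ℝ) / n ^ 2) * N = 2 * t * ((n - 1) / n) := by
      rw [hN]
      field_simp
      ring
    rw [e1]
    have h13 : (1 : ℝ) / 2 ≤ (n - 1) / n := by
      rw [div_le_div_iff₀ (by norm_num) hn0]
      linarith
    have h14 : (0 : ℝ) ≤ t := Nat.cast_nonneg t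
    nlinarith only [h13, h14, hj0]
  have hy2 : 4 * ((t : ℝ) / n ^ 2) ≤ 1 / 8 := by linarith
  have hratio : (1 - y) ^ (2 * n - 3 - 2 * j) ≤ (1 / (1 - 4 * ((t : ℝ) / n ^ 2))) *
      Real.exp (16 * (j * (1 / (n : ℝ)) + 2 * ((t : ℝ) / n ^ 2))) * ((1 - x) ^ D) ^ 2 := by
    have h1x : 0 < 1 - x := by linarith
    have h1y : 0 < 1 - y := by linarith
    have h15 : (1 - y) ^ (2 * D) = (1 - y) ^ (2 * n - 3 - 2 * j) * (1 - y) := by
      rw [← pow_succ]
      congr 1
      omega
    have h16 : (1 - y) ^ (2 * n - 3 - 2 * j) = (1 - y) ^ (2 * D) / (1 - y) := by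
      rw [h15]
      field_simp
    rw [h16]
    have h17 : 1 - y ≤ (1 - x) * Real.exp (2 * (x - y)) ∨ x < y := by
      by_cases hxy' : x < y
      · exact Or.inr hxy'
      · left
        push Not at hxy'
        have h18 := Real.add_one_le_exp (2 * (x - y))
        have h19 : (1 - x) * (2 * (x - y) + 1) ≤ (1 - x) * Real.exp (2 * (x - y)) :=
          mul_le_mul_of_nonneg_left h18 h1x.le
        nlinarith only [h19, hx1, hxy']
    have h20 : (1 - y) ^ (2 * D) ≤ ((1 - x) ^ D) ^ 2 *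
        Real.exp (16 * (j * (1 / (n : ℝ)) + 2 * ((t : ℝ) / n ^ 2))) := by
      have hz : 0 ≤ 16 * (j * (1 / (n : ℝ)) + 2 * ((t : ℝ) / n ^ 2)) := by positivity
      have h21 : ((1 - x) ^ D) ^ 2 = (1 - x) ^ (2 * D) := by
        rw [← pow_mul, mul_comm]
      rw [h21]
      rcases h17 with h17 | h17
      · calc (1 - y) ^ (2 * D) ≤ ((1 - x) * Real.exp (2 * (x - y))) ^ (2 * D) :=
              pow_le_pow_left₀ h1y.le h17 _
          _ = (1 - x) ^ (2 * D) * Real.exp (((2 * D : ℕ) : ℝ) * (2 * (x - y))) := by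
              rw [mul_pow, ← Real.exp_nat_mul]
          _ ≤ _ := by
              apply mul_le_mul_of_nonneg_left _ (by positivity)
              apply Real.exp_le_exp.2
              have h22 : (((2 * D : ℕ) : ℝ)) ≤ 2 * n := by
                push_cast
                rw [hDr]
                linarith
              by_cases hs : 0 ≤ x - y
              · calc (((2 * D : ℕ) : ℝ)) * (2 * (x - y)) ≤ 2 * n * (2 * (x - y)) := by
                      apply mul_le_mul_of_nonneg_right h22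
                      linarith
                  _ = 4 * n * (x - y) := by ring
                  _ ≤ 4 * n * (4 * (j * (1 / (n : ℝ)) + 2 * ((t : ℝ) / n ^ 2)) / n) :=
                      mul_le_mul_of_nonneg_left hxy (by positivity)
                  _ = 16 * (j * (1 / (n : ℝ)) + 2 * ((t : ℝ) / n ^ 2)) := by
                      field_simp
                      ring
              · push Not at hs
                have : (((2 * D : ℕ) : ℝ)) * (2 * (x - y)) ≤ 0 :=
                  mul_nonpos_of_nonneg_of_nonpos (Nat.cast_nonneg _) (by linarith)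
                linarith
      · calc (1 - y) ^ (2 * D) ≤ (1 - x) ^ (2 * D) := pow_le_pow_left₀ h1y.le (by linarith) _
          _ = (1 - x) ^ (2 * D) * 1 := by ring
          _ ≤ _ := by
            apply mul_le_mul_of_nonneg_left _ (by positivity)
            exact Real.one_le_exp hz
    rw [div_le_iff₀ h1y]
    refine h20.trans ?_
    have h23 : 1 ≤ (1 / (1 - 4 * ((t : ℝ) / n ^ 2))) * (1 - y) := by
      rw [one_div_mul_eq_div, le_div_iff₀ (by linarith)]
      linarith
    have h24 : 0 ≤ ((1 - x) ^ D) ^ 2 *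
        Real.exp (16 * (j * (1 / (n : ℝ)) + 2 * ((t : ℝ) / n ^ 2))) := by positivity
    nlinarith only [h23, h24]
  have hmain : pp N t (2 * n - 3) (2 * j) ≤ (1 + ρ n) * (pp N t (n - 1) j) ^ 2 := by
    have htjpos : (0 : ℝ) < (t : ℝ) - j := by linarith
    have e1 : (t : ℝ) / N = (1 + (j : ℝ) / ((t : ℝ) - j)) * (((t : ℝ) - j) / N) := by
      field_simp
      ring
    have h25 : ((t : ℝ) / N) ^ (2 * j) = (1 + (j : ℝ) / ((t : ℝ) - j)) ^ (2 * j) *
        ((((t : ℝ) - j) / N) ^ j) ^ 2 := by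
      rw [e1, mul_pow]
      congr 1
      rw [← pow_mul, mul_comm]
    have h26 : pp N t (2 * n - 3) (2 * j) ≤ (1 + ρ n) * A ^ 2 := by
      refine hp2.trans ?_
      rw [h25]
      have h27 : 0 ≤ (1 + (j : ℝ) / ((t : ℝ) - j)) ^ (2 * j) *
        ((((t : ℝ) - j) / N) ^ j) ^ 2 := by positivity
      refine (mul_le_mul_of_nonneg_left hratio h27).trans (le_of_eq ?_)
      rw [hρ, hA]
      simp only []
      ring
    have h28 : 0 ≤ 1 + ρ n := by
      rw [hρ]
      simp only []
      have h29 : (0 : ℝ) < 1 - 4 * ((T n : ℝ) / n ^ 2) := by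
        rw [← ht]
        linarith
      have h30 : 0 ≤ (j : ℝ) / ((T n : ℝ) - j) := div_nonneg hj0 htjpos.le
      have h31 : 0 ≤ (1 + (j : ℝ) / ((T n : ℝ) - j)) ^ (2 * j) *
        (1 / (1 - 4 * ((T n : ℝ) / n ^ 2))) *
        Real.exp (16 * (j * (1 / (n : ℝ)) + 2 * ((T n : ℝ) / n ^ 2))) := by positivity
      linarith
    refine h26.trans ?_
    apply mul_le_mul_of_nonneg_left _ h28
    exact pow_le_pow_left₀ hA0.le hp1 2
  -- lower bound for the first moment
  set μ : ℝ := ((n / 2 : ℕ) : ℝ) * (((n - n / 2).choose j : ℝ) * pp N t (n - 1) j) with hμdef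
  have hμge : c * Real.exp (LL n / 2) ≤ μ := by
    have hhalf : (n : ℝ) / 3 ≤ ((n / 2 : ℕ) : ℝ) := by
      have h32 : n ≤ 2 * (n / 2) + 1 := by omega
      have h33 : (n : ℝ) ≤ 2 * ((n / 2 : ℕ) : ℝ) + 1 := by exact_mod_cast h32
      linarith
    have hch : ((n : ℝ) / 4) ^ j / (j.factorial : ℝ) ≤ ((n - n / 2).choose j : ℝ) := by
      have h34 := Nat.pow_le_choose (α := ℝ) j (n - n / 2)
      have h35 : (0 : ℝ) < (j.factorial : ℝ) := by exact_mod_cast j.factorial_pos
      refine le_trans ?_ h34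
      apply div_le_div_of_nonneg_right _ h35.le
      apply pow_le_pow_left₀ (by positivity)
      have h36 : n ≤ 4 * (n - n / 2 + 1 - j) := by omega
      have h37 : (n : ℝ) ≤ 4 * ((n - n / 2 + 1 - j : ℕ) : ℝ) := by exact_mod_cast h36
      linarith
    have hexp : Real.exp (-(n * x / (1 - x))) ≤ (1 - x) ^ D := by
      have h1x : 0 < 1 - x := by linarith
      have h38 : Real.exp (-(x / (1 - x))) ≤ 1 - x := by
        have h39 := Real.add_one_le_exp (x / (1 - x))
        have h40 : x / (1 - x) + 1 = 1 / (1 - x) := by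
          field_simp
          ring
        rw [h40] at h39
        rw [Real.exp_neg]
        calc (Real.exp (x / (1 - x)))⁻¹ ≤ (1 / (1 - x))⁻¹ := by
              apply inv_anti₀ (by positivity) h39
          _ = 1 - x := by rw [one_div, inv_inv]
      calc Real.exp (-(n * x / (1 - x))) ≤ Real.exp (-(D * (x / (1 - x)))) := by
            apply Real.exp_le_exp.2
            apply neg_le_neg
            rw [mul_div_assoc]
            apply mul_le_mul_of_nonneg_right _ (div_nonneg hx0 h1x.le)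
            rw [hDr]
            linarith
        _ = Real.exp (-(x / (1 - x))) ^ D := by
            rw [← Real.exp_nat_mul]
            congr 1
            ring
        _ ≤ (1 - x) ^ D := pow_le_pow_left₀ (Real.exp_pos _).le h38 _
    have hxx : n * x / (1 - x) ≤ Lg n + ((j : ℝ) + 1 - 3 / 2) * LL n + 1 := by
      have h41 : n * x / (1 - x) ≤ 2 * (t : ℝ) / n + 1 := by
        have e1 : n * x / (1 - x) = n * ((t : ℝ) - j) / ((N : ℝ) - (n - 1) - ((t : ℝ) - j)) := by
          rw [hx, hn1]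
          have h42 : (N : ℝ) - (n - 1) ≠ 0 := by rw [hn1] at hNn; exact hNn.ne'
          have h43 : (N : ℝ) - (n - 1) - ((t : ℝ) - j) ≠ 0 := by
            have : 0 < (N : ℝ) - (n - 1) - ((t : ℝ) - j) := by linarith only [hNbig, sq_nonneg (n : ℝ), hn0, hj0]
            exact this.ne'
          have h44 : 1 - ((t : ℝ) - j) / ((N : ℝ) - (n - 1)) ≠ 0 := by
            rw [hx, hn1] at hx1
            have : 0 < 1 - ((t : ℝ) - j) / ((N : ℝ) - (n - 1)) := by linarith
            exact this.ne'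
          field_simp
        rw [e1, div_le_iff₀ (by linarith only [hNbig, sq_nonneg (n : ℝ), hn0, hj0])]
        have h45 : (t : ℝ) ^ 2 ≤ n ^ 3 / 32 := by
          rw [div_lt_iff₀ (by positivity)] at h2
          linarith
        have h46 : (0 : ℝ) ≤ t := Nat.cast_nonneg t
        -- `n (t - j) ≤ (2 t / n + 1) (N - (n - 1) - (t - j))`
        have h47 : (2 * (t : ℝ) / n + 1) * ((N : ℝ) - (n - 1) - ((t : ℝ) - j))
            ≥ (2 * (t : ℝ) / n + 1) * ((n : ℝ) ^ 2 / 2 - 3 / 2 * n - t) := by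
          apply mul_le_mul_of_nonneg_left _ (by positivity)
          rw [hN]
          nlinarith only [hj0]
        have h48 : (2 * (t : ℝ) / n + 1) * ((n : ℝ) ^ 2 / 2 - 3 / 2 * n - t)
            = n * t - 3 * t - 2 * t ^ 2 / n + (n ^ 2 / 2 - 3 / 2 * n - t) := by
          field_simp

        have h49 : 2 * (t : ℝ) ^ 2 / n ≤ n ^ 2 / 16 := by
          rw [div_le_iff₀ hn0]
          nlinarith only [h45]
        nlinarith only [h47, h48, h49, htn2, hn64, mul_nonneg hn0.le hj0]
      have h50 := f1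
      push_cast at h50
      linarith
    have h51 : (1 / 16 : ℝ) ^ j * Real.exp (j * LL n) ≤ ((n : ℝ) / 4) ^ j *
        (((t : ℝ) - j) / N) ^ j := by
      rw [← mul_pow]
      have hLpos : 0 < Lg n := by linarith
      have h52 : Real.exp (j * LL n) = Lg n ^ j := by
        rw [Real.exp_nat_mul]
        congr 1
        unfold LL
        exact Real.exp_log hLpos
      rw [h52, ← mul_pow]
      apply pow_le_pow_left₀ (by positivity)
      have h53 : (n : ℝ) / 4 * (((t : ℝ) - j) / N) = ((t : ℝ) - j) / (2 * (n - 1)) := by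
        rw [hN]
        have h12 : (n : ℝ) - 1 ≠ 0 := by
          have : (0 : ℝ) < (n : ℝ) - 1 := by linarith
          exact this.ne'
        field_simp
        ring
      rw [h53, le_div_iff₀ (by linarith)]
      have h54 : Lg n / 4 * n ≤ t := by
        rw [le_div_iff₀ hn0] at f3
        linarith
      nlinarith only [h54, hLpos, htj, hj0, hn0]
    have h55 : Real.exp (-1) * Real.exp (LL n / 2) ≤ n * (Real.exp (j * LL n) *
        Real.exp (-(n * x / (1 - x)))) := by
      have h56 : (n : ℝ) = Real.exp (Lg n) := (Real.exp_log hn0).symm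
      have h57 : (n : ℝ) * (Real.exp (j * LL n) * Real.exp (-(n * x / (1 - x))))
          = Real.exp (Lg n + j * LL n - n * x / (1 - x)) := by
        conv_lhs => rw [h56]
        rw [← Real.exp_add, ← Real.exp_add]
        congr 1
        rw [← h56]
        ring
      rw [h57, ← Real.exp_add]
      apply Real.exp_le_exp.2
      linarith
    have hfac : (0 : ℝ) < (j.factorial : ℝ) := by exact_mod_cast j.factorial_pos
    calc c * Real.exp (LL n / 2)
        = 1 / 3 * (1 / (j.factorial : ℝ)) * (1 / 16) ^ j * (Real.exp (-1) *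
          Real.exp (LL n / 2)) := by rw [hc]; ring
      _ ≤ 1 / 3 * (1 / (j.factorial : ℝ)) * (1 / 16) ^ j * (n * (Real.exp (j * LL n) *
        Real.exp (-(n * x / (1 - x))))) := mul_le_mul_of_nonneg_left h55 (by positivity)
      _ = (n / 3) * (1 / (j.factorial : ℝ)) * ((1 / 16) ^ j * Real.exp (j * LL n)) *
          Real.exp (-(n * x / (1 - x))) := by ring
      _ ≤ (n / 3) * (1 / (j.factorial : ℝ)) * (((n : ℝ) / 4) ^ j *
        (((t : ℝ) - j) / N) ^ j) * Real.exp (-(n * x / (1 - x))) := by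
          apply mul_le_mul_of_nonneg_right _ (Real.exp_pos _).le
          exact mul_le_mul_of_nonneg_left h51 (by positivity)
      _ = (n / 3) * ((((n : ℝ) / 4) ^ j / (j.factorial : ℝ)) * ((((t : ℝ) - j) / N) ^ j *
          Real.exp (-(n * x / (1 - x))))) := by ring
      _ ≤ ((n / 2 : ℕ) : ℝ) * (((n - n / 2).choose j : ℝ) * A) := by
          rw [hA]
          have h58 : 0 ≤ (((t : ℝ) - j) / N) ^ j := by
            apply pow_nonneg
            apply div_nonneg _ hNpos.le
            linarith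
          gcongr
      _ ≤ μ := by
          rw [hμdef]
          gcongr
  have hμpos : 0 < μ := lt_of_lt_of_le (by positivity) hμge
  have hfin := no_low_prob (n := n) j t hjt (by omega) (by omega) μ hμdef hμpos (ρ n) hmain
  refine hfin.trans ?_
  have h60 : 1 / μ ≤ 1 / (c * Real.exp (LL n / 2)) :=
    one_div_le_one_div_of_le (by positivity) hμge
  linarith

end Pool.Agent.Work.MP_59e60d_pr
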