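import Pool.Agent.Work.MP_59e60d_pr.ExpGen

/-!
# The set of the first `t` edges is a uniformly random `t`-set
-/

namespace Pool.Agent.Work.MP_59e60d_pr

open Finset Filter Topology

variable {n : ℕ}

theorem shown_swap (σ : Order n) (t : ℕ) (a b : Edge n) :
    shown (σ.trans (Equiv.swap a b)) t = (shown σ t).map (Equiv.swap a b).toEmbedding := by
  ext e
  rw [Finset.mem_map_equiv, Equiv.symm_swap, mem_shown, mem_shown, Equiv.symm_trans_apply,
    Equiv.symm_swap]

theorem map_swap_swap (G : Finset (Edge n)) (a b : Edge n) :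
    (G.map (Equiv.swap a b).toEmbedding).map (Equiv.swap a b).toEmbedding = G := by
  ext e
  rw [Finset.mem_map_equiv, Finset.mem_map_equiv, Equiv.symm_swap, Equiv.swap_apply_self]

theorem count_shown_swap (t : ℕ) (G : Finset (Edge n)) (a b : Edge n) :
    (univ.filter (fun σ : Order n => shown σ t = G)).card
      = (univ.filter (fun σ : Order n =>
          shown σ t = G.map (Equiv.swap a b).toEmbedding)).card := by
  refine Finset.card_bij' (fun σ _ => σ.trans (Equiv.swap a b))
    (fun σ _ => σ.trans (Equiv.swap a b)) ?_ ?_ ?_ ?_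
  · intro σ hσ
    rw [Finset.mem_filter] at hσ ⊢
    refine ⟨Finset.mem_univ _, ?_⟩
    rw [shown_swap, hσ.2]
  · intro σ hσ
    rw [Finset.mem_filter] at hσ ⊢
    refine ⟨Finset.mem_univ _, ?_⟩
    rw [shown_swap, hσ.2, map_swap_swap]
  · intro σ _
    ext x
    simp
  · intro σ _
    ext x
    simp

theorem count_shown_eq (t m : ℕ) : ∀ G G' : Finset (Edge n), G.card = G'.card →
    (G \ G').card = m → (univ.filter (fun σ : Order n => shown σ t = G)).card
      = (univ.filter (fun σ : Order n => shown σ t = G')).card := by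
  induction m with
  | zero =>
    intro G G' hc hm
    have h1 : G ⊆ G' := by
      rw [Finset.card_eq_zero, Finset.sdiff_eq_empty_iff_subset] at hm
      exact hm
    rw [Finset.eq_of_subset_of_card_le h1 hc.ge]
  | succ m ih =>
    intro T T' hc hm
    have h1 : (T \ T').Nonempty := by rw [← Finset.card_pos]; omega
    have h2 : (T' \ T).Nonempty := by
      rw [← Finset.card_pos]
      have h3 := Finset.card_sdiff_add_card_inter T T'
      have h4 := Finset.card_sdiff_add_card_inter T' T
      rw [Finset.inter_comm T' T] at h4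
      omega
    obtain ⟨a, ha⟩ := h1
    obtain ⟨b, hb⟩ := h2
    rw [Finset.mem_sdiff] at ha hb
    have hmap : T.map (Equiv.swap a b).toEmbedding = insert b (T.erase a) := by
      ext y
      rw [Finset.mem_map_equiv, Equiv.symm_swap, Finset.mem_insert, Finset.mem_erase]
      by_cases hya : y = a
      · subst hya
        rw [Equiv.swap_apply_left]
        have hne : y ≠ b := fun h => hb.2 (h ▸ ha.1)
        simp [hb.2, hne]
      · by_cases hyb : y = b
        · subst hyb
          rw [Equiv.swap_apply_right]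
          simp [ha.1]
        · rw [Equiv.swap_apply_of_ne_of_ne hya hyb]
          simp [hya, hyb]
    rw [count_shown_swap t T a b, hmap]
    refine ih _ _ ?_ ?_
    · rw [Finset.card_insert_of_notMem (fun h => hb.2 (Finset.mem_of_mem_erase h)),
        Finset.card_erase_of_mem ha.1]
      have : 0 < T.card := Finset.card_pos.2 ⟨a, ha.1⟩
      omega
    · have e : insert b (T.erase a) \ T' = (T \ T').erase a := by
        ext y
        simp only [Finset.mem_sdiff, Finset.mem_insert, Finset.mem_erase]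
        constructor
        · rintro ⟨h | h, h'⟩
          · subst h; exact absurd hb.1 h'
          · exact ⟨h.1, h.2, h'⟩
        · rintro ⟨h1, h2, h3⟩
          exact ⟨Or.inr ⟨h1, h2⟩, h3⟩
      rw [e, Finset.card_erase_of_mem (Finset.mem_sdiff.2 ha), hm]
      omega

theorem card_edges : Fintype.card (Edge n) = n.choose 2 := by
  rw [Sym2.card_subtype_not_diag]
  simp

theorem card_shown (σ : Order n) (t : ℕ) (ht : t ≤ n.choose 2) : (shown σ t).card = t := by
  have h1 : (univ.filter (fun p : Fin (n.choose 2) => (p : ℕ) < t)).card = t := by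
    rw [Fin.card_filter_val_lt]
    exact min_eq_right ht
  refine Eq.trans ?_ h1
  refine Finset.card_bij' (fun e _ => σ.symm e) (fun p _ => σ p) ?_ ?_ ?_ ?_
  · intro e he
    rw [Finset.mem_filter]
    exact ⟨Finset.mem_univ _, mem_shown.1 he⟩
  · intro p hp
    rw [mem_shown, Equiv.symm_apply_apply]
    exact (Finset.mem_filter.1 hp).2
  · intro e _
    simp
  · intro p _
    simp

theorem count_shown (t : ℕ) (ht : t ≤ n.choose 2) (G : Finset (Edge n)) (hG : G.card = t) :
    (univ.filter (fun σ : Order n => shown σ t = G)).card * (n.choose 2).choose t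
      = Fintype.card (Order n) := by
  have h1 := Finset.card_eq_sum_card_fiberwise (s := (univ : Finset (Order n)))
    (t := (univ : Finset (Edge n)).powersetCard t) (f := fun σ => shown σ t) (by
      intro σ _
      rw [Finset.mem_coe, Finset.mem_powersetCard]
      exact ⟨Finset.subset_univ _, card_shown σ t ht⟩)
  rw [Finset.card_univ] at h1
  rw [h1]
  have h2 : ∀ G' ∈ (univ : Finset (Edge n)).powersetCard t,
      (univ.filter (fun σ : Order n => shown σ t = G')).card
        = (univ.filter (fun σ : Order n => shown σ t = G)).card := by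
    intro G' hG'
    exact count_shown_eq t _ G' G (by rw [(Finset.mem_powersetCard.1 hG').2, hG]) rfl
  rw [Finset.sum_congr rfl h2, Finset.sum_const, Finset.card_powersetCard, Finset.card_univ,
    card_edges, smul_eq_mul, mul_comm]

theorem count_sets (B R : Finset (Edge n)) (hR : R ⊆ B) (t : ℕ) (hRt : R.card ≤ t) :
    (((univ : Finset (Edge n)).powersetCard t).filter (fun G => G ∩ B = R)).card
      = (n.choose 2 - B.card).choose (t - R.card) := by
  have h1 : ((Bᶜ).powersetCard (t - R.card)).card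
      = (n.choose 2 - B.card).choose (t - R.card) := by
    rw [Finset.card_powersetCard, Finset.card_compl, card_edges]
  rw [← h1]
  refine Finset.card_bij' (fun G _ => G \ B) (fun H _ => R ∪ H) ?_ ?_ ?_ ?_
  · intro G hG
    rw [Finset.mem_filter, Finset.mem_powersetCard] at hG
    rw [Finset.mem_powersetCard]
    refine ⟨fun e he => ?_, ?_⟩
    · rw [Finset.mem_compl]
      exact (Finset.mem_sdiff.1 he).2
    · have h2 := Finset.card_sdiff_add_card_inter G B
      rw [hG.2] at h2
      omega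
  · intro H hH
    rw [Finset.mem_powersetCard] at hH
    rw [Finset.mem_filter, Finset.mem_powersetCard]
    have hdisj : Disjoint R H := by
      rw [Finset.disjoint_left]
      intro e he he'
      have := hH.1 he'
      rw [Finset.mem_compl] at this
      exact this (hR he)
    refine ⟨⟨Finset.subset_univ _, ?_⟩, ?_⟩
    · rw [Finset.card_union_of_disjoint hdisj, hH.2]
      omega
    · ext e
      rw [Finset.mem_inter, Finset.mem_union]
      constructor
      · rintro ⟨h | h, h'⟩
        · exact h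
        · have := hH.1 h
          rw [Finset.mem_compl] at this
          exact absurd h' this
      · intro h
        exact ⟨Or.inl h, hR h⟩
  · intro G hG
    rw [Finset.mem_filter] at hG
    show R ∪ G \ B = G
    rw [← hG.2]
    ext e
    rw [Finset.mem_union, Finset.mem_inter, Finset.mem_sdiff]
    tauto
  · intro H hH
    rw [Finset.mem_powersetCard] at hH
    show (R ∪ H) \ B = H
    ext e
    rw [Finset.mem_sdiff, Finset.mem_union]
    constructor
    · rintro ⟨h | h, h'⟩
      · exact absurd (hR h) h'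
      · exact h
    · intro h
      have := hH.1 h
      rw [Finset.mem_compl] at this
      exact ⟨Or.inr h, this⟩

/-- The probability that the first `t` edges meet a set of size `r` in a given set of size `j`. -/
noncomputable def pp (M s r j : ℕ) : ℝ := ((M - r).choose (s - j) : ℝ) / (M.choose s : ℝ)

theorem prob_inter (B R : Finset (Edge n)) (hR : R ⊆ B) (t : ℕ) (hRt : R.card ≤ t)
    (ht : t ≤ n.choose 2) :
    prob (fun σ : Order n => shown σ t ∩ B = R) = pp (n.choose 2) t B.card R.card := by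
  have hc := card_pos' (n := n)
  have h1 : (univ.filter (fun σ : Order n => shown σ t ∩ B = R)).card
      = ∑ G ∈ ((univ : Finset (Edge n)).powersetCard t).filter (fun G => G ∩ B = R),
        (univ.filter (fun σ : Order n => shown σ t = G)).card := by
    have h2 := Finset.card_eq_sum_card_fiberwise
      (s := univ.filter (fun σ : Order n => shown σ t ∩ B = R))
      (t := ((univ : Finset (Edge n)).powersetCard t).filter (fun G => G ∩ B = R))
      (f := fun σ => shown σ t) (by
        intro σ hσ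
        have hσ' := (Finset.mem_filter.1 (Finset.mem_coe.1 hσ)).2
        rw [Finset.mem_coe, Finset.mem_filter, Finset.mem_powersetCard]
        exact ⟨⟨Finset.subset_univ _, card_shown σ t ht⟩, hσ'⟩)
    rw [h2]
    refine Finset.sum_congr rfl (fun G hG => ?_)
    congr 1
    ext σ
    rw [Finset.mem_filter, Finset.mem_filter, Finset.mem_filter]
    constructor
    · rintro ⟨_, h⟩
      exact ⟨Finset.mem_univ _, h⟩
    · rintro ⟨_, h⟩
      refine ⟨⟨Finset.mem_univ _, ?_⟩, h⟩
      rw [h]
      exact (Finset.mem_filter.1 hG).2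
  have hch : ((((n.choose 2).choose t : ℕ)) : ℝ) ≠ 0 := by
    exact_mod_cast (Nat.choose_pos ht).ne'
  have h3 : ∀ G ∈ ((univ : Finset (Edge n)).powersetCard t).filter (fun G => G ∩ B = R),
      ((univ.filter (fun σ : Order n => shown σ t = G)).card : ℝ)
        = (Fintype.card (Order n) : ℝ) / (((n.choose 2).choose t : ℕ) : ℝ) := by
    intro G hG
    rw [Finset.mem_filter, Finset.mem_powersetCard] at hG
    rw [eq_div_iff hch]
    exact_mod_cast count_shown t ht G hG.1.2
  rw [prob_def', h1, Nat.cast_sum, Finset.sum_congr rfl h3, Finset.sum_const, nsmul_eq_mul,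
    count_sets B R hR t hRt]
  unfold pp
  field_simp

/-! ### Bounds for `pp` -/

theorem choose_down_both {M s : ℕ} (hM : 1 ≤ M) (hs : 1 ≤ s) :
    ((M - 1).choose (s - 1) : ℝ) = (M.choose s : ℝ) * (s / M) := by
  obtain ⟨M', rfl⟩ : ∃ M', M = M' + 1 := ⟨M - 1, by omega⟩
  obtain ⟨s', rfl⟩ : ∃ s', s = s' + 1 := ⟨s - 1, by omega⟩
  have h := Nat.add_one_mul_choose_eq M' s'
  have h' : ((M' : ℝ) + 1) * (M'.choose s' : ℝ) = ((M' + 1).choose (s' + 1) : ℝ) * (s' + 1) := by
    exact_mod_cast h
  have hne : (M' : ℝ) + 1 ≠ 0 := by positivity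
  rw [Nat.add_sub_cancel, Nat.add_sub_cancel]
  push_cast
  field_simp
  linarith

theorem choose_down_top {M s : ℕ} (hM : 1 ≤ M) (hs : s ≤ M) :
    ((M - 1).choose s : ℝ) = (M.choose s : ℝ) * (1 - s / M) := by
  obtain ⟨M', rfl⟩ : ∃ M', M = M' + 1 := ⟨M - 1, by omega⟩
  have h := Nat.choose_mul_succ_eq M' s
  have h' : (M'.choose s : ℝ) * ((M' : ℝ) + 1) = ((M' + 1).choose s : ℝ) * ((M' : ℝ) + 1 - s) := by
    have h2 : ((M' + 1 - s : ℕ) : ℝ) = (M' : ℝ) + 1 - s := by
      rw [Nat.cast_sub hs]
      push_cast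
      ring
    rw [← h2]
    exact_mod_cast h
  have hne : (M' : ℝ) + 1 ≠ 0 := by positivity
  rw [Nat.add_sub_cancel]
  push_cast
  field_simp
  linarith

theorem pp_succ_both {M s j : ℕ} (hs : s ≤ M) (hj : j < s) :
    pp M s (j + 1) (j + 1) = pp M s j j * (((s : ℝ) - j) / ((M : ℝ) - j)) := by
  unfold pp
  have h := choose_down_both (M := M - j) (s := s - j) (by omega) (by omega)
  rw [Nat.cast_sub (by omega : j ≤ s), Nat.cast_sub (by omega : j ≤ M)] at h
  rw [Nat.sub_sub, Nat.sub_sub] at h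
  rw [h]
  ring

theorem pp_succ_left {M s r j : ℕ} (hr : r < M) (hsr : s - j ≤ M - r) (hj : j ≤ s) :
    pp M s (r + 1) j = pp M s r j * (1 - ((s : ℝ) - j) / ((M : ℝ) - r)) := by
  unfold pp
  have h := choose_down_top (M := M - r) (s := s - j) (by omega) hsr
  rw [Nat.cast_sub hj, Nat.cast_sub hr.le] at h
  rw [Nat.sub_sub] at h
  rw [h]
  ring

theorem pp_zero {M s : ℕ} (hs : s ≤ M) : pp M s 0 0 = 1 := by
  unfold pp
  rw [Nat.sub_zero, Nat.sub_zero]
  exact div_self (by exact_mod_cast (Nat.choose_pos hs).ne')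

theorem pp_nonneg (M s r j : ℕ) : 0 ≤ pp M s r j := by
  unfold pp
  positivity

theorem pp_diag_le {M s : ℕ} (hs : s ≤ M) (hM : 1 ≤ M) (j : ℕ) (hj : j ≤ s) :
    pp M s j j ≤ ((s : ℝ) / M) ^ j := by
  induction j with
  | zero => rw [pp_zero hs, pow_zero]
  | succ j ih =>
    rw [pp_succ_both hs (by omega), pow_succ]
    have hM' : (0 : ℝ) < M := by exact_mod_cast hM
    have hMj : (0 : ℝ) < (M : ℝ) - j := by
      have : (j : ℝ) < M := by exact_mod_cast (by omega : j < M)
      linarith
    have hsj : (0 : ℝ) ≤ (s : ℝ) - j := by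
      have : (j : ℝ) ≤ s := by exact_mod_cast (by omega : j ≤ s)
      linarith
    have hsM : (s : ℝ) ≤ M := by exact_mod_cast hs
    apply mul_le_mul (ih (by omega)) _ (by positivity) (by positivity)
    rw [div_le_div_iff₀ hMj hM']
    nlinarith [(Nat.cast_nonneg j : (0 : ℝ) ≤ j)]

theorem pp_diag_ge {M s : ℕ} (hs : s ≤ M) (hM : 1 ≤ M) (J : ℕ) (hJ : J ≤ s) (j : ℕ)
    (hj : j ≤ J) : (((s : ℝ) - J) / M) ^ j ≤ pp M s j j := by
  have hM' : (0 : ℝ) < M := by exact_mod_cast hM
  have hsJ : (0 : ℝ) ≤ (s : ℝ) - J := by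
    have : (J : ℝ) ≤ s := by exact_mod_cast hJ
    linarith
  induction j with
  | zero => rw [pp_zero hs, pow_zero]
  | succ j ih =>
    rw [pp_succ_both hs (by omega), pow_succ]
    have hMj : (0 : ℝ) < (M : ℝ) - j := by
      have : (j : ℝ) < M := by exact_mod_cast (by omega : j < M)
      linarith
    have hjJ : (j : ℝ) ≤ J := by exact_mod_cast (by omega : j ≤ J)
    apply mul_le_mul (ih (by omega)) _ (by positivity) (pp_nonneg _ _ _ _)
    rw [div_le_div_iff₀ hM' hMj]
    nlinarith [(Nat.cast_nonneg j : (0 : ℝ) ≤ j)]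

theorem pp_le {M s : ℕ} (hs : s ≤ M) (hM : 1 ≤ M) (j : ℕ) (hj : j ≤ s) (d : ℕ)
    (hd : s + d ≤ M) :
    pp M s (j + d) j ≤ ((s : ℝ) / M) ^ j * (1 - ((s : ℝ) - j) / M) ^ d := by
  have hM' : (0 : ℝ) < M := by exact_mod_cast hM
  have hsj : (0 : ℝ) ≤ (s : ℝ) - j := by
    have : (j : ℝ) ≤ s := by exact_mod_cast hj
    linarith
  have hsM : (s : ℝ) ≤ M := by exact_mod_cast hs
  have hfac : 0 ≤ 1 - ((s : ℝ) - j) / M := by
    rw [sub_nonneg, div_le_one hM']
    linarith [(Nat.cast_nonneg j : (0 : ℝ) ≤ j)]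
  induction d with
  | zero => simpa using pp_diag_le hs hM j hj
  | succ d ih =>
    rw [← Nat.add_assoc, pp_succ_left (by omega) (by omega) hj, pow_succ, ← mul_assoc]
    have hMr : (0 : ℝ) < (M : ℝ) - ((j + d : ℕ) : ℝ) := by
      have : ((j + d : ℕ) : ℝ) < M := by exact_mod_cast (by omega : j + d < M)
      linarith
    have h1 : (0 : ℝ) ≤ 1 - ((s : ℝ) - j) / ((M : ℝ) - ((j + d : ℕ) : ℝ)) := by
      rw [sub_nonneg, div_le_one hMr]
      have : ((s + d : ℕ) : ℝ) ≤ M := by exact_mod_cast (by omega : s + d ≤ M)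
      push_cast at this ⊢
      linarith
    apply mul_le_mul (ih (by omega)) _ h1 (by positivity)
    have : ((s : ℝ) - j) / M ≤ ((s : ℝ) - j) / ((M : ℝ) - ((j + d : ℕ) : ℝ)) := by
      apply div_le_div_of_nonneg_left hsj hMr
      linarith [(Nat.cast_nonneg (j + d) : (0 : ℝ) ≤ ((j + d : ℕ) : ℝ))]
    linarith

theorem pp_ge {M s : ℕ} (hs : s ≤ M) (hM : 1 ≤ M) (j : ℕ) (hj : j ≤ s) (D : ℕ)
    (hD : s + D + 1 ≤ M) (d : ℕ) (hdD : d ≤ D) :
    (((s : ℝ) - j) / M) ^ j * (1 - ((s : ℝ) - j) / ((M : ℝ) - ((j + D : ℕ) : ℝ))) ^ d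
      ≤ pp M s (j + d) j := by
  have hM' : (0 : ℝ) < M := by exact_mod_cast hM
  have hsj : (0 : ℝ) ≤ (s : ℝ) - j := by
    have : (j : ℝ) ≤ s := by exact_mod_cast hj
    linarith
  have hMD : (0 : ℝ) < (M : ℝ) - ((j + D : ℕ) : ℝ) := by
    have : ((j + D : ℕ) : ℝ) < M := by exact_mod_cast (by omega : j + D < M)
    linarith
  have hfac : 0 ≤ 1 - ((s : ℝ) - j) / ((M : ℝ) - ((j + D : ℕ) : ℝ)) := by
    rw [sub_nonneg, div_le_one hMD]
    have : ((s + D : ℕ) : ℝ) ≤ M := by exact_mod_cast (by omega : s + D ≤ M)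
    push_cast at this ⊢
    linarith
  induction d with
  | zero => simpa using pp_diag_ge hs hM j hj j le_rfl
  | succ d ih =>
    rw [← Nat.add_assoc, pp_succ_left (by omega) (by omega) hj, pow_succ, ← mul_assoc]
    have hMr : (0 : ℝ) < (M : ℝ) - ((j + d : ℕ) : ℝ) := by
      have : ((j + d : ℕ) : ℝ) < M := by exact_mod_cast (by omega : j + d < M)
      linarith
    apply mul_le_mul (ih (by omega)) _ hfac (pp_nonneg _ _ _ _)
    have : ((s : ℝ) - j) / ((M : ℝ) - ((j + d : ℕ) : ℝ))
        ≤ ((s : ℝ) - j) / ((M : ℝ) - ((j + D : ℕ) : ℝ)) := by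
      apply div_le_div_of_nonneg_left hsj hMD
      have : ((j + d : ℕ) : ℝ) ≤ ((j + D : ℕ) : ℝ) := by exact_mod_cast (by omega : j + d ≤ j + D)
      linarith
    linarith

/-! ### Second moment for the number of vertices of degree `k - 1` -/

/-- Some half of the vertices. -/
def half (n : ℕ) : Finset (Fin n) := univ.filter (fun v => (v : ℕ) < n / 2)

theorem card_half (n : ℕ) : (half n).card = n / 2 := by
  unfold half
  rw [Fin.card_filter_val_lt]
  omega

/-- The sets of `j` edges joining `v` to the complement of `half n`. -/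
def fam (j : ℕ) (v : Fin n) : Finset (Finset (Edge n)) :=
  (SS v ((half n).erase v)).powersetCard j

theorem card_fam (j : ℕ) (v : Fin n) (hv : v ∈ half n) :
    (fam j v).card = (n - n / 2).choose j := by
  unfold fam
  rw [Finset.card_powersetCard, card_SS _ _ (by simp), Finset.card_erase_of_mem hv, card_half]
  congr 1
  have h1 : 0 < (half n).card := Finset.card_pos.2 ⟨v, hv⟩
  rw [card_half] at h1
  omega

/-- `v` has exactly `j` neighbours in `G_t`, and none of them is in `half n`. -/
noncomputable def xv (j t : ℕ) (v : Fin n) (σ : Order n) : ℝ :=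
  if shown σ t ∩ star v ∈ fam j v then 1 else 0

theorem fam_subset {j : ℕ} {v : Fin n} {S : Finset (Edge n)} (hS : S ∈ fam j v) :
    S ⊆ star v ∧ S.card = j ∧ ∀ u ∈ half n, u ≠ v → Disjoint S (star u) := by
  unfold fam at hS
  rw [Finset.mem_powersetCard] at hS
  refine ⟨fun e he => ?_, hS.2, fun u hu huv => ?_⟩
  · have := (mem_SS.1 (hS.1 he)).1
    simp [star, this]
  · rw [Finset.disjoint_left]
    intro e he he'
    exact (mem_SS.1 (hS.1 he)).2 u (Finset.mem_erase.2 ⟨huv, hu⟩) (Finset.mem_filter.1 he').2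

theorem ex_sum {ι : Type*} (s : Finset ι) (f : ι → Order n → ℝ) :
    ex (fun σ => ∑ i ∈ s, f i σ) = ∑ i ∈ s, ex (f i) := by
  unfold ex
  rw [Finset.sum_comm, Finset.sum_div]

theorem prob_eq_ex' (A : Order n → Prop) [DecidablePred A] :
    prob A = ex (fun σ => if A σ then 1 else 0) := by
  rw [prob_def']
  unfold ex
  rw [Finset.sum_boole]

theorem ex_xv (j t : ℕ) (v : Fin n) (hv : v ∈ half n) (hjt : j ≤ t) (ht : t ≤ n.choose 2) :
    ex (xv j t v) = ((n - n / 2).choose j : ℝ) * pp (n.choose 2) t (n - 1) j := by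
  have h1 : ∀ σ : Order n, xv j t v σ = ∑ S ∈ fam j v,
      (if shown σ t ∩ star v = S then (1 : ℝ) else 0) := by
    intro σ
    unfold xv
    rw [Finset.sum_ite_eq]
  have h2 : ex (xv j t v) = ∑ S ∈ fam j v, prob (fun σ : Order n => shown σ t ∩ star v = S) := by
    have : xv j t v = fun σ => ∑ S ∈ fam j v,
      (if shown σ t ∩ star v = S then (1 : ℝ) else 0) := funext h1
    rw [this, ex_sum]
    refine Finset.sum_congr rfl (fun S _ => ?_)
    rw [prob_eq_ex']
  rw [h2]
  have h3 : ∀ S ∈ fam j v, prob (fun σ : Order n => shown σ t ∩ star v = S)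
      = pp (n.choose 2) t (n - 1) j := by
    intro S hS
    obtain ⟨hS1, hS2, _⟩ := fam_subset hS
    rw [prob_inter (star v) S hS1 t (by omega) ht, card_star, hS2]
  rw [Finset.sum_congr rfl h3, Finset.sum_const, card_fam j v hv, nsmul_eq_mul]

theorem ex_xv_xv (j t : ℕ) (v u : Fin n) (hv : v ∈ half n) (hu : u ∈ half n) (huv : u ≠ v)
    (hjt : 2 * j ≤ t) (ht : t ≤ n.choose 2) (hn : 2 ≤ n) :
    ex (fun σ => xv j t v σ * xv j t u σ)
      = ((n - n / 2).choose j : ℝ) ^ 2 * pp (n.choose 2) t (2 * n - 3) (2 * j) := by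
  have h1 : ∀ σ : Order n, xv j t v σ * xv j t u σ = ∑ S ∈ fam j v, ∑ T ∈ fam j u,
      (if shown σ t ∩ star v = S ∧ shown σ t ∩ star u = T then (1 : ℝ) else 0) := by
    intro σ
    have e1 : xv j t v σ = ∑ S ∈ fam j v,
        (if shown σ t ∩ star v = S then (1 : ℝ) else 0) := by
      unfold xv
      rw [Finset.sum_ite_eq]
    have e2 : xv j t u σ = ∑ S ∈ fam j u,
        (if shown σ t ∩ star u = S then (1 : ℝ) else 0) := by
      unfold xv
      rw [Finset.sum_ite_eq]
    rw [e1, e2, Finset.sum_mul_sum]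
    refine Finset.sum_congr rfl (fun S _ => Finset.sum_congr rfl (fun T _ => ?_))
    by_cases h1 : shown σ t ∩ star v = S <;> by_cases h2 : shown σ t ∩ star u = T <;>
      simp [h1, h2]
  have h2 : ex (fun σ => xv j t v σ * xv j t u σ) = ∑ S ∈ fam j v, ∑ T ∈ fam j u,
      prob (fun σ : Order n => shown σ t ∩ star v = S ∧ shown σ t ∩ star u = T) := by
    have : (fun σ : Order n => xv j t v σ * xv j t u σ) = fun σ => ∑ S ∈ fam j v, ∑ T ∈ fam j u,
      (if shown σ t ∩ star v = S ∧ shown σ t ∩ star u = T then (1 : ℝ) else 0) := funext h1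
    rw [this, ex_sum]
    refine Finset.sum_congr rfl (fun S _ => ?_)
    rw [ex_sum]
    refine Finset.sum_congr rfl (fun T _ => ?_)
    rw [prob_eq_ex']
  rw [h2]
  have hcard : (star v ∪ star u).card = 2 * n - 3 := by
    have e : star v ∪ star u = TT {v, u} := by
      ext e
      rw [mem_TT, Finset.mem_union]
      simp [star]
    rw [e]
    have h3 := card_TT ({v, u} : Finset (Fin n))
    rw [Finset.card_pair huv.symm] at h3
    rw [Nat.choose_two_right, Nat.choose_two_right] at h3
    obtain ⟨n', rfl⟩ : ∃ n', n = n' + 2 := ⟨n - 2, by omega⟩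
    have e1 : n' + 2 - 2 = n' := by omega
    have e2 : n' + 2 - 1 = n' + 1 := by omega
    rw [e1, e2] at h3
    have h4 : (n' + 2) * (n' + 1) = n' * (n' - 1) + 2 * (2 * n' + 1) := by
      rcases Nat.eq_zero_or_pos n' with h | h
      · subst h; rfl
      · obtain ⟨m, rfl⟩ : ∃ m, n' = m + 1 := ⟨n' - 1, by omega⟩
        rw [Nat.add_sub_cancel]
        ring
    rw [h4] at h3
    have h5 : (n' * (n' - 1) + 2 * (2 * n' + 1)) / 2 = n' * (n' - 1) / 2 + (2 * n' + 1) := by
      omega
    rw [h5] at h3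
    omega
  have h3 : ∀ S ∈ fam j v, ∀ T ∈ fam j u,
      prob (fun σ : Order n => shown σ t ∩ star v = S ∧ shown σ t ∩ star u = T)
      = pp (n.choose 2) t (2 * n - 3) (2 * j) := by
    intro S hS T hT
    obtain ⟨hS1, hS2, hS3⟩ := fam_subset hS
    obtain ⟨hT1, hT2, hT3⟩ := fam_subset hT
    have hSu := hS3 u hu huv
    have hTv := hT3 v hv huv.symm
    have hdisj : Disjoint S T := Disjoint.mono_right hT1 hSu
    have hST : (S ∪ T).card = 2 * j := by
      rw [Finset.card_union_of_disjoint hdisj, hS2, hT2]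
      ring
    have h4 := prob_inter (star v ∪ star u) (S ∪ T) (Finset.union_subset_union hS1 hT1) t
      (by omega) ht
    rw [hcard, hST] at h4
    rw [← h4]
    congr 1
    funext σ
    apply propext
    constructor
    · rintro ⟨h5, h6⟩
      rw [Finset.inter_union_distrib_left, h5, h6]
    · intro h5
      constructor
      · have h6 : shown σ t ∩ star v = (shown σ t ∩ (star v ∪ star u)) ∩ star v := by
          ext e
          simp only [Finset.mem_inter, Finset.mem_union]
          tauto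
        rw [h6, h5]
        ext e
        rw [Finset.mem_inter, Finset.mem_union]
        constructor
        · rintro ⟨h | h, h'⟩
          · exact h
          · exact absurd h' (Finset.disjoint_left.1 hTv h)
        · intro h
          exact ⟨Or.inl h, hS1 h⟩
      · have h6 : shown σ t ∩ star u = (shown σ t ∩ (star v ∪ star u)) ∩ star u := by
          ext e
          simp only [Finset.mem_inter, Finset.mem_union]
          tauto
        rw [h6, h5]
        ext e
        rw [Finset.mem_inter, Finset.mem_union]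
        constructor
        · rintro ⟨h | h, h'⟩
          · exact absurd h' (Finset.disjoint_left.1 hSu h)
          · exact h
        · intro h
          exact ⟨Or.inr h, hT1 h⟩
  rw [Finset.sum_congr rfl (fun S hS => Finset.sum_congr rfl (fun T hT => h3 S hS T hT))]
  rw [Finset.sum_const, Finset.sum_const, card_fam j v hv, card_fam j u hu, nsmul_eq_mul,
    nsmul_eq_mul]
  ring

/-- Second moment bound: the probability that no vertex has degree exactly `j` in `G_t`. -/
theorem no_low_prob (j t : ℕ) (hjt : 2 * j ≤ t) (ht : t ≤ n.choose 2) (hn : 2 ≤ n) (μ : ℝ)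
    (hμ : μ = ((n / 2 : ℕ) : ℝ) * (((n - n / 2).choose j : ℝ) * pp (n.choose 2) t (n - 1) j))
    (hμ0 : 0 < μ) (ρ : ℝ)
    (hρ : pp (n.choose 2) t (2 * n - 3) (2 * j) ≤ (1 + ρ) * (pp (n.choose 2) t (n - 1) j) ^ 2) :
    prob (fun σ : Order n => MinDeg (j + 1) (shown σ t)) ≤ 1 / μ + ρ := by
  have hc := card_pos' (n := n)
  set X : Order n → ℝ := fun σ => ∑ v ∈ half n, xv j t v σ with hX
  have hEX : ex X = μ := by
    rw [hX, ex_sum, Finset.sum_congr rfl (fun v hv => ex_xv j t v hv (by omega) ht),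
      Finset.sum_const, card_half, nsmul_eq_mul, hμ]
  set c : ℝ := ((n - n / 2).choose j : ℝ) with hcdef
  set p1 : ℝ := pp (n.choose 2) t (n - 1) j with hp1
  set p2 : ℝ := pp (n.choose 2) t (2 * n - 3) (2 * j) with hp2
  have hX2 : ∀ σ : Order n, X σ ^ 2 = X σ + ∑ v ∈ half n, ∑ u ∈ (half n).erase v,
      xv j t v σ * xv j t u σ := by
    intro σ
    have h1 : X σ ^ 2 = ∑ v ∈ half n, ∑ u ∈ half n, xv j t v σ * xv j t u σ := by
      rw [hX, sq, Finset.sum_mul_sum]
    rw [h1, hX, ← Finset.sum_add_distrib]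
    refine Finset.sum_congr rfl (fun v hv => ?_)
    rw [← Finset.add_sum_erase _ _ hv]
    congr 1
    unfold xv
    split_ifs <;> norm_num
  have hEX2 : ex (fun σ => X σ ^ 2) ≤ μ + (1 + ρ) * μ ^ 2 := by
    have h1 : (fun σ : Order n => X σ ^ 2) = fun σ => X σ + ∑ v ∈ half n,
        ∑ u ∈ (half n).erase v, xv j t v σ * xv j t u σ := funext hX2
    rw [h1, ex_add, hEX, ex_sum]
    have h2 : ∀ v ∈ half n, ex (fun σ : Order n => ∑ u ∈ (half n).erase v,
        xv j t v σ * xv j t u σ) = (((n / 2 : ℕ) : ℝ) - 1) * (c ^ 2 * p2) := by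
      intro v hv
      rw [ex_sum, Finset.sum_congr rfl (fun u hu => ex_xv_xv j t v u hv
        (Finset.mem_of_mem_erase hu) (Finset.ne_of_mem_erase hu) hjt ht hn), Finset.sum_const,
        Finset.card_erase_of_mem hv, card_half, nsmul_eq_mul]
      have h1 : 0 < (half n).card := Finset.card_pos.2 ⟨v, hv⟩
      rw [card_half] at h1
      rw [Nat.cast_sub h1, Nat.cast_one]
    rw [Finset.sum_congr rfl h2, Finset.sum_const, card_half, nsmul_eq_mul]
    have h3 : (((n / 2 : ℕ) : ℝ)) * ((((n / 2 : ℕ) : ℝ) - 1) * (c ^ 2 * p2))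
        ≤ ((n / 2 : ℕ) : ℝ) ^ 2 * (c ^ 2 * ((1 + ρ) * p1 ^ 2)) := by
      have h4 : (0 : ℝ) ≤ ((n / 2 : ℕ) : ℝ) := Nat.cast_nonneg _
      have h5 : 0 ≤ p2 := pp_nonneg _ _ _ _
      have h6 : c ^ 2 * p2 ≤ c ^ 2 * ((1 + ρ) * p1 ^ 2) :=
        mul_le_mul_of_nonneg_left hρ (sq_nonneg c)
      have h7 : 0 ≤ c ^ 2 * p2 := by positivity
      calc (((n / 2 : ℕ) : ℝ)) * ((((n / 2 : ℕ) : ℝ) - 1) * (c ^ 2 * p2))
          ≤ ((n / 2 : ℕ) : ℝ) * (((n / 2 : ℕ) : ℝ) * (c ^ 2 * p2)) := by
            apply mul_le_mul_of_nonneg_left _ h4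
            apply mul_le_mul_of_nonneg_right _ h7
            linarith
        _ = ((n / 2 : ℕ) : ℝ) ^ 2 * (c ^ 2 * p2) := by ring
        _ ≤ _ := mul_le_mul_of_nonneg_left h6 (by positivity)
    have h4 : ((n / 2 : ℕ) : ℝ) ^ 2 * (c ^ 2 * ((1 + ρ) * p1 ^ 2)) = (1 + ρ) * μ ^ 2 := by
      rw [hμ]
      ring
    linarith
  have hcheb := chebyshev X (μ + ρ * μ ^ 2) μ hμ0 (by
    have h1 : (∑ σ : Order n, X σ) = μ * (Fintype.card (Order n) : ℝ) := by
      rw [← hEX]
      unfold ex
      field_simp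
    have h2 : (∑ σ : Order n, X σ ^ 2) ≤ (μ + (1 + ρ) * μ ^ 2)
        * (Fintype.card (Order n) : ℝ) := by
      unfold ex at hEX2
      rw [div_le_iff₀ hc] at hEX2
      exact hEX2
    rw [h1]
    nlinarith)
  refine le_trans (prob_mono' (fun σ hσ => ?_)) (hcheb.trans (le_of_eq ?_))
  · have h1 : X σ = 0 := by
      rw [hX]
      refine Finset.sum_eq_zero (fun v _ => ?_)
      unfold xv
      rw [if_neg]
      intro hmem
      obtain ⟨_, h2, _⟩ := fam_subset hmem
      have h3 := hσ v
      have h4 : deg (shown σ t) v = (shown σ t ∩ star v).card := by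
        unfold deg
        congr 1
        ext e
        simp [star]
      omega
    rw [h1, hEX, zero_sub, abs_neg, abs_of_pos hμ0]
  · field_simp

end Pool.Agent.Work.MP_59e60d_pr
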