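import Pool.Agent.Work.MP_59e60d_pr.TauWhp

/-!
# The strategy for success with high probability: deterministic analysis
-/

namespace Pool.Agent.Work.MP_59e60d_pr

open Finset Filter Topology

variable {n : ℕ}

/-- The edges that Builder wants. Phase 1 (more than `a` isolated vertices): edges with an isolated
endpoint. Phase 2 (more than `u` vertices of degree less than `k`): edges with an isolated endpoint
and edges both of whose endpoints have degree less than `k`. Phase 3: edges with an endpoint of
degree less than `k`. -/
def wants (n k a u : ℕ) : Edge n → Finset (Edge n) → Prop := fun e B =>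
  (a < (low 1 B).card ∧ ∃ v ∈ e.1, deg B v < 1) ∨
  ((low 1 B).card ≤ a ∧ u < (low k B).card ∧
    ((∃ v ∈ e.1, deg B v < 1) ∨ ∀ v ∈ e.1, deg B v < k)) ∨
  ((low 1 B).card ≤ a ∧ (low k B).card ≤ u ∧ ∃ v ∈ e.1, deg B v < k)

/-- Builder's rule: buy the wanted edges while the budget `b` is not exhausted. -/
def rule3 (n k a u b : ℕ) : Edge n → Finset (Edge n) → Prop := fun e B =>
  B.card < b ∧ wants n k a u e B

/-- The edges bought without budget constraint. -/
noncomputable def ub (k a u : ℕ) (σ : Order n) (s : ℕ) : Finset (Edge n) :=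
  bought (fun _ => wants n k a u) σ s

/-- The edges bought with budget `b`. -/
noncomputable def cb (k a u b : ℕ) (σ : Order n) (s : ℕ) : Finset (Edge n) :=
  bought (fun _ => rule3 n k a u b) σ s

variable {k a u b : ℕ} {σ : Order n}

theorem ub_zero : ub k a u σ 0 = ∅ := rfl

theorem ub_pos {s : ℕ} (h : s < n.choose 2) (hS : wants n k a u (σ ⟨s, h⟩) (ub k a u σ s)) :
    ub k a u σ (s + 1) = insert (σ ⟨s, h⟩) (ub k a u σ s) :=
  bought_succ_pos (fun _ => wants n k a u) σ s h hS

theorem ub_neg {s : ℕ} (h : s < n.choose 2) (hS : ¬ wants n k a u (σ ⟨s, h⟩) (ub k a u σ s)) :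
    ub k a u σ (s + 1) = ub k a u σ s :=
  bought_succ_neg (fun _ => wants n k a u) σ s h hS

theorem ub_ge {s : ℕ} (h : ¬ s < n.choose 2) : ub k a u σ (s + 1) = ub k a u σ s :=
  bought_succ_of_ge (fun _ => wants n k a u) σ s h

theorem notMem_ub {s : ℕ} (h : s < n.choose 2) : σ ⟨s, h⟩ ∉ ub k a u σ s :=
  notMem_bought (fun _ => wants n k a u) σ s h

theorem ub_meas (k a u s : ℕ) :
    Meas (win (n.choose 2) 0 s) (fun σ : Order n => ub k a u σ s) :=
  bought_meas (fun _ => wants n k a u) s

theorem ub_mono {s t : ℕ} (h : s ≤ t) : ub k a u σ s ⊆ ub k a u σ t := by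
  induction t with
  | zero =>
    have : s = 0 := by omega
    rw [this]
  | succ t ih =>
    by_cases hst : s = t + 1
    · rw [hst]
    · exact (ih (by omega)).trans (bought_mono_succ (fun _ => wants n k a u) σ t)

theorem cb_budget (s : ℕ) : (cb k a u b σ s).card ≤ b := by
  induction s with
  | zero => simp [cb, bought]
  | succ s ih =>
    by_cases h : s < n.choose 2
    · by_cases hS : rule3 n k a u b (σ ⟨s, h⟩) (cb k a u b σ s)
      · have h0 : cb k a u b σ (s + 1) = insert (σ ⟨s, h⟩) (cb k a u b σ s) :=
          bought_succ_pos (fun _ => rule3 n k a u b) σ s h hS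
        rw [h0]
        have h1 := Finset.card_insert_le (σ ⟨s, h⟩) (cb k a u b σ s)
        have h2 := hS.1
        omega
      · have h0 : cb k a u b σ (s + 1) = cb k a u b σ s :=
          bought_succ_neg (fun _ => rule3 n k a u b) σ s h hS
        rw [h0]
        exact ih
    · have h0 : cb k a u b σ (s + 1) = cb k a u b σ s :=
        bought_succ_of_ge (fun _ => rule3 n k a u b) σ s h
      rw [h0]
      exact ih

/-! ### Elementary facts -/

theorem low_anti (j : ℕ) {B C : Finset (Edge n)} (h : B ⊆ C) : low j C ⊆ low j B := by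
  intro v hv
  unfold low at hv ⊢
  rw [Finset.mem_filter] at hv ⊢
  exact ⟨hv.1, lt_of_le_of_lt (deg_mono h v) hv.2⟩

theorem card_low_anti (j : ℕ) {B C : Finset (Edge n)} (h : B ⊆ C) :
    (low j C).card ≤ (low j B).card := Finset.card_le_card (low_anti j h)

theorem WW_insert_all {B : Finset (Edge n)} {e : Edge n} (he : e ∉ B)
    (h : ∀ v ∈ e.1, deg B v < k) : WW k (insert e B) ≤ WW k B := by
  unfold WW
  refine Finset.sum_le_sum (fun v _ => ?_)
  rw [deg_insert he]
  split_ifs with hv
  · have := h v hv
    omega
  · omega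

theorem WW_insert_one {B : Finset (Edge n)} {e : Edge n} (he : e ∉ B)
    (h : ∃ v ∈ e.1, deg B v < k) : WW k (insert e B) ≤ WW k B + 1 := by
  obtain ⟨v0, hv0, hk0⟩ := h
  unfold WW
  rw [← Finset.add_sum_erase univ (fun v => max k (deg (insert e B) v)) (Finset.mem_univ v0),
    ← Finset.add_sum_erase univ (fun v => max k (deg B v)) (Finset.mem_univ v0)]
  have h1 : max k (deg (insert e B) v0) = max k (deg B v0) := by
    rw [deg_insert he, if_pos hv0]
    omega
  rw [h1]
  have h2 : ∑ v ∈ univ.erase v0, max k (deg (insert e B) v)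
      ≤ ∑ v ∈ univ.erase v0, (max k (deg B v) + if v ∈ e.1 then 1 else 0) := by
    refine Finset.sum_le_sum (fun v _ => ?_)
    rw [deg_insert he]
    split_ifs <;> omega
  rw [Finset.sum_add_distrib] at h2
  have h3 : ∑ v ∈ univ.erase v0, (if v ∈ e.1 then 1 else 0) = 1 := by
    have h4 : ∑ v : Fin n, (if v ∈ e.1 then 1 else 0) = 2 := by
      rw [← Finset.card_filter]
      exact card_endpoints e
    rw [← Finset.add_sum_erase _ _ (Finset.mem_univ v0), if_pos hv0] at h4
    omega
  rw [h3] at h2
  omega

theorem low_insert {B : Finset (Edge n)} {e : Edge n} (he : e ∉ B)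
    (h : ∃ v ∈ e.1, deg B v < 1) : (low 1 (insert e B)).card + 1 ≤ (low 1 B).card := by
  obtain ⟨v, hv, h1⟩ := h
  have h2 : low 1 (insert e B) ⊆ (low 1 B).erase v := by
    intro w hw
    rw [Finset.mem_erase]
    refine ⟨?_, low_anti 1 (Finset.subset_insert e B) hw⟩
    intro hwv
    subst hwv
    unfold low at hw
    rw [Finset.mem_filter, deg_insert he, if_pos hv] at hw
    omega
  have h3 := Finset.card_le_card h2
  have h4 : v ∈ low 1 B := by
    unfold low
    rw [Finset.mem_filter]
    exact ⟨Finset.mem_univ _, h1⟩
  rw [Finset.card_erase_of_mem h4] at h3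
  have : 0 < (low 1 B).card := Finset.card_pos.2 ⟨v, h4⟩
  omega

theorem shown_succ (s : ℕ) (h : s < n.choose 2) :
    shown σ (s + 1) = insert (σ ⟨s, h⟩) (shown σ s) := by
  ext e
  rw [Finset.mem_insert, mem_shown, mem_shown]
  constructor
  · intro h1
    by_cases h2 : (σ.symm e).val < s
    · exact Or.inr h2
    · left
      have h3 : σ.symm e = ⟨s, h⟩ := Fin.ext (by simp only; omega)
      rw [← h3, Equiv.apply_symm_apply]
  · rintro (h1 | h1)
    · rw [h1, Equiv.symm_apply_apply]
      simp
    · omega

theorem shown_ge (s : ℕ) (h : ¬ s < n.choose 2) : shown σ (s + 1) = shown σ s := by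
  ext e
  rw [mem_shown, mem_shown]
  have := (σ.symm e).isLt
  omega

theorem notMem_shown (s : ℕ) (h : s < n.choose 2) : σ ⟨s, h⟩ ∉ shown σ s := by
  rw [mem_shown]
  simp

theorem iso_eq_low (s : ℕ) : iso σ s = low 1 (shown σ s) := by
  unfold iso low
  exact Finset.filter_congr (fun v _ => (Nat.lt_one_iff).symm)

/-- The same vertices are isolated in `G_s` and in Builder's graph. -/
theorem ub_low_one (hk : 1 ≤ k) (s : ℕ) (v : Fin n) :
    deg (ub k a u σ s) v < 1 ↔ deg (shown σ s) v < 1 := by
  induction s with
  | zero => simp [ub_zero, deg, shown]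
  | succ s ih =>
    by_cases h : s < n.choose 2
    · by_cases hS : wants n k a u (σ ⟨s, h⟩) (ub k a u σ s)
      · rw [ub_pos h hS, shown_succ s h, deg_insert (notMem_ub h), deg_insert (notMem_shown s h)]
        split_ifs with hv
        · omega
        · simpa using ih
      · rw [ub_neg h hS, shown_succ s h, deg_insert (notMem_shown s h)]
        split_ifs with hv
        · constructor
          · intro h1
            exfalso
            apply hS
            unfold wants
            by_cases c1 : a < (low 1 (ub k a u σ s)).card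
            · exact Or.inl ⟨c1, v, hv, h1⟩
            · by_cases c2 : u < (low k (ub k a u σ s)).card
              · exact Or.inr (Or.inl ⟨by omega, c2, Or.inl ⟨v, hv, h1⟩⟩)
              · exact Or.inr (Or.inr ⟨by omega, by omega, v, hv, by omega⟩)
          · intro h1
            omega
        · simpa using ih
    · rw [ub_ge h, shown_ge s h]
      exact ih

theorem ub_low_eq (hk : 1 ≤ k) (s : ℕ) : low 1 (ub k a u σ s) = low 1 (shown σ s) := by
  unfold low
  ext v
  simp only [Finset.mem_filter, Finset.mem_univ, true_and]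
  exact ub_low_one hk s v

theorem shown_mono {s t : ℕ} (h : s ≤ t) : shown σ s ⊆ shown σ t := by
  intro e he
  rw [mem_shown] at he ⊢
  omega

theorem before_eq_iff (s : ℕ) (h : s < n.choose 2) (v : Fin n) :
    before σ (star v) (σ ⟨s, h⟩) = ∅ ↔ deg (shown σ s) v < 1 := by
  rw [Nat.lt_one_iff]
  unfold deg
  rw [Finset.card_eq_zero, before]
  have : (star v).filter (fun y => σ.symm y < σ.symm (σ ⟨s, h⟩))
      = (shown σ s).filter (fun e => v ∈ e.1) := by
    ext e
    simp only [star, Finset.mem_filter, Finset.mem_univ, true_and, mem_shown,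
      Equiv.symm_apply_apply, Fin.lt_def]
    tauto
  rw [this]

/-- In phase 1 Builder's graph is the truncated nearest neighbour graph. -/
theorem ub_phase1 (hk : 1 ≤ k) (s : ℕ) (hs : ∀ r < s, a < (low 1 (shown σ r)).card) :
    ub k a u σ s = Of s σ := by
  induction s with
  | zero =>
    rw [ub_zero]
    ext e
    rw [mem_Of, mem_shown]
    simp
  | succ s ih =>
    have ih' := ih (fun r hr => hs r (by omega))
    have hph := hs s (by omega)
    by_cases h : s < n.choose 2
    · have hlow : low 1 (ub k a u σ s) = low 1 (shown σ s) := ub_low_eq hk s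
      have hwant : wants n k a u (σ ⟨s, h⟩) (ub k a u σ s) ↔
          ∃ v ∈ (σ ⟨s, h⟩).1, deg (shown σ s) v < 1 := by
        unfold wants
        rw [hlow]
        constructor
        · rintro (⟨_, v, hv, h1⟩ | ⟨h1, _⟩ | ⟨h1, _⟩)
          · exact ⟨v, hv, (ub_low_one hk s v).1 h1⟩
          · omega
          · omega
        · rintro ⟨v, hv, h1⟩
          exact Or.inl ⟨hph, v, hv, (ub_low_one hk s v).2 h1⟩
      by_cases hS : wants n k a u (σ ⟨s, h⟩) (ub k a u σ s)
      · rw [ub_pos h hS, ih']
        obtain ⟨v, hv, h1⟩ := hwant.1 hS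
        ext e
        rw [Finset.mem_insert, mem_Of, mem_Of, shown_succ s h, Finset.mem_insert]
        constructor
        · rintro (he | ⟨h2, h3⟩)
          · refine ⟨Or.inl he, v, he ▸ hv, ?_⟩
            rw [he, before_eq_iff s h v]
            exact h1
          · exact ⟨Or.inr h2, h3⟩
        · rintro ⟨he | h2, h3⟩
          · exact Or.inl he
          · exact Or.inr ⟨h2, h3⟩
      · rw [ub_neg h hS, ih']
        ext e
        rw [mem_Of, mem_Of, shown_succ s h, Finset.mem_insert]
        constructor
        · rintro ⟨h2, h3⟩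
          exact ⟨Or.inr h2, h3⟩
        · rintro ⟨he | h2, w, hw, h3⟩
          · exfalso
            apply hS
            rw [hwant]
            rw [he, before_eq_iff s h w] at h3
            exact ⟨w, he ▸ hw, h3⟩
          · exact ⟨h2, w, hw, h3⟩
    · rw [ub_ge h, ih']
      ext e
      rw [mem_Of, mem_Of, shown_ge s h]

/-- The invariants of the three phases. -/
theorem potential (hk : 1 ≤ k) (s : ℕ) :
    ((low 1 (ub k a u σ s)).card ≤ a → u < (low k (ub k a u σ s)).card →
      WW k (ub k a u σ s) + (low 1 (ub k a u σ s)).card ≤ WW k (nearest 1 σ) + a) ∧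
    ((low 1 (ub k a u σ s)).card ≤ a → (low k (ub k a u σ s)).card ≤ u →
      WW k (ub k a u σ s) + gap k (ub k a u σ s) ≤ WW k (nearest 1 σ) + a + k * u) := by
  induction s with
  | zero =>
    have h1 : WW k (ub k a u σ 0) ≤ WW k (nearest 1 σ) := by
      rw [ub_zero]
      exact WW_mono k (Finset.empty_subset _)
    refine ⟨fun h2 _ => by omega, fun _ h3 => ?_⟩
    have h4 := gap_le k (ub k a u σ 0)
    have h5 := Nat.mul_le_mul_left k h3
    omega
  | succ s ih =>
    by_cases hph1 : a < (low 1 (shown σ s)).card
    · -- phase 1 at time `s`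
      have hall : ∀ r < s + 1, a < (low 1 (shown σ r)).card := fun r hr =>
        lt_of_lt_of_le hph1 (card_low_anti 1 (shown_mono (by omega)))
      have h1 := ub_phase1 (k := k) (u := u) hk (s + 1) hall
      have h2 : WW k (ub k a u σ (s + 1)) ≤ WW k (nearest 1 σ) := by
        rw [h1]
        exact WW_mono k (Of_subset_nearest _ σ)
      refine ⟨fun h3 _ => by omega, fun _ h3 => ?_⟩
      have h4 := gap_le k (ub k a u σ (s + 1))
      have h5 := Nat.mul_le_mul_left k h3
      omega
    · have hlow1 : (low 1 (ub k a u σ s)).card ≤ a := by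
        rw [ub_low_eq hk s]
        omega
      by_cases h : s < n.choose 2
      · by_cases hS : wants n k a u (σ ⟨s, h⟩) (ub k a u σ s)
        · have hins := ub_pos h hS
          have hnot := notMem_ub (k := k) (a := a) (u := u) (σ := σ) h
          have hsub : ub k a u σ s ⊆ ub k a u σ (s + 1) := ub_mono (Nat.le_succ s)
          by_cases hph2 : u < (low k (ub k a u σ s)).card
          · -- phase 2
            have ih1 := ih.1 hlow1 hph2
            have hnew : WW k (ub k a u σ (s + 1)) + (low 1 (ub k a u σ (s + 1))).card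
                ≤ WW k (nearest 1 σ) + a := by
              rcases hS with h1 | h1 | h1
              · omega
              · rcases h1.2.2 with h2 | h2
                · have h3 := low_insert hnot h2
                  have h4 : WW k (insert (σ ⟨s, h⟩) (ub k a u σ s)) ≤ WW k (ub k a u σ s) + 1 := by
                    apply WW_insert_one hnot
                    obtain ⟨v, hv, h5⟩ := h2
                    exact ⟨v, hv, by omega⟩
                  rw [hins]
                  omega
                · have h3 := WW_insert_all hnot h2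
                  have h4 := card_low_anti 1 hsub
                  rw [hins] at h4 ⊢
                  omega
              · omega
            refine ⟨fun _ _ => hnew, fun _ h3 => ?_⟩
            have h4 := gap_le k (ub k a u σ (s + 1))
            have h5 := Nat.mul_le_mul_left k h3
            omega
          · -- phase 3
            have ih2 := ih.2 hlow1 (by omega)
            have h0 : (low k (ub k a u σ (s + 1))).card ≤ u :=
              (card_low_anti k hsub).trans (by omega)
            refine ⟨fun _ h3 => absurd h3 (by omega), fun _ _ => ?_⟩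
            have hex : ∃ v ∈ (σ ⟨s, h⟩).1, deg (ub k a u σ s) v < k := by
              rcases hS with h1 | h1 | h1
              · omega
              · omega
              · exact h1.2.2
            have h3 := WW_insert_one hnot hex
            have h4 := gap_insert k hnot hex
            rw [hins]
            omega
        · rw [ub_neg h hS]
          exact ih
      · rw [ub_ge h]
        exact ih

theorem card_le_WW (B : Finset (Edge n)) : 2 * B.card ≤ WW k B := by
  rw [← sum_deg]
  unfold WW
  exact Finset.sum_le_sum (fun v _ => le_max_right _ _)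

/-- The total number of edges wanted. -/
theorem ub_card (hk : 1 ≤ k) (s : ℕ) :
    2 * (ub k a u σ s).card ≤ WW k (nearest 1 σ) + a + k * u := by
  have h1 := card_le_WW (k := k) (ub k a u σ s)
  by_cases hph1 : a < (low 1 (shown σ s)).card
  · have hall : ∀ r < s, a < (low 1 (shown σ r)).card := fun r hr =>
      lt_of_lt_of_le hph1 (card_low_anti 1 (shown_mono (by omega)))
    have h2 := ub_phase1 (k := k) (u := u) hk s hall
    have h3 : WW k (ub k a u σ s) ≤ WW k (nearest 1 σ) := by
      rw [h2]
      exact WW_mono k (Of_subset_nearest _ σ)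
    omega
  · have hlow1 : (low 1 (ub k a u σ s)).card ≤ a := by
      rw [ub_low_eq hk s]
      omega
    have h4 := potential (a := a) (u := u) (σ := σ) hk s
    by_cases hph2 : u < (low k (ub k a u σ s)).card
    · have := h4.1 hlow1 hph2
      omega
    · have := h4.2 hlow1 (by omega)
      omega

/-- With a sufficient budget the constraint does not matter. -/
theorem cb_eq_ub (hk : 1 ≤ k) (hb : WW k (nearest 1 σ) + a + k * u ≤ 2 * b) (s : ℕ) :
    cb k a u b σ s = ub k a u σ s := by
  induction s with
  | zero => rfl
  | succ s ih =>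
    by_cases h : s < n.choose 2
    · by_cases hS : wants n k a u (σ ⟨s, h⟩) (ub k a u σ s)
      · have h1 := ub_card (a := a) (u := u) (σ := σ) hk (s + 1)
        rw [ub_pos h hS, Finset.card_insert_of_notMem (notMem_ub h)] at h1
        have h2 : rule3 n k a u b (σ ⟨s, h⟩) (cb k a u b σ s) := by
          rw [ih]
          exact ⟨by omega, hS⟩
        have h3 : cb k a u b σ (s + 1) = insert (σ ⟨s, h⟩) (cb k a u b σ s) :=
          bought_succ_pos (fun _ => rule3 n k a u b) σ s h h2
        rw [h3, ub_pos h hS, ih]
      · have h2 : ¬ rule3 n k a u b (σ ⟨s, h⟩) (cb k a u b σ s) := by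
          rw [ih]
          exact fun h' => hS h'.2
        have h3 : cb k a u b σ (s + 1) = cb k a u b σ s :=
          bought_succ_neg (fun _ => rule3 n k a u b) σ s h h2
        rw [h3, ub_neg h hS, ih]
    · have h3 : cb k a u b σ (s + 1) = cb k a u b σ s :=
        bought_succ_of_ge (fun _ => rule3 n k a u b) σ s h
      rw [h3, ub_ge h, ih]

/-- In phase 3 every edge at an unsaturated vertex is bought. -/
theorem phase3_deg (hk : 1 ≤ k) (m : ℕ) (h1 : (low 1 (shown σ m)).card ≤ a)
    (h2 : (low k (ub k a u σ m)).card ≤ u) (i : ℕ) (v : Fin n) :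
    min k (deg (ub k a u σ m) v + deg (slice σ m i) v) ≤ deg (ub k a u σ (m + i)) v := by
  induction i with
  | zero =>
    have : slice σ m 0 = ∅ := by
      ext e
      simp only [slice, Finset.mem_filter, Finset.mem_univ, true_and, Finset.notMem_empty,
        iff_false]
      omega
    rw [this]
    simp [deg]
  | succ i ih =>
    have hp1 : (low 1 (ub k a u σ (m + i))).card ≤ a := by
      rw [ub_low_eq hk]
      exact (card_low_anti 1 (shown_mono (Nat.le_add_right m i))).trans h1
    have hp2 : (low k (ub k a u σ (m + i))).card ≤ u :=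
      (card_low_anti k (ub_mono (Nat.le_add_right m i))).trans h2
    by_cases h : m + i < n.choose 2
    · rw [slice_succ σ m i h, deg_insert (notMem_slice σ m i h), ← Nat.add_assoc m i 1]
      by_cases hS : wants n k a u (σ ⟨m + i, h⟩) (ub k a u σ (m + i))
      · rw [ub_pos h hS, deg_insert (notMem_ub h)]
        split_ifs <;> omega
      · rw [ub_neg h hS]
        by_cases hv : v ∈ (σ ⟨m + i, h⟩).1
        · by_cases hkd : deg (ub k a u σ (m + i)) v < k
          · exfalso
            apply hS
            exact Or.inr (Or.inr ⟨hp1, hp2, v, hv, hkd⟩)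
          · rw [if_pos hv]
            omega
        · rw [if_neg hv]
          simpa using ih
    · have h3 : slice σ m (i + 1) = slice σ m i := by
        ext e
        simp only [slice, Finset.mem_filter, Finset.mem_univ, true_and]
        have := (σ.symm e).isLt
        omega
      rw [h3, ← Nat.add_assoc m i 1, ub_ge h]
      exact ih

theorem minDeg_tau (hn : k + 1 ≤ n) (σ : Order n) : MinDeg k (shown σ (tau k σ)) := by
  apply Nat.sInf_mem (s := {t : ℕ | MinDeg k (shown σ t)})
  refine ⟨n.choose 2, ?_⟩
  intro v
  have h1 : shown σ (n.choose 2) = univ := by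
    ext e
    rw [mem_shown]
    simp
  have h2 : deg (shown σ (n.choose 2)) v = (star v).card := by
    unfold deg star
    rw [h1]
  rw [h2, card_star]
  omega

theorem tau_gt {t : ℕ} (hn : k + 1 ≤ n) (h : ¬ MinDeg k (shown σ t)) : t < tau k σ := by
  by_contra hle
  push Not at hle
  apply h
  intro v
  exact (minDeg_tau hn σ v).trans (deg_mono (shown_mono hle) v)

theorem deg_shown_le (m i : ℕ) (v : Fin n) :
    deg (shown σ (m + i)) v ≤ deg (shown σ m) v + deg (slice σ m i) v := by
  have h := deg_le_add (shown σ (m + i)) (shown σ m) v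
  have h1 : shown σ (m + i) \ shown σ m ⊆ slice σ m i := by
    intro e he
    rw [Finset.mem_sdiff, mem_shown, mem_shown] at he
    simp only [slice, Finset.mem_filter, Finset.mem_univ, true_and]
    omega
  have h2 := deg_mono h1 v
  omega

/-- Deterministic criterion for success. -/
theorem success3 (hk : 1 ≤ k) (hn : k + 1 ≤ n) (m t : ℕ) (hmt : m ≤ t)
    (h1 : (low 1 (shown σ m)).card ≤ a) (h2 : (low k (ub k a u σ m)).card ≤ u)
    (h3 : ∀ v, k ≤ deg (slice σ m (t - m)) v + 1) (h4 : ¬ MinDeg k (shown σ t)) :
    MinDeg k (ub k a u σ (tau k σ)) := by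
  have h5 := tau_gt hn h4
  obtain ⟨i, hi⟩ : ∃ i, tau k σ = m + i := ⟨tau k σ - m, by omega⟩
  intro v
  have h6 := phase3_deg hk m h1 h2 i v
  have h7 := minDeg_tau hn σ v
  rw [hi] at h7 ⊢
  have h8 := deg_shown_le (σ := σ) m i v
  have h9 : deg (slice σ m (t - m)) v ≤ deg (slice σ m i) v :=
    deg_mono (slice_mono σ m (by omega)) v
  have h10 := h3 v
  have h11 := ub_low_one (a := a) (u := u) (σ := σ) hk m v
  by_cases h12 : deg (shown σ m) v < 1
  · omega
  · have h13 : ¬ deg (ub k a u σ m) v < 1 := fun h => h12 (h11.1 h)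
    omega

end Pool.Agent.Work.MP_59e60d_pr
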