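import Pool.Agent.Work.MP_59e60d_pr.Count

/-!
# A variance bound for functions of a random order

If `f` only depends on the first `m` values of the order and changes by at most `L` when two values
are exchanged, then its variance is at most `m L²`.
-/

namespace Pool.Agent.Work.MP_59e60d_pr

open Finset

section Variance

set_option linter.unusedSectionVars false

variable {N : ℕ} {α : Type*} [Fintype α] [DecidableEq α]

/-- `f` changes by at most `L` when two values of the order are exchanged. -/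
def Lip (L : ℝ) (f : (Fin N ≃ α) → ℝ) : Prop :=
  ∀ (σ : Fin N ≃ α) (a b : α), |f (σ.trans (Equiv.swap a b)) - f σ| ≤ L

/-- The positions `m, m + 1, ...`. -/
def tail (N m : ℕ) : Finset (Fin N) := univ.filter (fun j : Fin N => m ≤ (j : ℕ))

theorem mem_tail {m : ℕ} {j : Fin N} : j ∈ tail N m ↔ m ≤ (j : ℕ) := by simp [tail]

theorem card_tail {m : ℕ} (hm : m ≤ N) : ((tail N m).card : ℝ) = (N : ℝ) - m := by
  have h : (tail N m).card = N - m := by
    have h1 : (tail N m).card + (univ.filter (fun j : Fin N => ¬ m ≤ (j : ℕ))).card = N := by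
      have := Finset.card_filter_add_card_filter_not (s := (univ : Finset (Fin N)))
        (fun j : Fin N => m ≤ (j : ℕ))
      simpa [tail] using this
    have h2 : (univ.filter (fun j : Fin N => ¬ m ≤ (j : ℕ))).card = m := by
      have h3 : (univ.filter (fun j : Fin N => ¬ m ≤ (j : ℕ)))
          = (univ.filter (fun j : Fin N => (j : ℕ) < m)) := by
        ext j
        simp
      rw [h3, Fin.card_filter_val_lt]
      exact min_eq_right hm
    omega
  rw [h, Nat.cast_sub hm]

/-- The average of `f` over the value at position `m`, given the values before `m`. -/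
noncomputable def avg (m : ℕ) (hm : m < N) (f : (Fin N ≃ α) → ℝ) (σ : Fin N ≃ α) : ℝ :=
  (∑ j ∈ tail N m, f ((Equiv.swap ⟨m, hm⟩ j).trans σ)) / ((N : ℝ) - m)

theorem avg_meas {m : ℕ} (hm : m < N) {f : (Fin N ≃ α) → ℝ} (hf : Meas (win N 0 (m + 1)) f) :
    Meas (win N 0 m) (avg m hm f) := by
  intro σ σ' h
  have hlt : ∀ p : Fin N, (p : ℕ) < m → σ p = σ' p := fun p hp => h p (by rw [mem_win]; omega)
  unfold avg
  congr 1
  refine Finset.sum_bij' (fun j _ => σ'.symm (σ j)) (fun j _ => σ.symm (σ' j)) ?_ ?_ ?_ ?_ ?_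
  · intro j hj
    rw [mem_tail] at hj ⊢
    by_contra hlt'
    push Not at hlt'
    have h1 := hlt _ hlt'
    rw [Equiv.apply_symm_apply] at h1
    have h2 := σ.injective h1
    rw [h2] at hlt'
    omega
  · intro j hj
    rw [mem_tail] at hj ⊢
    by_contra hlt'
    push Not at hlt'
    have h1 := hlt _ hlt'
    rw [Equiv.apply_symm_apply] at h1
    have h2 := σ'.injective h1
    rw [← h2] at hlt'
    omega
  · intro j _
    simp
  · intro j _
    simp
  · intro j hj
    rw [mem_tail] at hj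
    apply hf
    intro p hp
    rw [mem_win] at hp
    have hj' : m ≤ ((σ'.symm (σ j) : Fin N) : ℕ) := by
      by_contra hlt'
      push Not at hlt'
      have h1 := hlt _ hlt'
      rw [Equiv.apply_symm_apply] at h1
      have h2 := σ.injective h1
      rw [h2] at hlt'
      omega
    by_cases hpm : (p : ℕ) = m
    · have hp' : p = ⟨m, hm⟩ := Fin.ext hpm
      subst hp'
      simp
    · have h1 : p ≠ ⟨m, hm⟩ := fun h' => hpm (by rw [h'])
      have h2 : p ≠ j := fun h' => by
        rw [h'] at hp hpm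
        omega
      have h3 : p ≠ σ'.symm (σ j) := fun h' => by
        rw [← h'] at hj'
        omega
      simp only [Equiv.trans_apply]
      rw [Equiv.swap_apply_of_ne_of_ne h1 h2, Equiv.swap_apply_of_ne_of_ne h1 h3]
      exact hlt p (by omega)

theorem sum_avg_mul {m : ℕ} (hm : m < N) (f g : (Fin N ≃ α) → ℝ) (hg : Meas (win N 0 m) g) :
    ∑ σ : Fin N ≃ α, avg m hm f σ * g σ = ∑ σ : Fin N ≃ α, f σ * g σ := by
  have hN : (0 : ℝ) < (N : ℝ) - m := by
    have : (m : ℝ) < N := by exact_mod_cast hm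
    linarith
  have h1 : ∀ j ∈ tail N m, ∑ σ : Fin N ≃ α, f ((Equiv.swap ⟨m, hm⟩ j).trans σ) * g σ
      = ∑ σ : Fin N ≃ α, f σ * g σ := by
    intro j hj
    rw [mem_tail] at hj
    refine Finset.sum_bij' (fun σ _ => (Equiv.swap ⟨m, hm⟩ j).trans σ)
      (fun σ _ => (Equiv.swap ⟨m, hm⟩ j).trans σ) (by simp) (by simp) ?_ ?_ ?_
    · intro σ _
      ext x
      simp
    · intro σ _
      ext x
      simp
    · intro σ _
      congr 1
      apply hg
      intro p hp
      rw [mem_win] at hp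
      have h1 : p ≠ ⟨m, hm⟩ := fun h' => by
        have : (p : ℕ) = m := by rw [h']
        omega
      have h2 : p ≠ j := fun h' => by
        rw [h'] at hp
        omega
      simp only [Equiv.trans_apply]
      rw [Equiv.swap_apply_of_ne_of_ne h1 h2]
  calc ∑ σ : Fin N ≃ α, avg m hm f σ * g σ
      = ∑ σ : Fin N ≃ α, (∑ j ∈ tail N m, f ((Equiv.swap ⟨m, hm⟩ j).trans σ) * g σ)
          / ((N : ℝ) - m) := by
        refine Finset.sum_congr rfl (fun σ _ => ?_)
        unfold avg
        rw [div_mul_eq_mul_div, Finset.sum_mul]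
    _ = (∑ j ∈ tail N m, ∑ σ : Fin N ≃ α, f ((Equiv.swap ⟨m, hm⟩ j).trans σ) * g σ)
          / ((N : ℝ) - m) := by
        rw [← Finset.sum_div, Finset.sum_comm]
    _ = ∑ σ : Fin N ≃ α, f σ * g σ := by
        rw [Finset.sum_congr rfl h1, Finset.sum_const, nsmul_eq_mul, card_tail hm.le]
        field_simp

theorem avg_lip {m : ℕ} (hm : m < N) {f : (Fin N ≃ α) → ℝ} {L : ℝ} (hf : Lip L f) :
    Lip L (avg m hm f) := by
  intro σ a b
  have hN : (0 : ℝ) < (N : ℝ) - m := by
    have : (m : ℝ) < N := by exact_mod_cast hm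
    linarith
  unfold avg
  rw [← sub_div, ← Finset.sum_sub_distrib, abs_div, abs_of_pos hN, div_le_iff₀ hN]
  calc |∑ j ∈ tail N m, (f ((Equiv.swap ⟨m, hm⟩ j).trans (σ.trans (Equiv.swap a b)))
        - f ((Equiv.swap ⟨m, hm⟩ j).trans σ))|
      ≤ ∑ j ∈ tail N m, |f ((Equiv.swap ⟨m, hm⟩ j).trans (σ.trans (Equiv.swap a b)))
        - f ((Equiv.swap ⟨m, hm⟩ j).trans σ)| := Finset.abs_sum_le_sum_abs _ _
    _ ≤ ∑ _j ∈ tail N m, L := by
        refine Finset.sum_le_sum (fun j _ => ?_)
        rw [← Equiv.trans_assoc]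
        exact hf _ a b
    _ = L * ((N : ℝ) - m) := by
        rw [Finset.sum_const, nsmul_eq_mul, card_tail hm.le, mul_comm]

theorem abs_sub_avg {m : ℕ} (hm : m < N) {f : (Fin N ≃ α) → ℝ} {L : ℝ} (hf : Lip L f)
    (σ : Fin N ≃ α) : |f σ - avg m hm f σ| ≤ L := by
  have hN : (0 : ℝ) < (N : ℝ) - m := by
    have : (m : ℝ) < N := by exact_mod_cast hm
    linarith
  have h1 : f σ = (∑ _j ∈ tail N m, f σ) / ((N : ℝ) - m) := by
    rw [Finset.sum_const, nsmul_eq_mul, card_tail hm.le]
    field_simp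
  rw [h1]
  unfold avg
  rw [← sub_div, ← Finset.sum_sub_distrib, abs_div, abs_of_pos hN, div_le_iff₀ hN]
  calc |∑ j ∈ tail N m, (f σ - f ((Equiv.swap ⟨m, hm⟩ j).trans σ))|
      ≤ ∑ j ∈ tail N m, |f σ - f ((Equiv.swap ⟨m, hm⟩ j).trans σ)| :=
        Finset.abs_sum_le_sum_abs _ _
    _ ≤ ∑ _j ∈ tail N m, L := by
        refine Finset.sum_le_sum (fun j _ => ?_)
        have h2 : (Equiv.swap (⟨m, hm⟩ : Fin N) j).trans σ
            = σ.trans (Equiv.swap (σ ⟨m, hm⟩) (σ j)) := by
          ext x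
          simp only [Equiv.trans_apply]
          rw [Equiv.swap_apply_def, Equiv.swap_apply_def]
          by_cases hx1 : x = ⟨m, hm⟩
          · subst hx1
            simp
          · by_cases hx2 : x = j
            · subst hx2
              simp [hx1]
            · simp [hx1, hx2]
        rw [h2, abs_sub_comm]
        exact hf σ _ _
    _ = L * ((N : ℝ) - m) := by
        rw [Finset.sum_const, nsmul_eq_mul, card_tail hm.le, mul_comm]

/-- **Variance bound.** -/
theorem variance_le (L : ℝ) (m : ℕ) : m ≤ N → ∀ f : (Fin N ≃ α) → ℝ,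
    Meas (win N 0 m) f → Lip L f →
    (Fintype.card (Fin N ≃ α) : ℝ) * ∑ σ : Fin N ≃ α, f σ ^ 2 - (∑ σ : Fin N ≃ α, f σ) ^ 2
      ≤ m * L ^ 2 * (Fintype.card (Fin N ≃ α) : ℝ) ^ 2 := by
  induction m with
  | zero =>
    intro _ f hf _
    have hconst : ∀ σ σ' : Fin N ≃ α, f σ = f σ' := fun σ σ' => hf σ σ' (by
      intro p hp
      rw [mem_win] at hp
      omega)
    by_cases hne : Nonempty (Fin N ≃ α)
    · obtain ⟨σ0⟩ := hne
      have h1 : ∀ σ : Fin N ≃ α, f σ = f σ0 := fun σ => hconst σ σ0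
      simp_rw [h1]
      rw [Finset.sum_const, Finset.sum_const, Finset.card_univ, nsmul_eq_mul, nsmul_eq_mul]
      apply le_of_eq
      push_cast
      ring
    · have : IsEmpty (Fin N ≃ α) := not_nonempty_iff.1 hne
      simp
  | succ m ih =>
    intro hm f hf hL
    have hm' : m < N := hm
    set g := avg m hm' f with hg
    have hgM := avg_meas hm' hf
    have hgL := avg_lip hm' hL
    have ih' := ih hm'.le g hgM hgL
    have e1 : ∑ σ : Fin N ≃ α, g σ = ∑ σ : Fin N ≃ α, f σ := by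
      have := sum_avg_mul hm' f (fun _ => 1) (Meas.const _ _)
      simpa using this
    have e2 : ∑ σ : Fin N ≃ α, g σ * g σ = ∑ σ : Fin N ≃ α, f σ * g σ :=
      sum_avg_mul hm' f g hgM
    have e3 : ∑ σ : Fin N ≃ α, (f σ - g σ) ^ 2 ≤ L ^ 2 * (Fintype.card (Fin N ≃ α) : ℝ) := by
      calc ∑ σ : Fin N ≃ α, (f σ - g σ) ^ 2 ≤ ∑ _σ : Fin N ≃ α, L ^ 2 := by
            refine Finset.sum_le_sum (fun σ _ => ?_)
            rw [← sq_abs]
            exact pow_le_pow_left₀ (abs_nonneg _) (abs_sub_avg hm' hL σ) 2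
        _ = L ^ 2 * (Fintype.card (Fin N ≃ α) : ℝ) := by
            rw [Finset.sum_const, Finset.card_univ, nsmul_eq_mul, mul_comm]
    have e4 : ∑ σ : Fin N ≃ α, (f σ - g σ) ^ 2
        = ∑ σ : Fin N ≃ α, f σ ^ 2 - ∑ σ : Fin N ≃ α, g σ ^ 2 := by
      have : ∀ σ : Fin N ≃ α, (f σ - g σ) ^ 2 = f σ ^ 2 - 2 * (f σ * g σ) + g σ * g σ := by
        intro σ
        ring
      simp_rw [this]
      rw [Finset.sum_add_distrib, Finset.sum_sub_distrib, ← Finset.mul_sum, ← e2]
      have : ∀ σ : Fin N ≃ α, g σ ^ 2 = g σ * g σ := fun σ => by ring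
      simp_rw [this]
      ring
    have hc : (0 : ℝ) ≤ (Fintype.card (Fin N ≃ α) : ℝ) := Nat.cast_nonneg _
    rw [← e1]
    have e5 : ∑ σ : Fin N ≃ α, f σ ^ 2
        ≤ ∑ σ : Fin N ≃ α, g σ ^ 2 + L ^ 2 * (Fintype.card (Fin N ≃ α) : ℝ) := by linarith
    have e6 := mul_le_mul_of_nonneg_left e5 hc
    push_cast
    nlinarith

end Variance

end Pool.Agent.Work.MP_59e60d_pr
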